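import Pool.Agent.MP_ca1109_lc.Ov.Defs

/-!
# Row ME: mixing and independence
-/

namespace Pool.Agent.MP_ca1109_lc.Ov

open Finset Pool.Agent.H66 Pool.Agent.MP_ca1109_lc.Mpg Pool.Agent.MP_ca1109_lc.Agp
  Pool.Agent.MP_ca1109_lc.Xp

section general

variable {A B : Type*} [Fintype A] [Fintype B]

theorem me_av_pair (f : A → B → ℂ) :
    av (fun p : A × B => f p.1 p.2) = av fun a => av fun b => f a b := by
  unfold av
  rw [Fintype.sum_prod_type, Fintype.card_prod, ← Finset.sum_div, Nat.cast_mul, div_div,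
    mul_comm (Fintype.card A : ℂ)]

theorem me_av_const [Nonempty A] (c : ℂ) : av (fun _ : A => c) = c := by
  have hc : (Fintype.card A : ℂ) ≠ 0 := by exact_mod_cast Fintype.card_ne_zero
  unfold av
  rw [Finset.sum_const, nsmul_eq_mul, Finset.card_univ, mul_comm, mul_div_assoc, div_self hc,
    mul_one]

theorem me_ofReal (f : A → ℝ) : av (fun a => ((f a : ℝ) : ℂ)) = ((avg f : ℝ) : ℂ) := by
  unfold av avg
  push_cast
  rfl

theorem me_mul_right (c : ℂ) (f : A → ℂ) : av (fun a => f a * c) = av f * c := by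
  unfold av
  rw [← Finset.sum_mul, div_mul_eq_mul_div]

theorem me_mul_left (c : ℂ) (f : A → ℂ) : av (fun a => c * f a) = c * av f := by
  unfold av
  rw [← Finset.mul_sum, mul_div_assoc]

/-- The square of the norm of an average is at most the average of the squares. -/
theorem me_jensen (f : A → ℂ) : ‖av f‖ ^ 2 ≤ avg fun a => ‖f a‖ ^ 2 := by
  rcases isEmpty_or_nonempty A with h | h
  · simp [av, avg]
  · have hc : (0 : ℝ) < (Fintype.card A : ℝ) := by exact_mod_cast Fintype.card_pos
    unfold av avg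
    rw [norm_div, Complex.norm_natCast, div_pow, div_le_div_iff₀ (by positivity) hc]
    have h1 : ‖∑ a, f a‖ ≤ ∑ a, ‖f a‖ := norm_sum_le _ _
    have h2 : (∑ a, ‖f a‖) ^ 2 ≤ (Fintype.card A : ℝ) * ∑ a, ‖f a‖ ^ 2 := by
      have := sq_sum_le_card_mul_sum_sq (s := (univ : Finset A)) (f := fun a => ‖f a‖)
      rwa [Finset.card_univ] at this
    have h3 : ‖∑ a, f a‖ ^ 2 ≤ (Fintype.card A : ℝ) * ∑ a, ‖f a‖ ^ 2 :=
      (pow_le_pow_left₀ (norm_nonneg _) h1 2).trans h2
    calc ‖∑ a, f a‖ ^ 2 * (Fintype.card A : ℝ)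
        ≤ ((Fintype.card A : ℝ) * ∑ a, ‖f a‖ ^ 2) * (Fintype.card A : ℝ) :=
          mul_le_mul_of_nonneg_right h3 hc.le
      _ = (∑ a, ‖f a‖ ^ 2) * (Fintype.card A : ℝ) ^ 2 := by ring

end general

section product

variable {E : Type} [Fintype E] [DecidableEq E] {Ω : E → Type}

theorem me_mix_mem {A : Finset E} {x y : ∀ e, Ω e} {e : E} (h : e ∈ A) : mix A x y e = y e :=
  if_pos h

theorem me_mix_not_mem {A : Finset E} {x y : ∀ e, Ω e} {e : E} (h : e ∉ A) : mix A x y e = x e :=
  if_neg h

theorem me_mix_swap (A : Finset E) (x y : ∀ e, Ω e) : mix A (mix A x y) (mix A y x) = x := by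
  funext e
  by_cases h : e ∈ A
  · rw [me_mix_mem h, me_mix_mem h]
  · rw [me_mix_not_mem h, me_mix_not_mem h]

theorem me_mix_sub {C R : Finset E} (h : C ⊆ R) (x y z : ∀ e, Ω e) :
    mix C (mix R x y) z = mix R x (mix C y z) := by
  funext e
  by_cases hC : e ∈ C
  · rw [me_mix_mem hC, me_mix_mem (h hC), me_mix_mem hC]
  · rw [me_mix_not_mem hC]
    by_cases hR : e ∈ R
    · rw [me_mix_mem hR, me_mix_mem hR, me_mix_not_mem hC]
    · rw [me_mix_not_mem hR, me_mix_not_mem hR]

/-- The swap of the coordinates in `A`. -/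
def meSw (A : Finset E) : ((∀ e, Ω e) × (∀ e, Ω e)) ≃ ((∀ e, Ω e) × (∀ e, Ω e)) where
  toFun p := (mix A p.1 p.2, mix A p.2 p.1)
  invFun p := (mix A p.1 p.2, mix A p.2 p.1)
  left_inv p := Prod.ext (me_mix_swap A p.1 p.2) (me_mix_swap A p.2 p.1)
  right_inv p := Prod.ext (me_mix_swap A p.1 p.2) (me_mix_swap A p.2 p.1)

variable [∀ e, Fintype (Ω e)]

/-- Swapping the coordinates in `A` preserves the distribution of a pair. -/
theorem av_swap (A : Finset E) (G : (∀ e, Ω e) → (∀ e, Ω e) → ℂ) :
    (av fun x => av fun y => G (mix A x y) (mix A y x)) = av fun x => av fun y => G x y := by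
  rw [← me_av_pair (fun x y => G (mix A x y) (mix A y x)), ← me_av_pair G]
  unfold av
  congr 1
  exact Equiv.sum_comp (meSw A) fun p => G p.1 p.2

theorem avg_swap (A : Finset E) (G : (∀ e, Ω e) → (∀ e, Ω e) → ℝ) :
    (avg fun x => avg fun y => G (mix A x y) (mix A y x)) = avg fun x => avg fun y => G x y := by
  rw [← avg_prod (fun x y => G (mix A x y) (mix A y x)), ← avg_prod G]
  unfold avg
  congr 1
  exact Equiv.sum_comp (meSw A) fun p => G p.1 p.2

variable [∀ e, Nonempty (Ω e)]

theorem av_mix (A : Finset E) (G : (∀ e, Ω e) → ℂ) :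
    (av fun x => av fun y => G (mix A x y)) = av G := by
  rw [av_swap A fun x _ => G x]
  congr 1
  funext x
  exact me_av_const _

theorem avg_mix (A : Finset E) (G : (∀ e, Ω e) → ℝ) :
    (avg fun x => avg fun y => G (mix A x y)) = avg G := by
  rw [avg_swap A fun x _ => G x]
  congr 1
  funext x
  exact avg_const _

/-- Two functions of disjoint sets of coordinates are independent. -/
theorem me_indep_two {S T : Finset E} (hd : Disjoint S T) {f g : (∀ e, Ω e) → ℂ} (hf : Dep S f)
    (hg : Dep T g) : (av fun x => f x * g x) = av f * av g := by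
  have h1 : (av fun x => av fun y => f x * g y) = av f * av g := by
    rw [← me_mul_right]
    congr 1
    funext x
    exact me_mul_left _ _
  rw [← h1, ← av_swap T fun x y => f x * g y]
  congr 1
  funext x
  have h2 : (fun y => f (mix T x y) * g (mix T y x)) = fun _ => f x * g x := by
    funext y
    rw [hf (mix T x y) x fun e he => me_mix_not_mem (disjoint_left.1 hd he),
      hg (mix T y x) x fun e he => me_mix_mem he]
  rw [h2]
  exact (me_av_const _).symm

theorem me_dep_mono {β : Type*} {S T : Finset E} (h : S ⊆ T) {f : (∀ e, Ω e) → β} (hf : Dep S f) :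
    Dep T f := fun x y hxy => hf x y fun e he => hxy e (h he)

/-- Functions of disjoint sets of coordinates are independent. -/
theorem av_indep {ι : Type} (s : Finset ι) (S : ι → Finset E)
    (hd : ∀ i ∈ s, ∀ j ∈ s, i ≠ j → Disjoint (S i) (S j)) (g : ι → (∀ e, Ω e) → ℂ)
    (hg : ∀ i ∈ s, Dep (S i) (g i)) : (av fun x => ∏ i ∈ s, g i x) = ∏ i ∈ s, av (g i) := by
  classical
  induction s using Finset.induction_on with
  | empty =>
    simp only [Finset.prod_empty]
    exact me_av_const 1
  | insert a s ha ih =>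
    simp only [Finset.prod_insert ha]
    have h1 : Dep (s.biUnion S) fun x => ∏ i ∈ s, g i x := by
      intro x y h
      refine Finset.prod_congr rfl fun i hi => hg i (Finset.mem_insert_of_mem hi) x y fun v hv => ?_
      exact h v (Finset.mem_biUnion.2 ⟨i, hi, hv⟩)
    have h2 : Disjoint (S a) (s.biUnion S) := by
      rw [Finset.disjoint_biUnion_right]
      intro i hi
      exact hd a (Finset.mem_insert_self _ _) i (Finset.mem_insert_of_mem hi)
        fun h => ha (h ▸ hi)
    rw [me_indep_two h2 (hg a (Finset.mem_insert_self _ _)) h1,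
      ih (fun i hi j hj => hd i (Finset.mem_insert_of_mem hi) j (Finset.mem_insert_of_mem hj))
        (fun i hi => hg i (Finset.mem_insert_of_mem hi))]

theorem avg_indep {ι : Type} (s : Finset ι) (S : ι → Finset E)
    (hd : ∀ i ∈ s, ∀ j ∈ s, i ≠ j → Disjoint (S i) (S j)) (g : ι → (∀ e, Ω e) → ℝ)
    (hg : ∀ i ∈ s, Dep (S i) (g i)) : (avg fun x => ∏ i ∈ s, g i x) = ∏ i ∈ s, avg (g i) := by
  have h := av_indep s S hd (fun i x => ((g i x : ℝ) : ℂ)) fun i hi x y hxy => by
    simp only [hg i hi x y hxy]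
  apply Complex.ofReal_injective
  rw [← me_ofReal, Complex.ofReal_prod]
  simp only [Complex.ofReal_prod]
  rw [h]
  exact Finset.prod_congr rfl fun i _ => me_ofReal _

/-- Two real functions of disjoint sets of coordinates are independent. -/
theorem me_avg_indep_two {S T : Finset E} (hd : Disjoint S T) {f g : (∀ e, Ω e) → ℝ} (hf : Dep S f)
    (hg : Dep T g) : (avg fun x => f x * g x) = avg f * avg g := by
  apply Complex.ofReal_injective
  rw [← me_ofReal, Complex.ofReal_mul, ← me_ofReal, ← me_ofReal]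
  simp only [Complex.ofReal_mul]
  exact me_indep_two hd (fun x y h => by simp only [hf x y h]) fun x y h => by simp only [hg x y h]

/-- Averaging over `R` is averaging over `C ⊆ R` and then over `R`. -/
theorem me_mix_av {C R : Finset E} (h : C ⊆ R) (F : (∀ e, Ω e) → ℂ) (x : ∀ e, Ω e) :
    (av fun y => av fun z => F (mix C (mix R x y) z)) = av fun y => F (mix R x y) := by
  simp only [me_mix_sub h]
  exact av_mix C fun w => F (mix R x w)

/-- Jensen for the set `R ⊇ C`: averaging over more coordinates makes the average smaller. -/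
theorem avg_normsq_mono {C R : Finset E} (h : C ⊆ R) (F : (∀ e, Ω e) → ℂ) :
    (avg fun x => ‖av fun y => F (mix R x y)‖ ^ 2) ≤
      avg fun x => ‖av fun y => F (mix C x y)‖ ^ 2 := by
  rw [← avg_mix R fun x => ‖av fun y => F (mix C x y)‖ ^ 2]
  refine avg_mono fun x => ?_
  rw [← me_mix_av h F x]
  exact me_jensen _

end product

end Pool.Agent.MP_ca1109_lc.Ov
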