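import Pool.Agent.MP_ca1109_lc.Ov.ME

/-!
# Product tests over overlapping blocks: the box inequality and its factorization
-/

namespace Pool.Agent.MP_ca1109_lc.Ov

open Finset Pool.Agent.H66 Pool.Agent.MP_ca1109_lc.Mpg Pool.Agent.MP_ca1109_lc.Agp
  Pool.Agent.MP_ca1109_lc.Xp

/-! ### Averages -/

section av

variable {X Y : Type*} [Fintype X] [Fintype Y]

theorem bx_re (f : X → ℂ) : (av f).re = avg fun a => (f a).re := by
  unfold av avg
  rw [← Complex.ofReal_natCast, Complex.div_ofReal_re, Complex.re_sum]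

theorem bx_ofReal (f : X → ℝ) : (av fun a => ((f a : ℝ) : ℂ)) = ((avg f : ℝ) : ℂ) := by
  unfold av avg
  push_cast
  rfl

theorem bx_conj (f : X → ℂ) : (starRingEnd ℂ) (av f) = av fun a => (starRingEnd ℂ) (f a) := by
  unfold av
  rw [map_div₀, map_sum, Complex.conj_natCast]

theorem bx_mul_left (c : ℂ) (f : X → ℂ) : (av fun a => c * f a) = c * av f := by
  unfold av
  rw [← Finset.mul_sum, mul_div_assoc]

theorem bx_mul_right (c : ℂ) (f : X → ℂ) : (av fun a => f a * c) = av f * c := by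
  unfold av
  rw [← Finset.sum_mul, mul_div_right_comm]

theorem bx_mul_av (f : X → ℂ) (g : Y → ℂ) : av f * av g = av fun a => av fun b => f a * g b := by
  rw [← bx_mul_right]
  congr 1
  funext a
  rw [bx_mul_left]

theorem bx_comm (f : X → Y → ℂ) :
    (av fun a => av fun b => f a b) = av fun b => av fun a => f a b := by
  unfold av
  rw [← Finset.sum_div, ← Finset.sum_div, Finset.sum_comm, div_div, div_div,
    mul_comm (Fintype.card X : ℂ)]

theorem bx_norm_av (f : X → ℂ) : ‖av f‖ ≤ avg fun a => ‖f a‖ := by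
  unfold av avg
  rw [norm_div, Complex.norm_natCast]
  exact div_le_div_of_nonneg_right (norm_sum_le _ _) (Nat.cast_nonneg _)

theorem bx_sq_avg (f : X → ℝ) : (avg f) ^ 2 ≤ avg fun a => f a ^ 2 := by
  unfold avg
  rcases Nat.eq_zero_or_pos (Fintype.card X) with h | h
  · rw [h]
    simp
  have h' : (0 : ℝ) < (Fintype.card X : ℝ) := by exact_mod_cast h
  rw [div_pow, div_le_div_iff₀ (by positivity) h']
  have h1 := sq_sum_le_card_mul_sum_sq (s := (univ : Finset X)) (f := f)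
  rw [Finset.card_univ] at h1
  nlinarith

theorem bx_normsq (z : ℂ) : ((‖z‖ ^ 2 : ℝ) : ℂ) = z * (starRingEnd ℂ) z := by
  rw [Complex.mul_conj, Complex.normSq_eq_norm_sq]

end av

section product

variable {E : Type} [DecidableEq E] {Ω : E → Type}

/-- The coordinates in `A'` from `w`, the others in `A ∪ A'` from `a`, the others from `x`. -/
def bx_pt (A A' : Finset E) (x a w : ∀ e, Ω e) : ∀ e, Ω e := mix A' (mix (A ∪ A') x a) w

theorem bx_pt_self (A A' : Finset E) (x y : ∀ e, Ω e) : mix (A ∪ A') x y = bx_pt A A' x y y := by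
  funext e
  by_cases h1 : e ∈ A <;> by_cases h2 : e ∈ A' <;> simp [mix, bx_pt, h1, h2]

theorem bx_pt_a {A A' : Finset E} (hd : Disjoint A A') (x y z : ∀ e, Ω e) :
    mix A (mix (A ∪ A') x y) z = bx_pt A A' x z y := by
  funext e
  by_cases h1 : e ∈ A
  · have h2 : e ∉ A' := Finset.disjoint_left.1 hd h1
    simp [mix, bx_pt, h1, h2]
  · by_cases h2 : e ∈ A' <;> simp [mix, bx_pt, h1, h2]

theorem bx_pt_b (A A' : Finset E) (x y z : ∀ e, Ω e) :
    mix A' (mix (A ∪ A') x y) z = bx_pt A A' x y z := rfl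

theorem bx_pt_c (A A' : Finset E) (x y z : ∀ e, Ω e) :
    mix (A ∪ A') (mix (A ∪ A') x y) z = bx_pt A A' x z z := by
  funext e
  by_cases h1 : e ∈ A <;> by_cases h2 : e ∈ A' <;> simp [mix, bx_pt, h1, h2]

theorem bx_pt_left (A A' : Finset E) (x y w t : ∀ e, Ω e) :
    bx_pt A A' x (mix A' y w) t = bx_pt A A' x y t := by
  funext e
  by_cases h1 : e ∈ A <;> by_cases h2 : e ∈ A' <;> simp [mix, bx_pt, h1, h2]

theorem bx_pt_right (A A' : Finset E) (x y w t : ∀ e, Ω e) :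
    bx_pt A A' x t (mix A' y w) = bx_pt A A' x t w := by
  funext e
  by_cases h1 : e ∈ A <;> by_cases h2 : e ∈ A' <;> simp [mix, bx_pt, h1, h2]

theorem bx_pt_mixA {A A' : Finset E} (hd : Disjoint A A') (x y w : ∀ e, Ω e) :
    mix (A ∪ A') x (mix A y w) = bx_pt A A' x w y := by
  funext e
  by_cases h1 : e ∈ A
  · have h2 : e ∉ A' := Finset.disjoint_left.1 hd h1
    simp [mix, bx_pt, h1, h2]
  · by_cases h2 : e ∈ A' <;> simp [mix, bx_pt, h1, h2]

theorem bx_expand {A A' : Finset E} (hd : Disjoint A A') (f : (∀ e, Ω e) → ℂ)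
    (x y z : ∀ e, Ω e) : bx A A' f (mix (A ∪ A') x y) z =
      f (bx_pt A A' x y y) * (starRingEnd ℂ) (f (bx_pt A A' x z y)) *
        (starRingEnd ℂ) (f (bx_pt A A' x y z)) * f (bx_pt A A' x z z) := by
  unfold bx
  rw [bx_pt_a hd, bx_pt_b, bx_pt_c, bx_pt_self]

variable [Fintype E] [∀ e, Fintype (Ω e)]

/-- The inner average. -/
noncomputable def bx_H (A A' : Finset E) (f : (∀ e, Ω e) → ℂ) (x a b : ∀ e, Ω e) : ℂ :=
  av fun w : ∀ e, Ω e => f (bx_pt A A' x a w) * (starRingEnd ℂ) (f (bx_pt A A' x b w))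

variable [∀ e, Nonempty (Ω e)]

theorem bx_key {A A' : Finset E} (hd : Disjoint A A') (f : (∀ e, Ω e) → ℂ) (x : ∀ e, Ω e) :
    (av fun y : ∀ e, Ω e => av fun z : ∀ e, Ω e => bx A A' f (mix (A ∪ A') x y) z) =
      (((avg fun y : ∀ e, Ω e => avg fun z : ∀ e, Ω e => ‖bx_H A A' f x y z‖ ^ 2) : ℝ) : ℂ) := by
  have h1 : ∀ y z : ∀ e, Ω e, ((‖bx_H A A' f x y z‖ ^ 2 : ℝ) : ℂ) =
      av fun w : ∀ e, Ω e => av fun w' : ∀ e, Ω e =>
        bx A A' f (mix (A ∪ A') x (mix A' y w)) (mix A' z w') := by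
    intro y z
    rw [bx_normsq, bx_H, bx_conj, bx_mul_av]
    congr 1
    funext w
    congr 1
    funext w'
    rw [bx_expand hd]
    simp only [bx_pt_left, bx_pt_right, map_mul, Complex.conj_conj]
    ring
  rw [← bx_ofReal]
  simp only [← bx_ofReal, h1]
  rw [← av_mix A' (fun y => av fun z : ∀ e, Ω e => bx A A' f (mix (A ∪ A') x y) z)]
  congr 1
  funext y
  rw [bx_comm (fun z w => av fun w' => bx A A' f (mix (A ∪ A') x (mix A' y w)) (mix A' z w'))]
  congr 1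
  funext w
  exact (av_mix A' (fun z => bx A A' f (mix (A ∪ A') x (mix A' y w)) z)).symm

theorem bx_bl {A A' : Finset E} (hd : Disjoint A A') (f : (∀ e, Ω e) → ℂ) (x : ∀ e, Ω e) :
    bl A A' f x = avg fun y : ∀ e, Ω e => avg fun z : ∀ e, Ω e => ‖bx_H A A' f x y z‖ ^ 2 := by
  have h1 := congrArg Complex.re (bx_key hd f x)
  rw [Complex.ofReal_re, bx_re] at h1
  rw [← h1]
  unfold bl
  congr 1
  funext y
  rw [bx_re]

/-- The average of the box product is real. -/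
theorem bl_eq {A A' : Finset E} (hd : Disjoint A A') (f : (∀ e, Ω e) → ℂ) (x : ∀ e, Ω e) :
    (av fun y : ∀ e, Ω e => av fun z : ∀ e, Ω e => bx A A' f (mix (A ∪ A') x y) z) =
      ((bl A A' f x : ℝ) : ℂ) := by
  rw [bx_bl hd, bx_key hd]

theorem bl_nonneg {A A' : Finset E} (hd : Disjoint A A') (f : (∀ e, Ω e) → ℂ) (x : ∀ e, Ω e) :
    0 ≤ bl A A' f x := by
  rw [bx_bl hd]
  exact avg_nonneg fun y => avg_nonneg fun z => by positivity

omit [Fintype E] [∀ e, Fintype (Ω e)] [∀ e, Nonempty (Ω e)] in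
theorem bx_norm_le (A A' : Finset E) {f : (∀ e, Ω e) → ℂ} (hf : ∀ x, ‖f x‖ ≤ 1)
    (x y : ∀ e, Ω e) : ‖bx A A' f x y‖ ≤ 1 := by
  unfold bx
  rw [norm_mul, norm_mul, norm_mul, RCLike.norm_conj, RCLike.norm_conj]
  have h1 := hf x
  have h2 := hf (mix A x y)
  have h3 := hf (mix A' x y)
  have h4 := hf (mix (A ∪ A') x y)
  have h5 := mul_le_one₀ h1 (norm_nonneg _) h2
  have h6 := mul_le_one₀ h5 (norm_nonneg _) h3
  exact mul_le_one₀ h6 (norm_nonneg _) h4

theorem bl_le_one (A A' : Finset E) {f : (∀ e, Ω e) → ℂ} (hf : ∀ x, ‖f x‖ ≤ 1) (x : ∀ e, Ω e) :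
    bl A A' f x ≤ 1 := by
  unfold bl
  have h : ∀ y : ∀ e, Ω e, (avg fun z : ∀ e, Ω e => (bx A A' f (mix (A ∪ A') x y) z).re) ≤ 1 := by
    intro y
    have h1 : ∀ z : ∀ e, Ω e, (bx A A' f (mix (A ∪ A') x y) z).re ≤ 1 :=
      fun z => (Complex.re_le_norm _).trans (bx_norm_le A A' hf _ _)
    exact (avg_mono h1).trans_eq (avg_const 1)
  exact (avg_mono h).trans_eq (avg_const 1)

omit [∀ e, Nonempty (Ω e)] in
theorem bl_dep (A A' : Finset E) {B : Finset E} {f : (∀ e, Ω e) → ℂ} (hf : Dep B f) :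
    Dep B (bl A A' f) := by
  intro x x' h
  have h1 : ∀ y z : ∀ e, Ω e, bx A A' f (mix (A ∪ A') x y) z =
      bx A A' f (mix (A ∪ A') x' y) z := by
    intro y z
    unfold bx
    rw [hf (mix (A ∪ A') x y) (mix (A ∪ A') x' y) fun e he => by simp [mix, h e he],
      hf (mix A (mix (A ∪ A') x y) z) (mix A (mix (A ∪ A') x' y) z)
        fun e he => by simp [mix, h e he],
      hf (mix A' (mix (A ∪ A') x y) z) (mix A' (mix (A ∪ A') x' y) z)
        fun e he => by simp [mix, h e he],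
      hf (mix (A ∪ A') (mix (A ∪ A') x y) z) (mix (A ∪ A') (mix (A ∪ A') x' y) z)
        fun e he => by simp [mix, h e he]]
  unfold bl
  simp only [h1]

theorem bet_eq (A A' : Finset E) (f : (∀ e, Ω e) → ℂ) : bet A A' f = avg (bl A A' f) :=
  (avg_mix (A ∪ A') fun u => avg fun z : ∀ e, Ω e => (bx A A' f u z).re).symm

theorem bet_nonneg {A A' : Finset E} (hd : Disjoint A A') (f : (∀ e, Ω e) → ℂ) :
    0 ≤ bet A A' f := by
  rw [bet_eq]
  exact avg_nonneg fun x => bl_nonneg hd f x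

theorem bet_le_one (A A' : Finset E) {f : (∀ e, Ω e) → ℂ} (hf : ∀ x, ‖f x‖ ≤ 1) :
    bet A A' f ≤ 1 := by
  rw [bet_eq]
  exact (avg_mono fun x => bl_le_one A A' hf x).trans_eq (avg_const 1)

omit [∀ e, Nonempty (Ω e)] in
/-- The defect depends only on the parts of `A`, `A'` in the support. -/
theorem dft_inter {A A' B : Finset E} {f : (∀ e, Ω e) → ℂ} (hf : Dep B f) :
    dft (A ∩ B) (A' ∩ B) f = dft A A' f := by
  have h1 : ∀ x y : ∀ e, Ω e, bx (A ∩ B) (A' ∩ B) f x y = bx A A' f x y := by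
    intro x y
    unfold bx
    rw [hf (mix (A ∩ B) x y) (mix A x y) fun e he => by simp [mix, he],
      hf (mix (A' ∩ B) x y) (mix A' x y) fun e he => by simp [mix, he],
      hf (mix (A ∩ B ∪ A' ∩ B) x y) (mix (A ∪ A') x y) fun e he => by simp [mix, he]]
  unfold dft bet
  simp only [h1]

theorem dft_eq {A A' : Finset E} {f : (∀ e, Ω e) → ℂ} (hf : ∀ x, ‖f x‖ = 1) :
    dft A A' f = (1 / 2) * avg fun x => avg fun y => ‖1 - bx A A' f x y‖ ^ 2 := by
  have h1 : ∀ x y : ∀ e, Ω e, ‖1 - bx A A' f x y‖ ^ 2 = 2 * (1 - (bx A A' f x y).re) := by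
    intro x y
    have h2 : ‖bx A A' f x y‖ = 1 := by
      unfold bx
      rw [norm_mul, norm_mul, norm_mul, RCLike.norm_conj, RCLike.norm_conj, hf, hf, hf, hf]
      norm_num
    have h3 : (bx A A' f x y).re ^ 2 + (bx A A' f x y).im ^ 2 = 1 := by
      have h4 := Complex.sq_norm (bx A A' f x y)
      rw [h2, Complex.normSq_apply] at h4
      nlinarith
    rw [Complex.sq_norm, Complex.normSq_apply]
    simp only [Complex.sub_re, Complex.sub_im, Complex.one_re, Complex.one_im]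
    nlinarith
  simp only [h1, avg_mul_left, avg_sub, avg_const]
  unfold dft bet
  ring

/-- The inequality of Gowers, Cauchy and Schwarz. -/
theorem box_cs {A A' : Finset E} (hd : Disjoint A A') (P g₁ g₂ : (∀ e, Ω e) → ℂ)
    (h₁ : Dep Aᶜ g₁) (h₂ : Dep A'ᶜ g₂) (n₁ : ∀ x, ‖g₁ x‖ ≤ 1) (n₂ : ∀ x, ‖g₂ x‖ ≤ 1)
    (x : ∀ e, Ω e) :
    ‖av fun y : ∀ e, Ω e => P (mix (A ∪ A') x y) * g₁ (mix (A ∪ A') x y) *
      g₂ (mix (A ∪ A') x y)‖ ^ 4 ≤ bl A A' P x := by
  have e1 : ∀ y w : ∀ e, Ω e, g₁ (bx_pt A A' x w y) = g₁ (mix (A ∪ A') x y) := by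
    intro y w
    refine h₁ _ _ fun e he => ?_
    have he' : e ∉ A := by simpa using he
    by_cases h2 : e ∈ A' <;> simp [mix, bx_pt, he', h2]
  have e2 : ∀ y w : ∀ e, Ω e, g₂ (bx_pt A A' x w y) = g₂ (mix (A ∪ A') x w) := by
    intro y w
    refine h₂ _ _ fun e he => ?_
    have he' : e ∉ A' := by simpa using he
    by_cases h2 : e ∈ A <;> simp [mix, bx_pt, he', h2]
  set G : (∀ e, Ω e) → ℂ := fun w => g₂ (mix (A ∪ A') x w) with hG
  set X : ℝ := avg fun y : ∀ e, Ω e => ‖av fun w : ∀ e, Ω e => P (bx_pt A A' x w y) * G w‖ ^ 2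
    with hX
  have s1 : (av fun y : ∀ e, Ω e => P (mix (A ∪ A') x y) * g₁ (mix (A ∪ A') x y) *
      g₂ (mix (A ∪ A') x y)) = av fun y : ∀ e, Ω e => g₁ (mix (A ∪ A') x y) *
        av fun w : ∀ e, Ω e => P (bx_pt A A' x w y) * G w := by
    rw [← av_mix A]
    congr 1
    funext y
    rw [← bx_mul_left]
    congr 1
    funext w
    rw [bx_pt_mixA hd, e1, e2]
    ring
  have s2 : ‖av fun y : ∀ e, Ω e => P (mix (A ∪ A') x y) * g₁ (mix (A ∪ A') x y) *
      g₂ (mix (A ∪ A') x y)‖ ≤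
        avg fun y : ∀ e, Ω e => ‖av fun w : ∀ e, Ω e => P (bx_pt A A' x w y) * G w‖ := by
    rw [s1]
    refine (bx_norm_av _).trans (avg_mono fun y => ?_)
    rw [norm_mul]
    exact mul_le_of_le_one_left (norm_nonneg _) (n₁ _)
  have s3 : ‖av fun y : ∀ e, Ω e => P (mix (A ∪ A') x y) * g₁ (mix (A ∪ A') x y) *
      g₂ (mix (A ∪ A') x y)‖ ^ 2 ≤ X :=
    (pow_le_pow_left₀ (norm_nonneg _) s2 2).trans (bx_sq_avg _)
  have s4 : (X : ℂ) = av fun w : ∀ e, Ω e => av fun w' : ∀ e, Ω e =>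
      G w * (starRingEnd ℂ) (G w') * bx_H A A' P x w w' := by
    rw [hX, ← bx_ofReal]
    have t1 : ∀ y : ∀ e, Ω e,
        ((‖av fun w : ∀ e, Ω e => P (bx_pt A A' x w y) * G w‖ ^ 2 : ℝ) : ℂ) =
          av fun w : ∀ e, Ω e => av fun w' : ∀ e, Ω e => G w * (starRingEnd ℂ) (G w') *
            (P (bx_pt A A' x w y) * (starRingEnd ℂ) (P (bx_pt A A' x w' y))) := by
      intro y
      rw [bx_normsq, bx_conj, bx_mul_av]
      congr 1
      funext w
      congr 1
      funext w'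
      rw [map_mul]
      ring
    simp only [t1]
    rw [bx_comm]
    congr 1
    funext w
    rw [bx_comm]
    congr 1
    funext w'
    rw [bx_mul_left]
    rfl
  have s5 : X ≤ avg fun w : ∀ e, Ω e => avg fun w' : ∀ e, Ω e => ‖bx_H A A' P x w w'‖ := by
    have hX0 : 0 ≤ X := avg_nonneg fun y => by positivity
    have t1 : X = ‖(X : ℂ)‖ := by rw [Complex.norm_real, Real.norm_of_nonneg hX0]
    rw [t1, s4]
    refine (bx_norm_av _).trans (avg_mono fun w => ?_)
    refine (bx_norm_av _).trans (avg_mono fun w' => ?_)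
    rw [norm_mul, norm_mul, RCLike.norm_conj]
    exact mul_le_of_le_one_left (norm_nonneg _) (mul_le_one₀ (n₂ _) (norm_nonneg _) (n₂ _))
  have hX0 : 0 ≤ X := avg_nonneg fun y => by positivity
  calc ‖av fun y : ∀ e, Ω e => P (mix (A ∪ A') x y) * g₁ (mix (A ∪ A') x y) *
      g₂ (mix (A ∪ A') x y)‖ ^ 4
      = (‖av fun y : ∀ e, Ω e => P (mix (A ∪ A') x y) * g₁ (mix (A ∪ A') x y) *
        g₂ (mix (A ∪ A') x y)‖ ^ 2) ^ 2 := by ring
    _ ≤ X ^ 2 := pow_le_pow_left₀ (by positivity) s3 2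
    _ ≤ (avg fun w : ∀ e, Ω e => avg fun w' : ∀ e, Ω e => ‖bx_H A A' P x w w'‖) ^ 2 :=
        pow_le_pow_left₀ hX0 s5 2
    _ ≤ avg fun w : ∀ e, Ω e => (avg fun w' : ∀ e, Ω e => ‖bx_H A A' P x w w'‖) ^ 2 :=
        bx_sq_avg _
    _ ≤ avg fun w : ∀ e, Ω e => avg fun w' : ∀ e, Ω e => ‖bx_H A A' P x w w'‖ ^ 2 :=
        avg_mono fun w => bx_sq_avg _
    _ = bl A A' P x := (bx_bl hd P x).symm

/-! ### The factorization -/

/-- A pair of points as a point of pairs. -/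
def bx_pair (E : Type) (Ω : E → Type) : (∀ e, Ω e × Ω e) ≃ (∀ e, Ω e) × (∀ e, Ω e) where
  toFun p := (fun e => (p e).1, fun e => (p e).2)
  invFun q := fun e => (q.1 e, q.2 e)
  left_inv _ := rfl
  right_inv _ := rfl

omit [∀ e, Nonempty (Ω e)] in
theorem bx_av_pair (F : (∀ e, Ω e) → (∀ e, Ω e) → ℂ) :
    (av fun p : ∀ e, Ω e × Ω e => F (fun e => (p e).1) fun e => (p e).2) =
      av fun y => av fun z => F y z := by
  unfold av
  rw [← Finset.sum_div, div_div]
  congr 1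
  · rw [← Fintype.sum_prod_type' (f := fun y z => F y z)]
    exact (bx_pair E Ω).sum_comp fun q : (∀ e, Ω e) × (∀ e, Ω e) => F q.1 q.2
  · rw [Fintype.card_congr (bx_pair E Ω), Fintype.card_prod, Nat.cast_mul]

omit [Fintype E] [∀ e, Fintype (Ω e)] [∀ e, Nonempty (Ω e)] in
theorem bx_prod {ι : Type} (s : Finset ι) (A A' : Finset E) (f : ι → (∀ e, Ω e) → ℂ)
    (x y : ∀ e, Ω e) :
    bx A A' (fun x => ∏ i ∈ s, f i x) x y = ∏ i ∈ s, bx A A' (f i) x y := by
  unfold bx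
  rw [map_prod, map_prod, ← Finset.prod_mul_distrib, ← Finset.prod_mul_distrib,
    ← Finset.prod_mul_distrib]

/-- The factorization of the box average. -/
theorem bl_prod {ι : Type} (s : Finset ι) {A A' : Finset E} (hd : Disjoint A A')
    (B : ι → Finset E) (f : ι → (∀ e, Ω e) → ℂ) (hf : ∀ i ∈ s, Dep (B i) (f i))
    (hs : ∀ i ∈ s, ∀ j ∈ s, i ≠ j → Disjoint (B i ∩ B j) (A ∪ A')) (x : ∀ e, Ω e) :
    bl A A' (fun x => ∏ i ∈ s, f i x) x = ∏ i ∈ s, bl A A' (f i) x := by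
  apply Complex.ofReal_injective
  rw [← bl_eq hd, Complex.ofReal_prod]
  simp only [← bl_eq hd, bx_prod]
  rw [← bx_av_pair (fun y z => ∏ i ∈ s, bx A A' (f i) (mix (A ∪ A') x y) z)]
  simp only [← bx_av_pair]
  refine av_indep (Ω := fun e => Ω e × Ω e) s (fun i => B i ∩ (A ∪ A')) ?_
    (fun i p => bx A A' (f i) (mix (A ∪ A') x fun e => (p e).1) fun e => (p e).2) ?_
  · intro i hi j hj hij
    have h1 := hs i hi j hj hij
    rw [Finset.disjoint_left] at h1 ⊢
    intro e he he'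
    rw [Finset.mem_inter] at he he'
    exact h1 (Finset.mem_inter.2 ⟨he.1, he'.1⟩) he.2
  · intro i hi p q h
    have h2 : ∀ e ∈ B i, e ∈ A ∪ A' → p e = q e := fun e he he' =>
      h e (Finset.mem_inter.2 ⟨he, he'⟩)
    have k0 : f i (mix (A ∪ A') x fun e => (p e).1) = f i (mix (A ∪ A') x fun e => (q e).1) := by
      refine hf i hi _ _ fun e he => ?_
      by_cases hc : e ∈ A ∪ A'
      · simp only [mix, if_pos hc, h2 e he hc]
      · simp only [mix, if_neg hc]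
    have k1 : ∀ D : Finset E, D ⊆ A ∪ A' →
        f i (mix D (mix (A ∪ A') x fun e => (p e).1) fun e => (p e).2) =
          f i (mix D (mix (A ∪ A') x fun e => (q e).1) fun e => (q e).2) := by
      intro D hD
      refine hf i hi _ _ fun e he => ?_
      by_cases hc : e ∈ A ∪ A'
      · simp only [mix, if_pos hc, h2 e he hc]
      · have hc' : e ∉ D := fun h3 => hc (hD h3)
        simp only [mix, if_neg hc, if_neg hc']
    show bx A A' (f i) (mix (A ∪ A') x fun e => (p e).1) (fun e => (p e).2) =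
      bx A A' (f i) (mix (A ∪ A') x fun e => (q e).1) (fun e => (q e).2)
    unfold bx
    rw [k0, k1 A subset_union_left, k1 A' subset_union_right, k1 (A ∪ A') (Subset.refl _)]

end product

end Pool.Agent.MP_ca1109_lc.Ov
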