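import Pool.Agent.MP_ca1109_lc.Ov.Defs
import Pool.Agent.MP_ca1109_lc.Agp.N1

/-!
# Finner's inequality
-/

namespace Pool.Agent.MP_ca1109_lc.Ov

open Finset Pool.Agent.H66 Pool.Agent.MP_ca1109_lc.Mpg Pool.Agent.MP_ca1109_lc.Agp

/-- Hölder's inequality for at most `r` functions. -/
theorem fn_holder {A ι : Type} [Fintype A] [Nonempty A] (r : ℕ) (hr : 1 ≤ r) (J : Finset ι)
    (hJ : J.card ≤ r) (h : ι → A → ℝ) (h0 : ∀ j ∈ J, ∀ x, 0 ≤ h j x) :
    avg (fun x => ∏ j ∈ J, h j x) ≤ ∏ j ∈ J, (avg fun x => h j x ^ r) ^ (1 / r : ℝ) := by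
  classical
  have hr0 : (0 : ℝ) < r := by exact_mod_cast hr
  have hm0 : ∀ j ∈ J, 0 ≤ avg fun x => h j x ^ r := fun j hj =>
    avg_nonneg fun x => pow_nonneg (h0 j hj x) r
  by_cases hz : ∃ j ∈ J, (avg fun x => h j x ^ r) = 0
  · obtain ⟨j, hj, hz⟩ := hz
    have h1 : ∀ x, h j x = 0 := by
      have h2 : ∑ x, h j x ^ r = 0 := by
        unfold avg at hz
        rw [div_eq_zero_iff] at hz
        rcases hz with hz | hz
        · exact hz
        · exact absurd hz (by positivity)
      intro x
      have h3 := (sum_eq_zero_iff_of_nonneg fun x _ => pow_nonneg (h0 j hj x) r).1 h2 x (mem_univ x)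
      exact pow_eq_zero_iff (by omega) |>.1 h3
    have h4 : (fun x => ∏ j ∈ J, h j x) = fun _ => 0 := by
      funext x
      exact prod_eq_zero hj (h1 x)
    rw [h4, avg_const]
    exact prod_nonneg fun j hj => Real.rpow_nonneg (hm0 j hj) _
  · push Not at hz
    have hpos : ∀ j ∈ J, 0 < avg fun x => h j x ^ r := fun j hj =>
      lt_of_le_of_ne (hm0 j hj) (Ne.symm (hz j hj))
    set m : ι → ℝ := fun j => avg fun x => h j x ^ r with hm
    have hx : ∀ x, ∏ j ∈ J, h j x ≤ (∏ j ∈ J, m j ^ (1 / r : ℝ)) *
        (∑ j ∈ J, (1 / r : ℝ) * (h j x ^ r / m j) + ((r : ℝ) - J.card) / r) := by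
      intro x
      have h1 := Real.geom_mean_le_arith_mean_weighted (insertNone J)
        (fun o => o.elim (((r : ℝ) - J.card) / r) fun _ => (1 / r : ℝ))
        (fun o => o.elim 1 fun j => h j x ^ r / m j) ?_ ?_ ?_
      · rw [prod_insertNone, sum_insertNone] at h1
        simp only [Option.elim_none, Option.elim_some, Real.one_rpow, one_mul, mul_one] at h1
        have h2 : ∏ j ∈ J, h j x = (∏ j ∈ J, m j ^ (1 / r : ℝ)) *
            ∏ j ∈ J, (h j x ^ r / m j) ^ (1 / r : ℝ) := by
          rw [← prod_mul_distrib]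
          refine prod_congr rfl fun j hj => ?_
          rw [← Real.mul_rpow (hpos j hj).le (div_nonneg (pow_nonneg (h0 j hj x) r) (hpos j hj).le),
            mul_div_cancel₀ _ (hpos j hj).ne', one_div,
            Real.pow_rpow_inv_natCast (h0 j hj x) (by omega)]
        rw [h2]
        refine mul_le_mul_of_nonneg_left (h1.trans (le_of_eq (add_comm _ _)))
          (prod_nonneg fun j hj => Real.rpow_nonneg (hpos j hj).le _)
      · rintro (_ | j) _
        · have : (J.card : ℝ) ≤ r := by exact_mod_cast hJ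
          exact div_nonneg (by linarith) hr0.le
        · exact (one_div_pos.2 hr0).le
      · rw [sum_insertNone]
        simp only [Option.elim_none, Option.elim_some, sum_const, nsmul_eq_mul]
        field_simp
        ring
      · rintro (_ | j) hj
        · exact zero_le_one
        · have hj' : j ∈ J := by simpa using hj
          exact div_nonneg (pow_nonneg (h0 j hj' x) r) (hpos j hj').le
    refine (avg_mono hx).trans ?_
    rw [avg_mul_left, avg_add, avg_const, avg_sum]
    refine mul_le_of_le_one_right (prod_nonneg fun j hj => Real.rpow_nonneg (hpos j hj).le _) ?_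
    have h5 : ∀ j ∈ J, (avg fun x => (1 / r : ℝ) * (h j x ^ r / m j)) = 1 / r := by
      intro j hj
      have h6 : (fun x => (1 / r : ℝ) * (h j x ^ r / m j)) = fun x =>
          (1 / r / m j : ℝ) * h j x ^ r := by
        funext x
        ring
      rw [h6, avg_mul_left]
      show 1 / r / m j * m j = 1 / r
      exact div_mul_cancel₀ _ (hpos j hj).ne'
    rw [sum_congr rfl h5, sum_const, nsmul_eq_mul]
    refine le_of_eq ?_
    field_simp
    ring

section

variable {E ι : Type} [Fintype E] [DecidableEq E] {Ω : E → Type} [∀ e, Fintype (Ω e)]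
  [∀ e, Nonempty (Ω e)]

theorem fn_update (a : E) (F : (∀ e, Ω e) → ℝ) :
    avg (fun b : Ω a => avg fun y : ∀ e, Ω e => F (Function.update y a b)) = avg F := by
  have key : ∑ p : Ω a × (∀ e, Ω e), F (Function.update p.2 a p.1) =
      ∑ p : Ω a × (∀ e, Ω e), F p.2 := by
    refine Fintype.sum_equiv ⟨fun p => (p.2 a, Function.update p.2 a p.1),
      fun p => (p.2 a, Function.update p.2 a p.1), fun p => ?_, fun p => ?_⟩ _ _ fun p => rfl
    · simp
    · simp
  rw [Fintype.sum_prod_type, Fintype.sum_prod_type] at key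
  unfold avg
  rw [← sum_div]
  rw [show (∑ b : Ω a, ∑ y : ∀ e, Ω e, F (Function.update y a b)) =
    ∑ _b : Ω a, ∑ y : ∀ e, Ω e, F y from key, sum_const, card_univ, nsmul_eq_mul]
  have : (Fintype.card (Ω a) : ℝ) ≠ 0 := by positivity
  field_simp

/-- The coordinates in `S` from `y`, the others from `x`. -/
def fn_mix (S : Finset E) (x y : ∀ e, Ω e) : ∀ e, Ω e := fun e => if e ∈ S then y e else x e

theorem fn_insert {S : Finset E} {a : E} (ha : a ∉ S) (F : (∀ e, Ω e) → ℝ) (x : ∀ e, Ω e) :
    avg (fun y => F (fn_mix (insert a S) x y)) =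
      avg fun b : Ω a => avg fun y => F (fn_mix S (Function.update x a b) y) := by
  rw [← fn_update a]
  congr 1
  funext b
  congr 1
  funext y
  congr 1
  funext e
  unfold fn_mix
  by_cases he : e = a
  · subst he
    simp [ha]
  · simp only [mem_insert, he, false_or, Function.update_of_ne he]

theorem finner_rpow (r : ℕ) (hr : 1 ≤ r) (J : Finset ι) (B : ι → Finset E)
    (h : ι → (∀ e, Ω e) → ℝ) (h0 : ∀ j ∈ J, ∀ x, 0 ≤ h j x)
    (hB : ∀ j ∈ J, ∀ x y, (∀ e ∈ B j, x e = y e) → h j x = h j y)
    (hd : ∀ e, (J.filter fun j => e ∈ B j).card ≤ r) :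
    avg (fun x => ∏ j ∈ J, h j x) ≤ ∏ j ∈ J, (avg fun x => h j x ^ r) ^ (1 / r : ℝ) := by
  classical
  have key : ∀ S : Finset E, ∀ x : ∀ e, Ω e, (avg fun y => ∏ j ∈ J, h j (fn_mix S x y)) ≤
      ∏ j ∈ J, (avg fun y => h j (fn_mix S x y) ^ r) ^ (1 / r : ℝ) := by
    intro S
    induction S using Finset.induction_on with
    | empty =>
      intro x
      have h1 : ∀ y : ∀ e, Ω e, fn_mix ∅ x y = x := by
        intro y
        funext e
        simp [fn_mix]
      simp only [h1, avg_const]
      refine le_of_eq (prod_congr rfl fun j hj => ?_)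
      rw [one_div, Real.pow_rpow_inv_natCast (h0 j hj x) (by omega)]
    | insert a S ha ih =>
      intro x
      rw [fn_insert ha (fun z => ∏ j ∈ J, h j z) x]
      have h2 : ∀ j, (avg fun y => h j (fn_mix (insert a S) x y) ^ r) = avg fun b : Ω a =>
          avg fun y => h j (fn_mix S (Function.update x a b) y) ^ r := fun j =>
        fn_insert ha (fun z => h j z ^ r) x
      refine (avg_mono fun b => ih (Function.update x a b)).trans ?_
      have h3 : ∀ j ∈ J, a ∉ B j → ∀ b : Ω a,
          (avg fun y => h j (fn_mix S (Function.update x a b) y) ^ r) =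
            avg fun y => h j (fn_mix (insert a S) x y) ^ r := by
        intro j hj haj b
        rw [h2 j]
        have h4 : ∀ b b' : Ω a, (avg fun y => h j (fn_mix S (Function.update x a b) y) ^ r) =
            avg fun y => h j (fn_mix S (Function.update x a b') y) ^ r := by
          intro b b'
          congr 1
          funext y
          rw [hB j hj (fn_mix S (Function.update x a b) y) (fn_mix S (Function.update x a b') y)
            fun e he => ?_]
          have hea : e ≠ a := fun hea => haj (hea ▸ he)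
          unfold fn_mix
          rw [Function.update_of_ne hea, Function.update_of_ne hea]
        rw [show (fun b' : Ω a => avg fun y => h j (fn_mix S (Function.update x a b') y) ^ r) =
          fun _ => avg fun y => h j (fn_mix S (Function.update x a b) y) ^ r from
          funext fun b' => h4 b' b, avg_const]
      have h5 : ∀ b : Ω a, ∏ j ∈ J, (avg fun y => h j (fn_mix S (Function.update x a b) y) ^ r) ^
          (1 / r : ℝ) = (∏ j ∈ J with a ∉ B j, (avg fun y => h j (fn_mix (insert a S) x y) ^ r) ^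
            (1 / r : ℝ)) * ∏ j ∈ J with a ∈ B j,
            (avg fun y => h j (fn_mix S (Function.update x a b) y) ^ r) ^ (1 / r : ℝ) := by
        intro b
        rw [← prod_filter_mul_prod_filter_not J (fun j => a ∈ B j), mul_comm]
        congr 1
        refine prod_congr rfl fun j hj => ?_
        rw [mem_filter] at hj
        rw [h3 j hj.1 hj.2 b]
      simp only [h5]
      rw [avg_mul_left, ← prod_filter_mul_prod_filter_not J (fun j => a ∈ B j) (fun j =>
        (avg fun y => h j (fn_mix (insert a S) x y) ^ r) ^ (1 / r : ℝ)), mul_comm]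
      have h6 : ∀ j ∈ J, ∀ z : ∀ e, Ω e, 0 ≤ avg fun y => h j (fn_mix S z y) ^ r := fun j hj z =>
        avg_nonneg fun y => pow_nonneg (h0 j hj _) r
      refine mul_le_mul_of_nonneg_right ?_ (prod_nonneg fun j hj => Real.rpow_nonneg
        (avg_nonneg fun y => pow_nonneg (h0 j (mem_filter.1 hj).1 _) r) _)
      refine (fn_holder r hr (J.filter fun j => a ∈ B j) (hd a) (fun j b =>
        (avg fun y => h j (fn_mix S (Function.update x a b) y) ^ r) ^ (1 / r : ℝ))
        fun j hj b => Real.rpow_nonneg (h6 j (mem_filter.1 hj).1 _) _).trans (le_of_eq ?_)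
      refine prod_congr rfl fun j hj => ?_
      rw [h2 j]
      congr 2
      funext b
      rw [one_div, Real.rpow_inv_natCast_pow (h6 j (mem_filter.1 hj).1 _) (by omega)]
  obtain ⟨x⟩ : Nonempty (∀ e, Ω e) := inferInstance
  have h1 := key univ x
  have h2 : ∀ y : ∀ e, Ω e, fn_mix univ x y = y := by
    intro y
    funext e
    simp [fn_mix]
  simpa only [h2] using h1

/-- The inequality of Finner. -/
theorem finner {J : Type} [Fintype J] (r : ℕ) (B : J → Finset E)
    (hr : ∀ e, (univ.filter fun j => e ∈ B j).card ≤ r) (h : J → (∀ e, Ω e) → ℝ)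
    (h0 : ∀ j x, 0 ≤ h j x) (hd : ∀ j, Dep (B j) (h j)) :
    (avg fun x => ∏ j, h j x) ^ r ≤ ∏ j, avg fun x => h j x ^ r := by
  rcases Nat.eq_zero_or_pos r with hr0 | hr0
  · subst hr0
    simp only [pow_zero, avg_const, prod_const_one, le_refl]
  · have h1 := finner_rpow r hr0 univ B h (fun j _ => h0 j) (fun j _ x y hxy => hd j x y hxy) hr
    have h2 : 0 ≤ avg fun x => ∏ j, h j x := avg_nonneg fun x => prod_nonneg fun j _ => h0 j x
    refine (pow_le_pow_left₀ h2 h1 r).trans (le_of_eq ?_)
    rw [← prod_pow]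
    refine prod_congr rfl fun j _ => ?_
    rw [one_div, Real.rpow_inv_natCast_pow (avg_nonneg fun x => pow_nonneg (h0 j x) r) (by omega)]

end

end Pool.Agent.MP_ca1109_lc.Ov
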