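import Pool.Agent.MP_ca1109_lc.Ov.BX
import Pool.Agent.MP_ca1109_lc.Ov.FN

/-!
# Product tests over overlapping blocks: one cut
-/

namespace Pool.Agent.MP_ca1109_lc.Ov

open Finset Pool.Agent.H66 Pool.Agent.MP_ca1109_lc.Mpg Pool.Agent.MP_ca1109_lc.Agp
  Pool.Agent.MP_ca1109_lc.Xp

variable {E : Type} [Fintype E] [DecidableEq E] {Ω : E → Type} [∀ e, Fintype (Ω e)]
  [∀ e, Nonempty (Ω e)]

omit [Fintype E] [DecidableEq E] [∀ e, Fintype (Ω e)] [∀ e, Nonempty (Ω e)] in
theorem ct_dep_prod {J : Type} (s : Finset J) {C : Finset E} {f : J → (∀ e, Ω e) → ℂ}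
    (h : ∀ j ∈ s, Dep C (f j)) : Dep C (fun x => ∏ j ∈ s, f j x) :=
  fun x y hxy => Finset.prod_congr rfl fun j hj => h j hj x y hxy

omit [Fintype E] [DecidableEq E] [∀ e, Fintype (Ω e)] [∀ e, Nonempty (Ω e)] in
theorem ct_dep_mono {β : Type*} {B C : Finset E} (h : B ⊆ C) {f : (∀ e, Ω e) → β}
    (hf : Dep B f) : Dep C f :=
  fun x y hxy => hf x y fun e he => hxy e (h he)

theorem ct_point {J : Type} [Fintype J] {r : ℕ} {B : J → Finset E}
    {f : J → (∀ e, Ω e) → ℂ} (hf : Fam r B f) {A A' : Finset E} (hd : Disjoint A A')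
    (lab : J → Fin 3) (h1 : ∀ j, lab j = 1 → Disjoint (B j) A)
    (h2 : ∀ j, lab j = 2 → Disjoint (B j) A')
    (h0 : ∀ i j, i ≠ j → lab i = 0 → lab j = 0 → Disjoint (B i ∩ B j) (A ∪ A'))
    (x : ∀ e, Ω e) :
    ‖av fun y : ∀ e, Ω e => ∏ j, f j (mix (A ∪ A') x y)‖ ^ 2 ≤
      ∏ j, if lab j = 0 then Real.sqrt (bl A A' (f j) x) else 1 := by
  classical
  set P : (∀ e, Ω e) → ℂ := fun x => ∏ j ∈ univ.filter (fun j => lab j = 0), f j x with hP
  set g₁ : (∀ e, Ω e) → ℂ := fun x => ∏ j ∈ univ.filter (fun j => lab j = 1), f j x with hg₁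
  set g₂ : (∀ e, Ω e) → ℂ := fun x => ∏ j ∈ univ.filter (fun j => lab j = 2), f j x with hg₂
  have hsplit : ∀ x : ∀ e, Ω e, ∏ j, f j x = P x * g₁ x * g₂ x := by
    intro x
    simp only [hP, hg₁, hg₂]
    rw [← Finset.prod_union, ← Finset.prod_union]
    · apply Finset.prod_congr _ fun _ _ => rfl
      ext j
      simp only [mem_univ, mem_union, mem_filter, true_and, true_iff]
      have := lab j
      generalize lab j = a
      fin_cases a <;> simp
    · rw [Finset.disjoint_left]
      intro j hj hj'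
      simp only [mem_union, mem_filter, mem_univ, true_and] at hj hj'
      rcases hj with hj | hj <;> rw [hj] at hj' <;> exact absurd hj' (by decide)
    · rw [Finset.disjoint_left]
      intro j hj hj'
      simp only [mem_filter, mem_univ, true_and] at hj hj'
      rw [hj] at hj'
      exact absurd hj' (by decide)
  have hn : ∀ (s : Finset J) (x : ∀ e, Ω e), ‖∏ j ∈ s, f j x‖ ≤ 1 := by
    intro s x
    rw [norm_prod]
    exact (Finset.prod_congr rfl fun j _ => hf.uni j x).le.trans (by simp)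
  have hb := box_cs hd P g₁ g₂
    (ct_dep_prod _ fun j hj => ct_dep_mono (by
      have := h1 j (Finset.mem_filter.mp hj).2
      intro e he
      rw [Finset.mem_compl]
      exact Finset.disjoint_left.mp this he) (hf.dep j))
    (ct_dep_prod _ fun j hj => ct_dep_mono (by
      have := h2 j (Finset.mem_filter.mp hj).2
      intro e he
      rw [Finset.mem_compl]
      exact Finset.disjoint_left.mp this he) (hf.dep j))
    (fun x => hn _ x) (fun x => hn _ x) x
  have hpr : bl A A' P x = ∏ j ∈ univ.filter (fun j => lab j = 0), bl A A' (f j) x :=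
    bl_prod _ hd B f (fun i _ => hf.dep i) (fun i hi j hj hij =>
      h0 i j hij (Finset.mem_filter.mp hi).2 (Finset.mem_filter.mp hj).2) x
  have e1 : (av fun y : ∀ e, Ω e => ∏ j, f j (mix (A ∪ A') x y)) =
      av fun y : ∀ e, Ω e => P (mix (A ∪ A') x y) * g₁ (mix (A ∪ A') x y) *
        g₂ (mix (A ∪ A') x y) := by
    congr 1
    funext y
    exact hsplit _
  rw [e1]
  have e2 : (∏ j, if lab j = 0 then Real.sqrt (bl A A' (f j) x) else 1) =
      Real.sqrt (bl A A' P x) := by
    rw [hpr, ← Finset.prod_filter]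
    have : ∀ s : Finset J, ∏ j ∈ s, Real.sqrt (bl A A' (f j) x) =
        Real.sqrt (∏ j ∈ s, bl A A' (f j) x) := by
      intro s
      induction s using Finset.induction_on with
      | empty => simp
      | insert a s ha ih =>
        rw [Finset.prod_insert ha, Finset.prod_insert ha, ih,
          Real.sqrt_mul (bl_nonneg hd (f a) x)]
    exact this _
  rw [e2]
  apply Real.le_sqrt_of_sq_le
  calc (‖av fun y : ∀ e, Ω e => P (mix (A ∪ A') x y) * g₁ (mix (A ∪ A') x y) *
        g₂ (mix (A ∪ A') x y)‖ ^ 2) ^ 2 = ‖av fun y : ∀ e, Ω e => P (mix (A ∪ A') x y) *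
        g₁ (mix (A ∪ A') x y) * g₂ (mix (A ∪ A') x y)‖ ^ 4 := by ring
    _ ≤ _ := hb

theorem cut_fix {J : Type} [Fintype J] {r : ℕ} (hr : 1 ≤ r) {B : J → Finset E}
    {f : J → (∀ e, Ω e) → ℂ} (hf : Fam r B f) {A A' R : Finset E} (hd : Disjoint A A')
    (hR : A ∪ A' ⊆ R) (lab : J → Fin 3) (h1 : ∀ j, lab j = 1 → Disjoint (B j) A)
    (h2 : ∀ j, lab j = 2 → Disjoint (B j) A')
    (h0 : ∀ i j, i ≠ j → lab i = 0 → lab j = 0 → Disjoint (B i ∩ B j) (A ∪ A')) :
    (avg fun x : ∀ e, Ω e => ‖av fun y : ∀ e, Ω e => ∏ j, f j (mix R x y)‖ ^ 2) ≤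
      Real.exp (-(1 / (2 * r)) * ∑ j ∈ univ.filter (fun j => lab j = 0), dft A A' (f j)) := by
  classical
  have hf1 : ∀ j x, ‖f j x‖ ≤ 1 := fun j x => (hf.uni j x).le
  have s1 := avg_normsq_mono hR (fun x => ∏ j, f j x)
  have s2 : (avg fun x : ∀ e, Ω e => ‖av fun y : ∀ e, Ω e => ∏ j, f j (mix (A ∪ A') x y)‖ ^ 2) ≤
      avg fun x : ∀ e, Ω e => ∏ j, if lab j = 0 then Real.sqrt (bl A A' (f j) x) else 1 :=
    avg_mono fun x => ct_point hf hd lab h1 h2 h0 x
  refine s1.trans (s2.trans ?_)
  set Q : ℝ := avg fun x : ∀ e, Ω e => ∏ j, if lab j = 0 then Real.sqrt (bl A A' (f j) x) else 1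
    with hQ
  have hQ0 : 0 ≤ Q := avg_nonneg fun x => Finset.prod_nonneg fun j _ => by
    split_ifs
    · exact Real.sqrt_nonneg _
    · exact zero_le_one
  have hfin := finner r B hf.rd
    (fun j x => if lab j = 0 then Real.sqrt (bl A A' (f j) x) else 1)
    (fun j x => by
      split_ifs
      · exact Real.sqrt_nonneg _
      · exact zero_le_one)
    (fun j x y hxy => by
      simp only [bl_dep A A' (hf.dep j) x y hxy])
  have hj : ∀ j, (avg fun x : ∀ e, Ω e =>
      (if lab j = 0 then Real.sqrt (bl A A' (f j) x) else 1) ^ r) ≤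
      Real.exp (-(1 / 2) * if lab j = 0 then dft A A' (f j) else 0) := by
    intro j
    by_cases hl : lab j = 0
    · simp only [if_pos hl]
      have hp : ∀ x : ∀ e, Ω e, Real.sqrt (bl A A' (f j) x) ^ r ≤
          (1 / 2) * 1 + (1 / 2) * bl A A' (f j) x := by
        intro x
        have b0 := bl_nonneg hd (f j) x
        have b1 := bl_le_one A A' (hf1 j) x
        have q0 := Real.sqrt_nonneg (bl A A' (f j) x)
        have q1 : Real.sqrt (bl A A' (f j) x) ≤ 1 := Real.sqrt_le_one.mpr b1
        have q2 := Real.sq_sqrt b0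
        have : Real.sqrt (bl A A' (f j) x) ^ r ≤ Real.sqrt (bl A A' (f j) x) ^ 1 :=
          pow_le_pow_of_le_one q0 q1 hr
        rw [pow_one] at this
        nlinarith [sq_nonneg (Real.sqrt (bl A A' (f j) x) - 1)]
      have h3 := avg_mono hp
      rw [avg_add, avg_const, avg_mul_left] at h3
      have h4 : avg (fun x => bl A A' (f j) x) = bet A A' (f j) := (bet_eq A A' (f j)).symm
      rw [h4] at h3
      refine h3.trans ?_
      have h5 := Real.add_one_le_exp (-(1 / 2) * dft A A' (f j))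
      refine le_trans (le_of_eq ?_) h5
      rw [dft]
      ring
    · simp only [if_neg hl, one_pow, mul_zero, Real.exp_zero]
      exact (avg_const (1 : ℝ)).le
  have h6 : Q ^ r ≤ (Real.exp (-(1 / (2 * r)) *
      ∑ j ∈ univ.filter (fun j => lab j = 0), dft A A' (f j))) ^ r := by
    refine hfin.trans ?_
    calc ∏ j, (avg fun x : ∀ e, Ω e =>
          (if lab j = 0 then Real.sqrt (bl A A' (f j) x) else 1) ^ r)
        ≤ ∏ j, Real.exp (-(1 / 2) * if lab j = 0 then dft A A' (f j) else 0) := by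
          apply Finset.prod_le_prod
          · intro j _
            exact avg_nonneg fun x => by
              apply pow_nonneg
              split_ifs
              · exact Real.sqrt_nonneg _
              · exact zero_le_one
          · intro j _
            exact hj j
      _ = _ := by
          rw [← Real.exp_sum, ← Real.exp_nat_mul, ← Finset.mul_sum, Finset.sum_filter]
          congr 1
          have : (r : ℝ) ≠ 0 := by
            have : 0 < r := hr
            positivity
          field_simp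
  exact le_of_pow_le_pow_left₀ (by omega) (Real.exp_pos _).le h6

end Pool.Agent.MP_ca1109_lc.Ov
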