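import Pool.Agent.MP_ca1109_lc.Ov.ME

/-!
# Row LB: two families of independent random variables with the same laws
-/

namespace Pool.Agent.MP_ca1109_lc.Ov

open Finset Pool.Agent.H66 Pool.Agent.MP_ca1109_lc.Mpg Pool.Agent.MP_ca1109_lc.Agp
  Pool.Agent.MP_ca1109_lc.Xp

/-- The expansion of `G` over the values. -/
theorem LB_expand {E C : Type} [Fintype E] [DecidableEq E] [Fintype C] [DecidableEq C]
    (B : Finset E) (c₀ : E → C) (G : (E → C) → ℝ)
    (hG : ∀ k k' : E → C, (∀ e ∈ B, k e = k' e) → G k = G k') (a : E → C) :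
    G a = ∑ k : E → C, G k * (∏ e ∈ Bᶜ, if c₀ e = k e then (1 : ℝ) else 0) *
      ∏ e ∈ B, if a e = k e then (1 : ℝ) else 0 := by
  have h1 : G a = G fun e => if e ∈ B then a e else c₀ e :=
    hG _ _ fun e he => by rw [if_pos he]
  rw [h1]
  have h2 : ∀ k : E → C, G k * (∏ e ∈ Bᶜ, if c₀ e = k e then (1 : ℝ) else 0) *
      (∏ e ∈ B, if a e = k e then (1 : ℝ) else 0) =
      if (fun e => if e ∈ B then a e else c₀ e) = k then G k else 0 := by
    intro k
    rw [prod_ite_zero, prod_ite_zero]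
    simp only [prod_const_one, mem_compl]
    by_cases h : (fun e => if e ∈ B then a e else c₀ e) = k
    · rw [if_pos h, if_pos, if_pos, mul_one, mul_one]
      · intro e he
        rw [← h]
        simp only [if_pos he]
      · intro e he
        rw [← h]
        simp only [if_neg he]
    · rw [if_neg h]
      by_cases hB : ∀ e ∈ B, a e = k e
      · rw [if_pos hB, mul_one, if_neg, mul_zero]
        intro hC
        apply h
        funext e
        by_cases he : e ∈ B
        · rw [if_pos he]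
          exact hB e he
        · rw [if_neg he]
          exact hC e he
      · rw [if_neg hB, mul_zero]
  simp only [h2]
  rw [sum_ite_eq]
  simp

theorem LB_avg {E V C : Type} [Fintype V] [DecidableEq V] [Fintype E] [DecidableEq E] [Fintype C]
    [DecidableEq C] {Θ : V → Type} [∀ v, Fintype (Θ v)] [∀ v, Nonempty (Θ v)]
    (B : Finset E) (c₀ : E → C) (κ : E → (∀ v, Θ v) → C) (S : E → Finset V)
    (h : ∀ e ∈ B, Dep (S e) (κ e))
    (hd : ∀ e ∈ B, ∀ e' ∈ B, e ≠ e' → Disjoint (S e) (S e'))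
    (G : (E → C) → ℝ) (hG : ∀ k k' : E → C, (∀ e ∈ B, k e = k' e) → G k = G k') :
    (avg fun ω => G fun e => κ e ω) =
      ∑ k : E → C, G k * (∏ e ∈ Bᶜ, if c₀ e = k e then (1 : ℝ) else 0) *
        ∏ e ∈ B, avg fun ω => if κ e ω = k e then (1 : ℝ) else 0 := by
  have h1 : (fun ω => G fun e => κ e ω) = fun ω => ∑ k : E → C,
      G k * (∏ e ∈ Bᶜ, if c₀ e = k e then (1 : ℝ) else 0) *
        ∏ e ∈ B, if κ e ω = k e then (1 : ℝ) else 0 := by
    funext ω
    exact LB_expand B c₀ G hG fun e => κ e ω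
  rw [h1, avg_sum]
  refine sum_congr rfl fun k _ => ?_
  rw [avg_mul_left, avg_indep B S hd (fun e ω => if κ e ω = k e then (1 : ℝ) else 0)]
  intro e he x y hxy
  simp only [h e he x y hxy]

/-! ## LB: two families of independent random variables with the same laws -/

theorem same_law {E V V' C : Type} [Fintype V] [DecidableEq V] [Fintype V'] [DecidableEq V']
    [Fintype E] [DecidableEq E] [Fintype C] [DecidableEq C] {Θ : V → Type} {Θ' : V' → Type}
    [∀ v, Fintype (Θ v)] [∀ v, Nonempty (Θ v)] [∀ v, Fintype (Θ' v)] [∀ v, Nonempty (Θ' v)]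
    (B : Finset E) (κ : E → (∀ v, Θ v) → C) (κ' : E → (∀ v, Θ' v) → C)
    (S : E → Finset V) (S' : E → Finset V') (h : ∀ e ∈ B, Dep (S e) (κ e))
    (h' : ∀ e ∈ B, Dep (S' e) (κ' e))
    (hd : ∀ e ∈ B, ∀ e' ∈ B, e ≠ e' → Disjoint (S e) (S e'))
    (hd' : ∀ e ∈ B, ∀ e' ∈ B, e ≠ e' → Disjoint (S' e) (S' e'))
    (hm : ∀ e ∈ B, ∀ c, (avg fun ω => if κ e ω = c then (1 : ℝ) else 0) =
      avg fun ω => if κ' e ω = c then (1 : ℝ) else 0)
    (G : (E → C) → ℝ) (hG : ∀ k k' : E → C, (∀ e ∈ B, k e = k' e) → G k = G k') :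
    (avg fun ω => G fun e => κ e ω) = avg fun ω => G fun e => κ' e ω := by
  rw [LB_avg B (fun e => κ e fun v => Classical.arbitrary (Θ v)) κ S h hd G hG,
    LB_avg B (fun e => κ e fun v => Classical.arbitrary (Θ v)) κ' S' h' hd' G hG]
  refine sum_congr rfl fun k _ => ?_
  congr 1
  exact prod_congr rfl fun e he => hm e he (k e)

end Pool.Agent.MP_ca1109_lc.Ov
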