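import Pool.Agent.MP_ca1109_lc.Ov.Defs
import Pool.Agent.MP_ca1109_lc.Ov.ME
import Pool.Agent.MP_ca1109_lc.Ov.FN
import Pool.Agent.MP_ca1109_lc.Ov.BX
import Pool.Agent.MP_ca1109_lc.Ov.CT
import Pool.Agent.MP_ca1109_lc.Ov.LB

/-! OV, row CS: the sum of the defects. -/

namespace Pool.Agent.MP_ca1109_lc.Ov

open Finset Pool.Agent.H66 Pool.Agent.MP_ca1109_lc.Mpg Pool.Agent.MP_ca1109_lc.Agp
  Pool.Agent.MP_ca1109_lc.Xp

theorem cs_rect {V T : Type} [Fintype V] [DecidableEq V] [Fintype T] [Nonempty T] (S : Finset V)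
    (g : V → T → ℝ) :
    (avg fun ψ : V → T => ∏ v ∈ S, g v (ψ v)) = ∏ v ∈ S, avg (g v) := by
  classical
  let g' : V → T → ℝ := fun v t => if v ∈ S then g v t else 1
  have h1 : ∀ ψ : V → T, ∏ v ∈ S, g v (ψ v) = ∏ v, g' v (ψ v) := by
    intro ψ
    rw [← Finset.prod_filter_mul_prod_filter_not univ (fun v => v ∈ S)]
    have e1 : (univ.filter fun v => v ∈ S) = S := by ext; simp
    have e2 : ∏ v ∈ univ.filter (fun v => v ∉ S), g' v (ψ v) = 1 :=
      Finset.prod_eq_one fun v hv => by simp [g', (Finset.mem_filter.mp hv).2]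
    rw [e1, e2, mul_one]
    exact Finset.prod_congr rfl fun v hv => by simp [g', hv]
  have h2 : ∏ v ∈ S, avg (g v) = ∏ v, avg (g' v) := by
    rw [← Finset.prod_filter_mul_prod_filter_not univ (fun v => v ∈ S)]
    have e1 : (univ.filter fun v => v ∈ S) = S := by ext; simp
    have e2 : ∏ v ∈ univ.filter (fun v => v ∉ S), avg (g' v) = 1 :=
      Finset.prod_eq_one fun v hv => by
        have : g' v = fun _ => 1 := by funext t; simp [g', (Finset.mem_filter.mp hv).2]
        rw [this, avg_const]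
    rw [e1, e2, mul_one]
    refine Finset.prod_congr rfl fun v hv => ?_
    have : g' v = g v := by funext t; simp [g', hv]
    rw [this]
  rw [h2]
  simp only [h1, avg]
  rw [Finset.prod_div_distrib, Finset.prod_const, Finset.prod_univ_sum, Fintype.piFinset_univ]
  simp [Fintype.card_pi]

theorem cs_exists {A : Type} [Fintype A] [Nonempty A] (s : A → ℝ) : ∃ a, avg s ≤ s a := by
  by_contra h
  push Not at h
  have h1 : ∑ a, s a < ∑ _a : A, avg s :=
    Finset.sum_lt_sum_of_nonempty Finset.univ_nonempty fun a _ => h a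
  rw [Finset.sum_const, Finset.card_univ, nsmul_eq_mul] at h1
  have h2 : (0:ℝ) < Fintype.card A := card_pos_real
  have h3 : avg s * Fintype.card A = ∑ a, s a := by
    rw [avg, div_mul_cancel₀ _ h2.ne']
  linarith [mul_comm (avg s) (Fintype.card A : ℝ)]

/-- The first components of a part of the coordinates. -/
theorem cs_split {E J A T : Type} [Fintype E] [DecidableEq E] [Fintype J] [DecidableEq J]
    [Fintype A] [Nonempty A] [Fintype T] (Φ : (E → A) → (E ⊕ J → T) → ℝ) :
    (avg fun R : E → A => avg fun ω : E ⊕ J → T => Φ R ω) =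
      avg fun ψ : E ⊕ J → A × T => Φ (fun e => (ψ (Sum.inl e)).1) (fun v => (ψ v).2) := by
  have h1 := avg_equiv (Equiv.arrowProdEquivProdArrow (E ⊕ J) (fun _ => A) (fun _ => T))
    (fun p : (E ⊕ J → A) × (E ⊕ J → T) => Φ (fun e => p.1 (Sum.inl e)) p.2)
  have h2 := avg_prod (fun (ρ : E ⊕ J → A) (ω : E ⊕ J → T) => Φ (fun e => ρ (Sum.inl e)) ω)
  have h3 := avg_equiv (Equiv.sumArrowEquivProdArrow E J A)
    (fun p : (E → A) × (J → A) => avg fun ω : E ⊕ J → T => Φ p.1 ω)
  have h4 := avg_fst (B := J → A) (fun R : E → A => avg fun ω : E ⊕ J → T => Φ R ω)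
  rw [← h4, ← h3]
  refine Eq.trans h2.symm ?_
  exact h1.symm


/-- The letters of a label: a bit, a coin, a label of a block. -/
abbrev CsT (r : ℕ) : Type := Bool × Fin (4 ^ r) × Fin 4

instance csT_ne (r : ℕ) : Nonempty (CsT r) := ⟨(true, ⟨0, by positivity⟩, 0)⟩

/-- The label of the other blocks. -/
def cslb (c : Bool) : Fin 4 := if c then 3 else 2

section cs

variable {E J : Type} [Fintype E] [DecidableEq E] [Fintype J] [DecidableEq J]

/-- The number of sets containing `e`. -/
def csdeg (B : J → Finset E) (e : E) : ℕ := (univ.filter fun j => e ∈ B j).card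

/-- The condition for the cell `e` of the active block `j`. -/
def csQ (r : ℕ) (B : J → Finset E) (j : J) (c : Bool) (e : E) (R : E → Bool)
    (ω : E ⊕ J → CsT r) : Prop :=
  R e = true ∧ (ω (Sum.inl e)).1 = c ∧ ((ω (Sum.inl e)).2.1 : ℕ) < 4 ^ csdeg B e ∧
    ∀ i, i ≠ j → e ∈ B i → (ω (Sum.inr i)).2.2 = cslb c

instance csQ_dec (r : ℕ) (B : J → Finset E) (j : J) (c : Bool) (e : E) (R : E → Bool)
    (ω : E ⊕ J → CsT r) : Decidable (csQ r B j c e R ω) := by
  unfold csQ; infer_instance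

/-- The active blocks. -/
def csact {r : ℕ} (ω : E ⊕ J → CsT r) (j : J) : Prop := ((ω (Sum.inr j)).2.2 : ℕ) < 2

instance csact_dec {r : ℕ} (ω : E ⊕ J → CsT r) (j : J) : Decidable (csact ω j) := by
  unfold csact; infer_instance

/-- The sets of the cut. -/
def csS (r : ℕ) (B : J → Finset E) (c : Bool) (R : E → Bool) (ω : E ⊕ J → CsT r) : Finset E :=
  univ.filter fun e => ∃ j, e ∈ B j ∧ csact ω j ∧ csQ r B j c e R ω

theorem csact_ne {r : ℕ} {ω : E ⊕ J → CsT r} {j : J} (h : csact ω j) (c : Bool) :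
    (ω (Sum.inr j)).2.2 ≠ cslb c := by
  intro h'
  unfold csact at h
  rw [h'] at h
  cases c <;> simp [cslb] at h

theorem csS_iff {r : ℕ} {B : J → Finset E} {c : Bool} {R : E → Bool} {ω : E ⊕ J → CsT r} {j : J}
    {e : E} (he : e ∈ B j) (hj : csact ω j) : e ∈ csS r B c R ω ↔ csQ r B j c e R ω := by
  unfold csS
  rw [Finset.mem_filter]
  constructor
  · rintro ⟨-, i, hi, hai, hQ⟩
    by_cases hij : i = j
    · subst hij; exact hQ
    · exact absurd (hQ.2.2.2 j (fun h => hij h.symm) he) (csact_ne hj c)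
  · intro h
    exact ⟨Finset.mem_univ _, j, he, hj, h⟩

theorem csQ_bit {r : ℕ} {B : J → Finset E} {i j : J} {e : E} {R : E → Bool}
    {ω : E ⊕ J → CsT r} (h : csQ r B j true e R ω) (h' : csQ r B i false e R ω) : False := by
  have := h.2.1.symm.trans h'.2.1
  simp at this

theorem csS_disj (r : ℕ) (B : J → Finset E) (R : E → Bool) (ω : E ⊕ J → CsT r) :
    Disjoint (csS r B true R ω) (csS r B false R ω) := by
  rw [Finset.disjoint_left]
  intro e h h'
  unfold csS at h h'
  rw [Finset.mem_filter] at h h'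
  obtain ⟨-, i, -, -, hi⟩ := h
  obtain ⟨-, j, -, -, hj⟩ := h'
  exact csQ_bit hi hj

theorem csS_sub (r : ℕ) (B : J → Finset E) (c : Bool) (R : E → Bool) (ω : E ⊕ J → CsT r) :
    csS r B c R ω ⊆ tr R := by
  intro e h
  unfold csS at h
  rw [Finset.mem_filter] at h
  obtain ⟨-, i, -, -, hi⟩ := h
  unfold tr
  rw [Finset.mem_filter]
  exact ⟨Finset.mem_univ _, hi.1⟩

/-- A block with the label against `c`. -/
theorem csS_lab {r : ℕ} {B : J → Finset E} {c : Bool} {R : E → Bool} {ω : E ⊕ J → CsT r} {j : J}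
    (hj : ¬ csact ω j) (hc : (ω (Sum.inr j)).2.2 ≠ cslb c) : Disjoint (B j) (csS r B c R ω) := by
  rw [Finset.disjoint_left]
  intro e he h
  unfold csS at h
  rw [Finset.mem_filter] at h
  obtain ⟨-, i, hi, hai, hQ⟩ := h
  by_cases hij : i = j
  · subst hij; exact hj hai
  · exact hc (hQ.2.2.2 j (fun h => hij h.symm) he)

/-- Two active blocks. -/
theorem csS_act {r : ℕ} {B : J → Finset E} (c : Bool) {R : E → Bool} {ω : E ⊕ J → CsT r} {i j : J}
    (hij : i ≠ j) (hi : csact ω i) (hj : csact ω j) : Disjoint (B i ∩ B j) (csS r B c R ω) := by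
  rw [Finset.disjoint_left]
  intro e he h
  rw [Finset.mem_inter] at he
  have h1 := (csS_iff he.1 hi).mp h
  exact csact_ne hj c (h1.2.2.2 j (fun h => hij h.symm) he.2)

/-- The class of the cell `e`. -/
def csk (r : ℕ) (B : J → Finset E) (j : J) (e : E) (R : E → Bool) (ω : E ⊕ J → CsT r) : Fin 3 :=
  if csQ r B j true e R ω then 0 else if csQ r B j false e R ω then 1 else 2

theorem csk_zero {r : ℕ} {B : J → Finset E} {j : J} {e : E} {R : E → Bool}
    {ω : E ⊕ J → CsT r} : csk r B j e R ω = 0 ↔ csQ r B j true e R ω := by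
  unfold csk
  split_ifs with h1 h2
  · simp [h1]
  · simp [h1]
  · simp [h1]

theorem csk_one {r : ℕ} {B : J → Finset E} {j : J} {e : E} {R : E → Bool}
    {ω : E ⊕ J → CsT r} : csk r B j e R ω = 1 ↔ csQ r B j false e R ω := by
  unfold csk
  split_ifs with h1 h2
  · constructor
    · intro h; simp at h
    · intro h; exact (csQ_bit h1 h).elim
  · simp [h2]
  · simp [h2]

variable {Ω : E → Type} [∀ e, Fintype (Ω e)] [∀ e, Nonempty (Ω e)]

/-- The defect as a function of the classes. -/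
noncomputable def csG (B : Finset E) (f : (∀ e, Ω e) → ℂ) (k : E → Fin 3) : ℝ :=
  dft (univ.filter fun e => e ∈ B ∧ k e = 0) (univ.filter fun e => e ∈ B ∧ k e = 1) f

omit [∀ e, Nonempty (Ω e)] in
theorem csG_congr (B : Finset E) (f : (∀ e, Ω e) → ℂ) (k k' : E → Fin 3)
    (h : ∀ e ∈ B, k e = k' e) : csG B f k = csG B f k' := by
  unfold csG
  have h1 : ∀ c : Fin 3, (univ.filter fun e => e ∈ B ∧ k e = c) =
      univ.filter fun e => e ∈ B ∧ k' e = c := by
    intro c
    refine Finset.filter_congr fun e _ => ?_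
    constructor
    · rintro ⟨h1, h2⟩; exact ⟨h1, (h e h1) ▸ h2⟩
    · rintro ⟨h1, h2⟩; exact ⟨h1, (h e h1).symm ▸ h2⟩
  rw [h1, h1]

theorem csG_cut {r : ℕ} {B : J → Finset E} {j : J} {f : (∀ e, Ω e) → ℂ} (hf : Dep (B j) f)
    {R : E → Bool} {ω : E ⊕ J → CsT r} (hj : csact ω j) :
    dft (csS r B true R ω) (csS r B false R ω) f = csG (B j) f fun e => csk r B j e R ω := by
  rw [← dft_inter hf]
  unfold csG
  congr 1
  · ext e
    rw [Finset.mem_inter, Finset.mem_filter]
    constructor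
    · rintro ⟨h1, h2⟩
      exact ⟨Finset.mem_univ _, h2, csk_zero.mpr ((csS_iff h2 hj).mp h1)⟩
    · rintro ⟨-, h2, h3⟩
      exact ⟨(csS_iff h2 hj).mpr (csk_zero.mp h3), h2⟩
  · ext e
    rw [Finset.mem_inter, Finset.mem_filter]
    constructor
    · rintro ⟨h1, h2⟩
      exact ⟨Finset.mem_univ _, h2, csk_one.mpr ((csS_iff h2 hj).mp h1)⟩
    · rintro ⟨-, h2, h3⟩
      exact ⟨(csS_iff h2 hj).mpr (csk_one.mp h3), h2⟩

/-- The class of the cell `e` in a colouring. -/
def csk' {k : ℕ} (e : E) (χ : E → Fin k) : Fin 3 :=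
  if (χ e : ℕ) = 0 then 0 else if (χ e : ℕ) = 1 then 1 else 2

theorem csG_col {k : ℕ} {B : Finset E} {f : (∀ e, Ω e) → ℂ} (hf : Dep B f) (χ : E → Fin k) :
    dft (col χ 0) (col χ 1) f = csG B f fun e => csk' e χ := by
  rw [← dft_inter hf]
  unfold csG col
  congr 1
  · ext e
    rw [Finset.mem_inter, Finset.mem_filter, Finset.mem_filter]
    constructor
    · rintro ⟨⟨-, h1⟩, h2⟩
      exact ⟨Finset.mem_univ _, h2, by simp [csk', h1]⟩
    · rintro ⟨-, h2, h3⟩
      refine ⟨⟨Finset.mem_univ _, ?_⟩, h2⟩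
      replace h3 : csk' e χ = _ := h3
      unfold csk' at h3
      split_ifs at h3 with h4 h5
      · exact h4
      · simp at h3
      · simp at h3
  · ext e
    rw [Finset.mem_inter, Finset.mem_filter, Finset.mem_filter]
    constructor
    · rintro ⟨⟨-, h1⟩, h2⟩
      exact ⟨Finset.mem_univ _, h2, by simp [csk', h1]⟩
    · rintro ⟨-, h2, h3⟩
      refine ⟨⟨Finset.mem_univ _, ?_⟩, h2⟩
      replace h3 : csk' e χ = _ := h3
      unfold csk' at h3
      split_ifs at h3 with h4 h5
      · simp at h3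
      · exact h5
      · simp at h3


theorem csQ_congr {r : ℕ} {B : J → Finset E} {j : J} {c : Bool} {e : E} {R R' : E → Bool}
    {ω ω' : E ⊕ J → CsT r} (h1 : R e = R' e) (h2 : ω (Sum.inl e) = ω' (Sum.inl e))
    (h3 : ∀ i, i ≠ j → e ∈ B i → ω (Sum.inr i) = ω' (Sum.inr i)) :
    csQ r B j c e R ω ↔ csQ r B j c e R' ω' := by
  unfold csQ
  rw [h1, h2]
  refine and_congr Iff.rfl (and_congr Iff.rfl (and_congr Iff.rfl ?_))
  refine forall_congr' fun i => forall_congr' fun hi => forall_congr' fun he => ?_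
  rw [h3 i hi he]

theorem csk_congr {r : ℕ} {B : J → Finset E} {j : J} {e : E} {R R' : E → Bool}
    {ω ω' : E ⊕ J → CsT r} (h1 : R e = R' e) (h2 : ω (Sum.inl e) = ω' (Sum.inl e))
    (h3 : ∀ i, i ≠ j → e ∈ B i → ω (Sum.inr i) = ω' (Sum.inr i)) :
    csk r B j e R ω = csk r B j e R' ω' := by
  unfold csk
  simp only [csQ_congr (B := B) (c := true) h1 h2 h3, csQ_congr (B := B) (c := false) h1 h2 h3]

theorem cs_snd {A A' : Type} [Fintype A] [Nonempty A] [Fintype A'] (f : A' → ℝ) :
    avg (fun p : A × A' => f p.2) = avg f := by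
  rw [avg_prod fun _ b => f b, avg_const]

theorem cs_fin_lt {N k : ℕ} (h : k ≤ N) :
    (avg fun d : Fin N => if (d : ℕ) < k then (1 : ℝ) else 0) = k / N := by
  unfold avg
  rw [Fin.sum_univ_eq_sum_range (fun d => if d < k then (1 : ℝ) else 0) N, Finset.sum_boole,
    Fintype.card_fin]
  congr 2
  have : (Finset.range N).filter (fun d => d < k) = Finset.range k := by
    ext d
    simp only [Finset.mem_filter, Finset.mem_range]
    omega
  rw [this, Finset.card_range]

theorem cs_fin_eq {N k : ℕ} (h : k < N) :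
    (avg fun d : Fin N => if (d : ℕ) = k then (1 : ℝ) else 0) = 1 / N := by
  unfold avg
  rw [Fin.sum_univ_eq_sum_range (fun d => if d = k then (1 : ℝ) else 0) N, Finset.sum_boole,
    Fintype.card_fin]
  congr 2
  have : (Finset.range N).filter (fun d => d = k) = {k} := by
    ext d
    simp only [Finset.mem_filter, Finset.mem_range, Finset.mem_singleton]
    omega
  rw [this, Finset.card_singleton, Nat.cast_one]

theorem cs_bool (c : Bool) : (avg fun b : Bool => if b = c then (1 : ℝ) else 0) = 1 / 2 := by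
  unfold avg
  rw [Fintype.sum_bool]
  cases c <;> simp

theorem cs_four (c : Bool) : (avg fun t : Fin 4 => if t = cslb c then (1 : ℝ) else 0) = 1 / 4 := by
  unfold avg
  simp

theorem cs_ite_mul (P Q : Prop) [Decidable P] [Decidable Q] :
    (if P ∧ Q then (1 : ℝ) else 0) = (if P then (1 : ℝ) else 0) * if Q then (1 : ℝ) else 0 := by
  by_cases hP : P <;> by_cases hQ : Q <;> simp [hP, hQ]

/-- The probability of a class. -/
theorem cs_p {r : ℕ} {B : J → Finset E} {j : J} (c : Bool) {e : E} (he : e ∈ B j)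
    (hrd : csdeg B e ≤ r) :
    (avg fun ψ : E ⊕ J → Bool × CsT r =>
      if csQ r B j c e (fun e => (ψ (Sum.inl e)).1) (fun v => (ψ v).2) then (1 : ℝ) else 0) =
      1 / 4 ^ r := by
  classical
  set T0 : Finset J := univ.filter fun i => i ≠ j ∧ e ∈ B i with hT0
  let g : E ⊕ J → Bool × CsT r → ℝ := fun v => Sum.elim
    (fun _ t => (if t.1 = true then (1 : ℝ) else 0) * ((if t.2.1 = c then (1 : ℝ) else 0) *
      (if (t.2.2.1 : ℕ) < 4 ^ csdeg B e then (1 : ℝ) else 0)))
    (fun _ t => if t.2.2.2 = cslb c then (1 : ℝ) else 0) v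
  have h1 : ∀ ψ : E ⊕ J → Bool × CsT r,
      (if csQ r B j c e (fun e => (ψ (Sum.inl e)).1) (fun v => (ψ v).2) then (1 : ℝ) else 0) =
        ∏ v ∈ ({e} : Finset E).disjSum T0, g v (ψ v) := by
    intro ψ
    rw [Finset.prod_disjSum, Finset.prod_singleton]
    have h2 : ∏ i ∈ T0, g (Sum.inr i) (ψ (Sum.inr i)) =
        if ∀ i ∈ T0, (ψ (Sum.inr i)).2.2.2 = cslb c then (1 : ℝ) else 0 := by
      by_cases hall : ∀ i ∈ T0, (ψ (Sum.inr i)).2.2.2 = cslb c
      · rw [if_pos hall]
        exact Finset.prod_eq_one fun i hi => if_pos (hall i hi)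
      · rw [if_neg hall]
        push Not at hall
        obtain ⟨i, hi, hi'⟩ := hall
        exact Finset.prod_eq_zero hi (if_neg hi')
    rw [h2]
    have h3 : g (Sum.inl e) (ψ (Sum.inl e)) = if (ψ (Sum.inl e)).1 = true ∧
        (ψ (Sum.inl e)).2.1 = c ∧ ((ψ (Sum.inl e)).2.2.1 : ℕ) < 4 ^ csdeg B e then (1 : ℝ)
        else 0 := by
      simp only [g, Sum.elim_inl]
      by_cases a1 : (ψ (Sum.inl e)).1 = true
      · by_cases a2 : (ψ (Sum.inl e)).2.1 = c
        · simp [a1, a2]
        · simp [a2]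
      · simp [a1]
    rw [h3, ← cs_ite_mul]
    refine if_congr ?_ rfl rfl
    unfold csQ
    constructor
    · rintro ⟨q1, q2, q3, q4⟩
      refine ⟨⟨q1, q2, q3⟩, fun i hi => ?_⟩
      rw [hT0, Finset.mem_filter] at hi
      exact q4 i hi.2.1 hi.2.2
    · rintro ⟨⟨q1, q2, q3⟩, q4⟩
      refine ⟨q1, q2, q3, fun i hi hi' => q4 i ?_⟩
      rw [hT0, Finset.mem_filter]
      exact ⟨Finset.mem_univ _, hi, hi'⟩
  simp only [h1]
  rw [cs_rect, Finset.prod_disjSum, Finset.prod_singleton]
  have h4 : avg (g (Sum.inl e)) = 1 / 2 * (1 / 2 * (4 ^ csdeg B e / 4 ^ r)) := by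
    have e1 := avg_prod_mul (A := Bool) (B := CsT r) (fun b => if b = true then (1 : ℝ) else 0)
      (fun t => (if t.1 = c then (1 : ℝ) else 0) *
        (if (t.2.1 : ℕ) < 4 ^ csdeg B e then (1 : ℝ) else 0))
    have e2 := avg_prod_mul (A := Bool) (B := Fin (4 ^ r) × Fin 4)
      (fun b => if b = c then (1 : ℝ) else 0)
      (fun q => if (q.1 : ℕ) < 4 ^ csdeg B e then (1 : ℝ) else 0)
    have e3 := avg_fst (B := Fin 4)
      (fun q : Fin (4 ^ r) => if (q : ℕ) < 4 ^ csdeg B e then (1 : ℝ) else 0)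
    have e4 := cs_fin_lt (Nat.pow_le_pow_right (by norm_num) hrd : 4 ^ csdeg B e ≤ 4 ^ r)
    rw [cs_bool] at e1 e2
    refine e1.trans ?_
    refine congrArg (fun x => 1 / 2 * x) (e2.trans ?_)
    refine congrArg (fun x => 1 / 2 * x) (e3.trans (e4.trans ?_))
    push_cast
    rfl
  have h5 : ∀ i ∈ T0, avg (g (Sum.inr i)) = 1 / 4 := by
    intro i _
    have e1 : g (Sum.inr i) = fun p : Bool × CsT r =>
        (fun t : CsT r => (fun q : Fin (4 ^ r) × Fin 4 => (fun t : Fin 4 =>
          if t = cslb c then (1 : ℝ) else 0) q.2) t.2) p.2 := rfl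
    rw [e1]
    have i1 : Nonempty (Fin (4 ^ r)) := ⟨⟨0, by positivity⟩⟩
    rw [cs_snd (fun t : CsT r => (fun q : Fin (4 ^ r) × Fin 4 => (fun t : Fin 4 =>
          if t = cslb c then (1 : ℝ) else 0) q.2) t.2),
      cs_snd (fun q : Fin (4 ^ r) × Fin 4 => (fun t : Fin 4 =>
          if t = cslb c then (1 : ℝ) else 0) q.2),
      cs_snd (fun t : Fin 4 => if t = cslb c then (1 : ℝ) else 0), cs_four]
  rw [h4, Finset.prod_congr rfl h5, Finset.prod_const]
  have h6 : T0.card + 1 = csdeg B e := by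
    have : T0 = (univ.filter fun i => e ∈ B i).erase j := by
      ext i; simp [hT0]
    rw [this, Finset.card_erase_of_mem (by simp [he])]
    have : 0 < (univ.filter fun i => e ∈ B i).card :=
      Finset.card_pos.mpr ⟨j, by simp [he]⟩
    unfold csdeg
    omega
  rw [← h6, pow_succ]
  have h7 : (4:ℝ) ^ r ≠ 0 := by positivity
  have h8 : (4:ℝ) ^ T0.card ≠ 0 := by positivity
  rw [one_div_pow]
  field_simp
  try norm_num

/-- Laws of variables with three values. -/
theorem cs_law {A A' : Type} [Fintype A] [Nonempty A] [Fintype A'] [Nonempty A'] (κ : A → Fin 3)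
    (κ' : A' → Fin 3)
    (h0 : (avg fun a => if κ a = 0 then (1 : ℝ) else 0) = avg fun a => if κ' a = 0 then (1 : ℝ) else 0)
    (h1 : (avg fun a => if κ a = 1 then (1 : ℝ) else 0) = avg fun a => if κ' a = 1 then (1 : ℝ) else 0)
    (c : Fin 3) :
    (avg fun a => if κ a = c then (1 : ℝ) else 0) = avg fun a => if κ' a = c then (1 : ℝ) else 0 := by
  have key : ∀ {X : Type} [Fintype X] [Nonempty X] (k : X → Fin 3),
      (avg fun a => if k a = 2 then (1 : ℝ) else 0) =
        1 - (avg fun a => if k a = 0 then (1 : ℝ) else 0) -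
          avg fun a => if k a = 1 then (1 : ℝ) else 0 := by
    intro X _ _ k
    have ht : ∀ t : Fin 3, (if t = 2 then (1 : ℝ) else 0) =
        1 - (if t = 0 then (1 : ℝ) else 0) - if t = 1 then (1 : ℝ) else 0 := by
      intro t
      fin_cases t <;> simp
    have e1 : (fun a => if k a = 2 then (1 : ℝ) else 0) =
        fun a => 1 - (if k a = 0 then (1 : ℝ) else 0) - if k a = 1 then (1 : ℝ) else 0 :=
      funext fun a => ht (k a)
    rw [e1, avg_sub, avg_sub, avg_const]
  fin_cases c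
  · exact h0
  · exact h1
  · show (avg fun a => if κ a = 2 then (1 : ℝ) else 0) = avg fun a => if κ' a = 2 then (1 : ℝ) else 0
    rw [key κ, key κ', h0, h1]

/-- The probability of a class of a colouring. -/
theorem cs_p' {k : ℕ} [Nonempty (Fin k)] (e : E) {c : ℕ} (hc : c < k) :
    (avg fun χ : E → Fin k => if (χ e : ℕ) = c then (1 : ℝ) else 0) = 1 / k := by
  have := cs_rect ({e} : Finset E) (fun (_ : E) (x : Fin k) => if (x : ℕ) = c then (1 : ℝ) else 0)
  simp only [Finset.prod_singleton] at this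
  rw [this, cs_fin_eq hc]


variable {Ω : E → Type} [∀ e, Fintype (Ω e)] [∀ e, Nonempty (Ω e)]

/-- The expected defect of the cut for an active block. -/
theorem cs_id {r : ℕ} (hr : 1 ≤ r) {B : J → Finset E} {j : J} {f : (∀ e, Ω e) → ℂ}
    (hf : Dep (B j) f) (hrd : ∀ e, csdeg B e ≤ r) (hlin : ∀ i, i ≠ j → (B i ∩ B j).card ≤ 1) :
    (avg fun R : E → Bool => avg fun ω : E ⊕ J → CsT r =>
      if csact ω j then dft (csS r B true R ω) (csS r B false R ω) f else 0) =
      1 / 2 * DD (2 * 4 ^ (r - 1)) f := by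
  classical
  have e1 : ∀ (R : E → Bool) (ω : E ⊕ J → CsT r),
      (if csact ω j then dft (csS r B true R ω) (csS r B false R ω) f else 0) =
        (if csact ω j then (1 : ℝ) else 0) * csG (B j) f fun e => csk r B j e R ω := by
    intro R ω
    by_cases h : csact ω j
    · rw [if_pos h, if_pos h, one_mul, csG_cut hf h]
    · rw [if_neg h, if_neg h, zero_mul]
  simp only [e1]
  rw [cs_split (fun R ω => (if csact ω j then (1 : ℝ) else 0) *
    csG (B j) f fun e => csk r B j e R ω)]
  -- independence of the label of `j`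
  let F1 : (E ⊕ J → Bool × CsT r) → ℝ := fun ψ => if ((ψ (Sum.inr j)).2.2.2 : ℕ) < 2 then 1 else 0
  let F2 : (E ⊕ J → Bool × CsT r) → ℝ := fun ψ =>
    csG (B j) f fun e => csk r B j e (fun e => (ψ (Sum.inl e)).1) (fun v => (ψ v).2)
  have e2 : (avg fun ψ : E ⊕ J → Bool × CsT r => F1 ψ * F2 ψ) = avg F1 * avg F2 := by
    have := avg_indep (E := E ⊕ J) (Ω := fun _ => Bool × CsT r) (univ : Finset Bool)
      (fun b => cond b {Sum.inr j} ({Sum.inr j} : Finset (E ⊕ J))ᶜ) (by
        intro a _ b _ hab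
        cases a <;> cases b
        · exact absurd rfl hab
        · exact disjoint_compl_left
        · exact disjoint_compl_right
        · exact absurd rfl hab) (fun b => cond b F1 F2) (by
        intro b _
        cases b
        · intro ψ ψ' h
          refine csG_congr _ _ _ _ fun e _ => ?_
          have hh : ∀ v, v ≠ Sum.inr j → ψ v = ψ' v := fun v hv => h v (by simpa using hv)
          refine csk_congr ?_ ?_ ?_
          · exact congrArg Prod.fst (hh (Sum.inl e) (by simp))
          · exact congrArg Prod.snd (hh (Sum.inl e) (by simp))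
          · intro i hi _
            exact congrArg Prod.snd (hh (Sum.inr i) (by simpa using hi))
        · intro ψ ψ' h
          have h0 := h (Sum.inr j) (by simp)
          show F1 ψ = F1 ψ'
          simp only [F1, h0])
    simpa [Fintype.prod_bool] using this
  have e3 : avg F1 = 1 / 2 := by
    have h1 := cs_rect (V := E ⊕ J) ({Sum.inr j} : Finset (E ⊕ J))
      (fun _ (t : Bool × CsT r) => if (t.2.2.2 : ℕ) < 2 then (1 : ℝ) else 0)
    simp only [Finset.prod_singleton] at h1
    have i1 : Nonempty (Fin (4 ^ r)) := ⟨⟨0, by positivity⟩⟩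
    have h2 := cs_snd (A := Bool) (fun t : CsT r => if (t.2.2 : ℕ) < 2 then (1 : ℝ) else 0)
    have h3 := cs_snd (A := Bool)
      (fun t : Fin (4 ^ r) × Fin 4 => if (t.2 : ℕ) < 2 then (1 : ℝ) else 0)
    have h4 := cs_snd (A := Fin (4 ^ r)) (fun t : Fin 4 => if (t : ℕ) < 2 then (1 : ℝ) else 0)
    have h5 := cs_fin_lt (N := 4) (k := 2) (by norm_num)
    have h6 : ((2 : ℕ) : ℝ) / ((4 : ℕ) : ℝ) = 1 / 2 := by norm_num
    exact h1.trans (h2.trans (h3.trans (h4.trans (h5.trans h6))))
  have hk : 2 * (2 * 4 ^ (r - 1)) = 4 ^ r := by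
    obtain ⟨s, rfl⟩ : ∃ s, r = s + 1 := ⟨r - 1, by omega⟩
    rw [Nat.add_sub_cancel, pow_succ]; ring
  have hk2 : 2 ≤ 2 * (2 * 4 ^ (r - 1)) := by
    have : 1 ≤ 4 ^ (r - 1) := Nat.one_le_pow _ _ (by norm_num)
    omega
  have i2 : Nonempty (Fin (2 * (2 * 4 ^ (r - 1)))) := ⟨⟨0, by omega⟩⟩
  have e4 : avg F2 = DD (2 * 4 ^ (r - 1)) f := by
    unfold DD
    simp only [csG_col hf]
    refine same_law (V := E ⊕ J) (V' := E) (Θ := fun _ => Bool × CsT r)
      (Θ' := fun _ => Fin (2 * (2 * 4 ^ (r - 1)))) (B j)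
      (fun e ψ => csk r B j e (fun e => (ψ (Sum.inl e)).1) (fun v => (ψ v).2))
      (fun e χ => csk' e χ)
      (fun e => ({e} : Finset E).disjSum (univ.filter fun i => i ≠ j ∧ e ∈ B i))
      (fun e => {e}) ?_ ?_ ?_ ?_ ?_ (csG (B j) f) (fun k k' h => csG_congr _ _ _ _ h)
    · intro e _ ψ ψ' h
      refine csk_congr ?_ ?_ ?_
      · exact congrArg Prod.fst (h (Sum.inl e) (by simp))
      · exact congrArg Prod.snd (h (Sum.inl e) (by simp))
      · intro i hi he
        exact congrArg Prod.snd (h (Sum.inr i) (by simp [hi, he]))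
    · intro e _ χ χ' h
      have := h e (by simp)
      show csk' e χ = csk' e χ'
      unfold csk'
      rw [this]
    · intro e he e' he' hee
      rw [Finset.disjoint_left]
      intro v hv hv'
      rw [Finset.mem_disjSum] at hv hv'
      rcases hv with ⟨a, ha, rfl⟩ | ⟨i, hi, rfl⟩
      · rcases hv' with ⟨b, hb, hb'⟩ | ⟨b, _, hb'⟩
        · rw [Finset.mem_singleton] at ha hb
          have := Sum.inl_injective hb'
          exact hee (ha.symm.trans (this.symm.trans hb))
        · simp at hb'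
      · rcases hv' with ⟨b, hb, hb'⟩ | ⟨b, hb, hb'⟩
        · simp at hb'
        · have := Sum.inr_injective hb'
          subst this
          rw [Finset.mem_filter] at hi hb
          have h1 := hlin b hi.2.1
          rw [Finset.card_le_one] at h1
          exact hee (h1 e (Finset.mem_inter.mpr ⟨hi.2.2, he⟩) e'
            (Finset.mem_inter.mpr ⟨hb.2.2, he'⟩))
    · intro e _ e' _ hee
      simpa using hee
    · intro e he c
      refine cs_law _ _ ?_ ?_ c
      · have h1 := cs_p true he (hrd e)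
        have h2 := cs_p' (k := 2 * (2 * 4 ^ (r - 1))) e (c := 0) (by omega)
        have h3 : (1 : ℝ) / 4 ^ r = 1 / ((2 * (2 * 4 ^ (r - 1)) : ℕ) : ℝ) := by
          rw [hk]; push_cast; rfl
        have h4 : ∀ ψ : E ⊕ J → Bool × CsT r,
            (if csk r B j e (fun e => (ψ (Sum.inl e)).1) (fun v => (ψ v).2) = 0 then (1 : ℝ)
              else 0) = if csQ r B j true e (fun e => (ψ (Sum.inl e)).1) (fun v => (ψ v).2)
              then (1 : ℝ) else 0 := fun ψ => if_congr csk_zero rfl rfl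
        have h5 : ∀ χ : E → Fin (2 * (2 * 4 ^ (r - 1))),
            (if csk' e χ = 0 then (1 : ℝ) else 0) = if (χ e : ℕ) = 0 then (1 : ℝ) else 0 := by
          intro χ
          unfold csk'
          split_ifs with a b <;> simp_all
        simp only [h4, h5]
        exact h1.trans (h3.trans h2.symm)
      · have h1 := cs_p false he (hrd e)
        have h2 := cs_p' (k := 2 * (2 * 4 ^ (r - 1))) e (c := 1) (by omega)
        have h3 : (1 : ℝ) / 4 ^ r = 1 / ((2 * (2 * 4 ^ (r - 1)) : ℕ) : ℝ) := by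
          rw [hk]; push_cast; rfl
        have h4 : ∀ ψ : E ⊕ J → Bool × CsT r,
            (if csk r B j e (fun e => (ψ (Sum.inl e)).1) (fun v => (ψ v).2) = 1 then (1 : ℝ)
              else 0) = if csQ r B j false e (fun e => (ψ (Sum.inl e)).1) (fun v => (ψ v).2)
              then (1 : ℝ) else 0 := fun ψ => if_congr csk_one rfl rfl
        have h5 : ∀ χ : E → Fin (2 * (2 * 4 ^ (r - 1))),
            (if csk' e χ = 1 then (1 : ℝ) else 0) = if (χ e : ℕ) = 1 then (1 : ℝ) else 0 := by
          intro χ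
          unfold csk'
          split_ifs with a b <;> simp_all
        simp only [h4, h5]
        exact h1.trans (h3.trans h2.symm)
  have e5 : (avg fun ψ : E ⊕ J → Bool × CsT r => (if csact (fun v => (ψ v).2) j then (1 : ℝ)
      else 0) * csG (B j) f fun e => csk r B j e (fun e => (ψ (Sum.inl e)).1)
      (fun v => (ψ v).2)) = avg fun ψ : E ⊕ J → Bool × CsT r => F1 ψ * F2 ψ := rfl
  rw [e5, e2, e3, e4]

end cs


theorem cs_exp {x : ℝ} (h0 : 0 ≤ x) (h1 : x ≤ 1) : Real.exp (-(x / 2)) ≤ 1 - 3 / 8 * x := by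
  have hc := convexOn_exp.2 (Set.mem_univ (0 : ℝ)) (Set.mem_univ (-(1 / 2) : ℝ))
    (sub_nonneg.mpr h1) h0 (by ring)
  simp only [smul_eq_mul, mul_zero, zero_add, Real.exp_zero, mul_one] at hc
  have h2 : Real.exp (-(1 / 2)) ≤ 5 / 8 := by
    have h3 : (1.6 : ℝ) ≤ Real.exp (1 / 2) := by
      have := Real.quadratic_le_exp_of_nonneg (x := 1 / 2) (by norm_num)
      norm_num at this ⊢
      linarith
    rw [Real.exp_neg]
    rw [inv_le_comm₀ (Real.exp_pos _) (by norm_num)]
    norm_num at h3 ⊢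
    linarith
  have h4 : x * -(1 / 2) = -(x / 2) := by ring
  rw [h4] at hc
  nlinarith

theorem cs_dft_nonneg {E : Type} [Fintype E] [DecidableEq E] {Ω : E → Type} [∀ e, Fintype (Ω e)]
    [∀ e, Nonempty (Ω e)] (A A' : Finset E) {f : (∀ e, Ω e) → ℂ} (hf : ∀ x, ‖f x‖ = 1) :
    0 ≤ dft A A' f := by
  unfold dft
  have := bet_le_one A A' (f := f) (fun x => (hf x).le)
  linarith

theorem cs_dft_le_one {E : Type} [Fintype E] [DecidableEq E] {Ω : E → Type} [∀ e, Fintype (Ω e)]
    [∀ e, Nonempty (Ω e)] {A A' : Finset E} (hd : Disjoint A A') (f : (∀ e, Ω e) → ℂ) :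
    dft A A' f ≤ 1 := by
  unfold dft
  have := bet_nonneg hd f
  linarith

theorem cut_sum {r : ℕ} (hr : 1 ≤ r) : ∃ C : ℝ, 0 ≤ C ∧ ∀ {E J : Type} [Fintype E] [DecidableEq E]
    [Fintype J] [DecidableEq J] {Ω : E → Type} [∀ e, Fintype (Ω e)] [∀ e, Nonempty (Ω e)]
    {B : J → Finset E} {f : J → (∀ e, Ω e) → ℂ}, Fam r B f → ∀ {ε : ℝ}, 0 < ε →
    ε ≤ Sh (fun x => ∏ j, f j x) →
      ∑ j, DD (2 * 4 ^ (r - 1)) (f j) ≤ C * Real.log (1 / ε) := by
  refine ⟨16 * r / 3, by positivity, ?_⟩
  intro E J _ _ _ _ Ω _ _ B f hF ε hε hSh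
  have hr0 : (0 : ℝ) < r := by exact_mod_cast hr
  let h : J → (E → Bool) → ℝ := fun j R => avg fun ω : E ⊕ J → CsT r =>
    if csact ω j then dft (csS r B true R ω) (csS r B false R ω) (f j) else 0
  have hh0 : ∀ j R, 0 ≤ h j R := by
    intro j R
    refine avg_nonneg fun ω => ?_
    by_cases hj : csact ω j
    · rw [if_pos hj]; exact cs_dft_nonneg _ _ (hF.uni j)
    · rw [if_neg hj]
  have hh1 : ∀ j R, h j R ≤ 1 := by
    intro j R
    refine (avg_mono (g := fun _ => 1) fun ω => ?_).trans (avg_const 1).le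
    by_cases hj : csact ω j
    · rw [if_pos hj]; exact cs_dft_le_one (csS_disj r B R ω) _
    · rw [if_neg hj]; norm_num
  -- one set `R`
  have hL : ∀ R : E → Bool,
      (avg fun x : ∀ e, Ω e => ‖av fun y : ∀ e, Ω e => ∏ j, f j (mix (tr R) x y)‖ ^ 2) ≤
        ∏ j, Real.exp (-(1 / (2 * r)) * h j R) := by
    intro R
    obtain ⟨ω, hω⟩ := cs_exists (fun ω : E ⊕ J → CsT r => ∑ j,
      if csact ω j then dft (csS r B true R ω) (csS r B false R ω) (f j) else 0)
    let lab : J → Fin 3 := fun j => if csact ω j then 0 else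
      if (ω (Sum.inr j)).2.2 = cslb true then 2 else 1
    have hlab0 : ∀ j, lab j = 0 ↔ csact ω j := by
      intro j
      simp only [lab]
      split_ifs with a b
      · simp [a]
      · simp [a]
      · simp [a]
    have hcut := cut_fix hr hF (A := csS r B true R ω) (A' := csS r B false R ω) (R := tr R)
      (csS_disj r B R ω)
      (Finset.union_subset (csS_sub r B true R ω) (csS_sub r B false R ω)) lab
      (by
        intro j hj
        simp only [lab] at hj
        split_ifs at hj with a b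
        · simp at hj
        · simp at hj
        · exact csS_lab a b)
      (by
        intro j hj
        simp only [lab] at hj
        split_ifs at hj with a b
        · simp at hj
        · refine csS_lab a ?_
          rw [b]
          simp [cslb]
        · simp at hj)
      (by
        intro i j hij hi hj
        rw [Finset.disjoint_union_right]
        exact ⟨csS_act true hij ((hlab0 i).mp hi) ((hlab0 j).mp hj),
          csS_act false hij ((hlab0 i).mp hi) ((hlab0 j).mp hj)⟩)
    refine hcut.trans ?_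
    rw [← Real.exp_sum]
    refine Real.exp_le_exp.mpr ?_
    rw [← Finset.mul_sum]
    have hs : ∑ j ∈ univ.filter (fun j => lab j = 0),
        dft (csS r B true R ω) (csS r B false R ω) (f j) = ∑ j,
        if csact ω j then dft (csS r B true R ω) (csS r B false R ω) (f j) else 0 := by
      rw [Finset.sum_filter]
      exact Finset.sum_congr rfl fun j _ => if_congr (hlab0 j) rfl rfl
    rw [hs]
    have hs2 : ∑ j, h j R ≤ ∑ j,
        if csact ω j then dft (csS r B true R ω) (csS r B false R ω) (f j) else 0 := by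
      refine le_trans (le_of_eq ?_) hω
      rw [avg_sum]
    have hc : 0 ≤ 1 / (2 * (r : ℝ)) := by positivity
    have := mul_le_mul_of_nonneg_left hs2 hc
    linarith
  -- the product over the blocks
  have hdep : ∀ j, Dep (E := E) (Ω := fun _ => Bool) (B j) (h j) := by
    intro j R R' hRR
    show (avg fun ω : E ⊕ J → CsT r =>
      if csact ω j then dft (csS r B true R ω) (csS r B false R ω) (f j) else 0) =
      avg fun ω : E ⊕ J → CsT r =>
      if csact ω j then dft (csS r B true R' ω) (csS r B false R' ω) (f j) else 0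
    congr 1
    funext ω
    by_cases hj : csact ω j
    · rw [if_pos hj, if_pos hj, csG_cut (hF.dep j) hj, csG_cut (hF.dep j) hj]
      exact csG_congr _ _ _ _ fun e he => csk_congr (hRR e he) rfl fun _ _ _ => rfl
    · rw [if_neg hj, if_neg hj]
  have hfin := finner (E := E) (Ω := fun _ => Bool) r B hF.rd
    (fun j R => Real.exp (-(1 / (2 * r)) * h j R)) (fun j R => (Real.exp_pos _).le)
    (fun j R R' hRR => by
      show Real.exp (-(1 / (2 * r)) * h j R) = Real.exp (-(1 / (2 * r)) * h j R')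
      rw [hdep j R R' hRR])
  have h1 : ε ≤ avg fun R : E → Bool => ∏ j, Real.exp (-(1 / (2 * r)) * h j R) :=
    hSh.trans (avg_mono hL)
  have h2 : ε ^ r ≤ ∏ j, avg fun R : E → Bool => Real.exp (-(1 / (2 * r)) * h j R) ^ r :=
    (pow_le_pow_left₀ hε.le h1 r).trans hfin
  have hDD : ∀ j, avg (h j) = 1 / 2 * DD (2 * 4 ^ (r - 1)) (f j) := fun j =>
    cs_id hr (hF.dep j) hF.rd fun i hi => hF.lin i j hi
  have h3 : ∀ j, (avg fun R : E → Bool => Real.exp (-(1 / (2 * r)) * h j R) ^ r) ≤
      Real.exp (-(3 / 16) * DD (2 * 4 ^ (r - 1)) (f j)) := by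
    intro j
    have e1 : ∀ R, Real.exp (-(1 / (2 * r)) * h j R) ^ r ≤ 1 - 3 / 8 * h j R := by
      intro R
      rw [← Real.exp_nat_mul]
      have : (r : ℝ) * (-(1 / (2 * r)) * h j R) = -(h j R / 2) := by
        field_simp
      rw [this]
      exact cs_exp (hh0 j R) (hh1 j R)
    have e2 : (avg fun R : E → Bool => 1 - 3 / 8 * h j R) = 1 - 3 / 8 * avg (h j) := by
      rw [avg_sub, avg_const, avg_mul_left]
    refine (avg_mono e1).trans ?_
    rw [e2, hDD j]
    have e3 := Real.add_one_le_exp (-(3 / 16) * DD (2 * 4 ^ (r - 1)) (f j))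
    linarith
  have h4 : ε ^ r ≤ Real.exp (-(3 / 16) * ∑ j, DD (2 * 4 ^ (r - 1)) (f j)) := by
    refine h2.trans ?_
    rw [Finset.mul_sum, Real.exp_sum]
    exact Finset.prod_le_prod (fun j _ => avg_nonneg fun R => by positivity) fun j _ => h3 j
  have h5 := Real.log_le_log (by positivity) h4
  rw [Real.log_exp, Real.log_pow] at h5
  rw [one_div, Real.log_inv]
  nlinarith

end Pool.Agent.MP_ca1109_lc.Ov
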