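import Pool.Agent.MP_ca1109_lc.Ov.ME
import Pool.Agent.MP_ca1109_lc.Xp.SPb

/-!
# Row ES: functions of the coordinates against functions of few sets
-/

namespace Pool.Agent.MP_ca1109_lc.Ov

open Finset Pool.Agent.H66 Pool.Agent.MP_ca1109_lc.Mpg Pool.Agent.MP_ca1109_lc.Agp
  Pool.Agent.MP_ca1109_lc.Xp

variable {E : Type} [Fintype E] [DecidableEq E] {Ω : E → Type} [∀ e, Fintype (Ω e)]
  [∀ e, Nonempty (Ω e)]

/-! ## Inequalities for averages -/

/-- Cauchy's inequality for averages. -/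
theorem es_cs {A : Type*} [Fintype A] (f g : A → ℂ) :
    ‖av fun a => f a * g a‖ ^ 2 ≤ (avg fun a => ‖f a‖ ^ 2) * avg fun a => ‖g a‖ ^ 2 := by
  rcases isEmpty_or_nonempty A with hA | hA
  · simp [av, avg]
  have hc : (0 : ℝ) < Fintype.card A := by exact_mod_cast Fintype.card_pos
  have h1 : ‖av fun a => f a * g a‖ ≤ (∑ a, ‖f a‖ * ‖g a‖) / (Fintype.card A : ℝ) := by
    unfold av
    rw [norm_div, Complex.norm_natCast]
    refine div_le_div_of_nonneg_right ((norm_sum_le _ _).trans (le_of_eq ?_)) hc.le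
    exact Finset.sum_congr rfl fun a _ => norm_mul _ _
  calc ‖av fun a => f a * g a‖ ^ 2 ≤ ((∑ a, ‖f a‖ * ‖g a‖) / (Fintype.card A : ℝ)) ^ 2 :=
        pow_le_pow_left₀ (norm_nonneg _) h1 2
    _ = (∑ a, ‖f a‖ * ‖g a‖) ^ 2 / (Fintype.card A : ℝ) ^ 2 := div_pow _ _ _
    _ ≤ ((∑ a, ‖f a‖ ^ 2) * ∑ a, ‖g a‖ ^ 2) / (Fintype.card A : ℝ) ^ 2 :=
        div_le_div_of_nonneg_right (Finset.sum_mul_sq_le_sq_mul_sq _ _ _) (by positivity)
    _ = _ := by
        unfold avg
        rw [div_mul_div_comm, sq (Fintype.card A : ℝ)]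

theorem es_jensen {A : Type*} [Fintype A] [Nonempty A] (g : A → ℂ) :
    ‖av g‖ ^ 2 ≤ avg fun a => ‖g a‖ ^ 2 := by
  have h := es_cs (fun _ : A => (1 : ℂ)) g
  simp only [one_mul, norm_one, one_pow] at h
  rw [avg_const, one_mul] at h
  exact h

/-- Minkowski's inequality for averages. -/
theorem es_mink {A : Type*} [Fintype A] (p q : A → ℝ) :
    Real.sqrt (avg fun a => (p a + q a) ^ 2) ≤
      Real.sqrt (avg fun a => p a ^ 2) + Real.sqrt (avg fun a => q a ^ 2) := by
  rcases isEmpty_or_nonempty A with hA | hA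
  · simp [avg]
  have hP : 0 ≤ avg fun a => p a ^ 2 := avg_nonneg fun a => sq_nonneg _
  have hQ : 0 ≤ avg fun a => q a ^ 2 := avg_nonneg fun a => sq_nonneg _
  rw [Real.sqrt_le_left (by positivity)]
  have hc : (0 : ℝ) < Fintype.card A := by exact_mod_cast Fintype.card_pos
  have h1 : (avg fun a => (p a + q a) ^ 2) = (avg fun a => p a ^ 2) +
      ((avg fun a => q a ^ 2) + 2 * avg fun a => p a * q a) := by
    rw [← avg_mul_left, ← avg_add, ← avg_add]
    congr 1
    funext a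
    ring
  have h2 : (avg fun a => p a * q a) ^ 2 ≤ (avg fun a => p a ^ 2) * avg fun a => q a ^ 2 := by
    unfold avg
    rw [div_pow, div_mul_div_comm, ← sq (Fintype.card A : ℝ)]
    exact div_le_div_of_nonneg_right (Finset.sum_mul_sq_le_sq_mul_sq _ _ _) (by positivity)
  have h3 : (avg fun a => p a * q a) ≤ Real.sqrt (avg fun a => p a ^ 2) *
      Real.sqrt (avg fun a => q a ^ 2) := by
    rw [← Real.sqrt_mul hP]
    exact Real.le_sqrt_of_sq_le h2
  have h4 : (Real.sqrt (avg fun a => p a ^ 2) + Real.sqrt (avg fun a => q a ^ 2)) ^ 2 =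
      (avg fun a => p a ^ 2) + ((avg fun a => q a ^ 2) +
        2 * (Real.sqrt (avg fun a => p a ^ 2) * Real.sqrt (avg fun a => q a ^ 2))) := by
    rw [add_sq, Real.sq_sqrt hP, Real.sq_sqrt hQ]
    ring
  rw [h1, h4]
  linarith

/-! ## Sh -/

theorem Sh_le (F : (∀ e, Ω e) → ℂ) : Sh F ≤ avg fun x => ‖F x‖ ^ 2 := by
  unfold Sh
  refine avg_le fun R => ?_
  refine (avg_mono fun x => es_jensen fun y : ∀ e, Ω e => F (mix (tr R) x y)).trans (le_of_eq ?_)
  exact avg_mix (tr R) fun x => ‖F x‖ ^ 2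

theorem Sh_ge (F : (∀ e, Ω e) → ℂ) : ‖av F‖ ^ 2 ≤ Sh F := by
  unfold Sh
  have h : ∀ R : E → Bool, ‖av F‖ ^ 2 ≤
      avg fun x : ∀ e, Ω e => ‖av fun y : ∀ e, Ω e => F (mix (tr R) x y)‖ ^ 2 := by
    intro R
    rw [← av_mix (tr R) F]
    exact es_jensen _
  calc ‖av F‖ ^ 2 = avg fun _ : E → Bool => ‖av F‖ ^ 2 := (avg_const _).symm
    _ ≤ _ := avg_mono h

omit [∀ e, Nonempty (Ω e)] in
theorem es_av_sub (f g : (∀ e, Ω e) → ℂ) : (av fun y => f y - g y) = av f - av g := by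
  unfold av
  rw [Finset.sum_sub_distrib, sub_div]

theorem Sh_sqrt (F G : (∀ e, Ω e) → ℂ) :
    Real.sqrt (Sh F) ≤ Real.sqrt (Sh G) + Real.sqrt (avg fun x => ‖F x - G x‖ ^ 2) := by
  have h0 : ∀ F : (∀ e, Ω e) → ℂ, Sh F = avg fun p : (E → Bool) × (∀ e, Ω e) =>
      ‖av fun y : ∀ e, Ω e => F (mix (tr p.1) p.2 y)‖ ^ 2 := fun F =>
    (avg_prod fun (R : E → Bool) (x : ∀ e, Ω e) =>
      ‖av fun y : ∀ e, Ω e => F (mix (tr R) x y)‖ ^ 2).symm
  have h1 : Sh F ≤ avg fun p : (E → Bool) × (∀ e, Ω e) =>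
      (‖av fun y : ∀ e, Ω e => G (mix (tr p.1) p.2 y)‖ +
        ‖av fun y : ∀ e, Ω e => F (mix (tr p.1) p.2 y) - G (mix (tr p.1) p.2 y)‖) ^ 2 := by
    rw [h0]
    refine avg_mono fun p => pow_le_pow_left₀ (norm_nonneg _) ?_ 2
    rw [es_av_sub (fun y => F (mix (tr p.1) p.2 y)) fun y => G (mix (tr p.1) p.2 y)]
    have := norm_add_le (av fun y : ∀ e, Ω e => G (mix (tr p.1) p.2 y))
      ((av fun y : ∀ e, Ω e => F (mix (tr p.1) p.2 y)) -
        av fun y : ∀ e, Ω e => G (mix (tr p.1) p.2 y))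
    rwa [add_sub_cancel] at this
  refine (Real.sqrt_le_sqrt h1).trans ((es_mink _ _).trans ?_)
  rw [← h0 G]
  refine add_le_add le_rfl (Real.sqrt_le_sqrt ?_)
  have h2 := h0 fun x => F x - G x
  rw [← h2]
  exact Sh_le _

/-! ## Coordinates -/

/-- The average of a product of functions of the coordinates. -/
theorem es_prod (h : ∀ e, Ω e → ℂ) : (av fun x : ∀ e, Ω e => ∏ e, h e (x e)) = ∏ e, av (h e) := by
  unfold av
  rw [Finset.prod_div_distrib, Fintype.card_pi, Nat.cast_prod, Finset.prod_univ_sum]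
  congr 1

/-- The average of a function of one coordinate. -/
theorem es_coord (e : E) (g : Ω e → ℂ) : (av fun x : ∀ e, Ω e => g (x e)) = av g := by
  have h1 := es_prod (Function.update (fun e' (_ : Ω e') => (1 : ℂ)) e g)
  have h2 : (fun x : ∀ e, Ω e => ∏ e', (Function.update (fun e' (_ : Ω e') => (1 : ℂ)) e g) e'
      (x e')) = fun x => g (x e) := by
    funext x
    rw [Fintype.prod_eq_single e]
    · rw [Function.update_self]
    · intro e' he'
      rw [Function.update_of_ne he']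
  have h3 : ∏ e', av ((Function.update (fun e' (_ : Ω e') => (1 : ℂ)) e g) e') = av g := by
    rw [Fintype.prod_eq_single e]
    · rw [Function.update_self]
    · intro e' he'
      rw [Function.update_of_ne he']
      have hc : (Fintype.card (Ω e') : ℂ) ≠ 0 := by exact_mod_cast Fintype.card_ne_zero
      unfold av
      rw [Finset.sum_const, Finset.card_univ, nsmul_eq_mul, mul_one, div_self hc]
  rw [h2, h3] at h1
  exact h1

theorem es_indep {A A' : Finset E} (hd : Disjoint A A') {f g : (∀ e, Ω e) → ℂ} (hf : Dep A f)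
    (hg : Dep A' g) : (av fun x => f x * g x) = av f * av g := by
  have h := av_indep (univ : Finset Bool) (fun b => cond b A A')
    (fun i _ j _ hij => by
      cases i <;> cases j
      · exact absurd rfl hij
      · exact hd.symm
      · exact hd
      · exact absurd rfl hij)
    (fun b => cond b f g) (fun i _ => by
      cases i
      · exact hg
      · exact hf)
  simp only [Fintype.prod_bool, cond_true, cond_false] at h
  exact h

/-! ## The expansion -/

/-- The centred factors for the coordinates in `S`, the means for the others in `R`. -/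
noncomputable def wS (w : ∀ e, Ω e → ℂ) (R S : Finset E) (y : ∀ e, Ω e) : ℂ :=
  (∏ e ∈ S, (w e (y e) - av (w e))) * ∏ e ∈ R \ S, av (w e)

omit [∀ e, Nonempty (Ω e)] in
theorem es_dep_mono {A A' : Finset E} (h : A ⊆ A') {f : (∀ e, Ω e) → ℂ} (hf : Dep A f) :
    Dep A' f := fun x y hxy => hf x y fun e he => hxy e (h he)

omit [Fintype E] [DecidableEq E] [∀ e, Fintype (Ω e)] [∀ e, Nonempty (Ω e)] in
theorem es_dep_mul {A : Finset E} {f g : (∀ e, Ω e) → ℂ} (hf : Dep A f) (hg : Dep A g) :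
    Dep A fun y => f y * g y := fun x y h => by
  show f x * g x = f y * g y
  rw [hf x y h, hg x y h]

omit [∀ e, Nonempty (Ω e)] in
theorem es_dep_prod (w : ∀ e, Ω e → ℂ) (S : Finset E) :
    Dep S fun y : ∀ e, Ω e => ∏ e ∈ S, (w e (y e) - av (w e)) := fun x y h =>
  Finset.prod_congr rfl fun e he => by rw [h e he]

omit [∀ e, Nonempty (Ω e)] in
theorem es_mean_sub (e : E) [Nonempty (Ω e)] (w : Ω e → ℂ) : (av fun a => w a - av w) = 0 := by
  have hc : (Fintype.card (Ω e) : ℂ) ≠ 0 := by exact_mod_cast Fintype.card_ne_zero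
  have h1 : (av fun a => w a - av w) = av w - av w := by
    conv_lhs => unfold av
    rw [Finset.sum_sub_distrib, Finset.sum_const, Finset.card_univ, nsmul_eq_mul, sub_div,
      mul_div_cancel_left₀ _ hc]
    rfl
  rw [h1, sub_self]

/-- A centred factor of a coordinate which does not occur elsewhere kills the average. -/
theorem es_kill (w : ∀ e, Ω e → ℂ) (R : Finset E) {S C : Finset E} {g : (∀ e, Ω e) → ℂ}
    (hg : Dep C g) {e : E} (he : e ∈ S) (heC : e ∉ C) : (av fun y => wS w R S y * g y) = 0 := by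
  have h1 : ∀ y : ∀ e, Ω e, wS w R S y * g y = (w e (y e) - av (w e)) *
      ((∏ e' ∈ S.erase e, (w e' (y e') - av (w e'))) * (∏ e' ∈ R \ S, av (w e')) * g y) := by
    intro y
    unfold wS
    rw [← Finset.mul_prod_erase S _ he]
    ring
  rw [show (fun y => wS w R S y * g y) = fun y => (w e (y e) - av (w e)) *
      ((∏ e' ∈ S.erase e, (w e' (y e') - av (w e'))) * (∏ e' ∈ R \ S, av (w e')) * g y) from
    funext h1, es_indep (A := {e}) (A' := (S.erase e) ∪ C)]
  · rw [es_coord e fun a => w e a - av (w e), es_mean_sub e (w e), zero_mul]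
  · rw [Finset.disjoint_singleton_left, Finset.mem_union]
    rintro (h | h)
    · exact (Finset.mem_erase.1 h).1 rfl
    · exact heC h
  · intro x y h
    show w e (x e) - av (w e) = w e (y e) - av (w e)
    rw [h e (Finset.mem_singleton_self e)]
  · refine es_dep_mul (es_dep_mul ?_ fun _ _ _ => rfl) ?_
    · exact es_dep_mono Finset.subset_union_left (es_dep_prod w _)
    · exact es_dep_mono Finset.subset_union_right hg

omit [∀ e, Nonempty (Ω e)] in
/-- The expansion of the product. -/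
theorem es_expand (w : ∀ e, Ω e → ℂ) (R : Finset E) (y : ∀ e, Ω e) :
    ∏ e ∈ R, w e (y e) = ∑ S ∈ R.powerset, wS w R S y := by
  have h := Finset.prod_add (fun e => w e (y e) - av (w e)) (fun e => av (w e)) R
  simp only [sub_add_cancel] at h
  exact h

omit [Fintype E] [DecidableEq E] [∀ e, Fintype (Ω e)] [∀ e, Nonempty (Ω e)] in
theorem es_dep_conj {A : Finset E} {f : (∀ e, Ω e) → ℂ} (hf : Dep A f) :
    Dep A fun y => (starRingEnd ℂ) (f y) := fun x y h => by
  show (starRingEnd ℂ) (f x) = (starRingEnd ℂ) (f y)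
  rw [hf x y h]

/-- The variance of a unimodular function. -/
theorem es_var {A : Type*} [Fintype A] [Nonempty A] {f : A → ℂ} (hf : ∀ a, ‖f a‖ = 1) :
    (av fun a => (f a - av f) * (starRingEnd ℂ) (f a - av f)) = ((1 - ‖av f‖ ^ 2 : ℝ) : ℂ) := by
  have hc : (Fintype.card A : ℂ) ≠ 0 := by exact_mod_cast Fintype.card_ne_zero
  have h1 : ∀ a, (f a - av f) * (starRingEnd ℂ) (f a - av f) =
      (1 + av f * (starRingEnd ℂ) (av f)) - (f a * (starRingEnd ℂ) (av f) +
        av f * (starRingEnd ℂ) (f a)) := by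
    intro a
    have h2 : f a * (starRingEnd ℂ) (f a) = 1 := by
      rw [Complex.mul_conj', hf a]
      norm_num
    rw [map_sub]
    linear_combination h2
  have h4 : (av fun a => (starRingEnd ℂ) (f a)) = (starRingEnd ℂ) (av f) := by
    unfold av
    rw [map_div₀, map_sum, map_natCast]
  have h5 : (av fun a => f a * (starRingEnd ℂ) (av f)) = av f * (starRingEnd ℂ) (av f) := by
    have : (fun a => f a * (starRingEnd ℂ) (av f)) = fun a => (starRingEnd ℂ) (av f) * f a := by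
      funext a
      ring
    rw [this, spb_av_mul, mul_comm]
  have h6 : (av fun a => av f * (starRingEnd ℂ) (f a)) = av f * (starRingEnd ℂ) (av f) := by
    rw [spb_av_mul, h4]
  have h7 : ∀ (c : ℂ) (g h : A → ℂ), (av fun a => c - (g a + h a)) = c - (av g + av h) := by
    intro c g h
    unfold av
    rw [Finset.sum_sub_distrib, Finset.sum_add_distrib, Finset.sum_const, Finset.card_univ,
      nsmul_eq_mul, sub_div, mul_div_cancel_left₀ _ hc, add_div]
  rw [show (fun a => (f a - av f) * (starRingEnd ℂ) (f a - av f)) = fun a =>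
      (1 + av f * (starRingEnd ℂ) (av f)) - (f a * (starRingEnd ℂ) (av f) +
        av f * (starRingEnd ℂ) (f a)) from funext h1,
    h7 _ (fun a => f a * (starRingEnd ℂ) (av f)) (fun a => av f * (starRingEnd ℂ) (f a)), h5, h6,
    Complex.mul_conj']
  push_cast
  ring

/-- Orthogonality. -/
theorem es_orth (w : ∀ e, Ω e → ℂ) (R : Finset E) {S S' : Finset E} (h : S ≠ S') :
    (av fun y => wS w R S y * (starRingEnd ℂ) (wS w R S' y)) = 0 := by
  have hon : ∀ T, Dep T (wS w R T) := fun T => es_dep_mul (es_dep_prod w T) fun _ _ _ => rfl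
  by_cases h1 : S ⊆ S'
  · obtain ⟨e, he, he'⟩ : ∃ e ∈ S', e ∉ S := by
      by_contra hc
      push Not at hc
      exact h (Finset.Subset.antisymm h1 hc)
    have h2 : (av fun y => wS w R S y * (starRingEnd ℂ) (wS w R S' y)) =
        (starRingEnd ℂ) (av fun y => wS w R S' y * (starRingEnd ℂ) (wS w R S y)) := by
      unfold av
      rw [map_div₀, map_sum, map_natCast]
      congr 1
      refine Finset.sum_congr rfl fun y _ => ?_
      rw [map_mul, Complex.conj_conj, mul_comm]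
    rw [h2, es_kill w R (es_dep_conj (hon S)) he he', map_zero]
  · obtain ⟨e, he, he'⟩ := Finset.not_subset.1 h1
    exact es_kill w R (es_dep_conj (hon S')) he he'

/-- The norm of the components. -/
theorem es_norm {w : ∀ e, Ω e → ℂ} (hw1 : ∀ e a, ‖w e a‖ = 1) (R S : Finset E) :
    (av fun y => wS w R S y * (starRingEnd ℂ) (wS w R S y)) =
      (((∏ e ∈ S, (1 - ‖av (w e)‖ ^ 2)) * ∏ e ∈ R \ S, ‖av (w e)‖ ^ 2 : ℝ) : ℂ) := by
  have h1 : ∀ y : ∀ e, Ω e, wS w R S y * (starRingEnd ℂ) (wS w R S y) =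
      (∏ e ∈ R \ S, (((‖av (w e)‖ ^ 2 : ℝ)) : ℂ)) *
        ∏ e ∈ S, (w e (y e) - av (w e)) * (starRingEnd ℂ) (w e (y e) - av (w e)) := by
    intro y
    unfold wS
    rw [map_mul, map_prod, map_prod, Finset.prod_mul_distrib]
    have h2 : ∏ e ∈ R \ S, (((‖av (w e)‖ ^ 2 : ℝ)) : ℂ) =
        (∏ e ∈ R \ S, av (w e)) * ∏ e ∈ R \ S, (starRingEnd ℂ) (av (w e)) := by
      rw [← Finset.prod_mul_distrib]
      refine Finset.prod_congr rfl fun e _ => ?_
      rw [Complex.mul_conj']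
      push_cast
      rfl
    rw [h2]
    ring
  rw [show (fun y => wS w R S y * (starRingEnd ℂ) (wS w R S y)) = fun y =>
      (∏ e ∈ R \ S, (((‖av (w e)‖ ^ 2 : ℝ)) : ℂ)) *
        ∏ e ∈ S, (w e (y e) - av (w e)) * (starRingEnd ℂ) (w e (y e) - av (w e)) from funext h1,
    spb_av_mul]
  have h3 : (av fun y : ∀ e, Ω e =>
      ∏ e ∈ S, (w e (y e) - av (w e)) * (starRingEnd ℂ) (w e (y e) - av (w e))) =
      ∏ e ∈ S, av fun y : ∀ e, Ω e =>
        (w e (y e) - av (w e)) * (starRingEnd ℂ) (w e (y e) - av (w e)) := by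
    refine av_indep S (fun e => {e}) (fun i _ j _ hij => ?_) _ fun e _ => ?_
    · rw [Finset.disjoint_singleton]
      exact hij
    · intro x y h
      simp only [h e (Finset.mem_singleton_self e)]
  have h4 : ∀ e, (av fun y : ∀ e, Ω e =>
      (w e (y e) - av (w e)) * (starRingEnd ℂ) (w e (y e) - av (w e))) =
      ((1 - ‖av (w e)‖ ^ 2 : ℝ) : ℂ) := by
    intro e
    rw [es_coord e fun a => (w e a - av (w e)) * (starRingEnd ℂ) (w e a - av (w e))]
    exact es_var (hw1 e)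
  rw [h3, Finset.prod_congr rfl fun e _ => h4 e]
  push_cast
  ring

/-- The second moment of the part in `𝒮`. -/
theorem es_second {w : ∀ e, Ω e → ℂ} (hw1 : ∀ e a, ‖w e a‖ = 1) (R : Finset E)
    (𝒮 : Finset (Finset E)) : (avg fun y => ‖∑ S ∈ 𝒮, wS w R S y‖ ^ 2) =
      ∑ S ∈ 𝒮, (∏ e ∈ S, (1 - ‖av (w e)‖ ^ 2)) * ∏ e ∈ R \ S, ‖av (w e)‖ ^ 2 := by
  have h1 : (((avg fun y => ‖∑ S ∈ 𝒮, wS w R S y‖ ^ 2 : ℝ)) : ℂ) =
      ((∑ S ∈ 𝒮, (∏ e ∈ S, (1 - ‖av (w e)‖ ^ 2)) * ∏ e ∈ R \ S, ‖av (w e)‖ ^ 2 : ℝ) : ℂ) := by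
    rw [← spb_avg_ofReal]
    have h2 : ∀ y, (((‖∑ S ∈ 𝒮, wS w R S y‖ ^ 2 : ℝ)) : ℂ) =
        ∑ S ∈ 𝒮, ∑ S' ∈ 𝒮, wS w R S y * (starRingEnd ℂ) (wS w R S' y) := by
      intro y
      push_cast
      rw [← Complex.mul_conj', map_sum, Finset.sum_mul_sum]
    rw [show (fun y => (((‖∑ S ∈ 𝒮, wS w R S y‖ ^ 2 : ℝ)) : ℂ)) = fun y =>
      ∑ S ∈ 𝒮, ∑ S' ∈ 𝒮, wS w R S y * (starRingEnd ℂ) (wS w R S' y) from funext h2, spb_av_sum]
    push_cast
    refine Finset.sum_congr rfl fun S hS => ?_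
    rw [spb_av_sum, Finset.sum_eq_single_of_mem S hS]
    · rw [es_norm hw1]
      push_cast
      rfl
    · intro S' _ hne
      exact es_orth w R (Ne.symm hne)
  exact_mod_cast h1

omit [Fintype E] [∀ e, Nonempty (Ω e)] [∀ e, Fintype (Ω e)] in
theorem es_cov_mono {J : Type} {B : J → Finset E} {D : ℕ} {S C : Finset E} (h : S ⊆ C)
    (hC : Cov B D C) : Cov B D S := by
  obtain ⟨K, hK, hK'⟩ := hC
  exact ⟨K, hK, h.trans hK'⟩

open Classical in
/-- The bound for fixed `R` and `x`. -/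
theorem es_fixed {J : Type} (B : J → Finset E) (D : ℕ) {w : ∀ e, Ω e → ℂ}
    (hw1 : ∀ e a, ‖w e a‖ = 1) (q : ℕ) (u : Fin q → (∀ e, Ω e) → ℂ) (b : Fin q → Finset J)
    (hb : ∀ i, (b i).card ≤ D ∧ Dep ((b i).biUnion B) (u i)) (R : Finset E) (x : ∀ e, Ω e) :
    ‖av fun y : ∀ e, Ω e => (∏ e, w e (mix R x y e)) * ∑ i, u i (mix R x y)‖ ^ 2 ≤
      (∑ S ∈ R.powerset.filter fun S => Cov B D S, (∏ e ∈ S, (1 - ‖av (w e)‖ ^ 2)) *
        ∏ e ∈ R \ S, ‖av (w e)‖ ^ 2) * avg fun y : ∀ e, Ω e => ‖∑ i, u i (mix R x y)‖ ^ 2 := by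
  -- split the product
  have hprod : ∀ y : ∀ e, Ω e, ∏ e, w e (mix R x y e) =
      (∏ e ∈ univ \ R, w e (x e)) * ∏ e ∈ R, w e (y e) := by
    intro y
    rw [← Finset.prod_sdiff (Finset.subset_univ R)]
    congr 1
    · refine Finset.prod_congr rfl fun e he => ?_
      unfold mix
      rw [if_neg (Finset.mem_sdiff.1 he).2]
    · refine Finset.prod_congr rfl fun e he => ?_
      unfold mix
      rw [if_pos he]
  have hon : ∀ i, Dep ((b i).biUnion B) fun y => u i (mix R x y) := by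
    intro i y y' h
    refine (hb i).2 _ _ fun e he => ?_
    unfold mix
    by_cases hR : e ∈ R
    · rw [if_pos hR, if_pos hR, h e he]
    · rw [if_neg hR, if_neg hR]
  -- only the covered sets contribute
  have hred : (av fun y : ∀ e, Ω e => (∏ e ∈ R, w e (y e)) * ∑ i, u i (mix R x y)) =
      av fun y => (∑ S ∈ R.powerset.filter fun S => Cov B D S, wS w R S y) *
        ∑ i, u i (mix R x y) := by
    have h1 : ∀ (𝒯 : Finset (Finset E)), (av fun y => (∑ S ∈ 𝒯, wS w R S y) *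
        ∑ i, u i (mix R x y)) = ∑ S ∈ 𝒯, ∑ i, av fun y => wS w R S y * u i (mix R x y) := by
      intro 𝒯
      have h2 : (fun y => (∑ S ∈ 𝒯, wS w R S y) * ∑ i, u i (mix R x y)) = fun y =>
          ∑ S ∈ 𝒯, ∑ i, wS w R S y * u i (mix R x y) := by
        funext y
        rw [Finset.sum_mul_sum]
      rw [h2, spb_av_sum]
      exact Finset.sum_congr rfl fun S _ => spb_av_sum _ _
    have h3 : (fun y : ∀ e, Ω e => (∏ e ∈ R, w e (y e)) * ∑ i, u i (mix R x y)) = fun y =>
        (∑ S ∈ R.powerset, wS w R S y) * ∑ i, u i (mix R x y) := by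
      funext y
      rw [es_expand]
    rw [h3, h1, h1]
    symm
    refine Finset.sum_subset (Finset.filter_subset _ _) fun S hS hS' => ?_
    refine Finset.sum_eq_zero fun i _ => ?_
    have h4 : ¬ S ⊆ (b i).biUnion B := fun h =>
      hS' (Finset.mem_filter.2 ⟨hS, ⟨b i, (hb i).1, h⟩⟩)
    obtain ⟨e, he, he'⟩ := Finset.not_subset.1 h4
    exact es_kill w R (hon i) he he'
  have h1 : (av fun y : ∀ e, Ω e => (∏ e, w e (mix R x y e)) * ∑ i, u i (mix R x y)) =
      (∏ e ∈ univ \ R, w e (x e)) *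
        av fun y => (∑ S ∈ R.powerset.filter fun S => Cov B D S, wS w R S y) *
          ∑ i, u i (mix R x y) := by
    rw [← hred, ← spb_av_mul]
    congr 1
    funext y
    rw [hprod y, mul_assoc]
  have h2 : ‖∏ e ∈ univ \ R, w e (x e)‖ = 1 := by
    rw [norm_prod]
    exact Finset.prod_eq_one fun e _ => hw1 e _
  rw [h1, norm_mul, h2, one_mul]
  refine (es_cs _ _).trans (le_of_eq ?_)
  rw [es_second hw1]

/-! ## The average over `R` -/

omit [∀ e, Fintype (Ω e)] [∀ e, Nonempty (Ω e)] in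
/-- Sums over pairs of sets. -/
theorem es_pairs (g : Finset E → Finset E → ℝ) :
    ∑ R : Finset E, ∑ S ∈ R.powerset, g S (R \ S) =
      ∑ S : Finset E, ∑ T ∈ Sᶜ.powerset, g S T := by
  rw [Finset.sum_comm' (t' := univ) (s' := fun S => univ.filter fun R => S ⊆ R)]
  · refine Finset.sum_congr rfl fun S _ => ?_
    refine Finset.sum_bij' (fun R _ => R \ S) (fun T _ => S ∪ T) ?_ ?_ ?_ ?_ ?_
    · intro R _
      refine Finset.mem_powerset.2 fun e he => ?_
      exact Finset.mem_compl.2 (Finset.mem_sdiff.1 he).2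
    · intro T _
      exact Finset.mem_filter.2 ⟨Finset.mem_univ _, Finset.subset_union_left⟩
    · intro R hR
      exact Finset.union_sdiff_of_subset (Finset.mem_filter.1 hR).2
    · intro T hT
      rw [Finset.union_sdiff_cancel_left]
      rw [Finset.disjoint_left]
      intro e he he'
      exact Finset.mem_compl.1 (Finset.mem_powerset.1 hT he') he
    · intro R _
      rfl
  · intro R S
    simp

omit [∀ e, Fintype (Ω e)] [∀ e, Nonempty (Ω e)] in
theorem es_tr (G : Finset E → ℝ) : (avg fun R : E → Bool => G (tr R)) = avg G := by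
  have hb : Function.Bijective (tr : (E → Bool) → Finset E) := by
    constructor
    · intro R R' h
      funext e
      have h1 : e ∈ tr R ↔ e ∈ tr R' := by rw [h]
      unfold tr at h1
      simp only [Finset.mem_filter, Finset.mem_univ, true_and] at h1
      cases hR : R e <;> cases hR' : R' e <;> simp_all
    · intro S
      refine ⟨fun e => decide (e ∈ S), ?_⟩
      ext e
      simp [tr]
  exact avg_equiv (Equiv.ofBijective _ hb) G

open Classical in
omit [∀ e, Fintype (Ω e)] [∀ e, Nonempty (Ω e)] in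
theorem es_avg {J : Type} (B : J → Finset E) (D : ℕ) (v : E → ℝ) :
    (avg fun R : Finset E => ∑ S ∈ R.powerset.filter fun S => Cov B D S, (∏ e ∈ S, v e) *
      ∏ e ∈ R \ S, (1 - v e)) = pc B D (fun e => v e / 2) := by
  have h1 : ∑ R : Finset E, ∑ S ∈ R.powerset.filter (fun S => Cov B D S), (∏ e ∈ S, v e) *
      ∏ e ∈ R \ S, (1 - v e) = ∑ S : Finset E, ∑ T ∈ Sᶜ.powerset,
        if Cov B D S then (∏ e ∈ S, v e) * ∏ e ∈ T, (1 - v e) else 0 := by
    have h2 := es_pairs fun S T : Finset E =>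
      if Cov B D S then (∏ e ∈ S, v e) * ∏ e ∈ T, (1 - v e) else 0
    rw [← h2]
    refine Finset.sum_congr rfl fun R _ => ?_
    rw [Finset.sum_filter]
  unfold avg
  rw [h1]
  unfold pc wt
  rw [Finset.sum_div]
  refine Finset.sum_congr rfl fun S _ => ?_
  by_cases hS : Cov B D S
  · simp only [if_pos hS]
    rw [← Finset.mul_sum]
    have h2 : ∑ T ∈ Sᶜ.powerset, ∏ e ∈ T, (1 - v e) = ∏ e ∈ Sᶜ, (1 + (1 - v e)) := by
      rw [Finset.prod_one_add]
    rw [h2]
    have h3 : (Fintype.card (Finset E) : ℝ) = (∏ _e ∈ S, (2 : ℝ)) * ∏ _e ∈ Sᶜ, (2 : ℝ) := by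
      rw [Finset.prod_mul_prod_compl, Fintype.card_finset, Finset.prod_const, Finset.card_univ]
      push_cast
      rfl
    rw [h3, mul_div_mul_comm, ← Finset.prod_div_distrib, ← Finset.prod_div_distrib]
    congr 1
    refine Finset.prod_congr rfl fun e _ => ?_
    ring
  · simp only [if_neg hS, Finset.sum_const_zero, zero_div]

theorem es_core {J : Type} [Fintype J] (B : J → Finset E) (D : ℕ) (w : ∀ e, Ω e → ℂ)
    (hw : ∀ e a, ‖w e a‖ = 1) (q : ℕ) (u : Fin q → (∀ e, Ω e) → ℂ) (b : Fin q → Finset J)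
    (hb : ∀ i, (b i).card ≤ D ∧ Dep ((b i).biUnion B) (u i)) :
    Sh (fun x => (∏ e, w e (x e)) * ∑ i, u i x) ≤
      (avg fun x => ‖∑ i, u i x‖ ^ 2) * pc B D (fun e => (1 - ‖av (w e)‖ ^ 2) / 2) := by
  classical
  have h1 : ∀ R : Finset E, (avg fun x : ∀ e, Ω e =>
      ‖av fun y : ∀ e, Ω e => (∏ e, w e (mix R x y e)) * ∑ i, u i (mix R x y)‖ ^ 2) ≤
      (avg fun x => ‖∑ i, u i x‖ ^ 2) *
        ∑ S ∈ R.powerset.filter fun S => Cov B D S, (∏ e ∈ S, (1 - ‖av (w e)‖ ^ 2)) *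
          ∏ e ∈ R \ S, (1 - (1 - ‖av (w e)‖ ^ 2)) := by
    intro R
    refine (avg_mono fun x => es_fixed B D hw q u b hb R x).trans (le_of_eq ?_)
    rw [avg_mul_left, avg_mix R (fun z => ‖∑ i, u i z‖ ^ 2), mul_comm]
    congr 1
    refine Finset.sum_congr rfl fun S _ => ?_
    congr 1
    exact Finset.prod_congr rfl fun e _ => by ring
  unfold Sh
  rw [es_tr fun R => avg fun x : ∀ e, Ω e =>
    ‖av fun y : ∀ e, Ω e => (∏ e, w e (mix R x y e)) * ∑ i, u i (mix R x y)‖ ^ 2]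
  refine (avg_mono h1).trans (le_of_eq ?_)
  rw [avg_mul_left, es_avg]

end Pool.Agent.MP_ca1109_lc.Ov
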