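import Pool.Agent.MP_ca1109_lc.Ov.Defs

/-!
# Splitting: the cut by a random half against the cut by two small random sets
-/

set_option linter.unusedSectionVars false

namespace Pool.Agent.MP_ca1109_lc.Ov.SPL

open Finset Pool.Agent.H66 Pool.Agent.MP_ca1109_lc.Mpg Pool.Agent.MP_ca1109_lc.Agp
open scoped ComplexConjugate

/-- A mixing operation: `mx A x y` takes the coordinates in `A` from `y`, the others from `x`. -/
structure IsMix {E X : Type} [Fintype E] [DecidableEq E] (mx : Finset E → X → X → X) : Prop where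
  empty : ∀ x y, mx ∅ x y = x
  comp : ∀ A B C x y, mx A (mx B x y) (mx C x y) = mx ((A ∩ C) ∪ (B \ A)) x y
  compl : ∀ A x y, mx Aᶜ x y = mx A y x

section
variable {E X : Type} [Fintype E] [DecidableEq E] [Fintype X]

/-- The box of `f` over the disjoint sets of cells `A`, `A'`. -/
noncomputable def bxM (mx : Finset E → X → X → X) (A A' : Finset E) (f : X → ℂ) (x y : X) : ℂ :=
  f x * conj (f (mx A x y)) * conj (f (mx A' x y)) * f (mx (A ∪ A') x y)

/-- The defect of the cut `A`, `A'`. -/
noncomputable def dfM (mx : Finset E → X → X → X) (A A' : Finset E) (f : X → ℂ) : ℝ :=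
  avg fun x => avg fun y => ‖1 - bxM mx A A' f x y‖ ^ 2 / 2

theorem norm_one_sub_sq {z : ℂ} (hz : ‖z‖ = 1) : ‖1 - z‖ ^ 2 / 2 = 1 - z.re := by
  have h1 : ‖1 - z‖ ^ 2 = 1 - 2 * z.re + ‖z‖ ^ 2 := by
    rw [← Complex.normSq_eq_norm_sq, ← Complex.normSq_eq_norm_sq, Complex.normSq_apply,
      Complex.normSq_apply]
    simp only [Complex.sub_re, Complex.one_re, Complex.sub_im, Complex.one_im]
    ring
  rw [h1, hz]
  ring

theorem norm_bxM {mx : Finset E → X → X → X} {f : X → ℂ} (hf : ∀ x, ‖f x‖ = 1) (A A' : Finset E)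
    (x y : X) : ‖bxM mx A A' f x y‖ = 1 := by
  simp only [bxM, norm_mul, RCLike.norm_conj, hf, mul_one]

/-- The defect is `1 - E bx`. -/
theorem dfM_eq [Nonempty X] {mx : Finset E → X → X → X} {f : X → ℂ} (hf : ∀ x, ‖f x‖ = 1)
    (A A' : Finset E) : dfM mx A A' f = 1 - avg fun x => avg fun y => (bxM mx A A' f x y).re := by
  have h0 : (0 : ℝ) < Fintype.card X := by exact_mod_cast Fintype.card_pos
  unfold dfM avg
  simp only [norm_one_sub_sq (norm_bxM hf A A' _ _), sum_sub_distrib, sub_div, sum_const,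
    card_univ, nsmul_eq_mul, mul_one, div_self h0.ne']

theorem dfM_nonneg (mx : Finset E → X → X → X) (A A' : Finset E) (f : X → ℂ) :
    0 ≤ dfM mx A A' f :=
  avg_nonneg fun _ => avg_nonneg fun _ => by positivity

theorem IsMix.univ {mx : Finset E → X → X → X} (h : IsMix mx) (x y : X) :
    mx Finset.univ x y = y := by
  rw [← compl_empty, h.compl, h.empty]

theorem IsMix.invol {mx : Finset E → X → X → X} (h : IsMix mx) (T : Finset E) (x y : X) :
    mx T (mx T x y) (mx T y x) = x := by
  rw [← h.compl T x y, h.comp]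
  have : (T ∩ Tᶜ) ∪ (T \ T) = ∅ := by simp
  rw [this, h.empty]

/-- The bijection of pairs given by the exchange of the coordinates in `T`. -/
def IsMix.swap {mx : Finset E → X → X → X} (h : IsMix mx) (T : Finset E) : X × X ≃ X × X where
  toFun p := (mx T p.1 p.2, mx T p.2 p.1)
  invFun p := (mx T p.1 p.2, mx T p.2 p.1)
  left_inv p := by simp only [h.invol]
  right_inv p := by simp only [h.invol]

theorem avg_avg_prod (G : X → X → ℝ) :
    (avg fun x => avg fun y => G x y) = (∑ p : X × X, G p.1 p.2) / (Fintype.card X : ℝ) ^ 2 := by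
  unfold avg
  rw [Fintype.sum_prod_type, ← sum_div, div_div, pow_two]

theorem IsMix.avg_swap {mx : Finset E → X → X → X} (h : IsMix mx) (T : Finset E)
    (G : X → X → ℝ) :
    (avg fun x => avg fun y => G (mx T x y) (mx T y x)) = avg fun x => avg fun y => G x y := by
  rw [avg_avg_prod, avg_avg_prod]
  congr 1
  exact Equiv.sum_comp (h.swap T) fun p => G p.1 p.2

theorem IsMix.step {mx : Finset E → X → X → X} (h : IsMix mx) (f : X → ℂ) {A A' T : Finset E}
    (hA : Disjoint A T) (hA' : Disjoint A' T) (x y : X) :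
    bxM mx A A' f (mx T x y) (mx T y x) =
      f (mx T x y) * conj (f (mx (T ∪ A) x y)) * conj (f (mx (T ∪ A') x y)) *
        f (mx (T ∪ (A ∪ A')) x y) := by
  have key : ∀ B : Finset E, Disjoint B T → mx B (mx T x y) (mx T y x) = mx (T ∪ B) x y := by
    intro B hB
    rw [← h.compl T x y, h.comp]
    congr 1
    ext e
    have := Finset.disjoint_left.1 hB
    simp only [mem_union, mem_inter, mem_compl, mem_sdiff]
    constructor
    · rintro (⟨h1, -⟩ | ⟨h1, -⟩)
      · exact Or.inr h1
      · exact Or.inl h1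
    · rintro (h1 | h1)
      · exact Or.inr ⟨h1, fun h2 => this h2 h1⟩
      · exact Or.inl ⟨h1, this h1⟩
  unfold bxM
  rw [key A hA, key A' hA', key (A ∪ A') (Finset.disjoint_union_left.2 ⟨hA, hA'⟩)]

theorem IsMix.df_step {mx : Finset E → X → X → X} (h : IsMix mx) (f : X → ℂ) {A A' T : Finset E}
    (hA : Disjoint A T) (hA' : Disjoint A' T) :
    (avg fun x => avg fun y => ‖1 - f (mx T x y) * conj (f (mx (T ∪ A) x y)) *
      conj (f (mx (T ∪ A') x y)) * f (mx (T ∪ (A ∪ A')) x y)‖ ^ 2 / 2) = dfM mx A A' f := by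
  unfold dfM
  rw [← h.avg_swap T (fun x y => ‖1 - bxM mx A A' f x y‖ ^ 2 / 2)]
  simp only [h.step f hA hA']

end

/-- The product of the second differences of a unimodular array. -/
theorem tele2 (F : ℕ → ℕ → ℂ) (hF : ∀ i k, ‖F i k‖ = 1) (a b : ℕ) :
    ∏ i ∈ range a, ∏ k ∈ range b,
      (F i k * conj (F (i + 1) k) * conj (F i (k + 1)) * F (i + 1) (k + 1)) =
    F 0 0 * conj (F a 0) * conj (F 0 b) * F a b := by
  have hu : ∀ i k, F i k * conj (F i k) = 1 := by
    intro i k
    rw [Complex.mul_conj, Complex.normSq_eq_norm_sq, hF]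
    simp
  have h1 : ∀ i, ∏ k ∈ range b,
      (F i k * conj (F (i + 1) k) * conj (F i (k + 1)) * F (i + 1) (k + 1)) =
      F i 0 * conj (F (i + 1) 0) * conj (F i b) * F (i + 1) b := by
    intro i
    induction b with
    | zero =>
      rw [prod_range_zero]
      calc (1 : ℂ) = (F i 0 * conj (F i 0)) * (F (i + 1) 0 * conj (F (i + 1) 0)) := by
            rw [hu, hu, mul_one]
        _ = _ := by ring
    | succ b ih =>
      rw [prod_range_succ, ih]
      calc F i 0 * conj (F (i + 1) 0) * conj (F i b) * F (i + 1) b *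
          (F i b * conj (F (i + 1) b) * conj (F i (b + 1)) * F (i + 1) (b + 1))
          = (F i b * conj (F i b)) * (F (i + 1) b * conj (F (i + 1) b)) *
            (F i 0 * conj (F (i + 1) 0) * conj (F i (b + 1)) * F (i + 1) (b + 1)) := by ring
        _ = _ := by rw [hu, hu, one_mul, one_mul]
  simp only [h1]
  induction a with
  | zero =>
    rw [prod_range_zero]
    calc (1 : ℂ) = (F 0 0 * conj (F 0 0)) * (F 0 b * conj (F 0 b)) := by
          rw [hu, hu, mul_one]
      _ = _ := by ring
  | succ a ih =>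
    rw [prod_range_succ, ih]
    calc F 0 0 * conj (F a 0) * conj (F 0 b) * F a b *
        (F a 0 * conj (F (a + 1) 0) * conj (F a b) * F (a + 1) b)
        = (F a 0 * conj (F a 0)) * (F a b * conj (F a b)) *
          (F 0 0 * conj (F (a + 1) 0) * conj (F 0 b) * F (a + 1) b) := by ring
      _ = _ := by rw [hu, hu, one_mul, one_mul]

theorem norm_one_sub_prod {ι : Type*} (s : Finset ι) (z : ι → ℂ) (hz : ∀ i ∈ s, ‖z i‖ = 1) :
    ‖1 - ∏ i ∈ s, z i‖ ≤ ∑ i ∈ s, ‖1 - z i‖ := by
  classical
  induction s using Finset.induction_on with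
  | empty => simp
  | insert i s hi ih =>
    rw [prod_insert hi, sum_insert hi]
    have h1 : ‖∏ j ∈ s, z j‖ = 1 := by
      rw [norm_prod]
      exact prod_eq_one fun j hj => hz j (mem_insert_of_mem hj)
    have h2 : 1 - z i * ∏ j ∈ s, z j = (1 - ∏ j ∈ s, z j) + (1 - z i) * ∏ j ∈ s, z j := by ring
    rw [h2]
    refine (norm_add_le _ _).trans ?_
    rw [norm_mul, h1, mul_one, add_comm]
    exact add_le_add le_rfl (ih fun j hj => hz j (mem_insert_of_mem hj))

section
variable {E X : Type} [Fintype E] [DecidableEq E] [Fintype X]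

/-- One colouring: the cut by the two halves against all pairs of colours. -/
theorem split_one {mx : Finset E → X → X → X} (h : IsMix mx) {f : X → ℂ} (hf : ∀ x, ‖f x‖ = 1)
    (m : ℕ) (c : E → Bool × Fin m) :
    dfM mx (univ.filter fun e => (c e).1 = false) (univ.filter fun e => (c e).1 = false)ᶜ f ≤
      (m : ℝ) ^ 2 * ∑ i : Fin m, ∑ k : Fin m,
        dfM mx (univ.filter fun e => c e = (false, i)) (univ.filter fun e => c e = (true, k)) f := by
  classical
  set U : ℕ → Finset E := fun i => univ.filter fun e => (c e).1 = false ∧ ((c e).2 : ℕ) < i with hU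
  set V : ℕ → Finset E := fun k => univ.filter fun e => (c e).1 = true ∧ ((c e).2 : ℕ) < k with hV
  set A : ℕ → Finset E := fun i => univ.filter fun e => (c e).1 = false ∧ ((c e).2 : ℕ) = i with hA
  set B : ℕ → Finset E := fun k => univ.filter fun e => (c e).1 = true ∧ ((c e).2 : ℕ) = k with hB
  have hUs : ∀ i, U (i + 1) = U i ∪ A i := by
    intro i
    ext e
    simp only [hU, hA, mem_union, mem_filter, mem_univ, true_and]
    constructor
    · rintro ⟨h1, h2⟩
      rcases Nat.lt_succ_iff_lt_or_eq.1 h2 with h3 | h3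
      · exact Or.inl ⟨h1, h3⟩
      · exact Or.inr ⟨h1, h3⟩
    · rintro (⟨h1, h2⟩ | ⟨h1, h2⟩)
      · exact ⟨h1, by omega⟩
      · exact ⟨h1, by omega⟩
  have hVs : ∀ k, V (k + 1) = V k ∪ B k := by
    intro k
    ext e
    simp only [hV, hB, mem_union, mem_filter, mem_univ, true_and]
    constructor
    · rintro ⟨h1, h2⟩
      rcases Nat.lt_succ_iff_lt_or_eq.1 h2 with h3 | h3
      · exact Or.inl ⟨h1, h3⟩
      · exact Or.inr ⟨h1, h3⟩
    · rintro (⟨h1, h2⟩ | ⟨h1, h2⟩)
      · exact ⟨h1, by omega⟩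
      · exact ⟨h1, by omega⟩
  have hU0 : U 0 = ∅ := by
    simp [hU]
  have hV0 : V 0 = ∅ := by
    simp [hV]
  have hUm : U m = univ.filter fun e => (c e).1 = false := by
    ext e
    simp only [hU, mem_filter, mem_univ, true_and, and_iff_left_iff_imp]
    exact fun _ => (c e).2.2
  have hVm : V m = (univ.filter fun e => (c e).1 = false)ᶜ := by
    ext e
    simp only [hV, mem_filter, mem_univ, true_and, mem_compl, Bool.not_eq_false,
      and_iff_left_iff_imp]
    exact fun _ => (c e).2.2
  have hdA : ∀ i k, Disjoint (A i) (U i ∪ V k) := by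
    intro i k
    rw [Finset.disjoint_left]
    intro e h1 h2
    simp only [hA, hU, hV, mem_union, mem_filter, mem_univ, true_and] at h1 h2
    rcases h2 with h2 | h2
    · omega
    · rw [h1.1] at h2
      exact absurd h2.1 (by simp)
  have hdB : ∀ i k, Disjoint (B k) (U i ∪ V k) := by
    intro i k
    rw [Finset.disjoint_left]
    intro e h1 h2
    simp only [hB, hU, hV, mem_union, mem_filter, mem_univ, true_and] at h1 h2
    rcases h2 with h2 | h2
    · rw [h1.1] at h2
      exact absurd h2.1 (by simp)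
    · omega
  set cc : ℕ → ℕ → X → X → ℂ := fun i k x y =>
    f (mx (U i ∪ V k) x y) * conj (f (mx (U (i + 1) ∪ V k) x y)) *
      conj (f (mx (U i ∪ V (k + 1)) x y)) * f (mx (U (i + 1) ∪ V (k + 1)) x y) with hcc
  have hccn : ∀ i k x y, ‖cc i k x y‖ = 1 := by
    intro i k x y
    simp only [hcc, norm_mul, RCLike.norm_conj, hf, mul_one]
  have hdf : ∀ i k, (avg fun x => avg fun y => ‖1 - cc i k x y‖ ^ 2 / 2) =
      dfM mx (A i) (B k) f := by
    intro i k
    rw [← h.df_step f (hdA i k) (hdB i k)]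
    have e1 : U (i + 1) ∪ V k = U i ∪ V k ∪ A i := by
      rw [hUs, union_right_comm]
    have e2 : U i ∪ V (k + 1) = U i ∪ V k ∪ B k := by
      rw [hVs, union_assoc]
    have e3 : U (i + 1) ∪ V (k + 1) = U i ∪ V k ∪ (A i ∪ B k) := by
      rw [hUs, hVs, union_union_union_comm]
    simp only [hcc, e1, e2, e3]
  have hbx : ∀ x y, bxM mx (univ.filter fun e => (c e).1 = false)
      (univ.filter fun e => (c e).1 = false)ᶜ f x y =
      ∏ p ∈ range m ×ˢ range m, cc p.1 p.2 x y := by
    intro x y
    rw [prod_product, tele2 (fun i k => f (mx (U i ∪ V k) x y)) (fun i k => hf _) m m]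
    simp only [hU0, hV0, hUm, hVm, union_empty, empty_union, bxM, h.empty]
  have hpt : ∀ x y, ‖1 - bxM mx (univ.filter fun e => (c e).1 = false)
      (univ.filter fun e => (c e).1 = false)ᶜ f x y‖ ^ 2 / 2 ≤
      (m : ℝ) ^ 2 * ∑ p ∈ range m ×ˢ range m, ‖1 - cc p.1 p.2 x y‖ ^ 2 / 2 := by
    intro x y
    rw [hbx]
    have h1 := norm_one_sub_prod (range m ×ˢ range m) (fun p => cc p.1 p.2 x y)
      (fun p _ => hccn _ _ _ _)
    have h2 : (∑ p ∈ range m ×ˢ range m, ‖1 - cc p.1 p.2 x y‖) ^ 2 ≤
        (m : ℝ) ^ 2 * ∑ p ∈ range m ×ˢ range m, ‖1 - cc p.1 p.2 x y‖ ^ 2 := by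
      refine (sq_sum_le_card_mul_sum_sq).trans (le_of_eq ?_)
      rw [card_product, card_range]
      push_cast
      ring
    have h3 : ‖1 - ∏ p ∈ range m ×ˢ range m, cc p.1 p.2 x y‖ ^ 2 ≤
        (∑ p ∈ range m ×ˢ range m, ‖1 - cc p.1 p.2 x y‖) ^ 2 :=
      pow_le_pow_left₀ (norm_nonneg _) h1 2
    rw [← sum_div]
    have h4 := h3.trans h2
    linarith
  have hmain : dfM mx (univ.filter fun e => (c e).1 = false)
      (univ.filter fun e => (c e).1 = false)ᶜ f ≤
      (m : ℝ) ^ 2 * ∑ p ∈ range m ×ˢ range m, dfM mx (A p.1) (B p.2) f := by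
    have h1 : (avg fun x => avg fun y => (m : ℝ) ^ 2 *
        ∑ p ∈ range m ×ˢ range m, ‖1 - cc p.1 p.2 x y‖ ^ 2 / 2) =
        (m : ℝ) ^ 2 * ∑ p ∈ range m ×ˢ range m, dfM mx (A p.1) (B p.2) f := by
      rw [avg_avg_prod, ← mul_sum, sum_comm, mul_div_assoc, sum_div]
      congr 1
      refine sum_congr rfl fun p _ => ?_
      rw [← hdf, avg_avg_prod]
    rw [← h1]
    unfold dfM
    rw [avg_avg_prod, avg_avg_prod]
    refine div_le_div_of_nonneg_right (sum_le_sum fun p _ => hpt p.1 p.2) (by positivity)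
  refine hmain.trans (le_of_eq ?_)
  congr 1
  rw [sum_product, ← Fin.sum_univ_eq_sum_range
    (fun i => ∑ k ∈ range m, dfM mx (A i) (B k) f) m]
  refine sum_congr rfl fun i _ => ?_
  rw [← Fin.sum_univ_eq_sum_range (fun k => dfM mx (A i) (B k) f) m]
  refine sum_congr rfl fun k _ => ?_
  congr 1
  · ext e
    simp only [hA, mem_filter, mem_univ, true_and, Prod.ext_iff, Fin.ext_iff]
  · ext e
    simp only [hB, mem_filter, mem_univ, true_and, Prod.ext_iff, Fin.ext_iff]

theorem avg_equiv {S T : Type*} [Fintype S] [Fintype T] (e : S ≃ T) (G : T → ℝ) :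
    (avg fun s => G (e s)) = avg G := by
  unfold avg
  rw [Equiv.sum_comp e G, Fintype.card_congr e]

/-- The average over colourings depends only on the number of colours. -/
theorem avg_colour {K K' : Type} [Fintype K] [DecidableEq K] [Fintype K'] [DecidableEq K']
    (hc : Fintype.card K = Fintype.card K') {a b : K} {a' b' : K'} (hab : a ≠ b) (hab' : a' ≠ b')
    (G : Finset E → Finset E → ℝ) :
    (avg fun c : E → K => G (univ.filter fun e => c e = a) (univ.filter fun e => c e = b)) =
    avg fun c : E → K' => G (univ.filter fun e => c e = a') (univ.filter fun e => c e = b') := by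
  obtain ⟨s, hsa, hsb⟩ : ∃ s : K ≃ K', s a = a' ∧ s b = b' := by
    let s0 : K ≃ K' := Fintype.equivOfCardEq hc
    let s1 : K ≃ K' := s0.trans (Equiv.swap (s0 a) a')
    have h1 : s1 a = a' := by
      simp [s1]
    refine ⟨s1.trans (Equiv.swap (s1 b) b'), ?_, ?_⟩
    · rw [Equiv.trans_apply, h1]
      refine Equiv.swap_apply_of_ne_of_ne ?_ hab'
      intro h2
      exact hab (s1.injective (h1.trans h2))
    · rw [Equiv.trans_apply, Equiv.swap_apply_left]
  rw [← avg_equiv (Equiv.arrowCongr (Equiv.refl E) s)]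
  congr 1
  funext c
  have e1 : ∀ t, (Equiv.arrowCongr (Equiv.refl E) s c) t = s (c t) := fun t => rfl
  simp only [e1, ← hsa, ← hsb, s.injective.eq_iff]

/-- The first bit of a uniform colour is a uniform subset. -/
theorem avg_half (m : ℕ) (hm : 0 < m) (G : Finset E → ℝ) :
    (avg fun c : E → Bool × Fin m => G (univ.filter fun e => (c e).1 = false)) = avg G := by
  have : Nonempty (Fin m) := ⟨⟨0, hm⟩⟩
  have h1 : (avg fun c : E → Bool × Fin m => G (univ.filter fun e => (c e).1 = false)) =
      avg fun p : (E → Bool) × (E → Fin m) => G (univ.filter fun e => p.1 e = false) := by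
    rw [← avg_equiv (Equiv.arrowProdEquivProdArrow E (fun _ => Bool) (fun _ => Fin m))]
    rfl
  let s : (E → Bool) ≃ Finset E :=
    { toFun := fun t => univ.filter fun e => t e = false
      invFun := fun A e => decide (e ∉ A)
      left_inv := by
        intro t
        funext e
        cases h : t e <;> simp [h]
      right_inv := by
        intro A
        ext e
        simp }
  rw [h1, ← avg_equiv s]
  unfold avg
  rw [Fintype.sum_prod_type]
  have h2 : (0 : ℝ) < Fintype.card (E → Fin m) := by exact_mod_cast Fintype.card_pos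
  simp only [sum_const, card_univ, nsmul_eq_mul, Fintype.card_prod, Nat.cast_mul]
  rw [← mul_sum, mul_comm (Fintype.card (E → Bool) : ℝ), mul_div_mul_left _ _ h2.ne']
  rfl

/-- **Splitting.** The mean defect of the cuts by a random half is at most `m ^ 4` times the mean
defect of the cuts by two colour classes of a random colouring with `2 m` colours. -/
theorem split {mx : Finset E → X → X → X} (h : IsMix mx) {f : X → ℂ} (hf : ∀ x, ‖f x‖ = 1)
    {m : ℕ} (hm : 0 < m) {K : Type} [Fintype K] [DecidableEq K] (hK : Fintype.card K = 2 * m)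
    {a b : K} (hab : a ≠ b) :
    (avg fun A : Finset E => dfM mx A Aᶜ f) ≤
      (m : ℝ) ^ 4 * avg fun c : E → K =>
        dfM mx (univ.filter fun e => c e = a) (univ.filter fun e => c e = b) f := by
  classical
  have : Nonempty (Fin m) := ⟨⟨0, hm⟩⟩
  have hDD : ∀ i k : Fin m, (avg fun c : E → Bool × Fin m =>
      dfM mx (univ.filter fun e => c e = (false, i)) (univ.filter fun e => c e = (true, k)) f) =
      avg fun c : E → K =>
        dfM mx (univ.filter fun e => c e = a) (univ.filter fun e => c e = b) f := by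
    intro i k
    refine avg_colour ?_ (by simp) hab (fun A B => dfM mx A B f)
    rw [hK, Fintype.card_prod, Fintype.card_bool, Fintype.card_fin]
  rw [← avg_half m hm]
  have h1 : (avg fun c : E → Bool × Fin m => dfM mx (univ.filter fun e => (c e).1 = false)
      (univ.filter fun e => (c e).1 = false)ᶜ f) ≤ avg fun c : E → Bool × Fin m =>
      (m : ℝ) ^ 2 * ∑ i : Fin m, ∑ k : Fin m,
        dfM mx (univ.filter fun e => c e = (false, i))
          (univ.filter fun e => c e = (true, k)) f := by
    unfold avg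
    exact div_le_div_of_nonneg_right (sum_le_sum fun c _ => split_one h hf m c) (by positivity)
  refine h1.trans (le_of_eq ?_)
  have h2 : (avg fun c : E → Bool × Fin m => (m : ℝ) ^ 2 * ∑ i : Fin m, ∑ k : Fin m,
        dfM mx (univ.filter fun e => c e = (false, i))
          (univ.filter fun e => c e = (true, k)) f) =
      (m : ℝ) ^ 2 * ∑ i : Fin m, ∑ k : Fin m, avg fun c : E → Bool × Fin m =>
        dfM mx (univ.filter fun e => c e = (false, i))
          (univ.filter fun e => c e = (true, k)) f := by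
    unfold avg
    rw [← mul_sum, mul_div_assoc, sum_comm, sum_div]
    congr 1
    refine sum_congr rfl fun i _ => ?_
    rw [sum_comm, sum_div]
  rw [h2]
  simp only [hDD, sum_const, card_univ, Fintype.card_fin, nsmul_eq_mul]
  ring

end

end Pool.Agent.MP_ca1109_lc.Ov.SPL

namespace Pool.Agent.MP_ca1109_lc.Ov

open Finset Pool.Agent.H66 Pool.Agent.MP_ca1109_lc.Mpg Pool.Agent.MP_ca1109_lc.Agp
  Pool.Agent.MP_ca1109_lc.Xp

section product

variable {E : Type} [Fintype E] [DecidableEq E] {Ω : E → Type} [∀ e, Fintype (Ω e)]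
  [∀ e, Nonempty (Ω e)]

omit [∀ e, Fintype (Ω e)] [∀ e, Nonempty (Ω e)] in
theorem spl_isMix : SPL.IsMix (mix : Finset E → (∀ e, Ω e) → (∀ e, Ω e) → ∀ e, Ω e) where
  empty x y := by
    funext e
    simp [mix]
  comp A B C x y := by
    funext e
    simp only [mix, mem_union, mem_inter, mem_sdiff]
    by_cases h1 : e ∈ A <;> by_cases h2 : e ∈ B <;> by_cases h3 : e ∈ C <;> simp [h1, h2, h3]
  compl A x y := by
    funext e
    simp only [mix, mem_compl]
    by_cases h1 : e ∈ A <;> simp [h1]

theorem spl_dft {f : (∀ e, Ω e) → ℂ} (hf : ∀ x, ‖f x‖ = 1) (A A' : Finset E) :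
    SPL.dfM mix A A' f = dft A A' f := by
  rw [SPL.dfM_eq hf]
  rfl

theorem spl_tr (G : Finset E → ℝ) : (avg fun A : E → Bool => G (tr A)) = avg G := by
  let s : (E → Bool) ≃ Finset E :=
    { toFun := tr
      invFun := fun A e => decide (e ∈ A)
      left_inv := by
        intro t
        funext e
        simp [tr]
      right_inv := by
        intro A
        ext e
        simp [tr] }
  exact SPL.avg_equiv s G

theorem split {m : ℕ} (hm : 1 ≤ m) {f : (∀ e, Ω e) → ℂ} (hf : ∀ x, ‖f x‖ = 1) :
    Qf f ≤ m ^ 4 * DD m f := by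
  have h1 := SPL.split (spl_isMix (E := E) (Ω := Ω)) hf (m := m) hm (K := Fin (2 * m)) (by simp)
    (a := ⟨0, by omega⟩) (b := ⟨1, by omega⟩) (by simp)
  simp only [spl_dft hf] at h1
  have h2 : Qf f = avg fun A : Finset E => dft A Aᶜ f := spl_tr fun A => dft A Aᶜ f
  rw [h2]
  refine h1.trans (le_of_eq ?_)
  unfold DD
  congr 3
  funext χ
  congr 1 <;> · ext e; simp [col, Fin.ext_iff]

end product

end Pool.Agent.MP_ca1109_lc.Ov
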