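import Pool.Agent.MP_ca1109_lc.Ov.SC
import Pool.Agent.MP_ca1109_lc.Ov.ES
import Pool.Agent.MP_ca1109_lc.Pt.AU
import Pool.Agent.MP_ca1109_lc.Pt.CS

/-!
# Row CE: cells of variables
-/

namespace Pool.Agent.MP_ca1109_lc.Ov

open Finset Pool.Agent.H66 Pool.Agent.MP_ca1109_lc.Mpg Pool.Agent.MP_ca1109_lc.Agp
  Pool.Agent.MP_ca1109_lc.Xp
open Pool.Agent.MP_ca1109_lc.Dnf (Cube ch)

/-! ### Averages and bijections -/

theorem ce_av_equiv {A B : Type*} [Fintype A] [Fintype B] (e : A ≃ B) (f : B → ℂ) :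
    av (fun a => f (e a)) = av f := by
  unfold av
  rw [Fintype.card_congr e, Equiv.sum_comp e f]

section cells

variable {n : ℕ}

/-- The cell of the representative `e`. -/
abbrev CeO (rep : Fin n → Fin n) (A : Type) (e : Fin n) : Type := {i : Fin n // rep i = e} → A

/-- Strings and families of cells. -/
def ceAsm (rep : Fin n → Fin n) (A : Type) : (∀ e, CeO rep A e) ≃ (Fin n → A) where
  toFun X i := X (rep i) ⟨i, rfl⟩
  invFun x e p := x p.1
  left_inv X := by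
    funext e p
    obtain ⟨i, rfl⟩ := p
    rfl
  right_inv x := rfl

variable {J : Type} [Fintype J]

open Classical in
/-- The smallest variable in the same blocks. -/
noncomputable def ceRep (I : J → Finset (Fin n)) (i : Fin n) : Fin n :=
  if ∃ l, i ∈ I l then
    (univ.filter fun i' => ∀ l, i ∈ I l ↔ i' ∈ I l).min' ⟨i, by simp⟩
  else i

theorem ce_mem (I : J → Finset (Fin n)) (i : Fin n) (l : J) : i ∈ I l ↔ ceRep I i ∈ I l := by
  classical
  unfold ceRep
  split_ifs with h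
  · have h1 := Finset.min'_mem (univ.filter fun i' => ∀ l, i ∈ I l ↔ i' ∈ I l) ⟨i, by simp⟩
    exact (mem_filter.1 h1).2 l
  · exact Iff.rfl

theorem ce_congr (I : J → Finset (Fin n)) {i i' : Fin n} (h : ∃ l, i ∈ I l)
    (hl : ∀ l, i ∈ I l ↔ i' ∈ I l) : ceRep I i = ceRep I i' := by
  classical
  have h' : ∃ l, i' ∈ I l := by
    obtain ⟨l, hi⟩ := h
    exact ⟨l, (hl l).1 hi⟩
  unfold ceRep
  rw [if_pos h, if_pos h']
  congr 1
  ext k
  rw [mem_filter, mem_filter]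
  constructor
  · rintro ⟨_, hk⟩
    exact ⟨mem_univ _, fun l => (hl l).symm.trans (hk l)⟩
  · rintro ⟨_, hk⟩
    exact ⟨mem_univ _, fun l => (hl l).trans (hk l)⟩

theorem ce_idem (I : J → Finset (Fin n)) (i : Fin n) : ceRep I (ceRep I i) = ceRep I i := by
  by_cases h : ∃ l, i ∈ I l
  · exact (ce_congr I h fun l => ce_mem I i l).symm
  · have h1 : ceRep I i = i := by
      unfold ceRep
      rw [if_neg h]
    rw [h1, h1]

/-- The sets of cells. -/
noncomputable def ceB (I : J → Finset (Fin n)) (j : J) : Finset (Fin n) := (I j).image (ceRep I)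

theorem ceB_mem {I : J → Finset (Fin n)} {j : J} {e : Fin n} (h : e ∈ ceB I j) :
    e ∈ I j ∧ ceRep I e = e := by
  obtain ⟨i, hi, rfl⟩ := mem_image.1 h
  exact ⟨(ce_mem I i j).1 hi, ce_idem I i⟩

theorem ce_fam {r : ℕ} {A : Type} {I : J → Finset (Fin n)} {f : J → (Fin n → A) → ℂ}
    (hI : Blo r I) (hf : ∀ j, Dep (I j) (f j)) (hn : ∀ j x, ‖f j x‖ = 1) :
    Fam (Ω := CeO (ceRep I) A) r (ceB I) (fun j X => f j (ceAsm (ceRep I) A X)) where
  dep := by
    intro j X Y h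
    refine hf j _ _ fun i hi => ?_
    have h1 := h (ceRep I i) (mem_image_of_mem _ hi)
    change X (ceRep I i) ⟨i, rfl⟩ = Y (ceRep I i) ⟨i, rfl⟩
    rw [h1]
  uni := fun j X => hn j _
  rd := by
    intro e
    refine (card_le_card ?_).trans (hI.rd e)
    intro j hj
    rw [mem_filter] at hj ⊢
    exact ⟨mem_univ _, (ceB_mem hj.2).1⟩
  lin := by
    intro i j hij
    refine card_le_one.2 fun e he e' he' => ?_
    rw [mem_inter] at he he'
    have h1 := ceB_mem he.1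
    have h2 := ceB_mem he.2
    have h3 := ceB_mem he'.1
    have h4 := ceB_mem he'.2
    have h5 : ceRep I e = ceRep I e' := ce_congr I ⟨i, h1.1⟩ fun l =>
      hI.ll i j hij e (mem_inter.2 ⟨h1.1, h2.1⟩) e' (mem_inter.2 ⟨h3.1, h4.1⟩) l
    rw [h1.2, h3.2] at h5
    exact h5

theorem ce_smp {A : Type} {I : J → Finset (Fin n)} {K K' : ℕ} {L L' : ℝ}
    {t : (∀ e, CeO (ceRep I) A e) → ℂ} (h : Smp (cbk (ceB I)) K L t) (hK : K ≤ K')
    (hL : L ≤ L') : Smp (bc I) K' L' (fun x => t ((ceAsm (ceRep I) A).symm x)) := by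
  obtain ⟨q, u, a, b, h1, h2, h3⟩ := h
  refine ⟨q, fun i x => u i ((ceAsm (ceRep I) A).symm x), a, b, fun i => ?_, h2.trans hL,
    fun x => h3 _⟩
  obtain ⟨h4, h5, h6⟩ := h1 i
  refine ⟨h4.trans hK, ?_, fun x => h6 _⟩
  intro x y hxy
  refine h5 _ _ fun e he => ?_
  obtain ⟨c, hc, hec⟩ := mem_biUnion.1 he
  funext p
  change x p.1 = y p.1
  refine hxy p.1 (mem_biUnion.2 ⟨c, hc, ?_⟩)
  rcases c with j | e'
  · change p.1 ∈ I j
    have h7 : e ∈ ceB I j := hec
    rw [ce_mem I p.1 j, p.2]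
    exact (ceB_mem h7).1
  · have h7 : e ∈ ({e'} : Finset (Fin n)) ∩ univ.biUnion (ceB I) := hec
    obtain ⟨h8, h9⟩ := mem_inter.1 h7
    rw [mem_singleton] at h8
    subst h8
    obtain ⟨j, _, hj⟩ := mem_biUnion.1 h9
    change p.1 ∈ cell I e
    unfold cell
    rw [mem_filter]
    refine ⟨mem_univ _, fun l => ?_, j, (ceB_mem hj).1⟩
    rw [ce_mem I p.1 l, p.2]

/-- The polynomial bounds. -/
theorem ce_bound (K r n : ℕ) {N : ℕ} (hN : N ≤ r * n) :
    (K : ℝ) * ((N : ℝ) + Fintype.card (Fin n) + 1) ^ K ≤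
      ((K * (r + 1) ^ K + K : ℕ) : ℝ) * ((n : ℝ) + 1) ^ (K * (r + 1) ^ K + K) := by
  have h1 : ((N : ℝ) + Fintype.card (Fin n) + 1) ≤ ((r : ℝ) + 1) * (n + 1) := by
    rw [Fintype.card_fin]
    have : (N : ℝ) ≤ r * n := by exact_mod_cast hN
    have h0 : (0 : ℝ) ≤ r := Nat.cast_nonneg r
    nlinarith
  have h2 : (1 : ℝ) ≤ (n : ℝ) + 1 := by
    have : (0 : ℝ) ≤ n := Nat.cast_nonneg n
    linarith
  calc (K : ℝ) * ((N : ℝ) + Fintype.card (Fin n) + 1) ^ K
      ≤ K * (((r : ℝ) + 1) * (n + 1)) ^ K :=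
        mul_le_mul_of_nonneg_left (pow_le_pow_left₀ (by positivity) h1 _) (Nat.cast_nonneg _)
    _ = (K * ((r : ℝ) + 1) ^ K) * (n + 1) ^ K := by rw [mul_pow]; ring
    _ ≤ ((K * (r + 1) ^ K + K : ℕ) : ℝ) * ((n : ℝ) + 1) ^ (K * (r + 1) ^ K + K) := by
        refine mul_le_mul ?_ (pow_le_pow_right₀ h2 (by omega)) (by positivity) (by positivity)
        push_cast
        have : (0 : ℝ) ≤ K := Nat.cast_nonneg K
        linarith

/-- The structure theorem for strings. -/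
theorem ce_main (r : ℕ) {ε e : ℝ} (hε : 0 < ε) (he : 0 < e) : ∃ K : ℕ, ∀ {n : ℕ} {J : Type}
    [Fintype J] [DecidableEq J] {A : Type} [Fintype A] [Nonempty A] {I : J → Finset (Fin n)}
    {f : J → (Fin n → A) → ℂ}, Blo r I → (∀ j, Dep (I j) (f j)) → (∀ j x, ‖f j x‖ = 1) →
    ε ≤ Sh (Ω := CeO (ceRep I) A) (fun X => ∏ j, f j (ceAsm (ceRep I) A X)) →
    ∃ (t : (Fin n → A) → ℂ) (R : (Fin n → A) → ℝ),
      (∀ x, ‖∏ j, f j x - t x‖ ≤ R x) ∧ avg R ≤ e ∧
      Smp (bc I) K (K * ((n : ℝ) + 1) ^ K) t ∧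
      Smp (bc I) K (K * ((n : ℝ) + 1) ^ K) (fun x => ((R x : ℝ) : ℂ)) := by
  obtain ⟨K, hK⟩ := structure_thm r hε he
  refine ⟨K * (r + 1) ^ K + K, ?_⟩
  intro n J _ _ A _ _ I f hI hf hn hS
  obtain ⟨t, R, h1, h2, h3, h4⟩ := hK (ce_fam hI hf hn) hS
  have hb := ce_bound K r n hI.cd
  refine ⟨fun x => t ((ceAsm (ceRep I) A).symm x), fun x => R ((ceAsm (ceRep I) A).symm x),
    fun x => ?_, ?_, ce_smp h3 (by omega) hb, ce_smp h4 (by omega) hb⟩
  · have := h1 ((ceAsm (ceRep I) A).symm x)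
    simpa only [Equiv.apply_symm_apply] using this
  · refine le_trans (le_of_eq ?_) h2
    exact avg_equiv (ceAsm (ceRep I) A).symm R

end cells

theorem st_mean (r : ℕ) {ε e : ℝ} (hε : 0 < ε) (he : 0 < e) : ∃ K : ℕ, ∀ {n : ℕ} {J : Type}
    [Fintype J] [DecidableEq J] {A : Type} [Fintype A] [Nonempty A] {I : J → Finset (Fin n)}
    {f : J → (Fin n → A) → ℂ}, Blo r I → (∀ j, Dep (I j) (f j)) → (∀ j x, ‖f j x‖ = 1) →
    ε ≤ ‖av fun x => ∏ j, f j x‖ ^ 2 →
    ∃ (t : (Fin n → A) → ℂ) (R : (Fin n → A) → ℝ),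
      (∀ x, ‖∏ j, f j x - t x‖ ≤ R x) ∧ avg R ≤ e ∧
      Smp (bc I) K (K * ((n : ℝ) + 1) ^ K) t ∧
      Smp (bc I) K (K * ((n : ℝ) + 1) ^ K) (fun x => ((R x : ℝ) : ℂ)) := by
  obtain ⟨K, hK⟩ := ce_main r hε he
  refine ⟨K, ?_⟩
  intro n J _ _ A _ _ I f hI hf hn hS
  refine hK hI hf hn (hS.trans ?_)
  have h1 := Sh_ge (Ω := CeO (ceRep I) A) (fun X => ∏ j, f j (ceAsm (ceRep I) A X))
  rw [ce_av_equiv (ceAsm (ceRep I) A) fun x => ∏ j, f j x] at h1
  exact h1

/-! ### The noise -/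

section noise

variable {n : ℕ}

theorem ce_norm_sq (a : ℂ) : ((‖a‖ ^ 2 : ℝ) : ℂ) = a * (starRingEnd ℂ) a := by
  rw [Complex.mul_conj, Complex.normSq_eq_norm_sq]

theorem ce_pars (a : Finset (Fin n) → ℂ) :
    (avg fun x : Cube n => ‖∑ T, a T * ((ch T x : ℝ) : ℂ)‖ ^ 2) = ∑ T, ‖a T‖ ^ 2 := by
  have h1 : (((avg fun x : Cube n => ‖∑ T, a T * ((ch T x : ℝ) : ℂ)‖ ^ 2 : ℝ)) : ℂ) =
      ((∑ T, ‖a T‖ ^ 2 : ℝ) : ℂ) := by
    rw [← spb_avg_ofReal]
    have h2 : ∀ x : Cube n, ((‖∑ T, a T * ((ch T x : ℝ) : ℂ)‖ ^ 2 : ℝ) : ℂ) =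
        ∑ S, ∑ T, (a S * (starRingEnd ℂ) (a T)) * (((ch S x : ℝ) : ℂ) * ((ch T x : ℝ) : ℂ)) := by
      intro x
      rw [ce_norm_sq, map_sum, sum_mul_sum]
      refine sum_congr rfl fun S _ => sum_congr rfl fun T _ => ?_
      rw [map_mul, Complex.conj_ofReal]
      ring
    simp_rw [h2, spb_av_sum, spb_av_mul, Pt.au_av_ch]
    push_cast
    refine sum_congr rfl fun S _ => ?_
    rw [sum_eq_single S]
    · rw [if_pos rfl, mul_one, ← ce_norm_sq]
      push_cast
      rfl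
    · intro T _ hT
      rw [if_neg (Ne.symm hT), mul_zero]
    · intro h
      exact absurd (mem_univ S) h
  exact_mod_cast h1

/-- `y` on the set `P`, `x` outside. -/
def ceM (P : Fin n → Bool) (x y : Fin n → Bool) : Fin n → Bool :=
  fun i => if P i = true then y i else x i

theorem ce_mean (F : Cube n → ℂ) (P : Fin n → Bool) (x : Cube n) :
    (av fun y : Cube n => F (ceM P x y)) =
      ∑ T, (if ∀ i ∈ T, P i = false then Pt.co F T else 0) * ((ch T x : ℝ) : ℂ) := by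
  have h1 : ∀ y : Cube n, F (ceM P x y) = ∑ T, (Pt.co F T *
      ((ch (T.filter fun i => ¬ P i = true) x : ℝ) : ℂ)) *
      ((ch (T.filter fun i => P i = true) y : ℝ) : ℂ) := by
    intro y
    rw [Pt.co_exp F (ceM P x y)]
    refine sum_congr rfl fun T _ => ?_
    have h2 : ch T (ceM P x y) = ch (T.filter fun i => P i = true) y *
        ch (T.filter fun i => ¬ P i = true) x := by
      unfold ch ceM
      rw [← prod_filter_mul_prod_filter_not T fun i => P i = true]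
      congr 1
      · refine prod_congr rfl fun i hi => ?_
        rw [if_pos (mem_filter.1 hi).2]
      · refine prod_congr rfl fun i hi => ?_
        rw [if_neg (mem_filter.1 hi).2]
    rw [h2]
    push_cast
    ring
  simp_rw [h1, spb_av_sum, spb_av_mul]
  refine sum_congr rfl fun T _ => ?_
  have h3 : av (fun y : Cube n => ((ch (T.filter fun i => P i = true) y : ℝ) : ℂ)) =
      if ∀ i ∈ T, P i = false then 1 else 0 := by
    rw [spb_avg_ofReal, spb_avg_E, Dnf.E_ch]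
    by_cases h : ∀ i ∈ T, P i = false
    · have h4 : T.filter (fun i => P i = true) = ∅ := by
        rw [filter_eq_empty_iff]
        intro i hi
        rw [h i hi]
        simp
      rw [if_pos h, if_pos h4, Complex.ofReal_one]
    · have h4 : ¬ T.filter (fun i => P i = true) = ∅ := by
        intro h5
        rw [filter_eq_empty_iff] at h5
        refine h fun i hi => ?_
        have := h5 hi
        simpa using this
      rw [if_neg h, if_neg h4, Complex.ofReal_zero]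
  rw [h3]
  by_cases h : ∀ i ∈ T, P i = false
  · have h4 : T.filter (fun i => ¬ P i = true) = T := by
      rw [filter_eq_self]
      intro i hi
      rw [h i hi]
      simp
    rw [if_pos h, if_pos h, h4, mul_one]
  · rw [if_neg h, if_neg h]
    ring

theorem ce_G (F : Cube n → ℂ) (P : Fin n → Bool) :
    (avg fun x : Cube n => ‖av fun y : Cube n => F (ceM P x y)‖ ^ 2) =
      ∑ T, ‖Pt.co F T‖ ^ 2 * (if ∀ i ∈ T, P i = false then 1 else 0) := by
  simp_rw [ce_mean]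
  rw [ce_pars]
  refine sum_congr rfl fun T _ => ?_
  split_ifs <;> simp

theorem ce_prob (rep : Fin n → Fin n) (T : Finset (Fin n)) :
    ((1 : ℝ) / 2) ^ T.card ≤
      avg fun R : Fin n → Bool => if ∀ i ∈ T, R (rep i) = false then (1 : ℝ) else 0 := by
  set U : Finset (Fin n) := T.image rep with hU
  have h1 : ∀ R : Fin n → Bool, (if ∀ i ∈ T, R (rep i) = false then (1 : ℝ) else 0) =
      ∏ e, (if e ∈ U then (if R e = true then (0 : ℝ) else 1) else 1) := by
    intro R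
    rw [prod_ite_mem, univ_inter]
    by_cases h : ∀ i ∈ T, R (rep i) = false
    · rw [if_pos h]
      refine (prod_eq_one fun e he => ?_).symm
      obtain ⟨i, hi, rfl⟩ := mem_image.1 he
      rw [h i hi]
      simp
    · rw [if_neg h]
      have h' : ∃ i ∈ T, R (rep i) = true := by
        by_contra hc
        refine h fun i hi => ?_
        by_contra hb
        exact hc ⟨i, hi, by simpa using hb⟩
      obtain ⟨i, hi, hi'⟩ := h'
      refine (prod_eq_zero (mem_image_of_mem rep hi) ?_).symm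
      rw [if_pos hi']
  simp_rw [h1]
  have h2 : (∑ R : Fin n → Bool, ∏ e, (if e ∈ U then (if R e = true then (0 : ℝ) else 1) else 1)) =
      ∏ e : Fin n, (if e ∈ U then (1 : ℝ) else 2) := by
    have h4 := (Finset.prod_univ_sum (fun _ : Fin n => (univ : Finset Bool))
      (fun e b => (if e ∈ U then (if b = true then (0 : ℝ) else 1) else 1))).symm
    rw [Fintype.piFinset_univ] at h4
    rw [h4]
    refine prod_congr rfl fun e _ => ?_
    rw [Fintype.sum_bool]
    by_cases he : e ∈ U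
    · simp [he]
    · simp only [he, if_false]
      norm_num
  unfold avg
  rw [h2]
  have h5 : (Fintype.card (Fin n → Bool) : ℝ) = ∏ _e : Fin n, (2 : ℝ) := by
    rw [Fintype.card_fun, Fintype.card_bool, prod_const, card_univ]
    push_cast
    rfl
  rw [h5, ← prod_div_distrib]
  have h6 : (∏ e : Fin n, (if e ∈ U then (1 : ℝ) else 2) / 2) = (1 / 2) ^ U.card := by
    have h7 : ∀ e : Fin n, (if e ∈ U then (1 : ℝ) else 2) / 2 = if e ∈ U then 1 / 2 else 1 := by
      intro e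
      split_ifs <;> norm_num
    simp_rw [h7]
    rw [prod_ite_mem, univ_inter, prod_const]
  rw [h6]
  exact pow_le_pow_of_le_one (by norm_num) (by norm_num) card_image_le

theorem ce_noise (rep : Fin n → Fin n) (F : Cube n → ℂ) :
    Sf F (1 / 4) ≤ Sh (Ω := CeO rep Bool) (fun X => F (ceAsm rep Bool X)) := by
  have h1 : ∀ R : Fin n → Bool, (avg fun X : ∀ e, CeO rep Bool e =>
      ‖av fun Y : ∀ e, CeO rep Bool e => F (ceAsm rep Bool (mix (tr R) X Y))‖ ^ 2) =
      avg fun x : Cube n => ‖av fun y : Cube n => F (ceM (fun i => R (rep i)) x y)‖ ^ 2 := by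
    intro R
    have h2 : ∀ X Y : ∀ e, CeO rep Bool e, ceAsm rep Bool (mix (tr R) X Y) =
        ceM (fun i => R (rep i)) (ceAsm rep Bool X) (ceAsm rep Bool Y) := by
      intro X Y
      funext i
      change (if rep i ∈ tr R then Y (rep i) else X (rep i)) ⟨i, rfl⟩ =
        if R (rep i) = true then Y (rep i) ⟨i, rfl⟩ else X (rep i) ⟨i, rfl⟩
      have hm : rep i ∈ tr R ↔ R (rep i) = true := by
        unfold tr
        rw [mem_filter]
        exact ⟨fun h => h.2, fun h => ⟨mem_univ _, h⟩⟩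
      by_cases h : R (rep i) = true
      · rw [if_pos h, if_pos (hm.2 h)]
      · rw [if_neg h, if_neg fun h' => h (hm.1 h')]
    simp_rw [h2]
    have h3 : ∀ X : ∀ e, CeO rep Bool e, (av fun Y : ∀ e, CeO rep Bool e =>
        F (ceM (fun i => R (rep i)) (ceAsm rep Bool X) (ceAsm rep Bool Y))) =
        av fun y : Cube n => F (ceM (fun i => R (rep i)) (ceAsm rep Bool X) y) :=
      fun X => ce_av_equiv (ceAsm rep Bool)
        fun y => F (ceM (fun i => R (rep i)) (ceAsm rep Bool X) y)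
    simp_rw [h3]
    exact avg_equiv (ceAsm rep Bool)
      fun x => ‖av fun y : Cube n => F (ceM (fun i => R (rep i)) x y)‖ ^ 2
  have h4 : Sh (Ω := CeO rep Bool) (fun X => F (ceAsm rep Bool X)) =
      ∑ T, ‖Pt.co F T‖ ^ 2 *
        avg fun R : Fin n → Bool => if ∀ i ∈ T, R (rep i) = false then (1 : ℝ) else 0 := by
    unfold Sh
    simp_rw [h1, ce_G]
    rw [avg_sum]
    exact sum_congr rfl fun T _ => avg_mul_left _ _
  rw [h4]
  unfold Sf
  refine sum_le_sum fun T _ => mul_le_mul_of_nonneg_left ?_ (sq_nonneg _)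
  refine le_trans (le_of_eq ?_) (ce_prob rep T)
  norm_num

end noise

theorem st_noise (r : ℕ) {ε e : ℝ} (hε : 0 < ε) (he : 0 < e) : ∃ K : ℕ, ∀ {n : ℕ} {J : Type}
    [Fintype J] [DecidableEq J] {I : J → Finset (Fin n)} {f : J → (Fin n → Bool) → ℂ},
    Blo r I → (∀ j, Dep (I j) (f j)) → (∀ j x, ‖f j x‖ = 1) →
    ε ≤ Sf (fun x => ∏ j, f j x) (1 / 4) →
    ∃ (t : (Fin n → Bool) → ℂ) (R : (Fin n → Bool) → ℝ),
      (∀ x, ‖∏ j, f j x - t x‖ ≤ R x) ∧ avg R ≤ e ∧
      Smp (bc I) K (K * ((n : ℝ) + 1) ^ K) t ∧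
      Smp (bc I) K (K * ((n : ℝ) + 1) ^ K) (fun x => ((R x : ℝ) : ℂ)) := by
  obtain ⟨K, hK⟩ := ce_main r hε he
  refine ⟨K, ?_⟩
  intro n J _ _ I f hI hf hn hS
  exact hK hI hf hn (hS.trans (ce_noise (ceRep I) fun x => ∏ j, f j x))

end Pool.Agent.MP_ca1109_lc.Ov
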