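import Mathlib

/-!
# Boolean functions of gates over overlapping blocks of bits: the class
-/

namespace Pool.Agent.MP_ca1109_lc.Ov

/-- Every bit is in at most `r` of the blocks `I j`, and two bits which are together in two different
blocks are in the same blocks. -/
def Over (r : ℕ) {n q : ℕ} (I : Fin q → Finset (Fin n)) : Prop :=
  (∀ i, (Finset.univ.filter fun j => i ∈ I j).card ≤ r) ∧
  ∀ j j', j ≠ j' → ∀ i ∈ I j ∩ I j', ∀ i' ∈ I j ∩ I j', ∀ l, i ∈ I l ↔ i' ∈ I l

/-- `a j` is a function of the bits in the block `I j`. -/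
def OnBlocks {n q : ℕ} (I : Fin q → Finset (Fin n)) {α : Type} (a : Fin q → (Fin n → Bool) → α) :
    Prop :=
  ∀ j x y, (∀ i ∈ I j, x i = y i) → a j x = a j y

/-- A gate over the blocks `I j`. It tests whether a sum of functions of the blocks with values in a
finite abelian group lies in a set of at most `B` elements, or whether a product of functions of the
blocks with values in a commutative monoid of at most `B` elements lies in a given set. -/
def OGate (B : ℕ) {n q : ℕ} (I : Fin q → Finset (Fin n)) (g : (Fin n → Bool) → Bool) : Prop :=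
  (∃ (G : Type) (_ : AddCommGroup G) (_ : Finite G) (a : Fin q → (Fin n → Bool) → G) (A : Finset G),
    A.card ≤ B ∧ OnBlocks I a ∧ ∀ x, g x = true ↔ ∑ j, a j x ∈ A) ∨
  ∃ (M : Type) (_ : CommMonoid M) (_ : Fintype M) (a : Fin q → (Fin n → Bool) → M) (A : Set M),
    Fintype.card M ≤ B ∧ OnBlocks I a ∧ ∀ x, g x = true ↔ ∏ j, a j x ∈ A

/-- `T` is a Boolean function of `k` gates over the same blocks `I j`, which have at most `c log n`
bits and may overlap. -/
def OTest (c r B k n : ℕ) (T : (Fin n → Bool) → Bool) : Prop :=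
  ∃ (q : ℕ) (I : Fin q → Finset (Fin n)) (g : Fin k → (Fin n → Bool) → Bool)
    (F : (Fin k → Bool) → Bool),
    (∀ j, 2 ^ (I j).card ≤ n ^ c) ∧ Over r I ∧ (∀ i, OGate B I (g i)) ∧
    ∀ x, T x = F fun i => g i x

end Pool.Agent.MP_ca1109_lc.Ov
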