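import Pool.Agent.MP_ca1109_lc.Ov.DU
import Pool.Agent.MP_ca1109_lc.Ov.GT
import Pool.Agent.MP_ca1109_lc.Pt.CM
import Pool.Agent.MP_ca1109_lc.Mpg.G0
import Pool.Agent.MP_ca1109_lc.Agp.N1
import Pool.Agent.MP_ca1109_lc.Agp.K1
import Pool.Agent.MP_ca1109_lc.Agp.G3

/-!
# Boolean functions of gates over overlapping blocks: the theorem
-/

namespace Pool.Agent.MP_ca1109_lc.Ov

open Finset Pool.Agent.H66 Pool.Agent.MP_ca1109_lc.Mpg Pool.Agent.MP_ca1109_lc.Agp
  Pool.Agent.MP_ca1109_lc.Xp Pool.Agent.MP_ca1109_lc.Pt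
open Pool.Agent.MP_ca1109_lc.Dnf (one one_le one_nonneg one_true one_false)

variable {n q : ℕ}

/-- Combinations of products of functions of the blocks. -/
def PC (I : Fin q → Finset (Fin n)) (C : ℝ) (Φ : (Fin n → Bool) → ℂ) : Prop :=
  ∃ (ι : Type) (_ : Fintype ι) (c : ι → ℂ) (t : ι → Fin q → (Fin n → Bool) → ℂ),
    ∑ i, ‖c i‖ ≤ C ∧ (∀ i j, Dep (I j) (t i j)) ∧ (∀ i j x, ‖t i j x‖ ≤ 1) ∧
      ∀ x, Φ x = ∑ i, c i * ∏ j, t i j x

section pc

variable {I : Fin q → Finset (Fin n)}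

theorem PC.mono {C C' : ℝ} {Φ : (Fin n → Bool) → ℂ} (h : PC I C Φ) (hC : C ≤ C') : PC I C' Φ := by
  obtain ⟨ι, iι, c, t, h1, h2, h3, h4⟩ := h
  exact ⟨ι, iι, c, t, h1.trans hC, h2, h3, h4⟩

theorem PC.of_eq {C : ℝ} {Φ Ψ : (Fin n → Bool) → ℂ} (h : PC I C Φ) (he : ∀ x, Ψ x = Φ x) :
    PC I C Ψ := by
  obtain ⟨ι, iι, c, t, h1, h2, h3, h4⟩ := h
  exact ⟨ι, iι, c, t, h1, h2, h3, fun x => (he x).trans (h4 x)⟩

theorem PC.const (a : ℂ) : PC I ‖a‖ (fun _ => a) :=
  ⟨Unit, inferInstance, fun _ => a, fun _ _ _ => 1, by simp, fun _ _ _ _ _ => rfl,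
    fun _ _ _ => by simp, fun _ => by simp⟩

theorem PC.add {C C' : ℝ} {Φ Ψ : (Fin n → Bool) → ℂ} (h : PC I C Φ) (h' : PC I C' Ψ) :
    PC I (C + C') (fun x => Φ x + Ψ x) := by
  obtain ⟨ι, iι, c, t, h1, h2, h3, h4⟩ := h
  obtain ⟨κ, iκ, c', t', h1', h2', h3', h4'⟩ := h'
  refine ⟨ι ⊕ κ, inferInstance, Sum.elim c c', Sum.elim t t', ?_, ?_, ?_, fun x => ?_⟩
  · rw [Fintype.sum_sum_type]
    exact add_le_add h1 h1'
  · rintro (i | i) j
    · exact h2 i j
    · exact h2' i j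
  · rintro (i | i) j x
    · exact h3 i j x
    · exact h3' i j x
  · show Φ x + Ψ x = _
    rw [Fintype.sum_sum_type, h4, h4']
    rfl

theorem PC.mul {C C' : ℝ} {Φ Ψ : (Fin n → Bool) → ℂ} (h : PC I C Φ) (h' : PC I C' Ψ) :
    PC I (C * C') (fun x => Φ x * Ψ x) := by
  obtain ⟨ι, iι, c, t, h1, h2, h3, h4⟩ := h
  obtain ⟨κ, iκ, c', t', h1', h2', h3', h4'⟩ := h'
  refine ⟨ι × κ, inferInstance, fun i => c i.1 * c' i.2, fun i j x => t i.1 j x * t' i.2 j x, ?_,
    ?_, ?_, fun x => ?_⟩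
  · rw [Fintype.sum_prod_type]
    simp only [norm_mul]
    rw [← Fintype.sum_mul_sum]
    exact mul_le_mul h1 h1' (sum_nonneg fun _ _ => norm_nonneg _)
      ((sum_nonneg fun _ _ => norm_nonneg _).trans h1)
  · intro i j x y hxy
    show t i.1 j x * t' i.2 j x = t i.1 j y * t' i.2 j y
    rw [h2 i.1 j x y hxy, h2' i.2 j x y hxy]
  · intro i j x
    rw [norm_mul]
    exact mul_le_one₀ (h3 _ _ _) (norm_nonneg _) (h3' _ _ _)
  · show Φ x * Ψ x = _
    rw [h4, h4', Fintype.sum_mul_sum, Fintype.sum_prod_type]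
    refine sum_congr rfl fun i _ => sum_congr rfl fun j _ => ?_
    rw [prod_mul_distrib]
    ring

theorem PC.smul {C : ℝ} {Φ : (Fin n → Bool) → ℂ} (h : PC I C Φ) (a : ℂ) :
    PC I (‖a‖ * C) (fun x => a * Φ x) :=
  (PC.const a).mul h

theorem PC.nonneg {C : ℝ} {Φ : (Fin n → Bool) → ℂ} (h : PC I C Φ) : 0 ≤ C := by
  obtain ⟨ι, iι, c, t, h1, h2, h3, h4⟩ := h
  exact (sum_nonneg fun _ _ => norm_nonneg _).trans h1

theorem PC.sum {α : Type} (s : Finset α) {C : α → ℝ} {Φ : α → (Fin n → Bool) → ℂ}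
    (h : ∀ i ∈ s, PC I (C i) (Φ i)) : PC I (∑ i ∈ s, C i) (fun x => ∑ i ∈ s, Φ i x) := by
  classical
  induction s using Finset.induction_on with
  | empty =>
    simp only [sum_empty]
    exact (PC.const (I := I) 0).mono (by simp)
  | insert a s ha ih =>
    rw [sum_insert ha]
    simp only [sum_insert ha]
    exact (h a (mem_insert_self a s)).add (ih fun i hi => h i (mem_insert_of_mem hi))

theorem PC.prod {α : Type} (s : Finset α) {C : α → ℝ} {Φ : α → (Fin n → Bool) → ℂ}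
    (h : ∀ i ∈ s, PC I (C i) (Φ i)) : PC I (∏ i ∈ s, C i) (fun x => ∏ i ∈ s, Φ i x) := by
  classical
  induction s using Finset.induction_on with
  | empty =>
    simp only [prod_empty]
    exact (PC.const (I := I) 1).mono (by simp)
  | insert a s ha ih =>
    rw [prod_insert ha]
    simp only [prod_insert ha]
    exact (h a (mem_insert_self a s)).mul (ih fun i hi => h i (mem_insert_of_mem hi))

end pc

/-! ## Gates -/

theorem fg_char_sum {G : Type} [AddCommGroup G] (χ : AddChar G ℂ) {ι : Type*} (J : Finset ι)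
    (f : ι → G) : χ (∑ j ∈ J, f j) = ∏ j ∈ J, χ (f j) := by
  classical
  induction J using Finset.induction_on with
  | empty => simp
  | insert i J hi ih => rw [Finset.sum_insert hi, Finset.prod_insert hi, AddChar.map_add_eq_mul, ih]

/-- Questions in finite abelian groups. -/
theorem fg_group {I : Fin q → Finset (Fin n)} {G : Type} [AddCommGroup G] [Finite G]
    (a : Fin q → (Fin n → Bool) → G) (ha : OnBlocks I a) (S : Finset G) :
    PC I S.card (fun x => ((one (∑ j, a j x ∈ S) : ℝ) : ℂ)) := by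
  classical
  have : Fintype G := Fintype.ofFinite G
  have hG0 : (Fintype.card G : ℂ) ≠ 0 := by exact_mod_cast Fintype.card_ne_zero
  have hcard : Fintype.card (AddChar G ℂ) = Fintype.card G := AddChar.card_eq
  refine ⟨S × AddChar G ℂ, inferInstance,
    fun i => (1 / (Fintype.card G : ℂ)) * i.2 (-(i.1 : G)),
    fun i j x => i.2 (a j x), ?_, fun i j x y h => congrArg i.2 (ha j x y h), fun i j x => ?_,
    fun x => ?_⟩
  · have h1 : ∀ i : S × AddChar G ℂ,
        ‖(1 / (Fintype.card G : ℂ)) * i.2 (-(i.1 : G))‖ = 1 / (Fintype.card G : ℝ) := by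
      intro i
      rw [norm_mul, AddChar.norm_apply, mul_one, norm_div, norm_one, Complex.norm_natCast]
    simp only [h1]
    rw [Finset.sum_const, Finset.card_univ, Fintype.card_prod, hcard, Fintype.card_coe,
      nsmul_eq_mul]
    push_cast
    have hG : (Fintype.card G : ℝ) ≠ 0 := by exact_mod_cast Fintype.card_ne_zero
    field_simp
    exact le_rfl
  · rw [AddChar.norm_apply]
  · have h2 : ∀ i : S × AddChar G ℂ, (1 / (Fintype.card G : ℂ)) * i.2 (-(i.1 : G)) *
        (∏ j, i.2 (a j x)) =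
        (1 / (Fintype.card G : ℂ)) * i.2 (∑ j, a j x - (i.1 : G)) := by
      intro i
      rw [sub_eq_add_neg, AddChar.map_add_eq_mul, fg_char_sum]
      ring
    simp only [h2]
    rw [Fintype.sum_prod_type]
    have h3 : ∀ s : S, ∑ χ : AddChar G ℂ, (1 / (Fintype.card G : ℂ)) *
        χ (∑ j, a j x - (s : G)) = if ∑ j, a j x = (s : G) then 1 else 0 := by
      intro s
      rw [← Finset.mul_sum, AddChar.sum_apply_eq_ite]
      by_cases h : ∑ j, a j x = (s : G)
      · rw [if_pos h, if_pos (sub_eq_zero.mpr h)]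
        field_simp
      · rw [if_neg h, if_neg (fun h' => h (sub_eq_zero.mp h')), mul_zero]
    simp only [h3]
    rw [Finset.sum_coe_sort S fun s => if ∑ j, a j x = s then (1 : ℂ) else 0]
    rw [Finset.sum_ite_eq]
    unfold one
    split_ifs <;> simp

theorem fg_ind (P : Prop) (b : Bool) (hb : b = true ↔ P) : ind b = one P := by
  by_cases h : P
  · rw [one_true h, hb.2 h]
    rfl
  · rw [one_false h]
    have : b = false := by
      cases b
      · rfl
      · exact absurd (hb.1 rfl) h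
    rw [this]
    rfl

/-- Gates are combinations of products. -/
theorem fg_gate (B : ℕ) : ∃ C : ℝ, 0 ≤ C ∧ ∀ {n q : ℕ} {I : Fin q → Finset (Fin n)}
    {g : (Fin n → Bool) → Bool}, OGate B I g → PC I C (fun x => ((ind (g x) : ℝ) : ℂ)) := by
  obtain ⟨K, hK, H⟩ := monoid_split B
  refine ⟨max B K, hK.le.trans (le_max_right _ _), ?_⟩
  intro n q I g hg
  rcases hg with ⟨G, i1, i2, a, S, hS, ha, hgx⟩ | ⟨M, i1, i2, a, A, hM, ha, hgx⟩
  · refine ((fg_group a ha S).mono ((Nat.cast_le.2 hS).trans (le_max_left _ _))).of_eq fun x => ?_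
    rw [fg_ind _ _ (hgx x)]
  · obtain ⟨m, c, t, hc, ht, hF⟩ := H M hM q (fun m => ((one (m ∈ A) : ℝ) : ℂ)) (by
      intro m
      rw [Complex.norm_real, Real.norm_of_nonneg (one_nonneg _)]
      exact one_le _)
    refine ⟨Fin m, inferInstance, c, fun i j x => t i (a j x), hc.trans (le_max_right _ _),
      fun i j x y hxy => ?_, fun i j x => ht i _, fun x => ?_⟩
    · show t i (a j x) = t i (a j y)
      rw [ha j x y hxy]
    · show ((ind (g x) : ℝ) : ℂ) = _
      rw [fg_ind _ _ (hgx x)]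
      exact hF fun j => a j x

/-! ## Boolean functions of gates -/

/-- The multilinear extension of a Boolean function. -/
noncomputable def fg_ext {K : ℕ} (F : (Fin K → Bool) → Bool) (h : Fin K → ℂ) : ℂ :=
  ∑ A : Fin K → Bool, ((ind (F A) : ℝ) : ℂ) * ∏ i, (if A i = true then h i else 1 - h i)

theorem fg_ext_ind {K : ℕ} (F : (Fin K → Bool) → Bool) (b : Fin K → Bool) :
    fg_ext F (fun i => ((ind (b i) : ℝ) : ℂ)) = ((ind (F b) : ℝ) : ℂ) := by
  classical
  unfold fg_ext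
  rw [sum_eq_single b]
  · rw [prod_eq_one, mul_one]
    intro i _
    rcases hb : b i with _ | _ <;> simp [ind, hb]
  · intro A _ hA
    obtain ⟨i, hi⟩ : ∃ i, A i ≠ b i := by
      by_contra h
      push Not at h
      exact hA (funext h)
    rw [prod_eq_zero (mem_univ i), mul_zero]
    rcases hb : b i with _ | _ <;> rcases hc : A i with _ | _ <;> simp_all [ind]
  · intro h
    exact absurd (mem_univ b) h

theorem fg_ext_pc {K : ℕ} (F : (Fin K → Bool) → Bool) {I : Fin q → Finset (Fin n)} {C : ℝ}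
    (G : Fin K → (Fin n → Bool) → ℂ) (hG : ∀ i, PC I C (G i)) (hC : 0 ≤ C) :
    PC I (2 ^ K * (1 + C) ^ K) (fun x => fg_ext F (fun i => G i x)) := by
  have h1 : ∀ B : Fin K → Bool, PC I ((1 + C) ^ K)
      (fun x => ((ind (F B) : ℝ) : ℂ) * ∏ i, (if B i = true then G i x else 1 - G i x)) := by
    intro B
    have h2 : ∀ i : Fin K, PC I (1 + C)
        (fun x => (if B i = true then G i x else 1 - G i x)) := by
      intro i
      by_cases hB : B i = true
      · simp only [hB, if_true]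
        exact (hG i).mono (by linarith)
      · simp only [hB]
        have := (PC.const (I := I) 1).add ((hG i).smul (-1))
        refine (this.of_eq fun x => ?_).mono ?_
        · simp only [Bool.false_eq_true, if_false]
          ring
        · simp
    have h3 := PC.prod (univ : Finset (Fin K)) (C := fun _ => 1 + C) fun i _ => h2 i
    have h4 := h3.smul ((ind (F B) : ℝ) : ℂ)
    refine h4.mono ?_
    rw [prod_const, card_univ, Fintype.card_fin, Complex.norm_real,
      Real.norm_of_nonneg (ind_nonneg _)]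
    calc ind (F B) * (1 + C) ^ K ≤ 1 * (1 + C) ^ K :=
          mul_le_mul_of_nonneg_right (ind_le_one _) (by positivity)
      _ = _ := one_mul _
  have h2 := PC.sum (univ : Finset (Fin K → Bool)) (C := fun _ => (1 + C) ^ K) fun B _ => h1 B
  refine (h2.of_eq fun x => rfl).mono (le_of_eq ?_)
  rw [sum_const, card_univ, Fintype.card_fun, Fintype.card_bool, Fintype.card_fin, nsmul_eq_mul]
  push_cast
  rfl

/-! ## The theorem -/

private theorem fg_av {A : Type*} [Fintype A] (g : A → Bool) :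
    ((prob g : ℝ) : ℂ) = av (fun a => ((ind (g a) : ℝ) : ℂ)) := by
  rw [prob_eq_avg]
  unfold avg av
  push_cast
  rfl

private theorem fg_av_sum {A C : Type*} [Fintype A] (s : Finset C) (b : C → ℂ) (f : C → A → ℂ) :
    av (fun a => ∑ c ∈ s, b c * f c a) = ∑ c ∈ s, b c * av (f c) := by
  unfold av
  rw [Finset.sum_comm, Finset.sum_div]
  refine Finset.sum_congr rfl fun c _ => ?_
  rw [← Finset.mul_sum, mul_div_assoc]

private theorem fg_na_sum {C : Type*} (M : ℕ) (s : Finset C) (b : C → ℂ) (f : C → ℕ → ℂ) :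
    na M (fun a => ∑ c ∈ s, b c * f c a) = ∑ c ∈ s, b c * na M (f c) := by
  rw [na_sum]
  exact Finset.sum_congr rfl fun c _ => na_mul_left _ _ _

/-- Larger classes for small `n` do not matter. -/
theorem fg_eventually {𝒯 𝒯' : ∀ n : ℕ, ((Fin n → Bool) → Bool) → Prop} {ε : ℝ}
    (h : LogGen 𝒯 ε) (n₀ : ℕ) (h' : ∀ n ≥ n₀, ∀ T, 𝒯' n T → 𝒯 n T) : LogGen 𝒯' ε := by
  obtain ⟨D, G, hD, hG, hl, c, hc⟩ := h
  refine ⟨D, G, hD, hG, hl, c, ?_⟩
  filter_upwards [hc, Filter.eventually_ge_atTop n₀] with n hn hn'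
  exact ⟨hn.1, hn.2.1, fun T hT => hn.2.2 T (h' n hn' T hT)⟩

theorem final_gates (c r B k : ℕ) {ε : ℝ} (hε : 0 < ε) : LogGen (OTest c r B k) ε := by
  classical
  obtain ⟨C, hC, HC⟩ := fg_gate B
  have hK : 0 < 2 ^ k * (1 + C) ^ k := by positivity
  obtain ⟨E, G, hNG, n₀, H⟩ := main_disc r c (ε := ε / (2 ^ k * (1 + C) ^ k)) (by positivity)
  refine fg_eventually (𝒯 := fun n T => n₀ ≤ n ∧ OTest c r B k n T)
    (logGen_of hNG fun n T hT => ?_) n₀ fun n hn T hT => ⟨hn, hT⟩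
  obtain ⟨hn0, q, I, g, F, hcard, hov, hg, hT⟩ := hT
  have hpc := fg_ext_pc F (fun i x => ((ind (g i x) : ℝ) : ℂ)) (fun i => HC (hg i)) hC
  obtain ⟨ι, iι, a, t, ha, hdep, ht, hF⟩ := hpc
  have hind : ∀ x, ((ind (T x) : ℝ) : ℂ) = ∑ i, a i * ∏ j, t i j x := by
    intro x
    rw [hT x, ← fg_ext_ind]
    exact hF x
  have h1 : ((nr (2 ^ E n) (fun p => ind (T (out G n p))) : ℝ) : ℂ) =
      ∑ i, a i * na (2 ^ E n) (fun p => ∏ j, t i j (out G n p)) := by
    rw [nr_ofReal, ← fg_na_sum]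
    exact na_congr fun p _ => hind _
  have h2 : ((prob T : ℝ) : ℂ) =
      ∑ i, a i * av (fun x => ∏ j, t i j x) := by
    rw [fg_av, ← fg_av_sum]
    congr 1
    funext x
    exact hind x
  have h3 : |nr (2 ^ E n) (fun p => ind (T (out G n p))) - prob T|
      = ‖((nr (2 ^ E n) (fun p => ind (T (out G n p))) : ℝ) : ℂ) - ((prob T : ℝ) : ℂ)‖ := by
    rw [← Complex.ofReal_sub, Complex.norm_real, Real.norm_eq_abs]
  rw [h3, h1, h2, ← Finset.sum_sub_distrib]
  refine (norm_sum_le _ _).trans ?_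
  have h4 : ∀ i ∈ (Finset.univ : Finset ι),
      ‖a i * na (2 ^ E n) (fun p => ∏ j, t i j (out G n p)) -
        a i * av (fun x => ∏ j, t i j x)‖ ≤ ‖a i‖ * (ε / (2 ^ k * (1 + C) ^ k)) := by
    intro i _
    have h5 := H n hn0 q I (t i) hov.1 hov.2 hcard (hdep i) (ht i)
    rw [← mul_sub, norm_mul]
    exact mul_le_mul_of_nonneg_left h5 (norm_nonneg _)
  refine (Finset.sum_le_sum h4).trans ?_
  rw [← Finset.sum_mul]
  refine (mul_le_mul_of_nonneg_right ha (by positivity)).trans (le_of_eq ?_)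
  field_simp

end Pool.Agent.MP_ca1109_lc.Ov
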