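import Pool.Agent.MP_ca1109_lc.Ov.Defs
import Pool.Agent.MP_ca1109_lc.Pt.MZ
import Pool.Agent.MP_ca1109_lc.Pt.EX
import Pool.Agent.MP_ca1109_lc.Pt.AU

/-!
# Row BI: strings of small bias and simple functions
-/

namespace Pool.Agent.MP_ca1109_lc.Ov

open Finset Pool.Agent.H66 Pool.Agent.MP_ca1109_lc.Mpg Pool.Agent.MP_ca1109_lc.Agp
  Pool.Agent.MP_ca1109_lc.Xp

theorem bi_card {n : ℕ} {ι : Type} {B : ι → Finset (Fin n)} {N K : ℕ} (hN : 1 ≤ N)
    (hB : ∀ i, 2 ^ (B i).card ≤ N) {b : Finset ι} (hb : b.card ≤ K) :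
    (2 : ℝ) ^ (b.biUnion B).card ≤ (N : ℝ) ^ K := by
  classical
  have h1 : (b.biUnion B).card ≤ ∑ i ∈ b, (B i).card := card_biUnion_le
  have h2 : 2 ^ (b.biUnion B).card ≤ N ^ K := by
    calc 2 ^ (b.biUnion B).card ≤ 2 ^ ∑ i ∈ b, (B i).card :=
          Nat.pow_le_pow_right (by norm_num) h1
      _ = ∏ i ∈ b, 2 ^ (B i).card := by rw [Finset.prod_pow_eq_pow_sum]
      _ ≤ ∏ _i ∈ b, N := Finset.prod_le_prod' fun i _ => hB i
      _ = N ^ b.card := by rw [Finset.prod_const]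
      _ ≤ N ^ K := Nat.pow_le_pow_right hN hb
  exact_mod_cast h2

theorem sp_of_smp {n : ℕ} {ι : Type} {B : ι → Finset (Fin n)} {N K : ℕ} (hN : 1 ≤ N)
    (hB : ∀ i, 2 ^ (B i).card ≤ N) {L : ℝ} {t : (Fin n → Bool) → ℂ} (h : Smp B K L t) :
    Sp (L * N ^ K) t := by
  obtain ⟨q, u, a, b, hu, hL, ht⟩ := h
  have ha : ∀ i, 0 ≤ a i := fun i => (norm_nonneg _).trans ((hu i).2.2 fun _ => true)
  have h1 : Sp (∑ i, (N : ℝ) ^ K * a i) (fun x => ∑ i, u i x) :=
    Sp.sum univ _ _ fun i _ => (Pt.sp_on (I := (b i).biUnion B) (hu i).2.1 (hu i).2.2).mono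
      (mul_le_mul_of_nonneg_right (bi_card hN hB (hu i).1) (ha i))
  refine (h1.mono ?_).congr' ht
  rw [← mul_sum, mul_comm]
  exact mul_le_mul_of_nonneg_right hL (by positivity)

/-- The average of a sign over a random point of density `p`. -/
theorem bi_cc {n : ℕ} (p : ℝ) (S : Finset (Fin n)) :
    ∑ W : Fin n → Bool, (∏ i, if W i then p else 1 - p) * Pt.cc S W =
      (1 - 2 * p) ^ S.card := by
  classical
  have h1 : ∀ W : Fin n → Bool, (∏ i, if W i then p else 1 - p) * Pt.cc S W =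
      ∏ i, (fun (i : Fin n) (b : Bool) => (if b then p else 1 - p) *
        (if i ∈ S then (if b = true then (-1 : ℝ) else 1) else 1)) i (W i) := by
    intro W
    have h2 : Pt.cc S W = ∏ i, if i ∈ S then (if W i = true then (-1 : ℝ) else 1) else 1 := by
      rw [Finset.prod_ite_mem, Finset.univ_inter]
      rfl
    rw [h2, ← prod_mul_distrib]
  have h1' : ∑ W : Fin n → Bool, (∏ i, if W i then p else 1 - p) * Pt.cc S W =
      ∏ i : Fin n, ∑ b : Bool, ((if b then p else 1 - p) *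
        (if i ∈ S then (if b = true then (-1 : ℝ) else 1) else 1)) := by
    rw [Fintype.prod_sum]
    exact sum_congr rfl fun W _ => h1 W
  rw [h1']
  have h3 : ∀ i : Fin n, (∑ b : Bool, (if b then p else 1 - p) *
      (if i ∈ S then (if b = true then (-1 : ℝ) else 1) else 1)) =
      if i ∈ S then 1 - 2 * p else 1 := by
    intro i
    rw [Fintype.sum_bool]
    split_ifs <;> simp_all; ring
  simp only [h3]
  rw [Finset.prod_ite_mem, Finset.univ_inter, prod_const]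

theorem bi_ch {n : ℕ} (S : Finset (Fin n)) (W : Fin n → Bool) :
    Dnf.ch S W = (-1) ^ S.card * Pt.cc S W := by
  rw [Pt.cc_eq_ch, ← mul_assoc, ← mul_pow]
  norm_num

theorem bi_avp {n : ℕ} (p : ℝ) (u : (Fin n → Bool × Bool) → ℂ) :
    avp p u = ∑ S : Finset (Fin n),
      Pt.co (fun W : Fin n → Bool => av fun y : Fin n → Bool => u fun i => (y i, W i)) S *
        ((((-1) ^ S.card * (1 - 2 * p) ^ S.card : ℝ)) : ℂ) := by
  set v : (Fin n → Bool) → ℂ := fun W => av fun y : Fin n → Bool => u fun i => (y i, W i) with hv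
  have h1 : avp p u = ∑ W : Fin n → Bool,
      (((∏ i, if W i then p else 1 - p : ℝ)) : ℂ) * v W := by
    unfold avp
    rw [spb_av_sum]
    simp only [spb_av_mul, hv]
  have h2 : ∀ W : Fin n → Bool, (((∏ i, if W i then p else 1 - p : ℝ)) : ℂ) * v W =
      ∑ S, Pt.co v S *
        ((((-1) ^ S.card * ((∏ i, if W i then p else 1 - p) * Pt.cc S W) : ℝ)) : ℂ) := by
    intro W
    rw [Pt.co_exp v W, mul_sum]
    refine sum_congr rfl fun S _ => ?_
    rw [bi_ch]
    push_cast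
    ring
  rw [h1]
  simp only [h2]
  rw [sum_comm]
  refine sum_congr rfl fun S _ => ?_
  rw [← mul_sum]
  congr 1
  rw [← Complex.ofReal_sum, ← mul_sum, bi_cc]

theorem bi_wd {n s L l : ℕ} (hl : l ≤ L) (d : Fin (2 ^ s) → Bool) {I : Finset (Fin n)} {a : ℝ}
    {v : (Fin n → Bool) → ℂ} (hv : Dep I v) (ha : ∀ W, ‖v W‖ ≤ a) :
    Sp (2 ^ I.card * a * (2 ^ I.card) ^ (s + 2)) (fun z : Fin (n * (L + s)) → Bool =>
      v (Pt.wd (eta z l) (hsh z) d)) ∧
    (av fun z : Fin (n * (L + s)) → Bool => v (Pt.wd (eta z l) (hsh z) d)) =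
      ∑ S : Finset (Fin n), Pt.co v S *
        ((((-1) ^ S.card * (1 - 2 * Pt.pd l s d) ^ S.card : ℝ)) : ℂ) := by
  classical
  have h1 : ∀ W, v W = ∑ S, (Pt.co v S * (((-1) ^ S.card : ℝ) : ℂ)) *
      ((Pt.cc S W : ℝ) : ℂ) := by
    intro W
    rw [Pt.co_exp v W]
    refine sum_congr rfl fun S _ => ?_
    rw [bi_ch]
    push_cast
    ring
  have ha0 : 0 ≤ a := (norm_nonneg _).trans (ha fun _ => true)
  constructor
  · have h2 : ∀ W, v W = ∑ S ∈ I.powerset, (Pt.co v S * (((-1) ^ S.card : ℝ) : ℂ)) *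
        ((Pt.cc S W : ℝ) : ℂ) := by
      intro W
      rw [h1 W]
      symm
      refine sum_subset (subset_univ _) fun S _ hS => ?_
      rw [mem_powerset] at hS
      rw [Pt.co_on hv hS]
      simp
    have h3 := Sp.sum I.powerset
      (fun S => ‖Pt.co v S * (((-1) ^ S.card : ℝ) : ℂ)‖ * (2 ^ S.card) ^ (s + 2))
      (fun S (z : Fin (n * (L + s)) → Bool) => (Pt.co v S * (((-1) ^ S.card : ℝ) : ℂ)) *
        ((Pt.cc S (Pt.wd (eta z l) (hsh z) d) : ℝ) : ℂ))
      fun S _ => Sp.smul _ (Pt.cc_sp hl d S)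
    refine (h3.mono ?_).congr' fun z => h2 _
    calc ∑ S ∈ I.powerset, ‖Pt.co v S * (((-1) ^ S.card : ℝ) : ℂ)‖ * (2 ^ S.card) ^ (s + 2)
        ≤ ∑ _S ∈ I.powerset, a * (2 ^ I.card) ^ (s + 2) := by
          refine sum_le_sum fun S hS => ?_
          rw [mem_powerset] at hS
          have h4 : ‖Pt.co v S * (((-1) ^ S.card : ℝ) : ℂ)‖ ≤ a := by
            rw [norm_mul, Complex.norm_real, norm_pow, norm_neg, norm_one, one_pow, mul_one]
            exact Pt.ex_co_norm ha S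
          have h5 : ((2 : ℝ) ^ S.card) ^ (s + 2) ≤ (2 ^ I.card) ^ (s + 2) :=
            pow_le_pow_left₀ (by positivity)
              (pow_le_pow_right₀ (by norm_num) (card_le_card hS)) _
          exact mul_le_mul h4 h5 (by positivity) ha0
      _ = 2 ^ I.card * a * (2 ^ I.card) ^ (s + 2) := by
          rw [sum_const, card_powerset, nsmul_eq_mul]
          push_cast
          ring
  · have h2 : (fun z : Fin (n * (L + s)) → Bool => v (Pt.wd (eta z l) (hsh z) d)) =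
        fun z => ∑ S, (Pt.co v S * (((-1) ^ S.card : ℝ) : ℂ)) *
          ((Pt.cc S (Pt.wd (eta z l) (hsh z) d) : ℝ) : ℂ) := funext fun z => h1 _
    rw [h2, spb_av_sum]
    refine sum_congr rfl fun S _ => ?_
    rw [spb_av_mul, spb_avg_ofReal, Pt.cc_avg hl d S]
    push_cast
    ring

theorem bi_close {A : Type*} [Fintype A] [Nonempty A] {F G : A → ℂ} {c : ℝ}
    (h : ∀ a, ‖F a - G a‖ ≤ c) : ‖av F - av G‖ ≤ c := by
  have h1 : av F - av G = av fun a => F a - G a := by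
    unfold av
    rw [sum_sub_distrib, sub_div]
  rw [h1]
  exact (norm_av_le _).trans (avg_le h)

theorem bi_const {A : Type*} [Fintype A] [Nonempty A] (c : ℂ) : av (fun _ : A => c) = c := by
  unfold av
  have h : (Fintype.card A : ℂ) ≠ 0 := by exact_mod_cast Fintype.card_ne_zero
  rw [sum_const, card_univ, nsmul_eq_mul, mul_div_cancel_left₀ _ h]

theorem bi_one {n s L l : ℕ} (hl : l ≤ L) (d : Fin (2 ^ s) → Bool) {I : Finset (Fin n)} {a : ℝ}
    {u : (Fin n → Bool × Bool) → ℂ} (hu : Dep I u) (ha : ∀ x, ‖u x‖ ≤ a) {Ω₁ Ω₂ : Type}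
    [Fintype Ω₁] [Nonempty Ω₁] [Fintype Ω₂] [Nonempty Ω₂] (Y : Ω₁ → Fin n → Bool)
    (Z : Ω₂ → Fin (n * (L + s)) → Bool) (sh : Ω₂ → Fin n → Bool) {δ : ℝ} (hδ : 0 ≤ δ)
    (hY : Bias δ Y) (hZ : Bias δ Z) :
    ‖(av fun ω₂ => av fun ω₁ => u fun i => (xo (Y ω₁) (sh ω₂) i,
        Pt.wd (eta (Z ω₂) l) (hsh (Z ω₂)) d i)) - avp (Pt.pd l s d) u‖ ≤
      δ * (a * (2 ^ I.card) ^ (s + 4)) := by
  have ha0 : 0 ≤ a := (norm_nonneg _).trans (ha fun _ => (true, true))
  by_cases hI : I = ∅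
  · subst hI
    have h1 : ∀ x, u x = u fun _ => (true, true) := fun x => hu x _ fun e he => by simp at he
    set c : ℂ := u fun _ => (true, true) with hc
    have h2 : u = fun _ => c := funext h1
    have h3 : avp (Pt.pd l s d) u = c := by
      rw [h2]
      unfold avp
      rw [spb_av_sum]
      simp only [spb_av_mul, bi_const]
      rw [← sum_mul, ← Complex.ofReal_sum]
      have h4 := bi_cc (n := n) (Pt.pd l s d) ∅
      simp only [Pt.cc_empty, mul_one, card_empty, pow_zero] at h4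
      rw [h4, Complex.ofReal_one, one_mul]
    rw [h3, h2]
    simp only [bi_const, sub_self, norm_zero]
    positivity
  · have hV : (2 : ℝ) ≤ 2 ^ I.card := by
      have h1 : 1 ≤ I.card := Finset.card_pos.2 (Finset.nonempty_iff_ne_empty.2 hI)
      calc (2 : ℝ) = 2 ^ 1 := by norm_num
        _ ≤ 2 ^ I.card := pow_le_pow_right₀ (by norm_num) h1
    set V : ℝ := 2 ^ I.card with hVd
    set v : (Fin n → Bool) → ℂ := fun W => av fun y : Fin n → Bool => u fun i => (y i, W i) with hv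
    have hvd : Dep I v := by
      intro x y hxy
      rw [hv]
      show (av fun z : Fin n → Bool => u fun i => (z i, x i)) =
        av fun z : Fin n → Bool => u fun i => (z i, y i)
      congr 1
      funext z
      exact hu _ _ fun e he => by rw [hxy e he]
    have hva : ∀ W, ‖v W‖ ≤ a := fun W =>
      (norm_av_le _).trans (avg_le fun y => ha _)
    have h1 : ‖(av fun ω₂ => av fun ω₁ => u fun i => (xo (Y ω₁) (sh ω₂) i,
        Pt.wd (eta (Z ω₂) l) (hsh (Z ω₂)) d i)) -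
        av fun ω₂ => v (Pt.wd (eta (Z ω₂) l) (hsh (Z ω₂)) d)‖ ≤ δ * (V * a) := by
      refine bi_close fun ω₂ => ?_
      exact fool (f := fun y : Fin n → Bool =>
        u fun i => (y i, Pt.wd (eta (Z ω₂) l) (hsh (Z ω₂)) d i)) hδ (hY.xo (sh ω₂))
        (Pt.sp_on (I := I) (fun x y hxy => hu _ _ fun e he => by rw [hxy e he]) fun x => ha _)
    obtain ⟨h2, h3⟩ := bi_wd hl d hvd hva
    have h4 := fool (f := fun z : Fin (n * (L + s)) → Bool => v (Pt.wd (eta z l) (hsh z) d))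
      hδ hZ h2
    have h5 : avp (Pt.pd l s d) u =
        av fun z : Fin (n * (L + s)) → Bool => v (Pt.wd (eta z l) (hsh z) d) := by
      rw [h3, bi_avp]
    rw [h5]
    have h6 : ‖(av fun ω₂ => av fun ω₁ => u fun i => (xo (Y ω₁) (sh ω₂) i,
        Pt.wd (eta (Z ω₂) l) (hsh (Z ω₂)) d i)) -
        av fun z : Fin (n * (L + s)) → Bool => v (Pt.wd (eta z l) (hsh z) d)‖ ≤
        δ * (V * a) + δ * (V * a * V ^ (s + 2)) := by
      refine le_trans (norm_sub_le_norm_sub_add_norm_sub _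
        (av fun ω₂ => v (Pt.wd (eta (Z ω₂) l) (hsh (Z ω₂)) d)) _) (add_le_add h1 h4)
    refine h6.trans ?_
    have h7 : V + V * V ^ (s + 2) ≤ V ^ (s + 4) := by
      have h8 : (1 : ℝ) ≤ V ^ (s + 2) := one_le_pow₀ (by linarith)
      have h9 : V ^ (s + 4) = V * (V * V ^ (s + 2)) := by ring
      rw [h9]
      have h10 : 1 + V ^ (s + 2) ≤ V * V ^ (s + 2) := by nlinarith
      nlinarith
    have h8 : δ * (V * a) + δ * (V * a * V ^ (s + 2)) = δ * a * (V + V * V ^ (s + 2)) := by ring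
    rw [h8, ← mul_assoc]
    exact mul_le_mul_of_nonneg_left h7 (by positivity)

theorem bias_pair {n s L l : ℕ} (hl : l ≤ L) (d : Fin (2 ^ s) → Bool) {ι : Type}
    {B : ι → Finset (Fin n)} {N K : ℕ} (hN : 1 ≤ N) (hB : ∀ i, 2 ^ (B i).card ≤ N) {M : ℝ}
    {g : (Fin n → Bool × Bool) → ℂ} (h : Smp B K M g) {Ω₁ Ω₂ : Type} [Fintype Ω₁] [Nonempty Ω₁]
    [Fintype Ω₂] [Nonempty Ω₂] (Y : Ω₁ → Fin n → Bool) (Z : Ω₂ → Fin (n * (L + s)) → Bool)
    (sh : Ω₂ → Fin n → Bool) {δ : ℝ} (hδ : 0 ≤ δ) (hY : Bias δ Y) (hZ : Bias δ Z) :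
    ‖(av fun ω₂ => av fun ω₁ => g fun i => (xo (Y ω₁) (sh ω₂) i,
        Pt.wd (eta (Z ω₂) l) (hsh (Z ω₂)) d i)) - avp (Pt.pd l s d) g‖ ≤
      δ * (M * N ^ (K * (s + 4))) := by
  obtain ⟨q, u, a, b, hu, hM, hg⟩ := h
  have ha : ∀ i, 0 ≤ a i := fun i => (norm_nonneg _).trans ((hu i).2.2 fun _ => (true, true))
  have h1 : g = fun x => ∑ i, u i x := funext hg
  have h2 : (av fun ω₂ => av fun ω₁ => g fun i => (xo (Y ω₁) (sh ω₂) i,
        Pt.wd (eta (Z ω₂) l) (hsh (Z ω₂)) d i)) - avp (Pt.pd l s d) g =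
      ∑ i, ((av fun ω₂ => av fun ω₁ => u i fun i => (xo (Y ω₁) (sh ω₂) i,
        Pt.wd (eta (Z ω₂) l) (hsh (Z ω₂)) d i)) - avp (Pt.pd l s d) (u i)) := by
    rw [h1, sum_sub_distrib]
    congr 1
    · simp only [spb_av_sum]
    · unfold avp
      rw [← spb_av_sum]
      congr 1
      funext y
      rw [sum_comm]
      refine sum_congr rfl fun W _ => ?_
      rw [mul_sum]
  rw [h2]
  refine (norm_sum_le _ _).trans ?_
  calc ∑ i, ‖(av fun ω₂ => av fun ω₁ => u i fun i => (xo (Y ω₁) (sh ω₂) i,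
        Pt.wd (eta (Z ω₂) l) (hsh (Z ω₂)) d i)) - avp (Pt.pd l s d) (u i)‖
      ≤ ∑ i, δ * (a i * N ^ (K * (s + 4))) := by
        refine sum_le_sum fun i _ => ?_
        refine (bi_one hl d (hu i).2.1 (hu i).2.2 Y Z sh hδ hY hZ).trans ?_
        refine mul_le_mul_of_nonneg_left (mul_le_mul_of_nonneg_left ?_ (ha i)) hδ
        rw [pow_mul]
        exact pow_le_pow_left₀ (by positivity) (bi_card hN hB (hu i).1) _
    _ = δ * ((∑ i, a i) * N ^ (K * (s + 4))) := by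
        rw [← mul_sum, sum_mul]
    _ ≤ δ * (M * N ^ (K * (s + 4))) :=
        mul_le_mul_of_nonneg_left (mul_le_mul_of_nonneg_right hM (by positivity)) hδ

end Pool.Agent.MP_ca1109_lc.Ov
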