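import Pool.Agent.MP_ca1109_lc.Ov.Defs
import Pool.Agent.MP_ca1109_lc.Pt.CS

namespace Pool.Agent.MP_ca1109_lc.Ov

open Finset Pool.Agent.H66 Pool.Agent.MP_ca1109_lc.Mpg Pool.Agent.MP_ca1109_lc.Agp
  Pool.Agent.MP_ca1109_lc.Xp

/-! ## CA: Cauchy-Schwarz with the norm outside (as `Pt.cs`) -/

theorem cs_out {n : ℕ} {Ω₁ Ω₂ : Type} [Fintype Ω₁] [Nonempty Ω₁] [Fintype Ω₂] [Nonempty Ω₂]
    {B : ℕ} (f : (Fin n → Bool) → ℂ) (Y : Ω₁ → Fin n → Bool) (η : Ω₂ → Finset (Fin n))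
    (h : Ω₂ → Fin n → Fin B) (sh : Ω₂ → Fin n → Bool) :
    ‖av fun ω₂ => av fun ω₁ => av fun u : Fin B → Bool =>
      f (mv (xo (Y ω₁) (sh ω₂)) (η ω₂) (h ω₂) u)‖ ^ 2 ≤
    avg fun d : Fin B → Bool => avg fun u : Fin B → Bool =>
      ‖av fun ω₂ => av fun ω₁ => Pt.dr f (Pt.wd (η ω₂) (h ω₂) d)
        (xo (Y ω₁) (xo (sh ω₂) (Pt.wd (η ω₂) (h ω₂) u)))‖ := by
  set g : Ω₂ → Ω₁ → (Fin B → Bool) → ℂ := fun ω₂ ω₁ u =>
    f (mv (xo (Y ω₁) (sh ω₂)) (η ω₂) (h ω₂) u) with hg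
  have h1 : ‖av fun ω₂ => av fun ω₁ => av (g ω₂ ω₁)‖ ^ 2 ≤
      avg fun ω₂ => avg fun ω₁ => ‖av (g ω₂ ω₁)‖ ^ 2 :=
    (Pt.cs_sq _).trans (avg_mono fun ω₂ => Pt.cs_sq _)
  refine h1.trans ?_
  have h2 : (((avg fun ω₂ => avg fun ω₁ => ‖av (g ω₂ ω₁)‖ ^ 2 : ℝ)) : ℂ) =
      av fun d : Fin B → Bool => av fun u : Fin B → Bool => av fun ω₂ => av fun ω₁ =>
        Pt.dr f (Pt.wd (η ω₂) (h ω₂) d)
          (xo (Y ω₁) (xo (sh ω₂) (Pt.wd (η ω₂) (h ω₂) u))) := by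
    rw [← spb_avg_ofReal]
    have h5 : ∀ ω₂, (((avg fun ω₁ => ‖av (g ω₂ ω₁)‖ ^ 2 : ℝ)) : ℂ) =
        av fun d : Fin B → Bool => av fun u : Fin B → Bool => av fun ω₁ =>
          Pt.dr f (Pt.wd (η ω₂) (h ω₂) d)
            (xo (Y ω₁) (xo (sh ω₂) (Pt.wd (η ω₂) (h ω₂) u))) := by
      intro ω₂
      rw [← spb_avg_ofReal]
      have h3 : ∀ ω₁, ((‖av (g ω₂ ω₁)‖ ^ 2 : ℝ) : ℂ) = av fun d : Fin B → Bool =>
          av fun u : Fin B → Bool => Pt.dr f (Pt.wd (η ω₂) (h ω₂) d)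
            (xo (Y ω₁) (xo (sh ω₂) (Pt.wd (η ω₂) (h ω₂) u))) := by
        intro ω₁
        refine (Pt.cs_normsq (g ω₂ ω₁)).trans ?_
        congr 1
        funext d
        congr 1
        funext u
        rw [hg]
        unfold Pt.dr
        beta_reduce
        rw [Pt.mv_eq, Pt.mv_eq, Pt.cs_wd, ← Pt.cs_xo_assoc, Pt.cs_xo_assoc (Y ω₁)]
      simp_rw [h3]
      rw [av_comm]
      congr 1
      funext d
      rw [av_comm]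
    simp_rw [h5]
    rw [av_comm]
    congr 1
    funext d
    rw [av_comm]
  have h4 : (avg fun ω₂ => avg fun ω₁ => ‖av (g ω₂ ω₁)‖ ^ 2) =
      ‖(((avg fun ω₂ => avg fun ω₁ => ‖av (g ω₂ ω₁)‖ ^ 2 : ℝ)) : ℂ)‖ := by
    rw [Complex.norm_real, Real.norm_eq_abs, abs_of_nonneg]
    exact avg_nonneg fun _ => avg_nonneg fun _ => by positivity
  rw [h4, h2]
  refine (norm_av_le _).trans (avg_mono fun d => ?_)
  exact norm_av_le _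

end Pool.Agent.MP_ca1109_lc.Ov
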