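import Mathlib

/-!
The covering lemma: if a random set of cells is covered by few blocks with probability bounded
below, then all but a bounded mass of the cells lies in a bounded number of blocks.
-/

namespace Pool.Agent.MP_ca1109_lc.Ov

open Finset

variable {E J : Type} [Fintype E] [DecidableEq E] [Fintype J] [DecidableEq J]

/-- the probability of the set `S` if the cells are chosen independently with probabilities `v`. -/
noncomputable def bw (v : E → ℝ) (S : Finset E) : ℝ :=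
  (∏ e ∈ S, v e) * ∏ e ∈ univ \ S, (1 - v e)

/-- the expectation over the random set. -/
noncomputable def bE (v : E → ℝ) (f : Finset E → ℝ) : ℝ := ∑ S, bw v S * f S

theorem cg_bw_nonneg {v : E → ℝ} (h0 : ∀ e, 0 ≤ v e) (h1 : ∀ e, v e ≤ 1) (S : Finset E) :
    0 ≤ bw v S :=
  mul_nonneg (prod_nonneg fun e _ => h0 e) (prod_nonneg fun e _ => by linarith [h1 e])

theorem cg_mono {v : E → ℝ} (h0 : ∀ e, 0 ≤ v e) (h1 : ∀ e, v e ≤ 1) {f g : Finset E → ℝ}
    (h : ∀ S, f S ≤ g S) : bE v f ≤ bE v g :=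
  sum_le_sum fun S _ => mul_le_mul_of_nonneg_left (h S) (cg_bw_nonneg h0 h1 S)

theorem cg_add (v : E → ℝ) (f g : Finset E → ℝ) :
    bE v (fun S => f S + g S) = bE v f + bE v g := by
  simp only [bE, mul_add, sum_add_distrib]

theorem cg_smul (v : E → ℝ) (c : ℝ) (f : Finset E → ℝ) :
    bE v (fun S => c * f S) = c * bE v f := by
  simp only [bE, mul_sum]
  exact sum_congr rfl fun S _ => by ring

theorem cg_sum (v : E → ℝ) {ι : Type} (s : Finset ι) (f : ι → Finset E → ℝ) :
    bE v (fun S => ∑ i ∈ s, f i S) = ∑ i ∈ s, bE v (f i) := by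
  simp only [bE, mul_sum]
  rw [sum_comm]

theorem cg_sub (v : E → ℝ) (A : Finset E) :
    bE v (fun S => if A ⊆ S then 1 else 0) = ∏ e ∈ A, v e := by
  have h := Finset.prod_add v (fun e => if e ∈ A then 0 else 1 - v e) (univ : Finset E)
  have h1 : ∏ e, (v e + if e ∈ A then 0 else 1 - v e) = ∏ e ∈ A, v e := by
    rw [← Finset.prod_subset (Finset.subset_univ A)]
    · exact prod_congr rfl fun e he => by simp [he]
    · intro e _ he
      simp [he]
  rw [h1] at h
  rw [h, powerset_univ]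
  unfold bE bw
  refine sum_congr rfl fun S _ => ?_
  by_cases hA : A ⊆ S
  · simp only [hA, if_true, mul_one]
    congr 1
    refine prod_congr rfl fun e he => ?_
    have : e ∉ A := fun h => (mem_sdiff.mp he).2 (hA h)
    simp [this]
  · simp only [hA, if_false, mul_zero]
    symm
    obtain ⟨e, heA, heS⟩ := Finset.not_subset.mp hA
    apply mul_eq_zero_of_right
    exact prod_eq_zero (i := e) (by simp [heS]) (by simp [heA])

theorem cg_one (v : E → ℝ) : bE v (fun _ => 1) = 1 := by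
  have := cg_sub v ∅
  simpa using this

theorem cg_card (v : E → ℝ) (M : Finset E) :
    bE v (fun S => ((S ∩ M).card : ℝ)) = ∑ e ∈ M, v e := by
  have h : ∀ S : Finset E, ((S ∩ M).card : ℝ) = ∑ e ∈ M, if ({e} : Finset E) ⊆ S then 1 else 0 := by
    intro S
    simp only [singleton_subset_iff]
    rw [← sum_filter, sum_const, nsmul_eq_mul, mul_one]
    congr 2
    ext e
    simp [and_comm]
  simp only [h]
  rw [cg_sum]
  refine sum_congr rfl fun e _ => ?_
  rw [cg_sub, prod_singleton]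

theorem cg_card_sq {v : E → ℝ} (M : Finset E) :
    bE v (fun S => ((S ∩ M).card : ℝ) ^ 2) ≤ ∑ e ∈ M, v e + (∑ e ∈ M, v e) ^ 2 := by
  have h : ∀ S : Finset E, ((S ∩ M).card : ℝ) ^ 2 =
      ∑ e ∈ M, ∑ e' ∈ M, if ({e, e'} : Finset E) ⊆ S then 1 else 0 := by
    intro S
    have h1 : ((S ∩ M).card : ℝ) = ∑ e ∈ M, if e ∈ S then (1 : ℝ) else 0 := by
      rw [← sum_filter, sum_const, nsmul_eq_mul, mul_one]
      congr 2
      ext e
      simp [and_comm]
    rw [h1, sq, sum_mul_sum]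
    refine sum_congr rfl fun e _ => sum_congr rfl fun e' _ => ?_
    by_cases h1 : e ∈ S <;> by_cases h2 : e' ∈ S <;>
      simp [h1, h2, insert_subset_iff]
  simp only [h]
  rw [cg_sum]
  simp only [cg_sum, cg_sub]
  have h2 : ∀ e ∈ M, ∑ e' ∈ M, ∏ x ∈ ({e, e'} : Finset E), v x ≤
      v e + v e * ∑ e' ∈ M, v e' := by
    intro e he
    rw [mul_sum]
    have h3 : ∑ e' ∈ M, ∏ x ∈ ({e, e'} : Finset E), v x =
        v e + ∑ e' ∈ M.erase e, v e * v e' := by
      rw [← add_sum_erase M _ he]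
      simp only [pair_eq_singleton, prod_singleton]
      congr 1
      refine sum_congr rfl fun e' he' => ?_
      rw [prod_pair (ne_of_mem_erase he').symm]
    rw [h3]
    have h4 : ∑ e' ∈ M.erase e, v e * v e' + v e * v e = ∑ e' ∈ M, v e * v e' :=
      sum_erase_add M _ he
    nlinarith [mul_self_nonneg (v e)]
  calc ∑ e ∈ M, ∑ e' ∈ M, ∏ x ∈ ({e, e'} : Finset E), v x
      ≤ ∑ e ∈ M, (v e + v e * ∑ e' ∈ M, v e') := sum_le_sum h2
    _ = ∑ e ∈ M, v e + (∑ e ∈ M, v e) ^ 2 := by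
        rw [sum_add_distrib, ← sum_mul, sq]

/-- Chebyshev -/
theorem cg_cheb {v : E → ℝ} (h0 : ∀ e, 0 ≤ v e) (h1 : ∀ e, v e ≤ 1) (M : Finset E)
    (hμ : 0 < ∑ e ∈ M, v e) :
    bE v (fun S => if ((S ∩ M).card : ℝ) ≤ (∑ e ∈ M, v e) / 2 then 1 else 0) ≤
      4 / ∑ e ∈ M, v e := by
  set μ := ∑ e ∈ M, v e with hμd
  have h2 : bE v (fun S => (4 / μ ^ 2) * (((S ∩ M).card : ℝ) ^ 2 +
      (-(2 * μ)) * ((S ∩ M).card : ℝ) + μ ^ 2 * 1)) ≤ 4 / μ := by
    rw [cg_smul, cg_add v (fun S => ((S ∩ M).card : ℝ) ^ 2 + (-(2 * μ)) * ((S ∩ M).card : ℝ))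
      (fun _ => μ ^ 2 * 1), cg_add v (fun S => ((S ∩ M).card : ℝ) ^ 2)
      (fun S => (-(2 * μ)) * ((S ∩ M).card : ℝ)), cg_smul, cg_smul, cg_one, cg_card]
    have h3 := cg_card_sq (v := v) M
    rw [← hμd] at h3 ⊢
    have h4 : bE v (fun S => ((S ∩ M).card : ℝ) ^ 2) + -(2 * μ) * μ + μ ^ 2 * 1 ≤ μ := by
      nlinarith
    calc 4 / μ ^ 2 * (bE v (fun S => ((S ∩ M).card : ℝ) ^ 2) + -(2 * μ) * μ + μ ^ 2 * 1)
        ≤ 4 / μ ^ 2 * μ := by gcongr
      _ = 4 / μ := by field_simp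
  refine (cg_mono h0 h1 fun S => ?_).trans h2
  split_ifs with h
  · have h5 : ((S ∩ M).card : ℝ) ^ 2 + (-(2 * μ)) * ((S ∩ M).card : ℝ) + μ ^ 2 * 1 =
        (μ - (S ∩ M).card) ^ 2 := by ring
    rw [h5]
    have h6 : μ / 2 ≤ μ - (S ∩ M).card := by linarith
    have h7 : (μ / 2) ^ 2 ≤ (μ - (S ∩ M).card) ^ 2 := by gcongr
    calc (1 : ℝ) = 4 / μ ^ 2 * (μ / 2) ^ 2 := by field_simp; norm_num
      _ ≤ 4 / μ ^ 2 * (μ - (S ∩ M).card) ^ 2 := by gcongr
  · have h5 : ((S ∩ M).card : ℝ) ^ 2 + (-(2 * μ)) * ((S ∩ M).card : ℝ) + μ ^ 2 * 1 =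
        (μ - (S ∩ M).card) ^ 2 := by ring
    rw [h5]
    positivity

omit [Fintype E] [Fintype J] [DecidableEq J] in
/-- if each block contains at most one chosen cell of `M`, then the number of chosen cells of `M`
is at most the number of covering blocks. -/
theorem cg_cover {B : J → Finset E} {S M : Finset E} {β : Finset J} (hS : S ⊆ β.biUnion B)
    (hM : ∀ j, ((S ∩ M) ∩ B j).card ≤ 1) : (S ∩ M).card ≤ β.card := by
  have h1 : S ∩ M ⊆ β.biUnion fun j => (S ∩ M) ∩ B j := by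
    intro e he
    obtain ⟨j, hj, hej⟩ := mem_biUnion.mp (hS (mem_inter.mp he).1)
    exact mem_biUnion.mpr ⟨j, hj, mem_inter.mpr ⟨he, hej⟩⟩
  calc (S ∩ M).card ≤ (β.biUnion fun j => (S ∩ M) ∩ B j).card := card_le_card h1
    _ ≤ ∑ j ∈ β, ((S ∩ M) ∩ B j).card := card_biUnion_le
    _ ≤ ∑ j ∈ β, 1 := sum_le_sum fun j _ => hM j
    _ = β.card := by simp

omit [Fintype E] in
theorem cg_cut {v : E → ℝ} (h1 : ∀ e, v e ≤ 1) {K : ℝ} (hK : 0 ≤ K) (s : Finset E) :
    K < ∑ e ∈ s, v e → ∃ t ⊆ s, K < ∑ e ∈ t, v e ∧ ∑ e ∈ t, v e ≤ K + 1 := by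
  induction s using Finset.induction_on with
  | empty => intro h; simp at h; linarith
  | insert a s ha ih =>
      intro h
      by_cases h2 : K < ∑ e ∈ s, v e
      · obtain ⟨t, ht, h3, h4⟩ := ih h2
        exact ⟨t, ht.trans (subset_insert a s), h3, h4⟩
      · refine ⟨insert a s, Subset.refl _, h, ?_⟩
        rw [sum_insert ha]
        have := h1 a
        push Not at h2
        linarith

theorem cg_max (P : Finset E → Prop) (h : P ∅) :
    ∃ M, P M ∧ ∀ e, e ∉ M → ¬ P (insert e M) := by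
  classical
  obtain ⟨M, hM, hmax⟩ := Finset.exists_max_image (univ.filter P) Finset.card
    ⟨∅, by simp [h]⟩
  refine ⟨M, (mem_filter.mp hM).2, fun e he hP => ?_⟩
  have := hmax (insert e M) (by simp [hP])
  rw [card_insert_of_notMem he] at this
  omega

omit [Fintype E] [DecidableEq J] in
/-- the sum over the blocks of the masses -/
theorem cg_read {B : J → Finset E} {r : ℕ} (hread : ∀ e, (univ.filter fun j => e ∈ B j).card ≤ r)
    {v : E → ℝ} (h0 : ∀ e, 0 ≤ v e) (A : Finset E) :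
    ∑ j, ∑ e ∈ A ∩ B j, v e ≤ r * ∑ e ∈ A, v e := by
  have h1 : ∀ j, ∑ e ∈ A ∩ B j, v e = ∑ e ∈ A, if e ∈ B j then v e else 0 := by
    intro j
    rw [← sum_filter]
    rfl
  simp only [h1]
  rw [sum_comm, mul_sum]
  refine sum_le_sum fun e _ => ?_
  rw [← sum_filter, sum_const, nsmul_eq_mul]
  have := hread e
  have h2 : ((univ.filter fun j => e ∈ B j).card : ℝ) ≤ r := by exact_mod_cast this
  exact mul_le_mul_of_nonneg_right h2 (h0 e)

theorem cg_light {B : J → Finset E} {r : ℕ}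
    (hread : ∀ e, (univ.filter fun j => e ∈ B j).card ≤ r)
    {v : E → ℝ} (h0 : ∀ e, 0 ≤ v e) (h1 : ∀ e, v e ≤ 1) {τ : ℝ} (hτ : 0 ≤ τ) (A : Finset E)
    (hA : ∀ j, ∑ e ∈ A ∩ B j, v e ≤ 2 * τ) :
    bE v (fun S => if ∃ j, 2 ≤ ((S ∩ A) ∩ B j).card then 1 else 0) ≤
      2 * τ * r * ∑ e ∈ A, v e := by
  have h2 : ∀ S : Finset E, (if ∃ j, 2 ≤ ((S ∩ A) ∩ B j).card then (1 : ℝ) else 0) ≤
      ∑ j, ∑ e ∈ A ∩ B j, ∑ e' ∈ (A ∩ B j).erase e,
        if ({e, e'} : Finset E) ⊆ S then 1 else 0 := by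
    intro S
    split_ifs with h
    · obtain ⟨j, hj⟩ := h
      obtain ⟨e, he, e', he', hne⟩ := Finset.one_lt_card.mp (by omega : 1 < ((S ∩ A) ∩ B j).card)
      have hnn : ∀ j' : J, 0 ≤ ∑ e ∈ A ∩ B j', ∑ e' ∈ (A ∩ B j').erase e,
          (if ({e, e'} : Finset E) ⊆ S then (1 : ℝ) else 0) := fun j' =>
        sum_nonneg fun _ _ => sum_nonneg fun _ _ => by split_ifs <;> norm_num
      refine le_trans ?_ (single_le_sum (fun j' _ => hnn j') (mem_univ j))
      have hm : e ∈ A ∩ B j := by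
        simp only [mem_inter] at he ⊢; exact ⟨he.1.2, he.2⟩
      have hm' : e' ∈ (A ∩ B j).erase e := by
        simp only [mem_inter, mem_erase] at he' ⊢; exact ⟨hne.symm, he'.1.2, he'.2⟩
      refine le_trans ?_ (single_le_sum (fun x _ => sum_nonneg fun _ _ => by
        split_ifs <;> norm_num) hm)
      refine le_trans ?_ (single_le_sum (fun x _ => by split_ifs <;> norm_num) hm')
      have : ({e, e'} : Finset E) ⊆ S := by
        intro x hx
        simp only [mem_insert, mem_singleton] at hx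
        simp only [mem_inter] at he he'
        rcases hx with rfl | rfl
        · exact he.1.1
        · exact he'.1.1
      simp [this]
    · exact sum_nonneg fun _ _ => sum_nonneg fun _ _ => sum_nonneg fun _ _ => by
        split_ifs <;> norm_num
  refine (cg_mono h0 h1 h2).trans ?_
  rw [cg_sum]
  simp only [cg_sum, cg_sub]
  have h3 : ∀ j : J, ∑ e ∈ A ∩ B j, ∑ e' ∈ (A ∩ B j).erase e, ∏ x ∈ ({e, e'} : Finset E), v x ≤
      2 * τ * ∑ e ∈ A ∩ B j, v e := by
    intro j
    calc ∑ e ∈ A ∩ B j, ∑ e' ∈ (A ∩ B j).erase e, ∏ x ∈ ({e, e'} : Finset E), v x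
        ≤ ∑ e ∈ A ∩ B j, v e * (2 * τ) := by
          refine sum_le_sum fun e he => ?_
          calc ∑ e' ∈ (A ∩ B j).erase e, ∏ x ∈ ({e, e'} : Finset E), v x
              = ∑ e' ∈ (A ∩ B j).erase e, v e * v e' :=
                sum_congr rfl fun e' he' => by rw [prod_pair (ne_of_mem_erase he').symm]
            _ ≤ ∑ e' ∈ A ∩ B j, v e * v e' :=
                sum_le_sum_of_subset_of_nonneg (erase_subset _ _)
                  fun x _ _ => mul_nonneg (h0 e) (h0 x)
            _ = v e * ∑ e' ∈ A ∩ B j, v e' := by rw [mul_sum]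
            _ ≤ v e * (2 * τ) := mul_le_mul_of_nonneg_left (hA j) (h0 e)
      _ = 2 * τ * ∑ e ∈ A ∩ B j, v e := by rw [← sum_mul]; ring
  calc ∑ j, ∑ e ∈ A ∩ B j, ∑ e' ∈ (A ∩ B j).erase e, ∏ x ∈ ({e, e'} : Finset E), v x
      ≤ ∑ j, 2 * τ * ∑ e ∈ A ∩ B j, v e := sum_le_sum fun j _ => h3 j
    _ = 2 * τ * ∑ j, ∑ e ∈ A ∩ B j, v e := by rw [mul_sum]
    _ ≤ 2 * τ * (r * ∑ e ∈ A, v e) := by
        apply mul_le_mul_of_nonneg_left (cg_read hread h0 A) (by positivity)
    _ = 2 * τ * r * ∑ e ∈ A, v e := by ring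

/-- **Covering lemma.** -/
theorem covering {B : J → Finset E} {r D : ℕ}
    (hread : ∀ e, (univ.filter fun j => e ∈ B j).card ≤ r)
    {v : E → ℝ} (h0 : ∀ e, 0 ≤ v e) (h1 : ∀ e, v e ≤ 1) {e4 : ℝ} (he4 : 0 < e4)
    (hcov : e4 ≤ bE v (fun S => if ∃ β : Finset J, β.card ≤ D ∧ S ⊆ β.biUnion B then 1 else 0))
    {K τ : ℝ} (hK : K = 2 * D + 16 / e4) (hτ : τ = e4 / (8 * (r + 1) * (K + 1))) :
    ∃ β : Finset J, (β.card : ℝ) ≤ 2 * r * K / τ ∧
      ∑ e ∈ univ.filter (fun e => e ∉ β.biUnion B), v e ≤ 2 * K := by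
  classical
  have hD0 : (0 : ℝ) ≤ D := by positivity
  have hr0 : (0 : ℝ) ≤ r := by positivity
  have h16 : 0 < 16 / e4 := by positivity
  have hKpos : 0 < K := by rw [hK]; linarith
  have hK16 : 16 / e4 ≤ K := by rw [hK]; linarith
  have hKD : 2 * (D : ℝ) ≤ K := by rw [hK]; linarith
  have hτpos : 0 < τ := by rw [hτ]; positivity
  -- a set with one cell per block has bounded mass
  have key : ∀ M : Finset E, (∀ j, (M ∩ B j).card ≤ 1) → ∑ e ∈ M, v e ≤ K := by
    intro M hM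
    by_contra hcon
    push Not at hcon
    have hμ : 0 < ∑ e ∈ M, v e := lt_trans hKpos hcon
    have h2 := cg_cheb h0 h1 M hμ
    have h3 : bE v (fun S => if ∃ β : Finset J, β.card ≤ D ∧ S ⊆ β.biUnion B then 1 else 0) ≤
        bE v (fun S => if ((S ∩ M).card : ℝ) ≤ (∑ e ∈ M, v e) / 2 then 1 else 0) := by
      refine cg_mono h0 h1 fun S => ?_
      by_cases hS : ∃ β : Finset J, β.card ≤ D ∧ S ⊆ β.biUnion B
      · obtain ⟨β, hβ, hSβ⟩ := hS
        have h4 := cg_cover (M := M) hSβ fun j => by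
          refine le_trans (card_le_card ?_) (hM j)
          intro x hx
          simp only [mem_inter] at hx ⊢
          exact ⟨hx.1.2, hx.2⟩
        have h5 : ((S ∩ M).card : ℝ) ≤ (∑ e ∈ M, v e) / 2 := by
          have : ((S ∩ M).card : ℝ) ≤ D := by exact_mod_cast h4.trans hβ
          linarith
        rw [if_pos ⟨β, hβ, hSβ⟩, if_pos h5]
      · rw [if_neg hS]
        split_ifs <;> norm_num
    have h6 : 4 / ∑ e ∈ M, v e < e4 := by
      rw [div_lt_iff₀ hμ]
      have : 16 / e4 < ∑ e ∈ M, v e := lt_of_le_of_lt hK16 hcon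
      rw [div_lt_iff₀ he4] at this
      linarith
    linarith
  -- heavy cells
  obtain ⟨M, ⟨hMτ, hMB⟩, hMmax⟩ := cg_max
    (fun M : Finset E => (∀ e ∈ M, τ < v e) ∧ ∀ j, (M ∩ B j).card ≤ 1) (by simp)
  have hMK := key M hMB
  set BH : Finset J := univ.filter fun j => (M ∩ B j).Nonempty with hBH
  -- light cells
  obtain ⟨A, ⟨hAl, hAB⟩, hAmax⟩ := cg_max
    (fun A : Finset E => (∀ e ∈ A, v e ≤ τ ∧ e ∉ BH.biUnion B) ∧
      ∀ j, ∑ e ∈ A ∩ B j, v e ≤ 2 * τ) (by
        refine ⟨by simp, fun j => ?_⟩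
        simp only [empty_inter, sum_empty]
        linarith)
  have hAK : ∑ e ∈ A, v e ≤ K := by
    by_contra hcon
    push Not at hcon
    obtain ⟨A', hA'A, h2, h3⟩ := cg_cut h1 hKpos.le A hcon
    have hμ : 0 < ∑ e ∈ A', v e := lt_trans hKpos h2
    have h4 := cg_cheb h0 h1 A' hμ
    have hA'B : ∀ j, ∑ e ∈ A' ∩ B j, v e ≤ 2 * τ := fun j =>
      le_trans (sum_le_sum_of_subset_of_nonneg (inter_subset_inter_right hA'A)
        fun x _ _ => h0 x) (hAB j)
    have h5 := cg_light hread h0 h1 hτpos.le A' hA'B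
    have h6 : bE v (fun S => if ∃ β : Finset J, β.card ≤ D ∧ S ⊆ β.biUnion B then 1 else 0) ≤
        bE v (fun S => (if ((S ∩ A').card : ℝ) ≤ (∑ e ∈ A', v e) / 2 then 1 else 0) +
          if ∃ j, 2 ≤ ((S ∩ A') ∩ B j).card then 1 else 0) := by
      refine cg_mono h0 h1 fun S => ?_
      by_cases hS : ∃ β : Finset J, β.card ≤ D ∧ S ⊆ β.biUnion B
      · by_cases h7 : ∃ j, 2 ≤ ((S ∩ A') ∩ B j).card
        · rw [if_pos hS, if_pos h7]
          have : (0 : ℝ) ≤ if ((S ∩ A').card : ℝ) ≤ (∑ e ∈ A', v e) / 2 then 1 else 0 := by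
            split_ifs <;> norm_num
          linarith
        · obtain ⟨β, hβ, hSβ⟩ := hS
          push Not at h7
          have h8 := cg_cover (M := A') hSβ fun j => by have := h7 j; omega
          have h9 : ((S ∩ A').card : ℝ) ≤ (∑ e ∈ A', v e) / 2 := by
            have : ((S ∩ A').card : ℝ) ≤ D := by exact_mod_cast h8.trans hβ
            linarith
          rw [if_pos ⟨β, hβ, hSβ⟩, if_pos h9]
          have : (0 : ℝ) ≤ if ∃ j, 2 ≤ ((S ∩ A') ∩ B j).card then 1 else 0 := by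
            split_ifs <;> norm_num
          linarith
      · rw [if_neg hS]
        have h7 : (0 : ℝ) ≤ if ((S ∩ A').card : ℝ) ≤ (∑ e ∈ A', v e) / 2 then 1 else 0 := by
          split_ifs <;> norm_num
        have h8 : (0 : ℝ) ≤ if ∃ j, 2 ≤ ((S ∩ A') ∩ B j).card then 1 else 0 := by
          split_ifs <;> norm_num
        linarith
    rw [cg_add] at h6
    have h7 : 4 / ∑ e ∈ A', v e ≤ e4 / 4 := by
      rw [div_le_iff₀ hμ]
      have : 16 / e4 < ∑ e ∈ A', v e := lt_of_le_of_lt hK16 h2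
      rw [div_lt_iff₀ he4] at this
      linarith
    have h8 : 2 * τ * r * ∑ e ∈ A', v e ≤ e4 / 4 := by
      calc 2 * τ * r * ∑ e ∈ A', v e ≤ 2 * τ * (r + 1) * (K + 1) := by
            apply mul_le_mul _ h3 hμ.le (by positivity)
            apply mul_le_mul_of_nonneg_left (by linarith) (by positivity)
        _ = e4 / 4 := by rw [hτ]; field_simp; ring
    linarith
  set J2 : Finset J := univ.filter fun j => τ < ∑ e ∈ A ∩ B j, v e with hJ2
  have hcardH : (BH.card : ℝ) ≤ r * K / τ := by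
    have h2 : (BH.card : ℝ) * τ ≤ ∑ j, ∑ e ∈ M ∩ B j, v e := by
      calc (BH.card : ℝ) * τ = ∑ j ∈ BH, τ := by simp
        _ ≤ ∑ j ∈ BH, ∑ e ∈ M ∩ B j, v e := by
            refine sum_le_sum fun j hj => ?_
            obtain ⟨e, he⟩ := (mem_filter.mp hj).2
            refine le_trans (hMτ e (mem_inter.mp he).1).le ?_
            exact single_le_sum (fun x _ => h0 x) he
        _ ≤ ∑ j, ∑ e ∈ M ∩ B j, v e :=
            sum_le_sum_of_subset_of_nonneg (subset_univ _)
              fun j _ _ => sum_nonneg fun x _ => h0 x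
    rw [le_div_iff₀ hτpos]
    refine h2.trans ((cg_read hread h0 M).trans ?_)
    exact mul_le_mul_of_nonneg_left hMK hr0
  have hcard2 : (J2.card : ℝ) ≤ r * K / τ := by
    have h2 : (J2.card : ℝ) * τ ≤ ∑ j, ∑ e ∈ A ∩ B j, v e := by
      calc (J2.card : ℝ) * τ = ∑ j ∈ J2, τ := by simp
        _ ≤ ∑ j ∈ J2, ∑ e ∈ A ∩ B j, v e :=
            sum_le_sum fun j hj => (mem_filter.mp hj).2.le
        _ ≤ ∑ j, ∑ e ∈ A ∩ B j, v e :=
            sum_le_sum_of_subset_of_nonneg (subset_univ _)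
              fun j _ _ => sum_nonneg fun x _ => h0 x
    rw [le_div_iff₀ hτpos]
    refine h2.trans ((cg_read hread h0 A).trans ?_)
    exact mul_le_mul_of_nonneg_left hAK hr0
  refine ⟨BH ∪ J2, ?_, ?_⟩
  · have h2 : ((BH ∪ J2).card : ℝ) ≤ BH.card + J2.card := by exact_mod_cast card_union_le BH J2
    have h3 : 2 * r * K / τ = r * K / τ + r * K / τ := by ring
    rw [h3]
    linarith
  · have hsub : univ.filter (fun e => e ∉ (BH ∪ J2).biUnion B) ⊆ M ∪ A := by
      intro e he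
      have he' : ∀ j ∈ BH ∪ J2, e ∉ B j := by
        intro j hj hej
        exact (mem_filter.mp he).2 (mem_biUnion.mpr ⟨j, hj, hej⟩)
      by_contra hno
      simp only [mem_union, not_or] at hno
      by_cases hv : τ < v e
      · apply hMmax e hno.1
        refine ⟨?_, ?_⟩
        · intro x hx
          rcases mem_insert.mp hx with rfl | hx
          · exact hv
          · exact hMτ x hx
        · intro j
          by_cases hej : e ∈ B j
          · have hjB : j ∉ BH := fun h => he' j (mem_union_left _ h) hej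
            have hemp : M ∩ B j = ∅ := by
              by_contra hne
              exact hjB (mem_filter.mpr ⟨mem_univ _, nonempty_iff_ne_empty.mpr hne⟩)
            rw [insert_inter_of_mem hej, hemp]
            simp
          · rw [insert_inter_of_notMem hej]
            exact hMB j
      · push Not at hv
        apply hAmax e hno.2
        refine ⟨?_, ?_⟩
        · intro x hx
          rcases mem_insert.mp hx with rfl | hx
          · refine ⟨hv, ?_⟩
            intro hmem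
            obtain ⟨j, hj, hej⟩ := mem_biUnion.mp hmem
            exact he' j (mem_union_left _ hj) hej
          · exact hAl x hx
        · intro j
          by_cases hej : e ∈ B j
          · have hjB : j ∉ J2 := fun h => he' j (mem_union_right _ h) hej
            have hle : ∑ e ∈ A ∩ B j, v e ≤ τ := by
              by_contra hlt
              push Not at hlt
              exact hjB (mem_filter.mpr ⟨mem_univ _, hlt⟩)
            rw [insert_inter_of_mem hej, sum_insert]
            · linarith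
            · intro h
              exact hno.2 (mem_inter.mp h).1
          · rw [insert_inter_of_notMem hej]
            exact hAB j
    calc ∑ e ∈ univ.filter (fun e => e ∉ (BH ∪ J2).biUnion B), v e
        ≤ ∑ e ∈ M ∪ A, v e := sum_le_sum_of_subset_of_nonneg hsub fun x _ _ => h0 x
      _ ≤ ∑ e ∈ M, v e + ∑ e ∈ A, v e := by
          have := sum_union_inter (s₁ := M) (s₂ := A) (f := v)
          have h4 : 0 ≤ ∑ e ∈ M ∩ A, v e := sum_nonneg fun x _ => h0 x
          linarith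
      _ ≤ 2 * K := by linarith

end Pool.Agent.MP_ca1109_lc.Ov
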