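import Pool.Agent.MP_ca1109_lc.Ov.Defs
import Pool.Agent.MP_ca1109_lc.Ov.CG

/-!
# Row CV: covers of a random set
-/

namespace Pool.Agent.MP_ca1109_lc.Ov

open Finset Pool.Agent.H66 Pool.Agent.MP_ca1109_lc.Mpg Pool.Agent.MP_ca1109_lc.Agp
  Pool.Agent.MP_ca1109_lc.Xp

theorem cover_lemma (r D : ℕ) {ε : ℝ} (hε : 0 < ε) : ∃ (b : ℕ) (K : ℝ), 0 ≤ K ∧
    ∀ {E J : Type} [Fintype E] [DecidableEq E] [Fintype J] [DecidableEq J] (B : J → Finset E)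
    (_ : ∀ e, (univ.filter fun j => e ∈ B j).card ≤ r) (v : E → ℝ) (_ : ∀ e, 0 ≤ v e)
    (_ : ∀ e, v e ≤ 1) (_ : ∀ e, 0 < v e → ∃ j, e ∈ B j), ε ≤ pc B D v →
    ∃ H : Finset J, H.card ≤ b ∧ ∑ e ∈ (H.biUnion B)ᶜ, v e ≤ K := by
  classical
  set K₀ : ℝ := 2 * D + 16 / ε with hK₀
  set τ : ℝ := ε / (8 * (r + 1) * (K₀ + 1)) with hτ
  have hK0 : 0 < K₀ := by positivity
  refine ⟨⌊2 * r * K₀ / τ⌋₊, 2 * K₀, by positivity, ?_⟩
  intro E J _ _ _ _ B hr v h0 h1 _ hp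
  have hpc : pc B D v = bE v (fun S => if ∃ β : Finset J, β.card ≤ D ∧ S ⊆ β.biUnion B
      then 1 else 0) := by
    unfold pc bE
    refine sum_congr rfl fun S _ => ?_
    have hw : wt v S = bw v S := by
      unfold wt bw
      rw [compl_eq_univ_sdiff]
    show _ = bw v S * (if ∃ β : Finset J, β.card ≤ D ∧ S ⊆ β.biUnion B then 1 else 0)
    by_cases h : ∃ β : Finset J, β.card ≤ D ∧ S ⊆ β.biUnion B
    · rw [if_pos (show Cov B D S from h), if_pos h, mul_one, hw]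
    · rw [if_neg (show ¬ Cov B D S from h), if_neg h, mul_zero]
  rw [hpc] at hp
  obtain ⟨H, hH, hs⟩ := covering hr h0 h1 hε hp hK₀ hτ
  refine ⟨H, Nat.le_floor hH, le_trans (le_of_eq ?_) hs⟩
  refine sum_congr ?_ fun _ _ => rfl
  ext e
  simp

end Pool.Agent.MP_ca1109_lc.Ov
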