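import Pool.Agent.MP_ca1109_lc.Ov.GM
import Pool.Agent.MP_ca1109_lc.Agp.N1

/-!
# Overlapping blocks: bounded functions
-/

namespace Pool.Agent.MP_ca1109_lc.Ov

open Finset Pool.Agent.H66 Pool.Agent.MP_ca1109_lc.Mpg Pool.Agent.MP_ca1109_lc.Agp
  Pool.Agent.MP_ca1109_lc.Xp

/-- The direction of `w`. -/
noncomputable def du_th (w : ℂ) : ℂ := if w = 0 then 1 else w / ‖w‖

theorem du_th_norm (w : ℂ) : ‖du_th w‖ = 1 := by
  unfold du_th
  split_ifs with h
  · exact norm_one
  · rw [norm_div, Complex.norm_real, norm_norm, div_self (norm_ne_zero_iff.2 h)]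

theorem du_th_mul (w : ℂ) : du_th w * ‖w‖ = w := by
  unfold du_th
  split_ifs with h
  · rw [h, norm_zero, Complex.ofReal_zero, mul_zero]
  · have h1 : ((‖w‖ : ℝ) : ℂ) ≠ 0 := by exact_mod_cast norm_ne_zero_iff.2 h
    field_simp

/-- Two unimodular numbers with the average `w`. -/
noncomputable def du_u (b : Bool) (w : ℂ) : ℂ :=
  du_th w * ((‖w‖ : ℝ) + ((if b then 1 else -1 : ℝ) * Real.sqrt (1 - ‖w‖ ^ 2) : ℝ) * Complex.I)

theorem du_u_norm (b : Bool) {w : ℂ} (hw : ‖w‖ ≤ 1) : ‖du_u b w‖ = 1 := by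
  unfold du_u
  rw [norm_mul, du_th_norm, one_mul, Complex.norm_add_mul_I]
  have h0 : 0 ≤ 1 - ‖w‖ ^ 2 := by nlinarith [norm_nonneg w]
  have h1 : ((if b then 1 else -1 : ℝ) * Real.sqrt (1 - ‖w‖ ^ 2)) ^ 2 = 1 - ‖w‖ ^ 2 := by
    rw [mul_pow, Real.sq_sqrt h0]
    cases b <;> norm_num
  rw [h1]
  norm_num

theorem du_u_avg (w : ℂ) : (2 : ℂ)⁻¹ * ∑ b : Bool, du_u b w = w := by
  rw [Fintype.sum_bool]
  unfold du_u
  push_cast
  simp only [if_true, Bool.false_eq_true]
  rw [← mul_add]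
  have h : (((‖w‖ : ℝ) : ℂ) + (1 * ((Real.sqrt (1 - ‖w‖ ^ 2) : ℝ) : ℂ)) * Complex.I +
    (((‖w‖ : ℝ) : ℂ) + (-1 * ((Real.sqrt (1 - ‖w‖ ^ 2) : ℝ) : ℂ)) * Complex.I)) = 2 * ((‖w‖ : ℝ) : ℂ) := by
    ring
  push_cast at h ⊢
  rw [h]
  have := du_th_mul w
  linear_combination this

theorem du_prod {J : Type} [Fintype J] [DecidableEq J] (w : J → ℂ) :
    ∏ j, w j = av fun b : J → Bool => ∏ j, du_u (b j) (w j) := by
  unfold av
  have h1 : ∏ j, w j = ∏ j, ((2 : ℂ)⁻¹ * ∑ b : Bool, du_u b (w j)) :=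
    Finset.prod_congr rfl fun j _ => (du_u_avg (w j)).symm
  rw [h1, Finset.prod_mul_distrib, Finset.prod_const, Finset.prod_univ_sum, Fintype.piFinset_univ,
    Fintype.card_fun, Fintype.card_bool, Finset.card_univ]
  push_cast
  rw [div_eq_inv_mul, inv_pow]

theorem main_disc (r c : ℕ) {ε : ℝ} (hε : 0 < ε) : ∃ E G, NG E G ∧ ∃ n₀ : ℕ, ∀ n ≥ n₀,
    ∀ (q : ℕ) (I : Fin q → Finset (Fin n)) (f : Fin q → (Fin n → Bool) → ℂ),
      (∀ i, (univ.filter fun j => i ∈ I j).card ≤ r) →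
      (∀ j j', j ≠ j' → ∀ i ∈ I j ∩ I j', ∀ i' ∈ I j ∩ I j', ∀ l, i ∈ I l ↔ i' ∈ I l) →
      (∀ j, 2 ^ (I j).card ≤ n ^ c) → (∀ j, Dep (I j) (f j)) → (∀ j x, ‖f j x‖ ≤ 1) →
      ‖na (2 ^ E n) (fun p => ∏ j, f j (out G n p)) - av (fun x => ∏ j, f j x)‖ ≤ ε := by
  classical
  obtain ⟨E, G, hG, n₀, h⟩ := main_ov r c hε
  refine ⟨E, G, hG, n₀, fun n hn q I f hr hl hc hf hf1 => ?_⟩
  have hB : Blo (J := {j : Fin q // (I j).Nonempty}) r (fun j => I j) := by
    refine ⟨fun i => ?_, fun j j' hj i hi i' hi' l => ?_, ?_⟩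
    · refine le_trans (Finset.card_le_card_of_injOn (fun j => (j : Fin q)) (fun j hj => ?_)
        (fun a _ b _ hab => Subtype.ext hab)) (hr i)
      simpa using hj
    · exact hl j j' (fun hh => hj (Subtype.ext hh)) i hi i' hi' l
    · have e1 : Fintype.card {j : Fin q // (I j).Nonempty} ≤ ∑ j : Fin q, (I j).card := by
        rw [Fintype.card_subtype, Finset.card_eq_sum_ones]
        refine (Finset.sum_le_sum (g := fun j => (I j).card) fun j hj => ?_).trans
          (Finset.sum_le_sum_of_subset (Finset.subset_univ _))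
        exact (Finset.mem_filter.1 hj).2.card_pos
      have e2 : ∑ j : Fin q, (I j).card = ∑ i : Fin n, (univ.filter fun j => i ∈ I j).card := by
        simp only [Finset.card_eq_sum_ones, Finset.sum_filter]
        rw [Finset.sum_comm]
        refine Finset.sum_congr rfl fun j _ => ?_
        rw [← Finset.sum_filter]
        exact Finset.sum_congr (by ext i; simp) fun _ _ => rfl
      refine e1.trans (e2.trans_le ?_)
      refine (Finset.sum_le_sum fun i _ => hr i).trans ?_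
      simp [mul_comm]
  obtain ⟨x₀⟩ : Nonempty (Fin n → Bool) := inferInstance
  obtain ⟨k, hk⟩ : ∃ k : ℂ, k = ∏ j ∈ univ.filter (fun j : Fin q => ¬(I j).Nonempty), f j x₀ :=
    ⟨_, rfl⟩
  have hk1 : ‖k‖ ≤ 1 := by
    rw [hk, norm_prod]
    exact Finset.prod_le_one (fun j _ => norm_nonneg _) fun j _ => hf1 j _
  have hsplit : ∀ x : Fin n → Bool, ∏ j, f j x =
      k * av fun b : {j : Fin q // (I j).Nonempty} → Bool =>
        ∏ j : {j : Fin q // (I j).Nonempty}, du_u (b j) (f j x) := by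
    intro x
    rw [← du_prod (fun j : {j : Fin q // (I j).Nonempty} => f j x), hk,
      ← Finset.prod_filter_mul_prod_filter_not univ (fun j : Fin q => (I j).Nonempty), mul_comm]
    congr 1
    · refine Finset.prod_congr rfl fun j hj => hf j x x₀ fun i hi => ?_
      exact absurd ⟨i, hi⟩ (Finset.mem_filter.1 hj).2
    · exact Finset.prod_subtype (p := fun j => (I j).Nonempty)
        (univ.filter fun j : Fin q => (I j).Nonempty) (fun j => by simp) (fun j => f j x)
  have h1 : na (2 ^ E n) (fun p => ∏ j, f j (out G n p)) =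
      k * av fun b : {j : Fin q // (I j).Nonempty} → Bool => na (2 ^ E n) fun p =>
        ∏ j : {j : Fin q // (I j).Nonempty}, du_u (b j) (f j (out G n p)) := by
    rw [av_na, ← na_mul_left]
    exact na_congr fun p _ => hsplit _
  have h2 : (av fun x => ∏ j, f j x) =
      k * av fun b : {j : Fin q // (I j).Nonempty} → Bool => av fun x =>
        ∏ j : {j : Fin q // (I j).Nonempty}, du_u (b j) (f j x) := by
    rw [av_comm]
    unfold av
    rw [mul_div_assoc', Finset.mul_sum]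
    congr 1
    exact Finset.sum_congr rfl fun x _ => hsplit x
  rw [h1, h2, ← mul_sub, norm_mul]
  have h3 : ∀ F F' : ({j : Fin q // (I j).Nonempty} → Bool) → ℂ, (∀ b, ‖F b - F' b‖ ≤ ε) →
      ‖av F - av F'‖ ≤ ε := by
    intro F F' hh
    have : av F - av F' = av fun b => F b - F' b := by
      unfold av
      rw [Finset.sum_sub_distrib, sub_div]
    rw [this]
    exact (norm_av_le _).trans (avg_le hh)
  refine (mul_le_of_le_one_left (norm_nonneg _) hk1).trans (h3 _ _ fun b => ?_)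
  exact h n hn (fun j : {j : Fin q // (I j).Nonempty} => I j)
    (fun j x => du_u (b j) (f j x)) hB (fun j => hc j)
    (fun j x y hxy => by show du_u (b j) (f j x) = du_u (b j) (f j y); rw [hf j x y hxy])
    (fun j x => du_u_norm _ (hf1 j x))

end Pool.Agent.MP_ca1109_lc.Ov
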