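import Pool.Agent.MP_ca1109_lc.Pt.Defs

/-!
# Product tests over overlapping blocks: definitions

`∀ e, Ω e` (`e : E`) is a finite product space with the uniform distribution.

* `Dep A f`: the function `f` depends on the coordinates in `A`.
* `mix A x y`: the coordinates in `A` from `y`, the others from `x`.
* `bx A A' f`: the box product; `bl`, `bet`: its averages; `dft = 1 - bet`.
* `Sh F`: the expected square of the average over the coordinates in a random set.
* `Fam r B f`: unimodular functions of the sets `B j`; every coordinate is in at most `r` sets, two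
  sets share at most one coordinate.
* `Zf r Lam B z`: factors `1 + z i` of total energy at most `Lam`.
* `Smp B K L t`: `t` is a sum of functions, each depending on at most `K` of the sets `B i`, the sum
  of the bounds is at most `L`.
* `Cov B D S`: `S` is covered by at most `D` of the sets; `pc B D v`: the probability of this event
  for the random set with the densities `v e`.
-/

namespace Pool.Agent.MP_ca1109_lc.Ov

open Finset Pool.Agent.H66 Pool.Agent.MP_ca1109_lc.Mpg Pool.Agent.MP_ca1109_lc.Agp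
  Pool.Agent.MP_ca1109_lc.Xp

section product

variable {E : Type} {Ω : E → Type}

/-- The function `f` depends on the coordinates in `A`. -/
def Dep {β : Type*} (A : Finset E) (f : (∀ e, Ω e) → β) : Prop :=
  ∀ x y : ∀ e, Ω e, (∀ e ∈ A, x e = y e) → f x = f y

variable [Fintype E] [DecidableEq E]

/-- The coordinates in `A` from `y`, the others from `x`. -/
def mix (A : Finset E) (x y : ∀ e, Ω e) : ∀ e, Ω e := fun e => if e ∈ A then y e else x e

/-- The set of a Boolean function. -/
def tr (R : E → Bool) : Finset E := univ.filter fun e => R e = true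

/-- A colour class. -/
def col {k : ℕ} (χ : E → Fin k) (i : ℕ) : Finset E := univ.filter fun e => (χ e : ℕ) = i

/-- The box product. -/
noncomputable def bx (A A' : Finset E) (f : (∀ e, Ω e) → ℂ) (x y : ∀ e, Ω e) : ℂ :=
  f x * (starRingEnd ℂ) (f (mix A x y)) * (starRingEnd ℂ) (f (mix A' x y)) * f (mix (A ∪ A') x y)

variable [∀ e, Fintype (Ω e)]

/-- The average of the box product, the coordinates off `A ∪ A'` are fixed. -/
noncomputable def bl (A A' : Finset E) (f : (∀ e, Ω e) → ℂ) (x : ∀ e, Ω e) : ℝ :=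
  avg fun y : ∀ e, Ω e => avg fun z : ∀ e, Ω e => (bx A A' f (mix (A ∪ A') x y) z).re

/-- The average of the box product. -/
noncomputable def bet (A A' : Finset E) (f : (∀ e, Ω e) → ℂ) : ℝ :=
  avg fun x : ∀ e, Ω e => avg fun y : ∀ e, Ω e => (bx A A' f x y).re

/-- The defect of the cut `A`, `A'`. -/
noncomputable def dft (A A' : Finset E) (f : (∀ e, Ω e) → ℂ) : ℝ := 1 - bet A A' f

/-- The expected square of the average over the coordinates in a random set. -/
noncomputable def Sh (F : (∀ e, Ω e) → ℂ) : ℝ :=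
  avg fun R : E → Bool => avg fun x : ∀ e, Ω e => ‖av fun y : ∀ e, Ω e => F (mix (tr R) x y)‖ ^ 2

/-- The expected defect for two colour classes of a random colouring with `2 m` colours. -/
noncomputable def DD (m : ℕ) (f : (∀ e, Ω e) → ℂ) : ℝ :=
  avg fun χ : E → Fin (2 * m) => dft (col χ 0) (col χ 1) f

/-- The expected defect of a random bipartition. -/
noncomputable def Qf (f : (∀ e, Ω e) → ℂ) : ℝ := avg fun A : E → Bool => dft (tr A) (tr A)ᶜ f

/-- Unimodular functions of the sets `B j`. -/
structure Fam {J : Type} [Fintype J] (r : ℕ) (B : J → Finset E) (f : J → (∀ e, Ω e) → ℂ) :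
    Prop where
  dep : ∀ j, Dep (B j) (f j)
  uni : ∀ j x, ‖f j x‖ = 1
  rd : ∀ e, (univ.filter fun j => e ∈ B j).card ≤ r
  lin : ∀ i j, i ≠ j → (B i ∩ B j).card ≤ 1

/-- Unimodular factors `1 + z i` with nonnegative means, of total energy at most `Lam`. -/
structure Zf {ι : Type} [Fintype ι] (r : ℕ) (Lam : ℝ) (B : ι → Finset E)
    (z : ι → (∀ e, Ω e) → ℂ) : Prop where
  dep : ∀ i, Dep (B i) (z i)
  uni : ∀ i x, ‖1 + z i x‖ = 1
  im : ∀ i, (av (z i)).im = 0
  pos : ∀ i, 0 ≤ 1 + (av (z i)).re
  rd : ∀ e, (univ.filter fun i => e ∈ B i).card ≤ r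
  en : ∑ i, (avg fun x => ‖z i x‖ ^ 2) ≤ Lam

/-- The function `t` is a sum of functions of at most `K` of the sets `B i`; the sum of their bounds
is at most `L`. -/
def Smp {ι : Type} (B : ι → Finset E) (K : ℕ) (L : ℝ) (t : (∀ e, Ω e) → ℂ) : Prop :=
  ∃ (q : ℕ) (u : Fin q → (∀ e, Ω e) → ℂ) (a : Fin q → ℝ) (b : Fin q → Finset ι),
    (∀ i, (b i).card ≤ K ∧ Dep ((b i).biUnion B) (u i) ∧ ∀ x, ‖u i x‖ ≤ a i) ∧ ∑ i, a i ≤ L ∧
      ∀ x, t x = ∑ i, u i x

/-- The set `S` is covered by at most `D` of the sets `B j`. -/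
def Cov {J : Type} (B : J → Finset E) (D : ℕ) (S : Finset E) : Prop :=
  ∃ K : Finset J, K.card ≤ D ∧ S ⊆ K.biUnion B

/-- The probability of `S` for independent coordinates with the densities `v e`. -/
def wt (v : E → ℝ) (S : Finset E) : ℝ := (∏ e ∈ S, v e) * ∏ e ∈ Sᶜ, (1 - v e)

open Classical in
/-- The probability that the random set is covered by at most `D` of the sets. -/
noncomputable def pc {J : Type} (B : J → Finset E) (D : ℕ) (v : E → ℝ) : ℝ :=
  ∑ S : Finset E, if Cov B D S then wt v S else 0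

/-- The sets `B j` and the covered singletons. -/
def cbk {J : Type} [Fintype J] (B : J → Finset E) : J ⊕ E → Finset E :=
  Sum.elim B fun e => {e} ∩ univ.biUnion B

/-! ### The product test -/

/-- The inner product. -/
noncomputable def ip (g h : (∀ e, Ω e) → ℂ) : ℂ := av fun x => g x * (starRingEnd ℂ) (h x)

/-- Unit product functions over the coordinates in `s` and one function of the others. -/
def IsPr (s : Finset E) (g : (∀ e, Ω e) → ℂ) : Prop :=
  ∃ (a : ∀ e, Ω e → ℂ) (b : (∀ e, Ω e) → ℂ), (∀ e, (avg fun t => ‖a e t‖ ^ 2) = 1) ∧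
    Dep sᶜ b ∧ (avg fun x => ‖b x‖ ^ 2) = 1 ∧ ∀ x, g x = (∏ e ∈ s, a e (x e)) * b x

/-- The symmetrization over the swaps of the coordinates in `s`. -/
noncomputable def Sy (s : Finset E) (H : (∀ e, Ω e) → (∀ e, Ω e) → ℂ) (x y : ∀ e, Ω e) : ℂ :=
  av fun A : E → Bool => H (mix (tr A ∩ s) x y) (mix (tr A ∩ s) y x)

/-- The expected acceptance of the cuts inside `s`. -/
noncomputable def Pf (s : Finset E) (f : (∀ e, Ω e) → ℂ) : ℝ :=
  avg fun A : E → Bool => bet (tr A ∩ s) (tr A ∩ s)ᶜ f

end product

/-! ### Blocks of bits -/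

section bits

variable {n : ℕ} {J : Type} [Fintype J] [DecidableEq J]

/-- Every variable is in at most `r` blocks; two variables which are together in two different blocks
are in the same blocks. -/
structure Blo (r : ℕ) (I : J → Finset (Fin n)) : Prop where
  rd : ∀ i, (univ.filter fun j => i ∈ I j).card ≤ r
  ll : ∀ j j', j ≠ j' → ∀ i ∈ I j ∩ I j', ∀ i' ∈ I j ∩ I j', ∀ l, i ∈ I l ↔ i' ∈ I l
  cd : Fintype.card J ≤ r * n

/-- The variables in the same blocks as `i`, if `i` is in some block. -/
def cell (I : J → Finset (Fin n)) (i : Fin n) : Finset (Fin n) :=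
  univ.filter fun i' => (∀ l, i ∈ I l ↔ i' ∈ I l) ∧ ∃ l, i ∈ I l

/-- The blocks and the cells. -/
def bc (I : J → Finset (Fin n)) : J ⊕ Fin n → Finset (Fin n) := Sum.elim I (cell I)

/-- The noise stability: `∑ |f^(S)| ^ 2 (1 - 2 p) ^ |S|`. -/
noncomputable def Sf (f : (Fin n → Bool) → ℂ) (p : ℝ) : ℝ :=
  ∑ S : Finset (Fin n), ‖Pt.co f S‖ ^ 2 * (1 - 2 * p) ^ S.card

/-- The average over the fibres of `ω`. -/
noncomputable def fib {V : Type} [Fintype V] (ω : V → Bool) (t : (Fin n → Bool × V) → ℂ)
    (x : Fin n → Bool × Bool) : ℂ :=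
  av fun α : Fin n → {v : V // ω v = false} => av fun β : Fin n → {v : V // ω v = true} =>
    t fun i => ((x i).1, if (x i).2 then (β i).1 else (α i).1)

/-- The average over uniform `y` and `W` with independent bits of density `p`. -/
noncomputable def avp (p : ℝ) (g : (Fin n → Bool × Bool) → ℂ) : ℂ :=
  av fun y : Fin n → Bool => ∑ W : Fin n → Bool,
    (((∏ i, if W i then p else 1 - p : ℝ)) : ℂ) * g fun i => (y i, W i)

end bits

end Pool.Agent.MP_ca1109_lc.Ov
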