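import Pool.Agent.MP_ca1109_lc.Ov.Defs

/-! # Fibres (row FB): the average over the fibres of the threshold function `ω`. -/

namespace Pool.Agent.MP_ca1109_lc.Ov

open Finset Pool.Agent.H66 Pool.Agent.MP_ca1109_lc.Mpg Pool.Agent.MP_ca1109_lc.Agp
  Pool.Agent.MP_ca1109_lc.Xp

section fbaux

theorem fb_av_norm {A : Type*} [Fintype A] [Nonempty A] {f : A → ℂ} {c : ℝ}
    (h : ∀ a, ‖f a‖ ≤ c) : ‖av f‖ ≤ c := by
  have hc : (0 : ℝ) < Fintype.card A := by exact_mod_cast Fintype.card_pos
  rw [av, norm_div, Complex.norm_natCast, div_le_iff₀ hc]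
  refine (norm_sum_le _ _).trans ((Finset.sum_le_sum fun a _ => h a).trans ?_)
  rw [Finset.sum_const, Finset.card_univ, nsmul_eq_mul, mul_comm]

theorem fb_av_sum {A C : Type*} [Fintype A] [Fintype C] (f : C → A → ℂ) :
    (av fun a => ∑ c, f c a) = ∑ c, av (f c) := by
  simp only [av]
  rw [Finset.sum_comm, Finset.sum_div]

theorem fb_av_sub {A : Type*} [Fintype A] [Nonempty A] (c : ℂ) (f : A → ℂ) :
    c - av f = av fun a => c - f a := by
  have hc : (Fintype.card A : ℂ) ≠ 0 := by exact_mod_cast Fintype.card_ne_zero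
  simp only [av]
  rw [Finset.sum_sub_distrib, Finset.sum_const, Finset.card_univ, nsmul_eq_mul, sub_div,
    mul_div_cancel_left₀ _ hc]

theorem fb_av_ofReal {A : Type*} [Fintype A] (f : A → ℝ) :
    (av fun a => ((f a : ℝ) : ℂ)) = ((avg f : ℝ) : ℂ) := by
  simp only [av, avg]
  push_cast
  rfl

theorem fb_av_le {A : Type*} [Fintype A] {f : A → ℂ} {g : A → ℝ}
    (h : ∀ a, ‖f a‖ ≤ g a) : ‖av f‖ ≤ avg g := by
  have hc : (0 : ℝ) ≤ Fintype.card A := Nat.cast_nonneg _
  rw [av, avg, norm_div, Complex.norm_natCast]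
  exact div_le_div_of_nonneg_right ((norm_sum_le _ _).trans (Finset.sum_le_sum fun a _ => h a)) hc

theorem fb_pi {n : ℕ} {A : Type*} [Fintype A] (c : Fin n → A → ℂ) :
    ∑ f : Fin n → A, ∏ i, c i (f i) = ∏ i, ∑ a, c i a := by
  classical
  rw [Finset.prod_univ_sum, Fintype.piFinset_univ]

theorem fb_av_equiv {A B : Type*} [Fintype A] [Fintype B] (e : A ≃ B) (f : B → ℂ) :
    (av fun a => f (e a)) = av f := by
  simp only [av]
  rw [Equiv.sum_comp e, Fintype.card_congr e]

theorem fb_av_prod {A B : Type*} [Fintype A] [Fintype B] (f : A × B → ℂ) :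
    av f = av fun a => av fun b => f (a, b) := by
  simp only [av]
  rw [Fintype.sum_prod_type, ← Finset.sum_div, div_div, Fintype.card_prod, Nat.cast_mul,
    mul_comm (Fintype.card B : ℂ)]

end fbaux

section bits

variable {n : ℕ}

theorem fb_coord {V : Type} [Fintype V] [DecidableEq V] (ω : V → Bool)
    (hV : (Fintype.card V : ℂ) ≠ 0) {p : ℝ}
    (hp : p = (univ.filter fun v => ω v = true).card / (Fintype.card V : ℝ)) (v : V) :
    ∑ w : Bool, ((if w then p else 1 - p : ℝ) : ℂ) *
      ∑ a : {v : V // ω v = false}, ∑ b : {v : V // ω v = true},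
        (if (if w then b.1 else a.1) = v then (1 : ℂ) else 0) =
      (Fintype.card {v : V // ω v = false} : ℂ) * Fintype.card {v : V // ω v = true} /
        Fintype.card V := by
  have c1 : ((univ.filter fun v => ω v = true).card : ℂ) =
      (Fintype.card {v : V // ω v = true} : ℂ) := by
    rw [Fintype.card_subtype]
  have c0 : (Fintype.card V : ℂ) = (Fintype.card {v : V // ω v = false} : ℂ) +
      (Fintype.card {v : V // ω v = true} : ℂ) := by
    rw [Fintype.card_subtype, Fintype.card_subtype]
    have := Finset.card_filter_add_card_filter_not (s := (univ : Finset V)) (fun v => ω v = true)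
    rw [Finset.card_univ] at this
    rw [← this]
    push_cast
    rw [add_comm]
    congr 3
    ext v
    simp
  have hpc : ((p : ℝ) : ℂ) = (Fintype.card {v : V // ω v = true} : ℂ) / Fintype.card V := by
    rw [hp]
    push_cast
    rw [c1]
  rw [Fintype.sum_bool]
  simp only [if_true, Bool.false_eq_true, if_false]
  rcases hv : ω v with _ | _
  · have e1 : ∑ b : {v : V // ω v = true}, (if b.1 = v then (1 : ℂ) else 0) = 0 :=
      Finset.sum_eq_zero fun b _ => by
        rw [if_neg]
        intro h
        have := b.2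
        rw [h, hv] at this
        exact absurd this (by decide)
    have e0 : ∑ a : {v : V // ω v = false}, (if a.1 = v then (1 : ℂ) else 0) = 1 := by
      rw [Finset.sum_eq_single ⟨v, hv⟩]
      · simp
      · intro b _ hb
        rw [if_neg]
        intro h
        exact hb (Subtype.ext h)
      · intro h
        exact absurd (Finset.mem_univ _) h
    simp only [Finset.sum_const, Finset.card_univ, nsmul_eq_mul, e1, mul_zero, zero_add,
      Complex.ofReal_sub, Complex.ofReal_one, hpc]
    rw [← Finset.mul_sum, e0]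
    field_simp
    rw [c0]
    ring
  · have e1 : ∑ b : {v : V // ω v = true}, (if b.1 = v then (1 : ℂ) else 0) = 1 := by
      rw [Finset.sum_eq_single ⟨v, hv⟩]
      · simp
      · intro b _ hb
        rw [if_neg]
        intro h
        exact hb (Subtype.ext h)
      · intro h
        exact absurd (Finset.mem_univ _) h
    have e0 : ∑ a : {v : V // ω v = false}, (if a.1 = v then (1 : ℂ) else 0) = 0 :=
      Finset.sum_eq_zero fun b _ => by
        rw [if_neg]
        intro h
        have := b.2
        rw [h, hv] at this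
        exact absurd this (by decide)
    simp only [Finset.sum_const, Finset.card_univ, nsmul_eq_mul, e1, hpc]
    rw [← Finset.mul_sum, e0]
    ring

/-- The average over the fibres has the distribution of independent coordinates. -/
theorem fb_main {V : Type} [Fintype V] {ω : V → Bool} (h0 : ∃ v, ω v = false)
    (h1 : ∃ v, ω v = true) {p : ℝ} (hp : p = (univ.filter fun v => ω v = true).card /
      (Fintype.card V : ℝ)) (G : (Fin n → V) → ℂ) :
    (∑ W : Fin n → Bool, (((∏ i, if W i then p else 1 - p : ℝ)) : ℂ) *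
      av fun α : Fin n → {v : V // ω v = false} => av fun β : Fin n → {v : V // ω v = true} =>
        G fun i => if W i then (β i).1 else (α i).1) = av G := by
  classical
  obtain ⟨v0, hv0⟩ := h0
  obtain ⟨v1, hv1⟩ := h1
  have hV : (Fintype.card V : ℂ) ≠ 0 := by
    have : 0 < Fintype.card V := Fintype.card_pos_iff.2 ⟨v0⟩
    exact_mod_cast this.ne'
  have hV0 : (Fintype.card {v : V // ω v = false} : ℂ) ≠ 0 := by
    have : 0 < Fintype.card {v : V // ω v = false} := Fintype.card_pos_iff.2 ⟨⟨v0, hv0⟩⟩
    exact_mod_cast this.ne'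
  have hV1 : (Fintype.card {v : V // ω v = true} : ℂ) ≠ 0 := by
    have : 0 < Fintype.card {v : V // ω v = true} := Fintype.card_pos_iff.2 ⟨⟨v1, hv1⟩⟩
    exact_mod_cast this.ne'
  have hG : ∀ v' : Fin n → V, G v' = ∑ v : Fin n → V, G v *
      ∏ i, (if v' i = v i then (1 : ℂ) else 0) := by
    intro v'
    rw [Finset.sum_eq_single v']
    · simp
    · intro v _ hv
      obtain ⟨i, hi⟩ := Function.ne_iff.1 hv
      rw [Finset.prod_eq_zero (Finset.mem_univ i) (if_neg (Ne.symm hi)), mul_zero]
    · intro h
      exact absurd (Finset.mem_univ _) h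
  have e1 : ∀ W : Fin n → Bool,
      (av fun α : Fin n → {v : V // ω v = false} => av fun β : Fin n → {v : V // ω v = true} =>
        G fun i => if W i then (β i).1 else (α i).1) =
      (∑ v : Fin n → V, G v * ∑ α : Fin n → {v : V // ω v = false},
        ∑ β : Fin n → {v : V // ω v = true},
          ∏ i, (if (if W i then (β i).1 else (α i).1) = v i then (1 : ℂ) else 0)) /
        ((Fintype.card {v : V // ω v = false} : ℂ) ^ n *
          (Fintype.card {v : V // ω v = true} : ℂ) ^ n) := by
    intro W
    simp only [av]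
    rw [← Finset.sum_div, div_div]
    congr 1
    · simp only [Finset.mul_sum]
      exact (Finset.sum_congr rfl fun α _ => (Finset.sum_congr rfl fun β _ => hG _).trans
        Finset.sum_comm).trans Finset.sum_comm
    · simp only [Fintype.card_fun, Fintype.card_fin, Nat.cast_pow]
      ring
  simp only [e1]
  have e2 : ∀ v : Fin n → V, ∑ W : Fin n → Bool, (((∏ i, if W i then p else 1 - p : ℝ)) : ℂ) *
      ∑ α : Fin n → {v : V // ω v = false}, ∑ β : Fin n → {v : V // ω v = true},
        ∏ i, (if (if W i then (β i).1 else (α i).1) = v i then (1 : ℂ) else 0) =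
      ((Fintype.card {v : V // ω v = false} : ℂ) * Fintype.card {v : V // ω v = true} /
        Fintype.card V) ^ n := by
    intro v
    have e3 : ∀ W : Fin n → Bool, ∑ α : Fin n → {v : V // ω v = false},
        ∑ β : Fin n → {v : V // ω v = true},
          ∏ i, (if (if W i then (β i).1 else (α i).1) = v i then (1 : ℂ) else 0) =
        ∏ i, ∑ a : {v : V // ω v = false}, ∑ b : {v : V // ω v = true},
          (if (if W i then b.1 else a.1) = v i then (1 : ℂ) else 0) := by
      intro W
      have e4 : ∀ α : Fin n → {v : V // ω v = false}, ∑ β : Fin n → {v : V // ω v = true},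
          ∏ i, (if (if W i then (β i).1 else (α i).1) = v i then (1 : ℂ) else 0) =
          ∏ i, ∑ b : {v : V // ω v = true},
            (if (if W i then b.1 else (α i).1) = v i then (1 : ℂ) else 0) := fun α =>
        fb_pi fun i (b : {v : V // ω v = true}) =>
          (if (if W i then b.1 else (α i).1) = v i then (1 : ℂ) else 0)
      simp only [e4]
      exact fb_pi fun i (a : {v : V // ω v = false}) => ∑ b : {v : V // ω v = true},
            (if (if W i then b.1 else a.1) = v i then (1 : ℂ) else 0)
    simp only [e3, Complex.ofReal_prod, ← Finset.prod_mul_distrib]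
    rw [fb_pi fun i (w : Bool) => ((if w then p else 1 - p : ℝ) : ℂ) *
      ∑ a : {v : V // ω v = false}, ∑ b : {v : V // ω v = true},
        (if (if w then b.1 else a.1) = v i then (1 : ℂ) else 0)]
    rw [Finset.prod_congr rfl fun i _ => fb_coord ω hV hp (v i), Finset.prod_const,
      Finset.card_univ, Fintype.card_fin]
  have e5 : ∀ W : Fin n → Bool, (((∏ i, if W i then p else 1 - p : ℝ)) : ℂ) *
      ((∑ v : Fin n → V, G v * ∑ α : Fin n → {v : V // ω v = false},
        ∑ β : Fin n → {v : V // ω v = true},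
          ∏ i, (if (if W i then (β i).1 else (α i).1) = v i then (1 : ℂ) else 0)) /
        ((Fintype.card {v : V // ω v = false} : ℂ) ^ n *
          (Fintype.card {v : V // ω v = true} : ℂ) ^ n)) =
      (∑ v : Fin n → V, G v * ((((∏ i, if W i then p else 1 - p : ℝ)) : ℂ) *
        ∑ α : Fin n → {v : V // ω v = false},
        ∑ β : Fin n → {v : V // ω v = true},
          ∏ i, (if (if W i then (β i).1 else (α i).1) = v i then (1 : ℂ) else 0))) /
        ((Fintype.card {v : V // ω v = false} : ℂ) ^ n *
          (Fintype.card {v : V // ω v = true} : ℂ) ^ n) := by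
    intro W
    rw [← mul_div_assoc, Finset.mul_sum]
    congr 1
    refine Finset.sum_congr rfl fun v _ => ?_
    ring
  rw [Finset.sum_congr rfl fun W _ => e5 W, ← Finset.sum_div, Finset.sum_comm]
  have e6 : ∀ v : Fin n → V, ∑ W : Fin n → Bool, G v *
      ((((∏ i, if W i then p else 1 - p : ℝ)) : ℂ) *
        ∑ α : Fin n → {v : V // ω v = false},
        ∑ β : Fin n → {v : V // ω v = true},
          ∏ i, (if (if W i then (β i).1 else (α i).1) = v i then (1 : ℂ) else 0)) =
      G v * ((Fintype.card {v : V // ω v = false} : ℂ) * Fintype.card {v : V // ω v = true} /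
        Fintype.card V) ^ n := by
    intro v
    rw [← Finset.mul_sum, e2 v]
  rw [Finset.sum_congr rfl fun v _ => e6 v, ← Finset.sum_mul, av]
  rw [Fintype.card_fun, Fintype.card_fin, Nat.cast_pow, div_pow, mul_pow]
  have hV0' := pow_ne_zero n hV0
  have hV1' := pow_ne_zero n hV1
  have hV' := pow_ne_zero n hV
  field_simp

theorem fib_smp {V : Type} [Fintype V] {ω : V → Bool} (h0 : ∃ v, ω v = false)
    (h1 : ∃ v, ω v = true) {ι : Type} {B : ι → Finset (Fin n)} {K : ℕ} {L : ℝ}
    {t : (Fin n → Bool × V) → ℂ} (h : Smp B K L t) : Smp B K L (fib ω t) := by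
  obtain ⟨v0, hv0⟩ := h0
  obtain ⟨v1, hv1⟩ := h1
  have : Nonempty {v : V // ω v = false} := ⟨⟨v0, hv0⟩⟩
  have : Nonempty {v : V // ω v = true} := ⟨⟨v1, hv1⟩⟩
  obtain ⟨q, u, a, b, hu, ha, ht⟩ := h
  refine ⟨q, fun i => fib ω (u i), a, b, fun i => ⟨(hu i).1, ?_, ?_⟩, ha, ?_⟩
  · intro x y hxy
    simp only [fib]
    congr 1
    funext α
    congr 1
    funext β
    exact (hu i).2.1 _ _ fun e he => by rw [hxy e he]
  · intro x
    exact fb_av_norm fun α => fb_av_norm fun β => (hu i).2.2 _
  · intro x
    simp only [fib, ht, fb_av_sum]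

/-- The fibre average has the same mean; `p` is the density of `ω`. -/
theorem fib_avp {V : Type} [Fintype V] {ω : V → Bool} (h0 : ∃ v, ω v = false)
    (h1 : ∃ v, ω v = true) {p : ℝ} (hp : p = (univ.filter fun v => ω v = true).card /
      (Fintype.card V : ℝ)) (t : (Fin n → Bool × V) → ℂ) : avp p (fib ω t) = av t := by
  have e : av t = av fun y : Fin n → Bool => av fun v : Fin n → V => t fun i => (y i, v i) := by
    rw [← fb_av_equiv (Equiv.arrowProdEquivProdArrow (Fin n) (fun _ => Bool) (fun _ => V)).symm t,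
      fb_av_prod]
    rfl
  rw [e, avp]
  congr 1
  funext y
  exact fb_main h0 h1 hp fun v => t fun i => (y i, v i)

/-- Approximations pass to the fibre averages. -/
theorem fib_close {V : Type} [Fintype V] {ω : V → Bool} (h0 : ∃ v, ω v = false)
    (h1 : ∃ v, ω v = true) (F : (Fin n → Bool × Bool) → ℂ) (t : (Fin n → Bool × V) → ℂ)
    (R : (Fin n → Bool × V) → ℝ)
    (h : ∀ x, ‖F (fun i => ((x i).1, ω (x i).2)) - t x‖ ≤ R x) (x : Fin n → Bool × Bool) :
    ‖F x - fib ω t x‖ ≤ (fib ω (fun x => ((R x : ℝ) : ℂ)) x).re := by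
  obtain ⟨v0, hv0⟩ := h0
  obtain ⟨v1, hv1⟩ := h1
  have : Nonempty {v : V // ω v = false} := ⟨⟨v0, hv0⟩⟩
  have : Nonempty {v : V // ω v = true} := ⟨⟨v1, hv1⟩⟩
  have e : fib ω (fun x => ((R x : ℝ) : ℂ)) x =
      ((avg fun α : Fin n → {v : V // ω v = false} => avg fun β : Fin n → {v : V // ω v = true} =>
        R fun i => ((x i).1, if (x i).2 then (β i).1 else (α i).1) : ℝ) : ℂ) := by
    simp only [fib, fb_av_ofReal]
  rw [e, Complex.ofReal_re, fib, fb_av_sub]
  refine fb_av_le fun α => ?_
  rw [fb_av_sub]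
  refine fb_av_le fun β => ?_
  have h' := h fun i => ((x i).1, if (x i).2 then (β i).1 else (α i).1)
  have ex : (fun i => ((x i).1, ω (if (x i).2 then (β i).1 else (α i).1))) = x := by
    funext i
    refine Prod.ext rfl ?_
    rcases hx : (x i).2 with _ | _
    · simpa using (α i).2
    · simpa using (β i).2
  have h'' : ‖F (fun i => ((x i).1, ω (if (x i).2 then (β i).1 else (α i).1))) -
      t fun i => ((x i).1, if (x i).2 then (β i).1 else (α i).1)‖ ≤
      R fun i => ((x i).1, if (x i).2 then (β i).1 else (α i).1) := h'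
  rw [ex] at h''
  exact h''

theorem fib_real {V : Type} [Fintype V] (ω : V → Bool) (R : (Fin n → Bool × V) → ℝ)
    (x : Fin n → Bool × Bool) : (fib ω (fun x => ((R x : ℝ) : ℂ)) x).im = 0 := by
  simp only [fib, fb_av_ofReal, Complex.ofReal_im]

end bits

end Pool.Agent.MP_ca1109_lc.Ov
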