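import Pool.Agent.MP_ca1109_lc.Ov.CE
import Pool.Agent.MP_ca1109_lc.Ov.BI

/-!
# The case of noise `1 / 4`
-/

namespace Pool.Agent.MP_ca1109_lc.Ov

open Finset Pool.Agent.H66 Pool.Agent.MP_ca1109_lc.Mpg Pool.Agent.MP_ca1109_lc.Agp
  Pool.Agent.MP_ca1109_lc.Xp

variable {n : ℕ}

/-- The blocks and the cells are short. -/
theorem ga_bc {N : ℕ} {J : Type} [Fintype J] {I : J → Finset (Fin n)} (hI : ∀ j, 2 ^ (I j).card ≤ N)
    (hN : 1 ≤ N) (i : J ⊕ Fin n) : 2 ^ (bc I i).card ≤ N := by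
  classical
  cases i with
  | inl j => exact hI j
  | inr i =>
    show 2 ^ (cell I i).card ≤ N
    by_cases h : ∃ l, i ∈ I l
    · obtain ⟨l, hl⟩ := h
      refine le_trans (Nat.pow_le_pow_right (by norm_num) (card_le_card fun i' hi' => ?_)) (hI l)
      unfold cell at hi'
      rw [mem_filter] at hi'
      exact (hi'.2.1 l).1 hl
    · have h1 : cell I i = ∅ := by
        unfold cell
        rw [filter_eq_empty_iff]
        intro i' _ h'
        exact h h'.2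
      rw [h1, card_empty, pow_zero]
      exact hN

theorem ga_bd {K : ℕ} {N : ℕ} (hN : 1 ≤ N) (n m : ℕ) :
    2 * (K * ((n : ℝ) + 1) ^ K * N ^ (K * m)) ≤ Pt.bd (2 * K + K * m) n N := by
  unfold Pt.bd
  have h1 : (1 : ℝ) ≤ N := by exact_mod_cast hN
  have h0 : (1 : ℝ) ≤ (n : ℝ) + 1 := by
    have : (0 : ℝ) ≤ n := Nat.cast_nonneg n
    linarith
  have h2 : ((n : ℝ) + 1) ^ K ≤ ((n : ℝ) + 1) ^ (2 * K + K * m) := pow_le_pow_right₀ h0 (by omega)
  have h3 : (N : ℝ) ^ (K * m) ≤ (N : ℝ) ^ (2 * K + K * m) := pow_le_pow_right₀ h1 (by omega)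
  have h4 : (2 * K : ℝ) ≤ ((2 * K + K * m : ℕ) : ℝ) := by
    push_cast
    have : (0 : ℝ) ≤ (K : ℝ) * m := by positivity
    linarith
  calc 2 * (K * ((n : ℝ) + 1) ^ K * N ^ (K * m))
      = (2 * K : ℝ) * (((n : ℝ) + 1) ^ K * N ^ (K * m)) := by ring
    _ ≤ ((2 * K + K * m : ℕ) : ℝ) *
        (((n : ℝ) + 1) ^ (2 * K + K * m) * (N : ℝ) ^ (2 * K + K * m)) :=
        mul_le_mul h4 (mul_le_mul h2 h3 (by positivity) (by positivity)) (by positivity)
          (by positivity)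
    _ = ((2 * K + K * m : ℕ) : ℝ) * (((n : ℝ) + 1) * N) ^ (2 * K + K * m) := by rw [mul_pow]

theorem ga_norm_av {A : Type} [Fintype A] (f : A → ℂ) (R : A → ℝ) (h : ∀ a, ‖f a‖ ≤ R a) :
    ‖av f‖ ≤ avg R := by
  unfold av avg
  rw [norm_div, Complex.norm_natCast]
  exact div_le_div_of_nonneg_right ((norm_sum_le _ _).trans (sum_le_sum fun a _ => h a))
    (Nat.cast_nonneg _)

theorem ga_av_sub {A : Type} [Fintype A] (f g : A → ℂ) :
    av (fun a => f a - g a) = av f - av g := by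
  unfold av
  rw [sum_sub_distrib, sub_div]

theorem case1 (r : ℕ) {ε e : ℝ} (hε : 0 < ε) (he : 0 < e) : ∃ K : ℕ, ∀ {n N : ℕ} {J : Type}
    [Fintype J] [DecidableEq J] {I : J → Finset (Fin n)} {f : J → (Fin n → Bool) → ℂ},
    Blo r I → (∀ j, 2 ^ (I j).card ≤ N) → 1 ≤ N → (∀ j, Dep (I j) (f j)) →
    (∀ j x, ‖f j x‖ = 1) → ε ≤ Sf (fun x => ∏ j, f j x) (1 / 4) →
    ∀ {Ω : Type} [Fintype Ω] [Nonempty Ω] (Y : Ω → Fin n → Bool) (δ : ℝ), 0 ≤ δ → Bias δ Y →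
      ‖(av fun ω => ∏ j, f j (Y ω)) - av fun x => ∏ j, f j x‖ ≤ e + δ * Pt.bd K n N := by
  obtain ⟨K, hK⟩ := st_noise r hε (half_pos he)
  refine ⟨2 * K + K * 1, ?_⟩
  intro n N J _ _ I f hI hN hN1 hd hf hS Ω _ _ Y δ hδ hY
  obtain ⟨t, R, h1, h2, h3, h4⟩ := hK hI hd hf hS
  have hb := ga_bc hN hN1
  have h5 := fool hδ hY (sp_of_smp hN1 hb h3)
  have h6 := fool_real hδ hY (sp_of_smp hN1 hb h4)
  have h7 := ga_bd (K := K) hN1 n 1
  rw [mul_one] at h7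
  set F : (Fin n → Bool) → ℂ := fun x => ∏ j, f j x with hF
  have h8 : ‖av (fun ω => F (Y ω)) - av (fun ω => t (Y ω))‖ ≤ avg fun ω => R (Y ω) := by
    rw [← ga_av_sub]
    exact ga_norm_av _ _ fun ω => h1 (Y ω)
  have h9 : ‖av F - av t‖ ≤ avg R := by
    rw [← ga_av_sub]
    exact ga_norm_av _ _ fun x => h1 x
  have h10 := (abs_le.1 h6).2
  have h11 : ‖av (fun ω => F (Y ω)) - av F‖ ≤ ‖av (fun ω => F (Y ω)) - av (fun ω => t (Y ω))‖ +
      ‖av (fun ω => t (Y ω)) - av t‖ + ‖av F - av t‖ := by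
    have e1 : av (fun ω => F (Y ω)) - av F = (av (fun ω => F (Y ω)) - av (fun ω => t (Y ω))) +
        (av (fun ω => t (Y ω)) - av t) + (av t - av F) := by ring
    rw [e1, norm_sub_rev (av F) (av t)]
    exact (norm_add_le _ _).trans (add_le_add_left (norm_add_le _ _) _)
  have h12 := mul_le_mul_of_nonneg_left h7 hδ
  rw [mul_one]
  linarith

end Pool.Agent.MP_ca1109_lc.Ov
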