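import Pool.Agent.MP_ca1109_lc.Ov.Defs
import Pool.Agent.MP_ca1109_lc.Pt.AU
import Pool.Agent.MP_ca1109_lc.Pt.CS

namespace Pool.Agent.MP_ca1109_lc.Ov

open Finset Pool.Agent.H66 Pool.Agent.MP_ca1109_lc.Mpg Pool.Agent.MP_ca1109_lc.Agp
  Pool.Agent.MP_ca1109_lc.Xp

section bits

variable {n : ℕ}

/-! ## SS: the noise stability as a function of the density -/

theorem Sf_mono (f : (Fin n → Bool) → ℂ) {p q : ℝ} (hp : 0 ≤ p) (hpq : p ≤ q)
    (hq : q ≤ 1 / 2) : Sf f q ≤ Sf f p := by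
  unfold Sf
  refine sum_le_sum fun S _ => mul_le_mul_of_nonneg_left ?_ (sq_nonneg _)
  exact pow_le_pow_left₀ (by linarith) (by linarith) _

theorem Sf_zero (f : (Fin n → Bool) → ℂ) : Sf f 0 = avg fun x => ‖f x‖ ^ 2 := by
  rw [← Pt.co_parseval]
  unfold Sf
  simp

theorem Sf_half (f : (Fin n → Bool) → ℂ) : Sf f (1 / 2) = ‖av f‖ ^ 2 := by
  rw [← Pt.co_empty]
  unfold Sf
  rw [sum_eq_single ∅]
  · simp
  · intro S _ hS
    have h1 : S.card ≠ 0 := fun h => hS (card_eq_zero.1 h)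
    have h2 : (1 - 2 * (1 / 2) : ℝ) = 0 := by norm_num
    rw [h2, zero_pow h1, mul_zero]
  · intro h
    exact absurd (mem_univ _) h

theorem ss_one {f : (Fin n → Bool) → ℂ} (hf : ∀ x, ‖f x‖ = 1) : ∑ S, ‖Pt.co f S‖ ^ 2 = 1 := by
  rw [Pt.co_parseval]
  simp_rw [hf, one_pow]
  exact avg_const 1

/-- The comparison of the factors. -/
theorem ss_base {p : ℝ} (hp : 0 ≤ p) (hp' : p ≤ 1 / 4) {k : ℕ} (hk : 1 ≤ k) :
    (1 - 2 * (p / k)) ^ (2 * k) ≤ 1 - 2 * p := by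
  have hk' : (1 : ℝ) ≤ k := by exact_mod_cast hk
  have hk0 : (0 : ℝ) < k := by linarith
  have hpk : p / k ≤ p := div_le_self hp hk'
  have h1 : 1 - 2 * (p / k) ≤ Real.exp (-(2 * (p / k))) := Real.one_sub_le_exp_neg _
  have h2 : (1 - 2 * (p / k)) ^ (2 * k) ≤ Real.exp (-(4 * p)) := by
    calc (1 - 2 * (p / k)) ^ (2 * k) ≤ (Real.exp (-(2 * (p / k)))) ^ (2 * k) :=
          pow_le_pow_left₀ (by linarith) h1 _
      _ = Real.exp (-(4 * p)) := by
          rw [← Real.exp_nat_mul]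
          congr 1
          push_cast
          field_simp
          ring
  refine h2.trans ?_
  have h3 : 1 + 4 * p ≤ Real.exp (4 * p) := by
    have := Real.add_one_le_exp (4 * p)
    linarith
  have h4 : (0 : ℝ) < 1 + 4 * p := by linarith
  rw [Real.exp_neg]
  calc (Real.exp (4 * p))⁻¹ ≤ (1 + 4 * p)⁻¹ := inv_anti₀ h4 h3
    _ ≤ 1 - 2 * p := by
        rw [inv_le_iff_one_le_mul₀ h4]
        nlinarith

theorem Sf_pow {f : (Fin n → Bool) → ℂ} (hf : ∀ x, ‖f x‖ = 1) {p : ℝ} (hp : 0 ≤ p)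
    (hp' : p ≤ 1 / 4) {k : ℕ} (hk : 1 ≤ k) : Sf f (p / k) ^ (2 * k) ≤ Sf f p := by
  have hk' : (1 : ℝ) ≤ k := by exact_mod_cast hk
  have hpk : p / k ≤ p := div_le_self hp hk'
  have hpk0 : 0 ≤ p / k := by positivity
  have h0 : ∀ S : Finset (Fin n), (0 : ℝ) ≤ (1 - 2 * (p / k)) ^ S.card :=
    fun S => pow_nonneg (by linarith) _
  have h1 : Sf f (p / k) ^ (2 * k) ≤
      ∑ S, ‖Pt.co f S‖ ^ 2 * ((1 - 2 * (p / k)) ^ S.card) ^ (2 * k) := by
    unfold Sf
    exact Real.pow_arith_mean_le_arith_mean_pow univ _ _ (fun S _ => sq_nonneg _) (ss_one hf)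
      (fun S _ => h0 S) _
  refine h1.trans ?_
  unfold Sf
  refine sum_le_sum fun S _ => mul_le_mul_of_nonneg_left ?_ (sq_nonneg _)
  rw [← pow_mul, mul_comm S.card, pow_mul]
  refine pow_le_pow_left₀ (pow_nonneg (by linarith) _) (ss_base hp hp' hk) _

theorem ss_low {f : (Fin n → Bool) → ℂ} (hf : ∀ x, ‖f x‖ = 1) {l : ℕ} (hl : 2 ≤ l)
    (hn : n ≤ 2 ^ l) : Real.exp (-4) ≤ Sf f ((1 / 2) ^ l) := by
  have hx : ((1 : ℝ) / 2) ^ l ≤ 1 / 4 := by
    calc ((1 : ℝ) / 2) ^ l ≤ (1 / 2) ^ 2 := pow_le_pow_of_le_one (by norm_num) (by norm_num) hl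
      _ = 1 / 4 := by norm_num
  have hx0 : (0 : ℝ) < (1 / 2) ^ l := by positivity
  have h1 : ∀ S : Finset (Fin n), Real.exp (-4) ≤ (1 - 2 * ((1 : ℝ) / 2) ^ l) ^ S.card := by
    intro S
    have h2 : Real.exp (-(4 * (1 / 2) ^ l)) ≤ 1 - 2 * ((1 : ℝ) / 2) ^ l := by
      have h3 : 1 + 4 * ((1 : ℝ) / 2) ^ l ≤ Real.exp (4 * (1 / 2) ^ l) := by
        have := Real.add_one_le_exp (4 * ((1 : ℝ) / 2) ^ l)
        linarith
      have h4 : (0 : ℝ) < 1 + 4 * (1 / 2) ^ l := by linarith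
      rw [Real.exp_neg]
      calc (Real.exp (4 * (1 / 2) ^ l))⁻¹ ≤ (1 + 4 * (1 / 2) ^ l)⁻¹ := inv_anti₀ h4 h3
        _ ≤ 1 - 2 * (1 / 2) ^ l := by
            rw [inv_le_iff_one_le_mul₀ h4]
            nlinarith
    calc Real.exp (-4) ≤ (Real.exp (-(4 * (1 / 2) ^ l))) ^ S.card := by
          rw [← Real.exp_nat_mul, Real.exp_le_exp]
          have h5 : (S.card : ℝ) ≤ n := by
            have := card_le_univ S
            rw [Fintype.card_fin] at this
            exact_mod_cast this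
          have h6 : (n : ℝ) ≤ 2 ^ l := by exact_mod_cast hn
          have h7 : (2 : ℝ) ^ l * (1 / 2) ^ l = 1 := by
            rw [← mul_pow]
            norm_num
          nlinarith
      _ ≤ _ := pow_le_pow_left₀ (Real.exp_nonneg _) h2 _
  calc Real.exp (-4) = ∑ S, ‖Pt.co f S‖ ^ 2 * Real.exp (-4) := by
        rw [← sum_mul, ss_one hf, one_mul]
    _ ≤ _ := sum_le_sum fun S _ => mul_le_mul_of_nonneg_left (h1 S) (sq_nonneg _)

theorem Sf_level {f : (Fin n → Bool) → ℂ} (hf : ∀ x, ‖f x‖ = 1) {ε : ℝ}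
    (hε : ε ≤ Real.exp (-4)) (h4 : Sf f (1 / 4) < ε) : ∃ l : ℕ, 3 ≤ l ∧ l ≤ Nat.clog 2 n ∧
      ε ≤ Sf f ((1 / 2) ^ l) ∧ Sf f ((1 / 2) ^ (l - 1)) < ε := by
  have hq : ((1 : ℝ) / 2) ^ 2 = 1 / 4 := by norm_num
  have hn : n ≤ 2 ^ Nat.clog 2 n := Nat.le_pow_clog (by norm_num) n
  have hL : 3 ≤ Nat.clog 2 n := by
    by_contra h
    have h1 : n ≤ 2 ^ 2 := hn.trans (Nat.pow_le_pow_right (by norm_num) (by omega))
    have h2 := ss_low hf le_rfl h1
    rw [hq] at h2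
    linarith
  classical
  have hex : ∃ l : ℕ, 3 ≤ l ∧ ε ≤ Sf f ((1 / 2) ^ l) :=
    ⟨Nat.clog 2 n, hL, hε.trans (ss_low hf (by omega) hn)⟩
  obtain ⟨ha, hb⟩ := Nat.find_spec hex
  refine ⟨Nat.find hex, ha, Nat.find_min' hex ⟨hL, hε.trans (ss_low hf (by omega) hn)⟩, hb, ?_⟩
  by_contra hc
  rw [not_lt] at hc
  rcases Nat.lt_or_ge 3 (Nat.find hex) with h | h
  · exact Nat.find_min hex (by omega : Nat.find hex - 1 < Nat.find hex) ⟨by omega, hc⟩
  · have h5 : Nat.find hex - 1 = 2 := by omega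
    rw [h5, hq] at hc
    linarith

/-- The average of the product with the shifted conjugate. -/
theorem Sf_avp (f : (Fin n → Bool) → ℂ) {p : ℝ} (hp : 0 ≤ p) (hp' : p ≤ 1) :
    avp p (fun x : Fin n → Bool × Bool => Pt.dr f (fun i => (x i).2) (fun i => (x i).1)) =
      ((Sf f p : ℝ) : ℂ) := by
  have h1 : avp p (fun x : Fin n → Bool × Bool =>
      Pt.dr f (fun i => (x i).2) (fun i => (x i).1)) =
      ∑ W : Fin n → Bool, ((∏ i, if W i then p else 1 - p : ℝ) : ℂ) * Pt.au f W := by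
    unfold avp
    rw [spb_av_sum]
    refine sum_congr rfl fun W _ => ?_
    rw [spb_av_mul]
    rfl
  rw [h1]
  simp_rw [Pt.au_eq]
  have h2 : ∀ S : Finset (Fin n), ∑ W : Fin n → Bool,
      (∏ i, if W i then p else 1 - p) * Pt.cc S W = (1 - 2 * p) ^ S.card := by
    intro S
    have h3 : ∀ W : Fin n → Bool, (∏ i, if W i then p else 1 - p) * Pt.cc S W =
        ∏ i, (if W i then p else 1 - p) * (if i ∈ S then (if W i = true then -1 else 1) else 1) := by
      intro W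
      unfold Pt.cc
      rw [prod_mul_distrib]
      congr 1
      rw [prod_ite_mem, univ_inter]
    simp_rw [h3]
    have h4 := (Finset.prod_univ_sum (fun _ : Fin n => (univ : Finset Bool))
      (fun i b => ((if b then p else 1 - p) *
        (if i ∈ S then (if b = true then -1 else 1) else 1) : ℝ))).symm
    rw [Fintype.piFinset_univ] at h4
    rw [h4]
    have h5 : ∀ i : Fin n, (∑ b : Bool, ((if b then p else 1 - p) *
        (if i ∈ S then (if b = true then -1 else 1) else 1) : ℝ)) =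
        if i ∈ S then 1 - 2 * p else 1 := by
      intro i
      rw [Fintype.sum_bool]
      by_cases hi : i ∈ S
      · simp only [hi, if_true]
        simp
        ring
      · simp [hi]
    simp_rw [h5]
    rw [prod_ite_mem, univ_inter, prod_const]
  have h6 : (∑ W : Fin n → Bool, (∏ i, if W i then p else 1 - p) *
      ∑ S, ‖Pt.co f S‖ ^ 2 * Pt.cc S W) = Sf f p := by
    simp_rw [mul_sum]
    rw [sum_comm]
    unfold Sf
    refine sum_congr rfl fun S _ => ?_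
    rw [← h2 S, mul_sum]
    exact sum_congr rfl fun W _ => by ring
  rw [← h6, Complex.ofReal_sum]
  refine sum_congr rfl fun W _ => ?_
  rw [Complex.ofReal_mul]

end bits

end Pool.Agent.MP_ca1109_lc.Ov
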