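import Pool.Agent.MP_ca1109_lc.Ov.CE
import Pool.Agent.MP_ca1109_lc.Ov.SS
import Pool.Agent.MP_ca1109_lc.Ov.FB
import Pool.Agent.MP_ca1109_lc.Ov.BI

/-!
# The shift of density `pd l s d`
-/

namespace Pool.Agent.MP_ca1109_lc.Ov

open Finset Pool.Agent.H66 Pool.Agent.MP_ca1109_lc.Mpg Pool.Agent.MP_ca1109_lc.Agp
  Pool.Agent.MP_ca1109_lc.Xp

/-! ## Averages -/

private theorem gb_norm_av {A : Type*} [Fintype A] {F : A → ℂ} {G : A → ℝ} (h : ∀ a, ‖F a‖ ≤ G a) :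
    ‖av F‖ ≤ avg G := by
  unfold av avg
  rw [norm_div, Complex.norm_natCast]
  exact div_le_div_of_nonneg_right ((norm_sum_le _ _).trans (Finset.sum_le_sum fun a _ => h a))
    (Nat.cast_nonneg _)

private theorem gb_av_sub {A : Type*} [Fintype A] (F G : A → ℂ) :
    av (fun a => F a - G a) = av F - av G := by
  unfold av
  rw [Finset.sum_sub_distrib, sub_div]

private theorem gb_avg_re {A : Type*} [Fintype A] (F : A → ℂ) : (avg fun a => (F a).re) = (av F).re := by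
  unfold av avg
  rw [Complex.div_natCast_re, Complex.re_sum]

private theorem gb_avg_add {A : Type*} [Fintype A] (F G : A → ℝ) :
    avg (fun a => F a + G a) = avg F + avg G := by
  unfold avg
  rw [Finset.sum_add_distrib, add_div]

private theorem gb_av_ofReal {A : Type*} [Fintype A] (R : A → ℝ) :
    (av fun a => ((R a : ℝ) : ℂ)) = ((avg R : ℝ) : ℂ) := by
  unfold av avg
  push_cast
  rfl

/-! ## Hash values -/

/-- The bit `b = 1 … 1` and `d c`. -/
private def gom (l s : ℕ) (d : Fin (2 ^ s) → Bool) (v : (Fin l → Bool) × Fin (2 ^ s)) : Bool :=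
  decide (∀ k, v.1 k = true) && d v.2

private theorem gom_dens (l s : ℕ) (d : Fin (2 ^ s) → Bool) : Pt.pd l s d =
    (univ.filter fun v => gom l s d v = true).card /
      (Fintype.card ((Fin l → Bool) × Fin (2 ^ s)) : ℝ) := by
  have h1 : (univ.filter fun v => gom l s d v = true) =
      (univ.filter fun b : Fin l → Bool => ∀ k, b k = true) ×ˢ univ.filter fun c => d c = true := by
    ext ⟨b, c⟩
    simp [gom]
  have h2 : (univ.filter fun b : Fin l → Bool => ∀ k, b k = true) = {fun _ => true} := by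
    ext b
    simp [funext_iff]
  rw [h1, Finset.card_product, h2, Finset.card_singleton, one_mul, Fintype.card_prod,
    Fintype.card_fun, Fintype.card_bool, Fintype.card_fin, Fintype.card_fin]
  unfold Pt.pd
  push_cast
  rw [one_div, inv_pow]
  field_simp

/-! ## Blocks -/

private theorem gb_bc {n N : ℕ} {J : Type} [Fintype J] [DecidableEq J] {I : J → Finset (Fin n)}
    (hN : 1 ≤ N) (h : ∀ j, 2 ^ (I j).card ≤ N) (i : J ⊕ Fin n) : 2 ^ (bc I i).card ≤ N := by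
  rcases i with j | i
  · exact h j
  · show 2 ^ (cell I i).card ≤ N
    by_cases hi : ∃ l, i ∈ I l
    · obtain ⟨l, hl⟩ := hi
      refine le_trans (Nat.pow_le_pow_right (by norm_num) (Finset.card_le_card ?_)) (h l)
      intro i' hi'
      exact ((Finset.mem_filter.mp hi').2.1 l).mp hl
    · have : cell I i = ∅ := by
        ext i'
        simp [cell, hi]
      rw [this]
      simpa using hN

private theorem gb_bd (K s n N : ℕ) (hN : 1 ≤ N) {δ : ℝ} (hδ : 0 ≤ δ) :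
    2 * (δ * (K * ((n : ℝ) + 1) ^ K * (N : ℝ) ^ (K * (s + 4)))) ≤
      δ * Pt.bd (2 * K + K * (s + 4)) n N := by
  have hn : (1 : ℝ) ≤ (n : ℝ) + 1 := by
    have : (0 : ℝ) ≤ n := Nat.cast_nonneg n
    linarith
  have hN' : (1 : ℝ) ≤ (N : ℝ) := by exact_mod_cast hN
  have hK0 : (0 : ℝ) ≤ K := Nat.cast_nonneg K
  have h1 : ((n : ℝ) + 1) ^ K ≤ ((n : ℝ) + 1) ^ (2 * K + K * (s + 4)) :=
    pow_le_pow_right₀ hn (by omega)
  have h2 : (N : ℝ) ^ (K * (s + 4)) ≤ (N : ℝ) ^ (2 * K + K * (s + 4)) :=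
    pow_le_pow_right₀ hN' (by omega)
  have h3 : ((n : ℝ) + 1) ^ K * (N : ℝ) ^ (K * (s + 4)) ≤
      (((n : ℝ) + 1) * N) ^ (2 * K + K * (s + 4)) := by
    rw [mul_pow]
    exact mul_le_mul h1 h2 (by positivity) (by positivity)
  have h4 : 2 * (K * (((n : ℝ) + 1) ^ K * (N : ℝ) ^ (K * (s + 4)))) ≤
      Pt.bd (2 * K + K * (s + 4)) n N := by
    unfold Pt.bd
    calc 2 * (K * (((n : ℝ) + 1) ^ K * (N : ℝ) ^ (K * (s + 4))))
        = (2 * K) * (((n : ℝ) + 1) ^ K * (N : ℝ) ^ (K * (s + 4))) := by ring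
      _ ≤ ((2 * K + K * (s + 4) : ℕ) : ℝ) * (((n : ℝ) + 1) * N) ^ (2 * K + K * (s + 4)) := by
        refine mul_le_mul ?_ h3 (by positivity) (by positivity)
        push_cast
        nlinarith [show (0 : ℝ) ≤ K * (s + 4) by positivity]
  calc 2 * (δ * (K * ((n : ℝ) + 1) ^ K * (N : ℝ) ^ (K * (s + 4))))
      = δ * (2 * (K * (((n : ℝ) + 1) ^ K * (N : ℝ) ^ (K * (s + 4))))) := by ring
    _ ≤ _ := mul_le_mul_of_nonneg_left h4 hδ

theorem case2 (r s : ℕ) {ε e : ℝ} (hε : 0 < ε) (he : 0 < e) : ∃ K : ℕ, ∀ {n N : ℕ} {J : Type}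
    [Fintype J] [DecidableEq J] {I : J → Finset (Fin n)} {f : J → (Fin n → Bool) → ℂ},
    Blo r I → (∀ j, 2 ^ (I j).card ≤ N) → 1 ≤ N → (∀ j, Dep (I j) (f j)) →
    (∀ j x, ‖f j x‖ = 1) → ∀ {L l : ℕ}, l ≤ L → 1 ≤ l → ∀ (d : Fin (2 ^ s) → Bool),
    (∃ c, d c = true) → ε ≤ Sf (fun x => ∏ j, f j x) (Pt.pd l s d) →
    ∀ {Ω₁ Ω₂ : Type} [Fintype Ω₁] [Nonempty Ω₁] [Fintype Ω₂] [Nonempty Ω₂]
      (Y : Ω₁ → Fin n → Bool) (Z : Ω₂ → Fin (n * (L + s)) → Bool) (sh : Ω₂ → Fin n → Bool)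
      (δ : ℝ), 0 ≤ δ → Bias δ Y → Bias δ Z →
      ‖av fun ω₂ => av fun ω₁ => Pt.dr (fun x => ∏ j, f j x)
        (Pt.wd (eta (Z ω₂) l) (hsh (Z ω₂)) d) (xo (Y ω₁) (sh ω₂))‖ ≤
        Sf (fun x => ∏ j, f j x) (Pt.pd l s d) + e + δ * Pt.bd K n N := by
  classical
  obtain ⟨K, hK⟩ := st_mean r (show 0 < ε ^ 2 by positivity) (show 0 < e / 2 by positivity)
  refine ⟨2 * K + K * (s + 4), ?_⟩
  intro n N J _ _ I f hI hIN hN hf hu L l hlL hl d hd hS Ω₁ Ω₂ _ _ _ _ Y Z sh δ hδ hY hZ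
  set F : (Fin n → Bool) → ℂ := fun x => ∏ j, f j x with hF
  set p : ℝ := Pt.pd l s d with hp
  let V : Type := (Fin l → Bool) × Fin (2 ^ s)
  let ω : V → Bool := gom l s d
  have hpω : p = (univ.filter fun v => ω v = true).card / (Fintype.card V : ℝ) := gom_dens l s d
  have h1 : ∃ v, ω v = true := by
    obtain ⟨c, hc⟩ := hd
    exact ⟨(fun _ => true, c), by simp [ω, gom, hc]⟩
  have h0 : ∃ v, ω v = false := by
    refine ⟨(fun _ => false, ⟨0, by positivity⟩), ?_⟩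
    have : ¬ ∀ k : Fin l, (fun _ : Fin l => false) k = true := fun h => by
      simpa using h ⟨0, hl⟩
    simp only [ω, gom, Bool.and_eq_false_iff, decide_eq_false_iff_not]
    exact Or.inl this
  have hp0 : 0 ≤ p := by
    rw [hpω]; positivity
  have hp1 : p ≤ 1 := by
    rw [hpω]
    refine div_le_one_of_le₀ ?_ (by positivity)
    exact_mod_cast Finset.card_le_univ _
  -- the product over the pairs
  let F' : (Fin n → Bool × Bool) → ℂ := fun x => Pt.dr F (fun i => (x i).2) (fun i => (x i).1)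
  let g : J → (Fin n → Bool × V) → ℂ := fun j x =>
    Pt.dr (f j) (fun i => ω (x i).2) (fun i => (x i).1)
  have hg : ∀ x, ∏ j, g j x = F' fun i => ((x i).1, ω (x i).2) := by
    intro x
    simp only [g, F', F, Pt.dr, map_prod, Finset.prod_mul_distrib]
  have hgd : ∀ j, Dep (I j) (g j) := by
    intro j x y hxy
    simp only [g, Pt.dr]
    rw [hf j (fun i => (x i).1) (fun i => (y i).1) fun i hi => by rw [hxy i hi],
      hf j (xo (fun i => (x i).1) fun i => ω (x i).2) (xo (fun i => (y i).1) fun i => ω (y i).2)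
        fun i hi => by simp only [xo]; rw [hxy i hi]]
  have hgu : ∀ j x, ‖g j x‖ = 1 := by
    intro j x
    simp only [g, Pt.dr]
    rw [norm_mul, RCLike.norm_conj, hu, hu, one_mul]
  -- pulled back functions are constant on the fibres
  have hfib : fib ω (fun x : Fin n → Bool × V => ∏ j, g j x) = F' := by
    funext x
    have e1 := fib_close h0 h1 F' (fun x : Fin n → Bool × V => ∏ j, g j x) (fun _ => 0)
      (fun x => by rw [hg x, sub_self, norm_zero]) x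
    have e2 : fib ω (fun _ : Fin n → Bool × V => (((0 : ℝ)) : ℂ)) x = 0 := by
      unfold fib av
      simp
    rw [e2, Complex.zero_re] at e1
    exact (sub_eq_zero.mp (norm_le_zero_iff.mp e1)).symm
  have hav : (av fun x : Fin n → Bool × V => ∏ j, g j x) = ((Sf F p : ℝ) : ℂ) := by
    rw [← fib_avp h0 h1 hpω, hfib]
    exact Sf_avp F hp0 hp1
  have hS0 : 0 < Sf F p := hε.trans_le hS
  have hn1 : ‖av fun x : Fin n → Bool × V => ∏ j, g j x‖ = Sf F p := by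
    rw [hav, Complex.norm_real, Real.norm_of_nonneg hS0.le]
  obtain ⟨t, R, htR, hR, ht, hRs⟩ := hK (A := Bool × V) (f := g) hI hgd hgu
    (by rw [hn1]; exact pow_le_pow_left₀ hε.le hS 2)
  -- the mean of `t`
  have hmt : ‖av t‖ ≤ Sf F p + e / 2 := by
    have e1 : ‖(av fun x => ∏ j, g j x) - av t‖ ≤ e / 2 := by
      rw [← gb_av_sub]
      exact (gb_norm_av htR).trans hR
    have e2 : av t = (av fun x => ∏ j, g j x) - ((av fun x => ∏ j, g j x) - av t) := by ring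
    rw [e2]
    refine (norm_sub_le _ _).trans ?_
    rw [hn1]
    linarith
  -- the fibre averages
  have hbc := gb_bc (I := I) hN hIN
  have b1 := bias_pair hlL d hN hbc (fib_smp h0 h1 ht) Y Z sh hδ hY hZ
  have b2 := bias_pair hlL d hN hbc (fib_smp h0 h1 hRs) Y Z sh hδ hY hZ
  rw [← hp, fib_avp h0 h1 hpω] at b1 b2
  have hcl := fib_close h0 h1 F' t R (fun x => by rw [← hg x]; exact htR x)
  set X : Ω₂ → Ω₁ → Fin n → Bool × Bool := fun ω₂ ω₁ i =>
    (xo (Y ω₁) (sh ω₂) i, Pt.wd (eta (Z ω₂) l) (hsh (Z ω₂)) d i) with hX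
  have c1 : ‖(av fun ω₂ => av fun ω₁ => F' (X ω₂ ω₁)) -
      av fun ω₂ => av fun ω₁ => fib ω t (X ω₂ ω₁)‖ ≤
      (av fun ω₂ => av fun ω₁ => fib ω (fun x => ((R x : ℝ) : ℂ)) (X ω₂ ω₁)).re := by
    rw [← gb_av_sub, ← gb_avg_re]
    refine gb_norm_av fun ω₂ => ?_
    rw [← gb_av_sub, ← gb_avg_re]
    exact gb_norm_av fun ω₁ => hcl (X ω₂ ω₁)
  have c2 : (av fun ω₂ => av fun ω₁ => fib ω (fun x => ((R x : ℝ) : ℂ)) (X ω₂ ω₁)).re ≤
      e / 2 + δ * (K * ((n : ℝ) + 1) ^ K * (N : ℝ) ^ (K * (s + 4))) := by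
    have e1 := (Complex.abs_re_le_norm _).trans b2
    rw [gb_av_ofReal, Complex.sub_re, Complex.ofReal_re] at e1
    have e2 := (abs_le.mp e1).2
    linarith
  have c3 : ‖av fun ω₂ => av fun ω₁ => fib ω t (X ω₂ ω₁)‖ ≤
      Sf F p + e / 2 + δ * (K * ((n : ℝ) + 1) ^ K * (N : ℝ) ^ (K * (s + 4))) := by
    have e1 : (av fun ω₂ => av fun ω₁ => fib ω t (X ω₂ ω₁)) =
        ((av fun ω₂ => av fun ω₁ => fib ω t (X ω₂ ω₁)) - av t) + av t := by ring
    rw [e1]
    refine (norm_add_le _ _).trans ?_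
    linarith
  have c4 : (av fun ω₂ => av fun ω₁ => F' (X ω₂ ω₁)) = ((av fun ω₂ => av fun ω₁ => F' (X ω₂ ω₁)) -
      av fun ω₂ => av fun ω₁ => fib ω t (X ω₂ ω₁)) +
      av fun ω₂ => av fun ω₁ => fib ω t (X ω₂ ω₁) := by ring
  have c5 : (av fun ω₂ => av fun ω₁ => Pt.dr F (Pt.wd (eta (Z ω₂) l) (hsh (Z ω₂)) d)
      (xo (Y ω₁) (sh ω₂))) = av fun ω₂ => av fun ω₁ => F' (X ω₂ ω₁) := rfl
  rw [c5, c4]
  refine (norm_add_le _ _).trans ?_
  have c6 := gb_bd K s n N hN hδ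
  linarith

end Pool.Agent.MP_ca1109_lc.Ov
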