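import Pool.Agent.MP_ca1109_lc.Ov.CA
import Pool.Agent.MP_ca1109_lc.Ov.GA
import Pool.Agent.MP_ca1109_lc.Ov.GB
import Pool.Agent.MP_ca1109_lc.Ov.SS
import Pool.Agent.MP_ca1109_lc.Pt.MA
import Pool.Agent.MP_ca1109_lc.Pt.C2

/-!
# Overlapping blocks: the main assembly
-/

namespace Pool.Agent.MP_ca1109_lc.Ov

open Finset Pool.Agent.H66 Pool.Agent.MP_ca1109_lc.Mpg Pool.Agent.MP_ca1109_lc.Agp
  Pool.Agent.MP_ca1109_lc.Xp
open Pool.Agent.MP_ca1109_lc.Pt (bd pd wd dr pma_err pma_norm_av ph_const ph_level ph_unif)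

theorem gm_s {a : ℝ} (ha : 0 < a) : ∃ s : ℕ, (1 / 2 : ℝ) ^ (2 ^ s) ≤ a := by
  obtain ⟨m, hm⟩ := exists_pow_lt_of_lt_one ha (by norm_num : (1 / 2 : ℝ) < 1)
  refine ⟨m, le_trans ?_ hm.le⟩
  exact pow_le_pow_of_le_one (by norm_num) (by norm_num) (Nat.lt_two_pow_self).le

theorem gm_root {a b : ℝ} (_ : 0 ≤ a) (hb : 0 ≤ b) {k : ℕ} (hk : k ≠ 0) (h : a ^ k ≤ b ^ k) :
    a ≤ b := le_of_not_gt fun hlt => absurd (pow_lt_pow_left₀ hlt hb hk) (not_lt.2 h)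

theorem main_ov (r c : ℕ) {ε : ℝ} (hε : 0 < ε) : ∃ E G, NG E G ∧ ∃ n₀ : ℕ, ∀ n ≥ n₀,
    ∀ {J : Type} [Fintype J] [DecidableEq J] (I : J → Finset (Fin n))
      (f : J → (Fin n → Bool) → ℂ), Blo r I → (∀ j, 2 ^ (I j).card ≤ n ^ c) →
      (∀ j, Dep (I j) (f j)) → (∀ j x, ‖f j x‖ = 1) →
      ‖na (2 ^ E n) (fun p => ∏ j, f j (out G n p)) - av (fun x => ∏ j, f j x)‖ ≤ ε := by
  classical
  obtain ⟨s, hs⟩ := gm_s (show 0 < ε ^ 2 / 16 by positivity)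
  obtain ⟨ε₁, hε₁⟩ : ∃ ε₁ : ℝ, ε₁ = min (ε ^ 2 / 16) (1 / 4) := ⟨_, rfl⟩
  have hε₁0 : 0 < ε₁ := by rw [hε₁]; exact lt_min (by positivity) (by norm_num)
  have hε₁1 : ε₁ ≤ ε ^ 2 / 16 := by rw [hε₁]; exact min_le_left _ _
  have hε₁2 : ε₁ ≤ 1 / 4 := by rw [hε₁]; exact min_le_right _ _
  obtain ⟨ε₃, hε₃⟩ : ∃ ε₃ : ℝ, ε₃ = ε₁ ^ (2 * (2 * 2 ^ s)) := ⟨_, rfl⟩
  have hT1 : 1 ≤ 2 ^ s := Nat.one_le_two_pow
  have hε₃0 : 0 < ε₃ := by rw [hε₃]; positivity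
  have hε₃1 : ε₃ ≤ ε₁ := by
    rw [hε₃]
    exact pow_le_of_le_one hε₁0.le (by linarith) (by omega)
  have hε₃2 : ε₃ ≤ Real.exp (-4) := by
    have h1 : ε₁ ≤ Real.exp (-1) := by
      refine hε₁2.trans ?_
      rw [Real.exp_neg, one_div]
      refine inv_anti₀ (Real.exp_pos _) ?_
      have := Real.exp_one_lt_d9
      linarith
    have h2 : ε₃ ≤ ε₁ ^ 4 := by
      rw [hε₃]
      exact pow_le_pow_of_le_one hε₁0.le (by linarith) (by omega)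
    refine h2.trans ((pow_le_pow_left₀ hε₁0.le h1 4).trans (le_of_eq ?_))
    rw [← Real.exp_nat_mul]
    norm_num
  obtain ⟨K₁, h1⟩ := case1 r hε₃0 (show 0 < ε / 4 by positivity)
  obtain ⟨K₂, h2⟩ := case2 r s hε₃0 (show 0 < ε ^ 2 / 16 by positivity)
  obtain ⟨K', hK'⟩ : ∃ K' : ℕ, K' = K₁ + K₂ := ⟨_, rfl⟩
  obtain ⟨K, hK⟩ : ∃ K : ℕ, K = (c + 1) * K' + 1 := ⟨_, rfl⟩
  obtain ⟨E, G, hG, hgen⟩ := Pt.xgenZ s K
  obtain ⟨n₀, hn₀⟩ := exists_nat_gt ((K' : ℝ) / (ε ^ 2 / 16) + (K' : ℝ) / (ε / 4))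
  refine ⟨E, G, hG, max n₀ 1, fun n hn J _ _ I f hI hc hf hf1 => ?_⟩
  have hn1 : 1 ≤ n := (le_max_right _ _).trans hn
  have hnn : (n₀ : ℝ) ≤ n := by exact_mod_cast (le_max_left _ _).trans hn
  have hn0 : (0 : ℝ) ≤ n := Nat.cast_nonneg n
  have hN1 : 1 ≤ n ^ c := Nat.one_le_iff_ne_zero.2 (pow_ne_zero _ (by omega))
  have hK'0 : (0 : ℝ) ≤ K' := Nat.cast_nonneg _
  have g1 : (0 : ℝ) ≤ (K' : ℝ) / (ε ^ 2 / 16) := by positivity
  have g2 : (0 : ℝ) ≤ (K' : ℝ) / (ε / 4) := by positivity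
  obtain ⟨δ, hδ⟩ : ∃ δ : ℝ, δ = 1 / ((n : ℝ) + 1) ^ K := ⟨_, rfl⟩
  have hδ0 : 0 ≤ δ := by rw [hδ]; positivity
  have herr : ∀ K'' : ℕ, K'' ≤ K' → δ * bd K'' n (n ^ c) ≤ K' / ((n : ℝ) + 1) := by
    intro K'' h
    have e1 : (c + 1) * K'' + 1 ≤ K := by
      rw [hK]
      exact Nat.add_le_add_right (Nat.mul_le_mul_left _ h) 1
    rw [hδ]
    refine (pma_err n c K'' K e1).trans ?_
    refine div_le_div_of_nonneg_right ?_ (by linarith)
    exact_mod_cast h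
  have hs1 : (K' : ℝ) / ((n : ℝ) + 1) ≤ ε ^ 2 / 16 := by
    have e1 : (K' : ℝ) / (ε ^ 2 / 16) ≤ (n : ℝ) + 1 := by linarith
    rw [div_le_iff₀ (by positivity)] at e1
    rw [div_le_iff₀ (by linarith)]
    linarith
  have hs2 : (K' : ℝ) / ((n : ℝ) + 1) ≤ ε / 4 := by
    have e1 : (K' : ℝ) / (ε / 4) ≤ (n : ℝ) + 1 := by linarith
    rw [div_le_iff₀ (by positivity)] at e1
    rw [div_le_iff₀ (by linarith)]
    linarith
  have hsq : ∀ a : ℝ, 0 ≤ a → a ^ 2 ≤ ε ^ 2 / 4 → a ≤ ε / 2 := by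
    intro a _ h
    exact le_of_not_gt fun hlt => by nlinarith
  obtain ⟨F, hF⟩ : ∃ F : (Fin n → Bool) → ℂ, F = fun x => ∏ j, f j x := ⟨_, rfl⟩
  have hF1 : ∀ x, ‖F x‖ = 1 := by
    intro x
    rw [hF]
    show ‖∏ j, f j x‖ = 1
    rw [norm_prod]
    exact Finset.prod_eq_one fun j _ => hf1 j x
  obtain ⟨M₁, M₂, hM₁, hM₂, Y, Z, hY, hZ, hout⟩ := hgen n
  have : Nonempty (Fin M₁) := ⟨⟨0, hM₁⟩⟩
  have : Nonempty (Fin M₂) := ⟨⟨0, hM₂⟩⟩
  rw [← hδ] at hY hZ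
  have hU : Bias δ (fun x : Dnf.Cube n => x) := Bias.mono Bias.unif hδ0
  have hout' : na (2 ^ E n) (fun p => ∏ j, f j (out G n p)) =
      Pt.Ph Y (fun l : Fin (Nat.clog 2 n + 1) => fun ω₂ => eta (Z ω₂) (l : ℕ))
        (fun ω₂ => hsh (Z ω₂)) F := by
    have h3 := hout F
    rw [hF] at h3 ⊢
    unfold Pt.Ph
    exact h3
  have hgoal : (av fun x : Fin n → Bool => ∏ j, f j x) = av F := by rw [hF]
  rw [hout', hgoal]
  rcases le_or_gt ε₃ (Sf F (1 / 4)) with hA | hA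
  · -- noise stability
    refine ph_const Y _ _ fun t => ?_
    rw [hF] at hA ⊢
    have := h1 hI hc hN1 hf hf1 hA (fun ω => xo (Y ω) t) δ hδ0 (hY.xo t)
    have := herr K₁ (by omega)
    linarith
  · -- the main case
    obtain ⟨l, hl3, hl, hl1, hl2⟩ := Sf_level hF1 hε₃2 hA
    have hlt : l < Nat.clog 2 n + 1 := by omega
    have hT : (0 : ℝ) < 2 ^ s := by positivity
    -- the noise stability at the densities `pd l s d`
    have hpow : ((1 / 2 : ℝ)) ^ l ≤ (1 / 2) ^ 3 := pow_le_pow_of_le_one (by norm_num) (by norm_num) hl3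
    have hlow : ∀ d : Fin (2 ^ s) → Bool, ε₃ ≤ Sf F (pd l s d) := fun d =>
      hl1.trans (Sf_mono F (Pt.C2.pd_nonneg d) (Pt.C2.pd_le d) (by norm_num at hpow ⊢; linarith))
    have hupp : ∀ d : Fin (2 ^ s) → Bool, d ≠ (fun _ => false) → Sf F (pd l s d) ≤ ε₁ := by
      intro d hd
      have hq : (1 / 2 : ℝ) ^ (l - 1) ≤ 1 / 4 := by
        have : (1 / 2 : ℝ) ^ (l - 1) ≤ (1 / 2) ^ 2 :=
          pow_le_pow_of_le_one (by norm_num) (by norm_num) (by omega)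
        norm_num at this ⊢
        linarith
      have hk : 1 ≤ 2 * 2 ^ s := by omega
      have h3 := Sf_pow hF1 (p := (1 / 2 : ℝ) ^ (l - 1)) (by positivity) hq hk
      have e1 : (1 / 2 : ℝ) ^ (l - 1) / ((2 * 2 ^ s : ℕ) : ℝ) = (1 / 2) ^ s * (1 / 2) ^ l := by
        obtain ⟨m, rfl⟩ : ∃ m, l = m + 1 := ⟨l - 1, by omega⟩
        rw [Nat.add_sub_cancel]
        push_cast
        rw [pow_succ (1 / 2 : ℝ) m, one_div, inv_pow, inv_pow]
        field_simp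
      rw [e1] at h3
      have h4 := h3.trans (hl2.le.trans (le_of_eq hε₃))
      have hnn : 0 ≤ Sf F ((1 / 2) ^ s * (1 / 2) ^ l) := by
        have h5 : (1 / 2 : ℝ) ^ s * (1 / 2) ^ l ≤ 1 / 2 := by
          have : (1 / 2 : ℝ) ^ s ≤ 1 := pow_le_one₀ (by norm_num) (by norm_num)
          have h6 : (0 : ℝ) ≤ (1 / 2) ^ l := by positivity
          nlinarith
        unfold Sf
        exact sum_nonneg fun S _ => mul_nonneg (by positivity) (pow_nonneg (by linarith) _)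
      have h5 := gm_root hnn hε₁0.le (by omega) h4
      rw [mul_comm] at h5
      refine (Sf_mono F (by positivity) (Pt.C2.pd_ge hd) ?_).trans h5
      have := Pt.C2.pd_le (l := l) d
      norm_num at hpow ⊢
      linarith
    have e1 : ∀ {Ω : Type} [Fintype Ω] [Nonempty Ω] (X : Ω → Dnf.Cube n), Bias δ X →
        ‖Pt.Ph X (fun l : Fin (Nat.clog 2 n + 1) => fun ω₂ => eta (Z ω₂) (l : ℕ))
          (fun ω₂ => hsh (Z ω₂)) F‖ ≤ ε / 2 := by
      intro Ω _ _ X hX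
      rw [ph_level X _ _ ⟨l, hlt⟩]
      refine pma_norm_av fun v => hsq _ (norm_nonneg _) ?_
      refine (cs_out F X (fun ω₂ => eta (Z ω₂) l) (fun ω₂ => hsh (Z ω₂))
        (fun ω₂ => gx (fun _ => false) (fun l => eta (Z ω₂) (l : ℕ)) (hsh (Z ω₂))
          (Function.update v ⟨l, hlt⟩ fun _ => false))).trans ?_
      refine (Pt.C2.avg_d _ (A := ε₁ + ε ^ 2 / 16 + ε ^ 2 / 16) ?_ (by positivity)
        fun d hd => ?_).trans ?_
      · refine avg_le fun u => pma_norm_av fun ω₂ => pma_norm_av fun ω₁ => ?_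
        unfold Pt.dr
        rw [norm_mul, RCLike.norm_conj, hF1, hF1, mul_one]
      · refine avg_le fun u => ?_
        have hd' : ∃ c, d c = true := by
          by_contra hcon
          refine hd (funext fun c => ?_)
          by_contra h
          exact hcon ⟨c, by simpa using h⟩
        have h3 := h2 hI hc hN1 hf hf1 (L := Nat.clog 2 n + 1) (l := l) (by omega) (by omega) d hd'
          (by rw [← hF]; exact hlow d) X Z
          (fun ω₂ => xo (gx (fun _ => false) (fun l => eta (Z ω₂) (l : ℕ)) (hsh (Z ω₂))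
            (Function.update v ⟨l, hlt⟩ fun _ => false)) (wd (eta (Z ω₂) l) (hsh (Z ω₂)) u))
          δ hδ0 hX hZ
        rw [← hF] at h3
        have := herr K₂ (by omega)
        have := hupp d hd
        refine h3.trans ?_
        linarith
      · linarith
    have e2 := e1 Y hY
    have e3 : ‖av F‖ ≤ ε / 2 := by
      refine hsq _ (norm_nonneg _) ?_
      rw [← Sf_half]
      have := Sf_mono F (p := 1 / 4) (q := 1 / 2) (by norm_num) (by norm_num) le_rfl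
      nlinarith
    exact (norm_sub_le _ _).trans (by linarith)

end Pool.Agent.MP_ca1109_lc.Ov
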