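import Pool.Agent.MP_ca1109_lc.Ov.PC9

/-!
# The product test near the best product: the bound
-/

namespace Pool.Agent.MP_ca1109_lc.OvP

open Finset Pool.Agent.MP_ca1109_lc.Mpg Pool.Agent.MP_ca1109_lc.Agp

variable {ι κ : Type*} {α : ι → Type*} [Fintype ι] [DecidableEq ι] [∀ i, Fintype (α i)]
  [∀ i, Nonempty (α i)] [Fintype κ] [DecidableEq κ]

/-- Near the best product the defect of the test is at least a quarter of the distance. -/
theorem small (cell : ι → κ) (f : (∀ i, α i) → ℂ) (hf : nn f = 1) (a : κ → (∀ i, α i) → ℂ)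
    (ha : Pr cell a)
    (hmax : ∀ a', Pr cell a' → ‖ip f (fun x => ∏ k, a' k x)‖ ≤ ‖ip f (fun x => ∏ k, a k x)‖)
    (hd : 1 - ‖ip f (fun x => ∏ k, a k x)‖ ^ 2 ≤ 1 / 64) :
    (1 - ‖ip f (fun x => ∏ k, a k x)‖ ^ 2) / 4 ≤ Qd cell f := by
  set g : (∀ i, α i) → ℂ := fun x => ∏ k, a k x with hg
  set z : ℂ := ip f g with hz
  set w : (∀ i, α i) → ℂ := fun x => f x - z * g x with hw
  have hgn : nn g = 1 := nn_Pr ha
  have hz1 : ‖z‖ ≤ 1 := by
    have := norm_ip_le f g
    rw [hf, hgn] at this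
    simpa using this
  have hwn : nn w = 1 - ‖z‖ ^ 2 := by
    have h5 := nn_sub f (fun x => z * g x)
    have h6 : nn (fun x => z * g x) = ‖z‖ ^ 2 := by
      have : nn (fun x => z * g x) = ‖z‖ ^ 2 * nn g := by
        simp only [nn_eq, norm_mul, mul_pow]
        exact avg_mul_left _ _
      rw [this, hgn, mul_one]
    have h7 : ip f (fun x => z * g x) = ((‖z‖ ^ 2 : ℝ) : ℂ) := by
      have : ip f (fun x => z * g x) = (starRingEnd ℂ) z * ip f g := by
        unfold ip
        rw [← av_cmul]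
        congr 1
        funext x
        rw [map_mul]
        ring
      rw [this, ← hz, mul_comm, Complex.mul_conj, Complex.normSq_eq_norm_sq]
    rw [h6, h7, Complex.ofReal_re, hf] at h5
    rw [hw, h5]
    ring
  have hwg : ip w g = 0 := by
    have : ip w g = ip f g - z * ip g g := by
      unfold ip
      rw [← av_cmul, ← av_sub]
      congr 1
      funext x
      simp only [hw]
      ring
    rw [this, ip_self, hgn, ← hz]
    simp
  -- the quarter
  have hq : 4 * (avg fun A : Finset κ => nn (pA cell a A w)) ≤ nn w := by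
    refine four_sum ha w ?_ fun e => max_zero ha hmax e
    rw [pA_nn ha]
    have h1 : qA cell a univ w = fun _ => 0 := by
      funext x
      have h2 : ∀ y : ∀ i, α i, mx cell univ y x = y := fun y => mx_univ cell y x
      unfold qA
      simp only [h2]
      rw [← hwg]
      unfold ip
      congr 1
      funext y
      rw [mul_comm]
    rw [h1, nn_eq]
    simp [avg_const]
  set X : ℝ := avg fun A : Finset κ => nn (pA cell a A w) with hX
  have hX' : (avg fun A : Finset κ => nn (pA cell a Aᶜ w)) = X :=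
    avg_equiv (Equiv.ofBijective (fun A : Finset κ => Aᶜ) compl_bijective)
      (fun A => nn (pA cell a A w))
  -- the expansion for one cut
  have hfe : f = fun x => z * g x + w x := by
    funext x
    simp only [hw]
    ring
  set s : ℝ := √(nn w) with hs
  have s0 : 0 ≤ s := Real.sqrt_nonneg _
  have s2 : s ^ 2 = nn w := Real.sq_sqrt (nn_nonneg w)
  have hcut : ∀ A : Finset κ, (bt cell A f).re ≤
      ‖z‖ ^ 4 + ‖z‖ ^ 2 * (2 * nn (pA cell a Aᶜ w) + 2 * nn (pA cell a A w)) +
        4 * (‖z‖ * s ^ 3) + s ^ 4 := by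
    intro A
    have e0 : bt cell A f = T4 cell A (fun x => z * g x + w x) (fun x => z * g x + w x)
        (fun x => z * g x + w x) (fun x => z * g x + w x) := by
      rw [bt_eq, ← hfe]
    have k1 : T4 cell A g g g g = 1 := by
      rw [T4_gg ha, ← hg, ip_self, hgn]
      simp
    have k2 : T4 cell A w g g g = 0 := by
      rw [T4_gg ha, ← hg, hwg, zero_mul]
    have k3 : T4 cell A g w g g = 0 := by
      rw [T4_gg ha, ← hg, hwg, mul_zero]
    have k4 : T4 cell A w w g g = 0 := by
      rw [T4_gg ha, ← hg, hwg, mul_zero]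
    have k5 : T4 cell A g g w g = 0 := by
      rw [T4_gg' ha, ← hg, hwg, zero_mul, map_zero]
    have k6 : T4 cell A g g g w = 0 := by
      rw [T4_gg' ha, ← hg, hwg, mul_zero, map_zero]
    have k7 : T4 cell A g g w w = 0 := by
      rw [T4_gg' ha, ← hg, hwg, mul_zero, map_zero]
    have k8 : T4 cell A g w g w = (nn (pA cell a Aᶜ w) : ℂ) := T4_gw ha A w
    have k9 : T4 cell A w g w g = (nn (pA cell a Aᶜ w) : ℂ) := by
      rw [T4_symm, k8]
    have k10 : T4 cell A g w w g = (nn (pA cell a A w) : ℂ) := by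
      rw [← T4_compl, T4_gw ha Aᶜ w, compl_compl]
    have k11 : T4 cell A w g g w = (nn (pA cell a A w) : ℂ) := by
      rw [T4_symm, k10]
    have ww : ‖T4 cell A w w w w‖ ≤ s ^ 4 := by
      have := norm_T4_le cell A w w w w
      rw [Real.sqrt_mul (nn_nonneg w), ← hs] at this
      calc _ ≤ s * s * (s * s) := this
        _ = s ^ 4 := by ring
    have b1 : ‖T4 cell A w w g w‖ ≤ s ^ 3 := by
      have := norm_T4_le cell A w w g w
      rw [hgn, one_mul, Real.sqrt_mul (nn_nonneg w), ← hs] at this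
      calc _ ≤ s * s * s := this
        _ = s ^ 3 := by ring
    have b2 : ‖T4 cell A w w w g‖ ≤ s ^ 3 := by
      have := norm_T4_le cell A w w w g
      rw [hgn, mul_one, Real.sqrt_mul (nn_nonneg w), ← hs] at this
      calc _ ≤ s * s * s := this
        _ = s ^ 3 := by ring
    have b3 : ‖T4 cell A g w w w‖ ≤ s ^ 3 := by
      have := norm_T4_le cell A g w w w
      rw [hgn, one_mul, Real.sqrt_mul (nn_nonneg w), ← hs] at this
      calc _ ≤ s * (s * s) := this
        _ = s ^ 3 := by ring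
    have b4 : ‖T4 cell A w g w w‖ ≤ s ^ 3 := by
      have := norm_T4_le cell A w g w w
      rw [hgn, mul_one, Real.sqrt_mul (nn_nonneg w), ← hs] at this
      calc _ ≤ s * (s * s) := this
        _ = s ^ 3 := by ring
    have e1 : bt cell A f = ((‖z‖ ^ 4 + ‖z‖ ^ 2 * (2 * nn (pA cell a Aᶜ w) +
        2 * nn (pA cell a A w)) : ℝ) : ℂ) +
        ((starRingEnd ℂ) z * T4 cell A w w g w + (starRingEnd ℂ) z * T4 cell A w w w g +
          z * T4 cell A g w w w + z * T4 cell A w g w w) + T4 cell A w w w w := by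
      have hzz : (starRingEnd ℂ) z * z = ((‖z‖ ^ 2 : ℝ) : ℂ) := by
        rw [mul_comm, Complex.mul_conj, Complex.normSq_eq_norm_sq]
      have hz4 : ((‖z‖ ^ 4 + ‖z‖ ^ 2 * (2 * nn (pA cell a Aᶜ w) +
          2 * nn (pA cell a A w)) : ℝ) : ℂ) = ((starRingEnd ℂ) z * z) * ((starRingEnd ℂ) z * z) +
          ((starRingEnd ℂ) z * z) * (2 * nn (pA cell a Aᶜ w) + 2 * nn (pA cell a A w)) := by
        rw [hzz]
        push_cast
        ring
      rw [e0, hz4]
      simp only [T4_lin1, T4_lin2, T4_lin3, T4_lin4]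
      rw [k1, k2, k3, k4, k5, k6, k7, k8, k9, k10, k11]
      ring
    rw [e1, Complex.add_re, Complex.add_re, Complex.ofReal_re]
    have c1 : ((starRingEnd ℂ) z * T4 cell A w w g w + (starRingEnd ℂ) z * T4 cell A w w w g +
          z * T4 cell A g w w w + z * T4 cell A w g w w).re ≤ 4 * (‖z‖ * s ^ 3) := by
      refine (Complex.re_le_norm _).trans ?_
      have n1 : ‖(starRingEnd ℂ) z * T4 cell A w w g w‖ ≤ ‖z‖ * s ^ 3 := by
        rw [norm_mul, Complex.norm_conj]
        exact mul_le_mul_of_nonneg_left b1 (norm_nonneg _)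
      have n2 : ‖(starRingEnd ℂ) z * T4 cell A w w w g‖ ≤ ‖z‖ * s ^ 3 := by
        rw [norm_mul, Complex.norm_conj]
        exact mul_le_mul_of_nonneg_left b2 (norm_nonneg _)
      have n3 : ‖z * T4 cell A g w w w‖ ≤ ‖z‖ * s ^ 3 := by
        rw [norm_mul]
        exact mul_le_mul_of_nonneg_left b3 (norm_nonneg _)
      have n4 : ‖z * T4 cell A w g w w‖ ≤ ‖z‖ * s ^ 3 := by
        rw [norm_mul]
        exact mul_le_mul_of_nonneg_left b4 (norm_nonneg _)
      refine (norm_add_le _ _).trans ?_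
      refine (add_le_add (norm_add_le _ _) le_rfl).trans ?_
      refine (add_le_add (add_le_add (norm_add_le _ _) le_rfl) le_rfl).trans ?_
      linarith
    have c2 := (Complex.re_le_norm (T4 cell A w w w w)).trans ww
    linarith
  have hP : Pc cell f ≤ ‖z‖ ^ 4 + ‖z‖ ^ 2 * (4 * X) + 4 * (‖z‖ * s ^ 3) + s ^ 4 := by
    have h3 : Pc cell f = avg fun A : Finset κ => (bt cell A f).re := by
      rw [← av_re, ← Pc_eq, Complex.ofReal_re]
    rw [h3]
    refine (avg_mono hcut).trans (le_of_eq ?_)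
    rw [avg_add, avg_add, avg_add, avg_const, avg_const, avg_const, avg_mul_left, avg_add,
      avg_mul_left, avg_mul_left, hX', ← hX]
    ring
  rw [Qd_eq]
  set d : ℝ := 1 - ‖z‖ ^ 2 with hdd
  have hwd : nn w = d := hwn
  rw [hwd] at s2 hq
  have hs8 : s ≤ 1 / 8 := by
    refine le_of_not_gt fun hc => ?_
    nlinarith
  have hd0 : 0 ≤ d := by
    rw [← s2]; positivity
  have hz2 : ‖z‖ ^ 2 = 1 - d := by
    rw [hdd]; ring
  have hz4 : ‖z‖ ^ 4 = (1 - d) ^ 2 := by
    rw [← hz2]; ring
  have t1 : ‖z‖ ^ 2 * (4 * X) ≤ (1 - d) * d := by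
    rw [hz2]
    exact mul_le_mul_of_nonneg_left hq (by linarith)
  have t2 : 4 * (‖z‖ * s ^ 3) ≤ d / 2 := by
    have q1 : s ^ 3 = d * s := by
      rw [← s2]; ring
    have q2 : d * s ≤ d * (1 / 8) := mul_le_mul_of_nonneg_left hs8 hd0
    have q3 : ‖z‖ * s ^ 3 ≤ 1 * s ^ 3 := mul_le_mul_of_nonneg_right hz1 (by positivity)
    linarith
  have t3 : s ^ 4 = d ^ 2 := by
    rw [← s2]; ring
  have t4 : d ^ 2 ≤ d / 64 := by
    nlinarith
  rw [hz4, t3] at hP
  nlinarith

end Pool.Agent.MP_ca1109_lc.OvP
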