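import Pool.Agent.MP_ca1109_lc.Ov.PC6
import Pool.Agent.MP_ca1109_lc.Ov.PCS

/-!
# The product test: induction over the cells and rounding
-/

namespace Pool.Agent.MP_ca1109_lc.OvP

open Finset Pool.Agent.MP_ca1109_lc.Mpg Pool.Agent.MP_ca1109_lc.Agp

variable {ι κ : Type*} {α : ι → Type*} [DecidableEq κ] [Fintype ι] [DecidableEq ι]
  [∀ i, Fintype (α i)] [Fintype κ] [∀ i, Nonempty (α i)]

theorem Pc_le_one (cell : ι → κ) {f : (∀ i, α i) → ℂ} (hf : nn f = 1) : Pc cell f ≤ 1 := by
  have h3 : Pc cell f = avg fun A : Finset κ => (bt cell A f).re := by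
    rw [← av_re, ← Pc_eq, Complex.ofReal_re]
  rw [h3]
  exact (avg_mono fun A => (Complex.re_le_norm _).trans (norm_bt_le cell A hf)).trans_eq
    (avg_const 1)

theorem Qd_nonneg (cell : ι → κ) {f : (∀ i, α i) → ℂ} (hf : nn f = 1) : 0 ≤ Qd cell f := by
  rw [Qd_eq]
  have := Pc_le_one cell hf
  linarith

/-- The cells off `s` are merged with `r`. -/
def cs (cell : ι → κ) (r : κ) (s : Finset κ) : ι → κ := fun i => if cell i ∈ s then cell i else r

theorem pt_induction (cell : ι → κ) (r : κ) {f : (∀ i, α i) → ℂ} (hf : nn f = 1)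
    (s : Finset κ) : Qd (cs cell r s) f < 1 / 2 ^ 25 → ∃ a, Pr (cs cell r s) a ∧
      1 - ‖ip f (fun x => ∏ k, a k x)‖ ^ 2 ≤ 4 * Qd (cs cell r s) f := by
  induction s using Finset.induction_on with
  | empty =>
    intro _
    refine ⟨fun k => if k = r then f else fun _ => 1, fun k => ?_, ?_⟩
    · by_cases hk : k = r
      · subst hk
        beta_reduce
        rw [if_pos rfl]
        refine ⟨fun x y hxy => ?_, hf⟩
        have : x = y := by
          funext i
          refine hxy i ?_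
          simp [cs]
        rw [this]
      · beta_reduce
        rw [if_neg hk]
        refine ⟨fun _ _ _ => rfl, ?_⟩
        rw [nn_eq]
        simp [avg_const]
    · have h1 : (fun x : ∀ i, α i => ∏ k, (if k = r then f else fun _ => 1) x) = f := by
        funext x
        have h2 : ∀ k, (if k = r then f else fun _ => (1 : ℂ)) x = if k = r then f x else 1 := by
          intro k
          split_ifs <;> rfl
        simp only [h2]
        rw [Finset.prod_ite_eq' univ r, if_pos (Finset.mem_univ r)]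
      rw [h1, ip_self, hf]
      have := Qd_nonneg (cs cell r ∅) hf
      simpa using this
  | insert e s he ih =>
    intro hQ
    by_cases her : e = r
    · subst her
      have h1 : cs cell e (insert e s) = cs cell e s := by
        funext i
        unfold cs
        by_cases h : cell i = e
        · simp [h]
        · simp [h]
      rw [h1] at hQ ⊢
      exact ih hQ
    · have h1 : mg (cs cell r (insert e s)) e r = cs cell r s := by
        funext i
        unfold mg cs
        by_cases h : cell i = e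
        · simp [h, he]
        · by_cases h2 : cell i ∈ s
          · simp [h, h2]
          · simp [h, h2]
      have h2 : Qd (cs cell r s) f ≤ Qd (cs cell r (insert e s)) f := by
        rw [Qd_eq, Qd_eq, ← h1]
        have := Pc_mono (cs cell r (insert e s)) e r f
        linarith
      obtain ⟨a, ha, hb⟩ := ih (lt_of_le_of_lt h2 hQ)
      obtain ⟨a', ha', hm⟩ := exists_max (cs cell r (insert e s)) f
      refine ⟨a', ha', ?_⟩
      by_cases hd : 1 - ‖ip f (fun x => ∏ k, a' k x)‖ ^ 2 ≤ 1 / 64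
      · have := small (cs cell r (insert e s)) f hf a' ha' hm hd
        linarith
      · exfalso
        rw [← h1] at ha
        have h3 := jump her hf ha (by
          have : Qd (cs cell r s) f < 1 / 2 ^ 25 := lt_of_le_of_lt h2 hQ
          refine hb.trans ?_
          have e1 : (4 : ℝ) * (1 / 2 ^ 25) = 1 / 2 ^ 23 := by norm_num
          linarith) (fun b hb' => by
            have h4 := hm b hb'
            have h5 := pow_le_pow_left₀ (norm_nonneg _) h4 2
            push Not at hd
            linarith)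
        rw [Qd_eq] at hQ
        have : (1 : ℝ) / 2 ^ 25 ≤ 1 / 1024 := by norm_num
        linarith

/-- Rounding to unimodular functions. -/
theorem rounding (cell : ι → κ) {f : (∀ i, α i) → ℂ} (hf : ∀ x, ‖f x‖ = 1)
    {a : κ → (∀ i, α i) → ℂ} (ha : Pr cell a) :
    ∃ (u : κ → (∀ i, α i) → ℂ) (c : ℂ), ‖c‖ = 1 ∧ (∀ k x, ‖u k x‖ = 1) ∧
      (∀ k, Dep cell {k} (u k)) ∧
      (avg fun x => ‖f x - c * ∏ k, u k x‖ ^ 2) ≤
        8 * (1 - ‖ip f (fun x => ∏ k, a k x)‖ ^ 2) := by
  have hfn : nn f = 1 := by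
    rw [nn_eq]
    simp [hf, avg_const]
  set g : (∀ i, α i) → ℂ := fun x => ∏ k, a k x with hg
  have hgn : nn g = 1 := nn_Pr ha
  set z : ℂ := ip f g with hz
  have hz1 : ‖z‖ ≤ 1 := by
    have := norm_ip_le f g
    rw [hfn, hgn] at this
    simpa using this
  obtain ⟨c, hc, hcz⟩ : ∃ c : ℂ, ‖c‖ = 1 ∧ (starRingEnd ℂ) c * z = (‖z‖ : ℂ) := by
    by_cases h0 : z = 0
    · exact ⟨1, norm_one, by simp [h0]⟩
    · have hz0 : 0 < ‖z‖ := norm_pos_iff.mpr h0
      refine ⟨z / ‖z‖, ?_, ?_⟩
      · rw [norm_div, Complex.norm_real, norm_norm, div_self hz0.ne']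
      · rw [map_div₀, Complex.conj_ofReal, div_mul_eq_mul_div, mul_comm, Complex.mul_conj,
          Complex.normSq_eq_norm_sq, Complex.ofReal_pow, sq, mul_div_assoc, div_self, mul_one]
        exact_mod_cast hz0.ne'
  let u : κ → (∀ i, α i) → ℂ := fun k x => if a k x = 0 then 1 else a k x / ‖a k x‖
  have hu1 : ∀ k x, ‖u k x‖ = 1 := by
    intro k x
    simp only [u]
    split_ifs with h
    · exact norm_one
    · have h0 : 0 < ‖a k x‖ := norm_pos_iff.mpr h
      rw [norm_div, Complex.norm_real, norm_norm, div_self h0.ne']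
  have hu2 : ∀ k x, a k x = ‖a k x‖ * u k x := by
    intro k x
    simp only [u]
    split_ifs with h
    · simp [h]
    · have h0 : (‖a k x‖ : ℂ) ≠ 0 := by
        exact_mod_cast (norm_pos_iff.mpr h).ne'
      field_simp
  have hgu : ∀ x, g x = ‖g x‖ * ∏ k, u k x := by
    intro x
    have e1 : g x = (∏ k, (‖a k x‖ : ℂ)) * ∏ k, u k x := by
      rw [hg, ← Finset.prod_mul_distrib]
      exact Finset.prod_congr rfl fun k _ => hu2 k x
    have e2 : ‖g x‖ = ∏ k, ‖a k x‖ := by
      rw [hg]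
      exact norm_prod _ _
    rw [e2, Complex.ofReal_prod]
    exact e1
  have hU : ∀ x, ‖∏ k, u k x‖ = 1 := by
    intro x
    rw [norm_prod]
    exact Finset.prod_eq_one fun k _ => hu1 k x
  refine ⟨u, c, hc, hu1, fun k x y hxy => ?_, ?_⟩
  · have := (ha k).1 x y hxy
    simp only [u, this]
  · have h1 : ∀ x, ‖f x - c * ∏ k, u k x‖ ^ 2 ≤ 4 * ‖f x - c * g x‖ ^ 2 := by
      intro x
      have e1 : ‖g x - ∏ k, u k x‖ ≤ ‖f x - c * g x‖ := by
        have e2 : g x - ∏ k, u k x = ((‖g x‖ - 1 : ℝ) : ℂ) * ∏ k, u k x := by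
          rw [Complex.ofReal_sub, Complex.ofReal_one, sub_mul, one_mul, ← hgu x]
        rw [e2, norm_mul, hU x, mul_one, Complex.norm_real, Real.norm_eq_abs]
        have e3 : ‖g x‖ = ‖c * g x‖ := by rw [norm_mul, hc, one_mul]
        rw [e3, ← hf x, abs_sub_comm]
        exact abs_norm_sub_norm_le _ _
      have e4 : ‖f x - c * ∏ k, u k x‖ ≤ 2 * ‖f x - c * g x‖ := by
        have e5 : f x - c * ∏ k, u k x = (f x - c * g x) + c * (g x - ∏ k, u k x) := by ring
        rw [e5]
        refine (norm_add_le _ _).trans ?_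
        rw [norm_mul, hc, one_mul]
        linarith
      calc ‖f x - c * ∏ k, u k x‖ ^ 2 ≤ (2 * ‖f x - c * g x‖) ^ 2 :=
            pow_le_pow_left₀ (norm_nonneg _) e4 2
        _ = 4 * ‖f x - c * g x‖ ^ 2 := by ring
    refine (avg_mono h1).trans ?_
    rw [avg_mul_left]
    have h2 : (avg fun x => ‖f x - c * g x‖ ^ 2) = 2 - 2 * ‖z‖ := by
      have e1 := nn_sub f (fun x => c * g x)
      have e2 : nn (fun x => c * g x) = 1 := by
        rw [← hgn]
        simp only [nn_eq, norm_mul, hc, one_mul]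
      have e3 : ip f (fun x => c * g x) = (‖z‖ : ℂ) := by
        rw [← hcz, hz]
        unfold ip
        rw [← av_cmul]
        congr 1
        funext x
        rw [map_mul]
        ring
      rw [e2, e3, hfn, Complex.ofReal_re] at e1
      have e4 : (avg fun x => ‖f x - c * g x‖ ^ 2) = nn (fun x => f x - c * g x) := rfl
      rw [e4, e1]
      ring
    rw [h2]
    nlinarith [norm_nonneg z]

/-- The product test. -/
theorem ptest (cell : ι → κ) (r : κ) {f : (∀ i, α i) → ℂ} (hf : ∀ x, ‖f x‖ = 1) :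
    ∃ (u : κ → (∀ i, α i) → ℂ) (c : ℂ), ‖c‖ = 1 ∧ (∀ k x, ‖u k x‖ = 1) ∧
      (∀ k, Dep cell {k} (u k)) ∧
      (avg fun x => ‖f x - c * ∏ k, u k x‖ ^ 2) ≤ 2 ^ 27 * Qd cell f := by
  have hfn : nn f = 1 := by
    rw [nn_eq]
    simp [hf, avg_const]
  have hcs : cs cell r univ = cell := by
    funext i
    simp [cs]
  have hQ0 := Qd_nonneg cell hfn
  by_cases hQ : Qd cell f < 1 / 2 ^ 25
  · have h1 := pt_induction cell r hfn univ
    rw [hcs] at h1
    obtain ⟨a, ha, hb⟩ := h1 hQ
    obtain ⟨u, c, hc, hu, hd, he⟩ := rounding cell hf ha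
    refine ⟨u, c, hc, hu, hd, he.trans ?_⟩
    nlinarith
  · push Not at hQ
    refine ⟨fun _ _ => 1, 1, norm_one, fun _ _ => norm_one, fun _ _ _ _ => rfl, ?_⟩
    have h1 : ∀ x, ‖f x - 1 * ∏ k : κ, (1 : ℂ)‖ ^ 2 ≤ 4 := by
      intro x
      have e1 : ‖f x - 1 * ∏ k : κ, (1 : ℂ)‖ ≤ 2 := by
        refine (norm_sub_le _ _).trans ?_
        rw [hf x]
        norm_num
      calc ‖f x - 1 * ∏ k : κ, (1 : ℂ)‖ ^ 2 ≤ 2 ^ 2 := pow_le_pow_left₀ (norm_nonneg _) e1 2
        _ = 4 := by norm_num
    refine (avg_mono h1).trans ?_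
    rw [avg_const]
    calc (4 : ℝ) = 2 ^ 27 * (1 / 2 ^ 25) := by norm_num
      _ ≤ 2 ^ 27 * Qd cell f := mul_le_mul_of_nonneg_left hQ (by norm_num)

end Pool.Agent.MP_ca1109_lc.OvP
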