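import Pool.Agent.MP_ca1109_lc.Ov.Defs
import Pool.Agent.MP_ca1109_lc.Ov.PC7

/-!
# The product test
-/

namespace Pool.Agent.MP_ca1109_lc.Ov

open Finset Pool.Agent.H66 Pool.Agent.MP_ca1109_lc.Mpg Pool.Agent.MP_ca1109_lc.Agp
  Pool.Agent.MP_ca1109_lc.Xp

open Pool.Agent.MP_ca1109_lc.OvP (avg_comm)

variable {E : Type} [Fintype E] [DecidableEq E] {Ω : E → Type} [∀ e, Fintype (Ω e)]

/-- The sets and the Boolean functions. -/
def hr_tr : (E → Bool) ≃ Finset E where
  toFun := tr
  invFun A := fun e => decide (e ∈ A)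
  left_inv R := by
    funext e
    simp [tr]
  right_inv A := by
    ext e
    simp [tr]

theorem hr_Qf (f : (∀ e, Ω e) → ℂ) : Qf f = avg fun A : Finset E => 1 - (OvP.bt id A f).re := by
  unfold Qf
  rw [← avg_equiv hr_tr]
  congr 1
  funext R
  unfold dft bet
  congr 1
  rw [OvP.bt, OvP.av_re]
  congr 1
  funext x
  rw [OvP.av_re]
  congr 1
  funext y
  have h1 : mix (tr R) x y = OvP.mx id (hr_tr R) y x := by
    funext e
    unfold mix OvP.mx
    rfl
  have h2 : mix (tr R)ᶜ x y = OvP.mx id (hr_tr R) x y := by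
    funext e
    unfold mix OvP.mx
    by_cases h : e ∈ tr R
    · have h' : e ∈ hr_tr R := h
      simp [h, h']
    · have h' : e ∉ hr_tr R := h
      simp [h, h']
  have h3 : mix (tr R ∪ (tr R)ᶜ) x y = y := by
    funext e
    simp [mix]
  unfold bx
  rw [h1, h2, h3]
  congr 1
  ring

variable [∀ e, Nonempty (Ω e)]

theorem hr_Qf' (f : (∀ e, Ω e) → ℂ) : Qf f = OvP.Qd id f := by
  rw [hr_Qf, avg_sub, avg_const, OvP.Qd, OvP.av_re]

theorem hr_exists_le {A : Type*} [Fintype A] [Nonempty A] {F : A → ℝ} {C : ℝ} (h : avg F ≤ C) :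
    ∃ a, F a ≤ C := by
  by_contra hc
  push Not at hc
  have h1 : (0 : ℝ) < Fintype.card A := by exact_mod_cast Fintype.card_pos
  have h2 : ∑ _a : A, C < ∑ a, F a := Finset.sum_lt_sum_of_nonempty Finset.univ_nonempty
    fun a _ => hc a
  rw [Finset.sum_const, nsmul_eq_mul, Finset.card_univ] at h2
  unfold avg at h
  rw [div_le_iff₀ h1] at h
  linarith

theorem hm_round {B : Finset E} {f : (∀ e, Ω e) → ℂ} (hB : Dep B f) (hf : ∀ x, ‖f x‖ = 1) :
    ∃ (u : ∀ e, Ω e → ℂ) (κ : ℂ), ‖κ‖ = 1 ∧ (∀ e a, ‖u e a‖ = 1) ∧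
      (∀ e, e ∉ B → ∀ a, u e a = 1) ∧
      (avg fun x => ‖f x - κ * ∏ e, u e (x e)‖ ^ 2) ≤ 2 ^ 27 * Qf f := by
  have x₀ : ∀ e, Ω e := fun e => Classical.arbitrary _
  rcases isEmpty_or_nonempty E with hE | ⟨⟨r⟩⟩
  · refine ⟨fun _ _ => 1, f x₀, hf x₀, fun _ _ => norm_one, fun _ _ _ => rfl, ?_⟩
    have h1 : ∀ x : ∀ e, Ω e, ‖f x - f x₀ * ∏ e : E, (1 : ℂ)‖ ^ 2 = 0 := by
      intro x
      have : x = x₀ := funext fun e => (hE.false e).elim
      rw [this]
      simp
    simp only [h1]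
    rw [avg_const, hr_Qf']
    refine mul_nonneg (by norm_num) (OvP.Qd_nonneg id ?_)
    rw [OvP.nn_eq]
    simp [hf, avg_const]
  obtain ⟨u, c, hc, hu, hd, he⟩ := OvP.ptest (id : E → E) r hf
  rw [← hr_Qf'] at he
  have h1 : (avg fun y : ∀ e, Ω e => avg fun x : ∀ e, Ω e =>
      ‖f x - c * ((∏ e ∈ B, u e x) * ∏ e ∈ Bᶜ, u e y)‖ ^ 2) ≤ 2 ^ 27 * Qf f := by
    refine le_trans (le_of_eq ?_) he
    rw [avg_comm, ← OvP.avg_mx (id : E → E) B (fun x => ‖f x - c * ∏ e, u e x‖ ^ 2)]
    congr 1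
    funext x
    congr 1
    funext y
    have e1 : f (OvP.mx id B x y) = f x := hB _ _ fun e he => by simp [OvP.mx, he]
    have e2 : ∏ e, u e (OvP.mx id B x y) = (∏ e ∈ B, u e x) * ∏ e ∈ Bᶜ, u e y := by
      rw [← Finset.prod_mul_prod_compl B]
      congr 1
      · refine Finset.prod_congr rfl fun e he => ?_
        refine hd e _ _ fun i hi => ?_
        have : i = e := by simpa using hi
        subst this
        simp [OvP.mx, he]
      · refine Finset.prod_congr rfl fun e he => ?_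
        refine hd e _ _ fun i hi => ?_
        have : i = e := by simpa using hi
        subst this
        simp [OvP.mx, Finset.mem_compl.mp he]
    rw [e1, e2]
  obtain ⟨y, hy⟩ := hr_exists_le h1
  refine ⟨fun e t => if e ∈ B then u e (Function.update x₀ e t) else 1,
    c * ∏ e ∈ Bᶜ, u e y, ?_, ?_, ?_, ?_⟩
  · rw [norm_mul, hc, one_mul, norm_prod]
    exact Finset.prod_eq_one fun e _ => hu e y
  · intro e t
    beta_reduce
    split_ifs
    · exact hu e _
    · exact norm_one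
  · intro e he t
    beta_reduce
    rw [if_neg he]
  · refine le_trans (le_of_eq ?_) hy
    congr 1
    funext x
    have e1 : (∏ e, if e ∈ B then u e (Function.update x₀ e (x e)) else 1) = ∏ e ∈ B, u e x := by
      rw [← Finset.prod_mul_prod_compl B, Finset.prod_congr rfl (fun e he =>
        (if_neg (Finset.mem_compl.mp he) : (if e ∈ B then u e (Function.update x₀ e (x e)) else 1)
          = 1)), Finset.prod_const_one, mul_one]
      refine Finset.prod_congr rfl fun e he => ?_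
      rw [if_pos he]
      refine hd e _ _ fun i hi => ?_
      have : i = e := by simpa using hi
      subst this
      simp
    rw [e1]
    congr 2
    ring

end Pool.Agent.MP_ca1109_lc.Ov
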