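import Pool.Agent.MP_ca1109_lc.Mpg.Defs

/-!
# The product test: definitions
-/

namespace Pool.Agent.MP_ca1109_lc.OvP

open Finset Pool.Agent.MP_ca1109_lc.Mpg

variable {ι κ : Type*} {α : ι → Type*}

/-- `x` on the cells in `A`, `y` outside. -/
def mx [DecidableEq κ] (cell : ι → κ) (A : Finset κ) (x y : ∀ i, α i) : ∀ i, α i :=
  fun i => if cell i ∈ A then x i else y i

/-- The function depends only on the cells in `A`. -/
def Dep (cell : ι → κ) (A : Finset κ) (f : (∀ i, α i) → ℂ) : Prop :=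
  ∀ x y : ∀ i, α i, (∀ i, cell i ∈ A → x i = y i) → f x = f y

variable [Fintype ι] [DecidableEq ι] [∀ i, Fintype (α i)]

/-- The inner product. -/
noncomputable def ip (f g : (∀ i, α i) → ℂ) : ℂ := av fun x => f x * (starRingEnd ℂ) (g x)

/-- The squared norm. -/
noncomputable def nn (f : (∀ i, α i) → ℂ) : ℝ := (∑ x, ‖f x‖ ^ 2) / (Fintype.card (∀ i, α i) : ℝ)

/-- The mean of the box of `f` for the cut `A`. -/
noncomputable def bt [DecidableEq κ] (cell : ι → κ) (A : Finset κ) (f : (∀ i, α i) → ℂ) : ℂ :=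
  av fun x => av fun y => f x * f y * (starRingEnd ℂ) (f (mx cell A x y)) *
    (starRingEnd ℂ) (f (mx cell A y x))

/-- The defect of the random cut test. -/
noncomputable def Qd [DecidableEq κ] [Fintype κ] (cell : ι → κ) (f : (∀ i, α i) → ℂ) : ℝ :=
  1 - (av fun A : Finset κ => bt cell A f).re

/-- `g` is the product of normalized functions of the cells. -/
def Pr [Fintype κ] (cell : ι → κ) (a : κ → (∀ i, α i) → ℂ) : Prop :=
  ∀ k, Dep cell {k} (a k) ∧ nn (a k) = 1

end Pool.Agent.MP_ca1109_lc.OvP
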