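import Pool.Agent.MP_ca1109_lc.Ov.PC0
import Pool.Agent.MP_ca1109_lc.Agp.K1

/-!
# The product test: averages
-/

namespace Pool.Agent.MP_ca1109_lc.OvP

open Finset Pool.Agent.MP_ca1109_lc.Mpg Pool.Agent.MP_ca1109_lc.Agp

section av

variable {A B : Type*} [Fintype A] [Fintype B]

theorem avg_comm (f : A → B → ℝ) :
    avg (fun a => avg fun b => f a b) = avg (fun b => avg fun a => f a b) := by
  unfold avg
  rw [← Finset.sum_div, ← Finset.sum_div, Finset.sum_comm, div_div, div_div,
    mul_comm (Fintype.card A : ℝ)]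

theorem av_add (f g : A → ℂ) : av (fun a => f a + g a) = av f + av g := by
  unfold av
  rw [Finset.sum_add_distrib, add_div]

theorem av_sub (f g : A → ℂ) : av (fun a => f a - g a) = av f - av g := by
  unfold av
  rw [Finset.sum_sub_distrib, sub_div]

theorem av_cmul (c : ℂ) (f : A → ℂ) : av (fun a => c * f a) = c * av f := by
  unfold av
  rw [← Finset.mul_sum, mul_div_assoc]

theorem av_mulc (c : ℂ) (f : A → ℂ) : av (fun a => f a * c) = av f * c := by
  unfold av
  rw [← Finset.sum_mul, div_mul_eq_mul_div]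

theorem av_cst [Nonempty A] (c : ℂ) : av (fun _ : A => c) = c := by
  have : (Fintype.card A : ℂ) ≠ 0 := Nat.cast_ne_zero.mpr Fintype.card_ne_zero
  unfold av
  rw [Finset.sum_const, nsmul_eq_mul, Finset.card_univ, mul_comm, mul_div_assoc, div_self this,
    mul_one]

theorem av_conj (f : A → ℂ) : av (fun a => (starRingEnd ℂ) (f a)) = (starRingEnd ℂ) (av f) := by
  unfold av
  rw [map_div₀, map_sum, map_natCast]

theorem av_ofReal (f : A → ℝ) : av (fun a => (f a : ℂ)) = (avg f : ℂ) := by
  unfold av avg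
  rw [Complex.ofReal_div, Complex.ofReal_sum, Complex.ofReal_natCast]

theorem av_re (f : A → ℂ) : (av f).re = avg fun a => (f a).re := by
  unfold av avg
  rw [← Complex.ofReal_natCast, Complex.div_ofReal_re, Complex.re_sum]

theorem av_equiv (e : A ≃ B) (f : B → ℂ) : av (fun a => f (e a)) = av f := by
  unfold av
  rw [Fintype.card_congr e, Equiv.sum_comp e f]

theorem av_pair (f : A → B → ℂ) :
    av (fun p : A × B => f p.1 p.2) = av fun a => av fun b => f a b := by
  simp only [av]
  rw [Fintype.sum_prod_type, Fintype.card_prod, ← Finset.sum_div, Nat.cast_mul, div_div,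
    mul_comm (Fintype.card A : ℂ)]

/-- Cauchy-Schwarz. -/
theorem avg_cs (f g : A → ℝ) :
    avg (fun a => f a * g a) ^ 2 ≤ avg (fun a => f a ^ 2) * avg (fun a => g a ^ 2) := by
  unfold avg
  rw [div_pow, div_mul_div_comm, ← sq]
  exact div_le_div_of_nonneg_right (Finset.sum_mul_sq_le_sq_mul_sq _ _ _) (by positivity)

theorem avg_cs' (f g : A → ℝ) :
    avg (fun a => f a * g a) ≤ √(avg (fun a => f a ^ 2)) * √(avg (fun a => g a ^ 2)) := by
  rw [← Real.sqrt_mul (avg_nonneg fun a => sq_nonneg _)]
  exact Real.le_sqrt_of_sq_le (avg_cs f g)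

end av

section mx

variable {ι κ : Type*} {α : ι → Type*} [DecidableEq κ] (cell : ι → κ)

theorem mx_mx (A : Finset κ) (x y : ∀ i, α i) :
    mx cell A (mx cell A x y) (mx cell A y x) = x := by
  funext i
  unfold mx
  split_ifs <;> rfl

/-- The exchange of the coordinates outside `A`. -/
def mxe (A : Finset κ) : (∀ i, α i) × (∀ i, α i) ≃ (∀ i, α i) × (∀ i, α i) where
  toFun p := (mx cell A p.1 p.2, mx cell A p.2 p.1)
  invFun p := (mx cell A p.1 p.2, mx cell A p.2 p.1)
  left_inv p := by
    ext1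
    · exact mx_mx cell A p.1 p.2
    · exact mx_mx cell A p.2 p.1
  right_inv p := by
    ext1
    · exact mx_mx cell A p.1 p.2
    · exact mx_mx cell A p.2 p.1

theorem mx_univ [Fintype κ] (x y : ∀ i, α i) : mx cell univ x y = x := by
  funext i
  simp [mx]

theorem mx_compl [Fintype κ] (A : Finset κ) (x y : ∀ i, α i) : mx cell Aᶜ x y = mx cell A y x := by
  funext i
  by_cases h : cell i ∈ A <;> simp [mx, h]

variable [Fintype ι] [DecidableEq ι] [∀ i, Fintype (α i)]

theorem av_swap (A : Finset κ) (F : (∀ i, α i) → (∀ i, α i) → ℂ) :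
    (av fun x => av fun y => F (mx cell A x y) (mx cell A y x)) = av fun x => av fun y => F x y := by
  rw [← av_pair (fun x y => F (mx cell A x y) (mx cell A y x)), ← av_pair F]
  exact av_equiv (mxe cell A) (fun p => F p.1 p.2)

theorem avg_swap (A : Finset κ) (F : (∀ i, α i) → (∀ i, α i) → ℝ) :
    (avg fun x => avg fun y => F (mx cell A x y) (mx cell A y x)) =
      avg fun x => avg fun y => F x y := by
  rw [← avg_prod (fun x y => F (mx cell A x y) (mx cell A y x)), ← avg_prod F]
  exact avg_equiv (mxe cell A) (fun p => F p.1 p.2)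

variable [∀ i, Nonempty (α i)]

/-- Independence. -/
theorem av_indep [Fintype κ] {A : Finset κ} {f g : (∀ i, α i) → ℂ} (hf : Dep cell A f)
    (hg : Dep cell Aᶜ g) : (av fun x => f x * g x) = av f * av g := by
  have h1 : (av fun x => av fun y => f x * g y) = av f * av g := by
    simp only [av_cmul]
    rw [av_mulc]
  rw [← h1]
  have h2 : (av fun x => av fun y : ∀ i, α i => f x * g x) = av fun x => f x * g x := by
    simp only [av_cst]
  rw [← h2, ← av_swap cell A fun x y => f x * g x]
  congr 1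
  funext x
  congr 1
  funext y
  congr 1
  · refine hf _ _ fun i hi => ?_
    simp [mx, hi]
  · refine hg _ _ fun i hi => ?_
    rw [Finset.mem_compl] at hi
    simp [mx, hi]

theorem av_mx (A : Finset κ) (f : (∀ i, α i) → ℂ) :
    (av fun x => av fun y => f (mx cell A x y)) = av f := by
  rw [av_swap cell A fun x _ => f x]
  simp only [av_cst]

theorem avg_mx (A : Finset κ) (f : (∀ i, α i) → ℝ) :
    (avg fun x => avg fun y => f (mx cell A x y)) = avg f := by
  rw [avg_swap cell A fun x _ => f x]
  simp only [avg_const]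

end mx

section norm

variable {ι κ : Type*} {α : ι → Type*} [Fintype ι] [DecidableEq ι] [∀ i, Fintype (α i)]

theorem nn_eq (f : (∀ i, α i) → ℂ) : nn f = avg fun x => ‖f x‖ ^ 2 := rfl

theorem nn_nonneg (f : (∀ i, α i) → ℂ) : 0 ≤ nn f := avg_nonneg fun _ => sq_nonneg _

theorem ip_self (f : (∀ i, α i) → ℂ) : ip f f = (nn f : ℂ) := by
  unfold ip
  rw [nn_eq, ← av_ofReal]
  congr 1
  funext x
  rw [Complex.mul_conj, Complex.normSq_eq_norm_sq]

theorem ip_conj (f g : (∀ i, α i) → ℂ) : (starRingEnd ℂ) (ip f g) = ip g f := by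
  unfold ip
  rw [← av_conj]
  congr 1
  funext x
  rw [map_mul, Complex.conj_conj, mul_comm]

theorem norm_ip_le (f g : (∀ i, α i) → ℂ) : ‖ip f g‖ ≤ √(nn f) * √(nn g) := by
  refine (norm_av_le _).trans ?_
  have h : (avg fun a => ‖f a * (starRingEnd ℂ) (g a)‖) = avg fun a => ‖f a‖ * ‖g a‖ := by
    congr 1
    funext a
    rw [norm_mul, Complex.norm_conj]
  rw [h]
  exact avg_cs' _ _

theorem nn_sub (f g : (∀ i, α i) → ℂ) :
    nn (fun x => f x - g x) = nn f + nn g - 2 * (ip f g).re := by
  have h : (nn (fun x => f x - g x) : ℂ) = nn f + nn g - (ip f g + (starRingEnd ℂ) (ip f g)) := by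
    rw [ip_conj, ← ip_self, ← ip_self, ← ip_self]
    unfold ip
    rw [← av_add, ← av_add, ← av_sub]
    congr 1
    funext x
    rw [map_sub]
    ring
  rw [Complex.add_conj] at h
  exact_mod_cast h

end norm

end Pool.Agent.MP_ca1109_lc.OvP
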