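import Pool.Agent.MP_ca1109_lc.Ov.PC1

/-!
# The product test: the four-linear form, monotonicity in the cells
-/

namespace Pool.Agent.MP_ca1109_lc.OvP

open Finset Pool.Agent.MP_ca1109_lc.Mpg Pool.Agent.MP_ca1109_lc.Agp

variable {ι κ : Type*} {α : ι → Type*} [DecidableEq κ] [Fintype ι] [DecidableEq ι] [∀ i, Fintype (α i)]

/-- The four-linear form of the cut `A`. -/
noncomputable def T4 (cell : ι → κ) (A : Finset κ) (f₁ f₂ f₃ f₄ : (∀ i, α i) → ℂ) : ℂ :=
  av fun x => av fun y => f₁ x * f₂ y * (starRingEnd ℂ) (f₃ (mx cell A x y)) *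
    (starRingEnd ℂ) (f₄ (mx cell A y x))

theorem bt_eq (cell : ι → κ) (A : Finset κ) (f : (∀ i, α i) → ℂ) : bt cell A f = T4 cell A f f f f :=
  rfl

theorem avg_pair_mul (u v : (∀ i, α i) → ℝ) :
    (avg fun x => avg fun y => u x * v y) = avg u * avg v := by
  simp only [avg_mul_left]
  have : (fun a => u a * avg v) = fun a => avg v * u a := by
    funext a; ring
  rw [this, avg_mul_left, mul_comm]

theorem norm_T4_le (cell : ι → κ) (A : Finset κ) (f₁ f₂ f₃ f₄ : (∀ i, α i) → ℂ) :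
    ‖T4 cell A f₁ f₂ f₃ f₄‖ ≤ √(nn f₁ * nn f₂) * √(nn f₃ * nn f₄) := by
  unfold T4
  rw [← av_pair (fun x y => f₁ x * f₂ y * (starRingEnd ℂ) (f₃ (mx cell A x y)) *
    (starRingEnd ℂ) (f₄ (mx cell A y x)))]
  refine (norm_av_le _).trans ?_
  have h : (avg fun p : (∀ i, α i) × (∀ i, α i) => ‖f₁ p.1 * f₂ p.2 *
      (starRingEnd ℂ) (f₃ (mx cell A p.1 p.2)) * (starRingEnd ℂ) (f₄ (mx cell A p.2 p.1))‖) =
      avg fun p : (∀ i, α i) × (∀ i, α i) => (‖f₁ p.1‖ * ‖f₂ p.2‖) *
        (‖f₃ (mx cell A p.1 p.2)‖ * ‖f₄ (mx cell A p.2 p.1)‖) := by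
    congr 1
    funext p
    rw [norm_mul, norm_mul, norm_mul, Complex.norm_conj, Complex.norm_conj]
    ring
  rw [h]
  refine (avg_cs' _ _).trans (le_of_eq ?_)
  congr 2
  · rw [avg_prod (fun x y => (‖f₁ x‖ * ‖f₂ y‖) ^ 2)]
    simp only [mul_pow]
    exact avg_pair_mul (fun x => ‖f₁ x‖ ^ 2) (fun y => ‖f₂ y‖ ^ 2)
  · rw [avg_prod (fun x y => (‖f₃ (mx cell A x y)‖ * ‖f₄ (mx cell A y x)‖) ^ 2),
      avg_swap cell A (fun x y => (‖f₃ x‖ * ‖f₄ y‖) ^ 2)]
    simp only [mul_pow]
    exact avg_pair_mul (fun x => ‖f₃ x‖ ^ 2) (fun y => ‖f₄ y‖ ^ 2)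

theorem T4_sub1 (cell : ι → κ) (A : Finset κ) (f g f₂ f₃ f₄ : (∀ i, α i) → ℂ) :
    T4 cell A (fun x => f x - g x) f₂ f₃ f₄ = T4 cell A f f₂ f₃ f₄ - T4 cell A g f₂ f₃ f₄ := by
  unfold T4
  rw [← av_sub]
  congr 1; funext x
  rw [← av_sub]
  congr 1; funext y
  ring

theorem T4_sub2 (cell : ι → κ) (A : Finset κ) (f g f₁ f₃ f₄ : (∀ i, α i) → ℂ) :
    T4 cell A f₁ (fun x => f x - g x) f₃ f₄ = T4 cell A f₁ f f₃ f₄ - T4 cell A f₁ g f₃ f₄ := by
  unfold T4
  rw [← av_sub]
  congr 1; funext x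
  rw [← av_sub]
  congr 1; funext y
  ring

theorem T4_sub3 (cell : ι → κ) (A : Finset κ) (f g f₁ f₂ f₄ : (∀ i, α i) → ℂ) :
    T4 cell A f₁ f₂ (fun x => f x - g x) f₄ = T4 cell A f₁ f₂ f f₄ - T4 cell A f₁ f₂ g f₄ := by
  unfold T4
  rw [← av_sub]
  congr 1; funext x
  rw [← av_sub]
  congr 1; funext y
  rw [map_sub]
  ring

theorem T4_sub4 (cell : ι → κ) (A : Finset κ) (f g f₁ f₂ f₃ : (∀ i, α i) → ℂ) :
    T4 cell A f₁ f₂ f₃ (fun x => f x - g x) = T4 cell A f₁ f₂ f₃ f - T4 cell A f₁ f₂ f₃ g := by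
  unfold T4
  rw [← av_sub]
  congr 1; funext x
  rw [← av_sub]
  congr 1; funext y
  rw [map_sub]
  ring

theorem bt_sub_le (cell : ι → κ) (A : Finset κ) {f g : (∀ i, α i) → ℂ} (hf : nn f = 1)
    (hg : nn g = 1) : ‖bt cell A f - bt cell A g‖ ≤ 4 * √(nn fun x => f x - g x) := by
  set h : (∀ i, α i) → ℂ := fun x => f x - g x with hh
  have e : bt cell A f - bt cell A g = T4 cell A h f f f + T4 cell A g h f f +
      T4 cell A g g h f + T4 cell A g g g h := by
    rw [hh, T4_sub1, T4_sub2, T4_sub3, T4_sub4, bt_eq, bt_eq]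
    ring
  have h1 := norm_T4_le cell A h f f f
  have h2 := norm_T4_le cell A g h f f
  have h3 := norm_T4_le cell A g g h f
  have h4 := norm_T4_le cell A g g g h
  simp only [hf, hg, one_mul, mul_one, Real.sqrt_one] at h1 h2 h3 h4
  rw [e]
  refine (norm_add_le _ _).trans ?_
  refine (add_le_add (norm_add_le _ _) le_rfl).trans ?_
  refine (add_le_add (add_le_add (norm_add_le _ _) le_rfl) le_rfl).trans ?_
  linarith

theorem norm_bt_le (cell : ι → κ) (A : Finset κ) {f : (∀ i, α i) → ℂ} (hf : nn f = 1) :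
    ‖bt cell A f‖ ≤ 1 := by
  have h := norm_T4_le cell A f f f f
  rw [hf] at h
  simpa [bt_eq] using h

variable [Fintype κ]

/-- The acceptance of the random cut test. -/
noncomputable def Pc (cell : ι → κ) (f : (∀ i, α i) → ℂ) : ℝ :=
  avg fun x => avg fun y =>
    ‖av fun A : Finset κ => f (mx cell A x y) * f (mx cell A y x)‖ ^ 2

/-- The exchange of the coordinates in `B`. -/
theorem mx_symm (cell : ι → κ) (A B : Finset κ) (x y : ∀ i, α i) :
    mx cell A (mx cell B y x) (mx cell B x y) = mx cell (symmDiff A B) x y := by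
  funext i
  by_cases h1 : cell i ∈ A <;> by_cases h2 : cell i ∈ B <;>
    simp [mx, Finset.mem_symmDiff, h1, h2]

theorem avg_swap' (cell : ι → κ) (B : Finset κ) (F : (∀ i, α i) → (∀ i, α i) → ℝ) :
    (avg fun x => avg fun y => F (mx cell B y x) (mx cell B x y)) =
      avg fun x => avg fun y => F x y := by
  have h := avg_swap cell Bᶜ F
  simp only [mx_compl] at h
  exact h

theorem av_swap' (cell : ι → κ) (B : Finset κ) (F : (∀ i, α i) → (∀ i, α i) → ℂ) :
    (av fun x => av fun y => F (mx cell B y x) (mx cell B x y)) =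
      av fun x => av fun y => F x y := by
  have h := av_swap cell Bᶜ F
  simp only [mx_compl] at h
  exact h

theorem norm_sq_av {A : Type*} [Fintype A] (h : A → ℂ) :
    ((‖av h‖ ^ 2 : ℝ) : ℂ) = av fun b => av fun a => h a * (starRingEnd ℂ) (h b) := by
  rw [← Complex.normSq_eq_norm_sq, ← Complex.mul_conj, ← av_conj, ← av_cmul]
  congr 1
  funext b
  rw [av_mulc]

theorem bt_swap (cell : ι → κ) (A : Finset κ) (f : (∀ i, α i) → ℂ) :
    (av fun x => av fun y => f (mx cell A x y) * f (mx cell A y x) *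
      (starRingEnd ℂ) (f x * f y)) = bt cell A f := by
  unfold bt
  rw [← av_swap cell A (fun x y => f x * f y * (starRingEnd ℂ) (f (mx cell A x y)) *
    (starRingEnd ℂ) (f (mx cell A y x)))]
  congr 1; funext x; congr 1; funext y
  rw [mx_mx, mx_mx, map_mul]
  ring

theorem Pc_eq (cell : ι → κ) (f : (∀ i, α i) → ℂ) :
    (Pc cell f : ℂ) = av fun A : Finset κ => bt cell A f := by
  unfold Pc
  have h1 : ∀ x y : ∀ i, α i, ((‖av fun A : Finset κ => f (mx cell A x y) * f (mx cell A y x)‖ ^ 2 : ℝ)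
      : ℂ) = av fun B : Finset κ => av fun A : Finset κ => (f (mx cell A x y) * f (mx cell A y x)) *
        (starRingEnd ℂ) (f (mx cell B x y) * f (mx cell B y x)) := fun x y => norm_sq_av _
  rw [← av_ofReal]
  simp only [← av_ofReal, h1]
  have h2 : ∀ B : Finset κ, (av fun x : ∀ i, α i => av fun y : ∀ i, α i => av fun A : Finset κ =>
      (f (mx cell A x y) * f (mx cell A y x)) *
        (starRingEnd ℂ) (f (mx cell B x y) * f (mx cell B y x))) =
      av fun A : Finset κ => bt cell A f := by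
    intro B
    have h3 : ∀ A : Finset κ, (av fun x : ∀ i, α i => av fun y : ∀ i, α i =>
        (f (mx cell A x y) * f (mx cell A y x)) *
        (starRingEnd ℂ) (f (mx cell B x y) * f (mx cell B y x))) =
        bt cell (symmDiff A Bᶜ) f := by
      intro A
      rw [← bt_swap cell (symmDiff A Bᶜ) f]
      rw [← av_swap' cell Bᶜ (fun x y => (f (mx cell A x y) * f (mx cell A y x)) *
        (starRingEnd ℂ) (f (mx cell B x y) * f (mx cell B y x)))]
      congr 1; funext x; congr 1; funext y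
      rw [mx_symm, mx_symm cell A Bᶜ y x, mx_compl, mx_compl, mx_mx, mx_mx]
    have h4 : (av fun x : ∀ i, α i => av fun y : ∀ i, α i => av fun A : Finset κ =>
      (f (mx cell A x y) * f (mx cell A y x)) *
        (starRingEnd ℂ) (f (mx cell B x y) * f (mx cell B y x))) = av fun A : Finset κ =>
        av fun x : ∀ i, α i => av fun y : ∀ i, α i => (f (mx cell A x y) * f (mx cell A y x)) *
        (starRingEnd ℂ) (f (mx cell B x y) * f (mx cell B y x)) := by
      rw [av_comm (fun (A : Finset κ) (x : ∀ i, α i) => av fun y : ∀ i, α i =>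
        (f (mx cell A x y) * f (mx cell A y x)) *
        (starRingEnd ℂ) (f (mx cell B x y) * f (mx cell B y x)))]
      congr 1
      funext x
      rw [av_comm]
    rw [h4]
    simp only [h3]
    exact av_equiv (Equiv.ofBijective (fun A : Finset κ => symmDiff A Bᶜ)
      (symmDiff_left_involutive _).bijective) (fun A => bt cell A f)
  have h5 : (av fun x : ∀ i, α i => av fun y : ∀ i, α i => av fun B : Finset κ => av fun A : Finset κ =>
      (f (mx cell A x y) * f (mx cell A y x)) *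
        (starRingEnd ℂ) (f (mx cell B x y) * f (mx cell B y x))) = av fun B : Finset κ =>
      av fun x : ∀ i, α i => av fun y : ∀ i, α i => av fun A : Finset κ =>
      (f (mx cell A x y) * f (mx cell A y x)) *
        (starRingEnd ℂ) (f (mx cell B x y) * f (mx cell B y x)) := by
    rw [av_comm (fun (B : Finset κ) (x : ∀ i, α i) => av fun y : ∀ i, α i => av fun A : Finset κ =>
        (f (mx cell A x y) * f (mx cell A y x)) *
        (starRingEnd ℂ) (f (mx cell B x y) * f (mx cell B y x)))]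
    congr 1
    funext x
    rw [av_comm]
  rw [h5]
  simp only [h2]
  rw [av_cst]

theorem Qd_eq (cell : ι → κ) (f : (∀ i, α i) → ℂ) : Qd cell f = 1 - Pc cell f := by
  unfold Qd
  rw [← Pc_eq, Complex.ofReal_re]

theorem Pc_nonneg (cell : ι → κ) (f : (∀ i, α i) → ℂ) : 0 ≤ Pc cell f :=
  avg_nonneg fun _ => avg_nonneg fun _ => sq_nonneg _

end Pool.Agent.MP_ca1109_lc.OvP
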