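import Pool.Agent.MP_ca1109_lc.Ov.PC2

/-!
# The product test: coarser cells, existence of the best product
-/

namespace Pool.Agent.MP_ca1109_lc.OvP

open Finset Pool.Agent.MP_ca1109_lc.Mpg Pool.Agent.MP_ca1109_lc.Agp


variable {ι κ : Type*} {α : ι → Type*} [DecidableEq κ] [Fintype ι] [DecidableEq ι] [∀ i, Fintype (α i)]

/-- The cells `e` and `r` are merged into `r`. -/
def mg (cell : ι → κ) (e r : κ) : ι → κ := fun i => if cell i = e then r else cell i

variable [Fintype κ]

/-- The preimage of a set of merged cells. -/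
def pm (e r : κ) (A : Finset κ) : Finset κ := univ.filter fun k => (if k = e then r else k) ∈ A

theorem mx_mg (cell : ι → κ) (e r : κ) (A : Finset κ) (x y : ∀ i, α i) :
    mx (mg cell e r) A x y = mx cell (pm e r A) x y := by
  funext i
  by_cases h : cell i = e <;> simp [mx, mg, pm, h]

theorem norm_av_sq_le {A : Type*} [Fintype A] [Nonempty A] (F : A → ℂ) :
    ‖av F‖ ^ 2 ≤ avg fun a => ‖F a‖ ^ 2 :=
  (pow_le_pow_left₀ (norm_nonneg _) (norm_av_le F) 2).trans
    (avg_pow_le (fun _ => norm_nonneg _) 2)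

theorem Pc_mono (cell : ι → κ) (e r : κ) (f : (∀ i, α i) → ℂ) :
    Pc cell f ≤ Pc (mg cell e r) f := by
  have h1 : ∀ x y : ∀ i, α i,
      ‖av fun A : Finset κ => f (mx cell A x y) * f (mx cell A y x)‖ ^ 2 ≤
        avg fun B : Finset κ => ‖av fun A : Finset κ => f (mx cell (symmDiff (pm e r A) B) x y) *
          f (mx cell (symmDiff (pm e r A) B) y x)‖ ^ 2 := by
    intro x y
    have h2 : (av fun A : Finset κ => f (mx cell A x y) * f (mx cell A y x)) =
        av fun B : Finset κ => av fun A : Finset κ => f (mx cell (symmDiff (pm e r A) B) x y) *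
          f (mx cell (symmDiff (pm e r A) B) y x) := by
      rw [av_comm]
      have h3 : ∀ A : Finset κ, (av fun B : Finset κ =>
          f (mx cell (symmDiff (pm e r A) B) x y) *
          f (mx cell (symmDiff (pm e r A) B) y x)) =
          av fun A : Finset κ => f (mx cell A x y) * f (mx cell A y x) := by
        intro A
        exact av_equiv (Equiv.ofBijective (fun B : Finset κ => symmDiff (pm e r A) B)
          (symmDiff_right_involutive _).bijective)
          (fun A => f (mx cell A x y) * f (mx cell A y x))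
      simp only [h3]
      rw [av_cst]
    rw [h2]
    exact norm_av_sq_le _
  unfold Pc
  refine (avg_mono fun x => avg_mono fun y => h1 x y).trans (le_of_eq ?_)
  have h5 : (avg fun x : ∀ i, α i => avg fun y : ∀ i, α i => avg fun B : Finset κ =>
      ‖av fun A : Finset κ => f (mx cell (symmDiff (pm e r A) B) x y) *
          f (mx cell (symmDiff (pm e r A) B) y x)‖ ^ 2) = avg fun B : Finset κ =>
      avg fun x : ∀ i, α i => avg fun y : ∀ i, α i =>
      ‖av fun A : Finset κ => f (mx cell (symmDiff (pm e r A) B) x y) *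
          f (mx cell (symmDiff (pm e r A) B) y x)‖ ^ 2 := by
    rw [avg_comm (fun (B : Finset κ) (x : ∀ i, α i) => avg fun y : ∀ i, α i =>
      ‖av fun A : Finset κ => f (mx cell (symmDiff (pm e r A) B) x y) *
          f (mx cell (symmDiff (pm e r A) B) y x)‖ ^ 2)]
    congr 1
    funext x
    rw [avg_comm]
  rw [h5]
  have h6 : ∀ B : Finset κ, (avg fun x : ∀ i, α i => avg fun y : ∀ i, α i =>
      ‖av fun A : Finset κ => f (mx cell (symmDiff (pm e r A) B) x y) *
          f (mx cell (symmDiff (pm e r A) B) y x)‖ ^ 2) =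
      avg fun x : ∀ i, α i => avg fun y : ∀ i, α i =>
        ‖av fun A : Finset κ => f (mx (mg cell e r) A x y) * f (mx (mg cell e r) A y x)‖ ^ 2 := by
    intro B
    rw [← avg_swap' cell B (fun x y =>
        ‖av fun A : Finset κ => f (mx (mg cell e r) A x y) * f (mx (mg cell e r) A y x)‖ ^ 2)]
    congr 1; funext x; congr 1; funext y
    simp only [mx_mg, mx_symm]
  simp only [h6]
  rw [avg_const]

/-- A best product exists. -/
theorem exists_max [∀ i, Nonempty (α i)] (cell : ι → κ) (f : (∀ i, α i) → ℂ) : ∃ a, Pr cell a ∧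
    ∀ a', Pr cell a' → ‖ip f (fun x => ∏ k, a' k x)‖ ≤ ‖ip f (fun x => ∏ k, a k x)‖ := by
  have hcl : IsClosed {a : κ → (∀ i, α i) → ℂ | Pr cell a} := by
    have h1 : {a : κ → (∀ i, α i) → ℂ | Pr cell a} = ⋂ k, ({a : κ → (∀ i, α i) → ℂ |
        ∀ x y : ∀ i, α i, (∀ i, cell i ∈ ({k} : Finset κ) → x i = y i) → a k x = a k y} ∩
        {a : κ → (∀ i, α i) → ℂ | nn (a k) = 1}) := by
      ext a
      simp only [Set.mem_ofPred_eq, Set.mem_iInter, Set.mem_inter_iff]
      rfl
    rw [h1]
    refine isClosed_iInter fun k => IsClosed.inter ?_ ?_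
    · simp only [Set.ofPred_forall]
      refine isClosed_iInter fun x => isClosed_iInter fun y => isClosed_iInter fun _ => ?_
      exact isClosed_eq (by fun_prop) (by fun_prop)
    · refine isClosed_eq ?_ continuous_const
      unfold nn
      fun_prop
  have hbd : Bornology.IsBounded {a : κ → (∀ i, α i) → ℂ | Pr cell a} := by
    rw [isBounded_iff_forall_norm_le]
    refine ⟨√(Fintype.card (∀ i, α i)), fun a ha => ?_⟩
    rw [pi_norm_le_iff_of_nonneg (Real.sqrt_nonneg _)]
    intro k
    rw [pi_norm_le_iff_of_nonneg (Real.sqrt_nonneg _)]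
    intro x
    refine Real.le_sqrt_of_sq_le ?_
    have h2 := (ha k).2
    unfold nn at h2
    have h3 : (0 : ℝ) < Fintype.card (∀ i, α i) := by exact_mod_cast Fintype.card_pos
    rw [div_eq_iff h3.ne', one_mul] at h2
    rw [← h2]
    exact Finset.single_le_sum (f := fun x => ‖a k x‖ ^ 2) (fun _ _ => sq_nonneg _)
      (Finset.mem_univ x)
  have hne : {a : κ → (∀ i, α i) → ℂ | Pr cell a}.Nonempty := by
    refine ⟨fun _ _ => 1, fun k => ⟨fun _ _ _ => rfl, ?_⟩⟩
    rw [nn_eq]
    simp [avg_const]
  have hco : IsCompact {a : κ → (∀ i, α i) → ℂ | Pr cell a} :=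
    Metric.isCompact_of_isClosed_isBounded hcl hbd
  obtain ⟨a, ha, hm⟩ := hco.exists_isMaxOn hne
    (f := fun a : κ → (∀ i, α i) → ℂ => ‖ip f (fun x => ∏ k, a k x)‖) (by
      refine Continuous.continuousOn ?_
      unfold ip av
      refine Continuous.norm (Continuous.div_const (continuous_finsetSum _ fun x _ => ?_) _)
      refine continuous_const.mul (Complex.continuous_conj.comp ?_)
      exact continuous_finsetProd _ fun k _ => by fun_prop)
  exact ⟨a, ha, fun a' ha' => hm ha'⟩

end Pool.Agent.MP_ca1109_lc.OvP
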