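import Pool.Agent.MP_ca1109_lc.Ov.PC3

/-!
# The product test: a product which becomes bad after splitting a cell
-/

namespace Pool.Agent.MP_ca1109_lc.OvP

open Finset Pool.Agent.MP_ca1109_lc.Mpg Pool.Agent.MP_ca1109_lc.Agp


variable {ι κ : Type*} {α : ι → Type*} [DecidableEq κ] [Fintype ι] [DecidableEq ι] [∀ i, Fintype (α i)]

omit [DecidableEq κ] [Fintype ι] [DecidableEq ι] [∀ i, Fintype (α i)] in
theorem Dep.mono {cell : ι → κ} {A B : Finset κ} (h : A ⊆ B) {f : (∀ i, α i) → ℂ}
    (hf : Dep cell A f) : Dep cell B f :=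
  fun x y hxy => hf x y fun i hi => hxy i (h hi)

omit [DecidableEq κ] [Fintype ι] [DecidableEq ι] [∀ i, Fintype (α i)] in
theorem Dep.mul {cell : ι → κ} {A : Finset κ} {f g : (∀ i, α i) → ℂ}
    (hf : Dep cell A f) (hg : Dep cell A g) : Dep cell A (fun x => f x * g x) := by
  intro x y hxy
  simp only
  rw [hf x y hxy, hg x y hxy]

omit [DecidableEq κ] [Fintype ι] [DecidableEq ι] [∀ i, Fintype (α i)] in
theorem Dep.conj {cell : ι → κ} {A : Finset κ} {f : (∀ i, α i) → ℂ}
    (hf : Dep cell A f) : Dep cell A (fun x => (starRingEnd ℂ) (f x)) := by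
  intro x y hxy
  simp only
  rw [hf x y hxy]

omit [DecidableEq κ] [Fintype ι] [DecidableEq ι] [∀ i, Fintype (α i)] in
theorem Dep.prod {cell : ι → κ} {A : Finset κ} {S : Finset κ} {f : κ → (∀ i, α i) → ℂ}
    (hf : ∀ k ∈ S, Dep cell A (f k)) : Dep cell A (fun x => ∏ k ∈ S, f k x) := by
  intro x y hxy
  exact Finset.prod_congr rfl fun k hk => hf k hk x y hxy

variable [Fintype κ] [∀ i, Nonempty (α i)]

theorem av_prod_indep (cell : ι → κ) (S : Finset κ) (φ : κ → (∀ i, α i) → ℂ)
    (h : ∀ k ∈ S, Dep cell {k} (φ k)) :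
    (av fun x => ∏ k ∈ S, φ k x) = ∏ k ∈ S, av (φ k) := by
  induction S using Finset.induction_on with
  | empty => simp [av_cst]
  | insert k S hk ih =>
    rw [Finset.prod_insert hk, ← ih fun j hj => h j (Finset.mem_insert_of_mem hj)]
    simp only [Finset.prod_insert hk]
    refine av_indep cell (h k (Finset.mem_insert_self _ _)) ?_
    refine Dep.prod fun j hj => (h j (Finset.mem_insert_of_mem hj)).mono ?_
    intro l hl
    rw [Finset.mem_singleton] at hl
    rw [Finset.mem_compl, Finset.mem_singleton, hl]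
    rintro rfl
    exact hk hj

theorem nn_prod (cell : ι → κ) (S : Finset κ) (φ : κ → (∀ i, α i) → ℂ)
    (h : ∀ k ∈ S, Dep cell {k} (φ k)) :
    nn (fun x => ∏ k ∈ S, φ k x) = ∏ k ∈ S, nn (φ k) := by
  have h1 : ((nn (fun x => ∏ k ∈ S, φ k x) : ℝ) : ℂ) = ((∏ k ∈ S, nn (φ k) : ℝ) : ℂ) := by
    rw [Complex.ofReal_prod, ← ip_self]
    simp only [← ip_self]
    unfold ip
    rw [← av_prod_indep cell S (fun k x => φ k x * (starRingEnd ℂ) (φ k x))
      fun k hk => (h k hk).mul (h k hk).conj]
    congr 1
    funext x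
    rw [map_prod, Finset.prod_mul_distrib]
  exact_mod_cast h1

theorem nn_Pr {cell : ι → κ} {a : κ → (∀ i, α i) → ℂ} (ha : Pr cell a) :
    nn (fun x => ∏ k, a k x) = 1 := by
  rw [nn_prod cell univ a fun k _ => (ha k).1]
  exact Finset.prod_eq_one fun k _ => (ha k).2

theorem nn_mul {cell : ι → κ} {A : Finset κ} {f g : (∀ i, α i) → ℂ} (hf : Dep cell A f)
    (hg : Dep cell Aᶜ g) : nn (fun x => f x * g x) = nn f * nn g := by
  have h1 : ((nn (fun x => f x * g x) : ℝ) : ℂ) = ((nn f * nn g : ℝ) : ℂ) := by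
    rw [Complex.ofReal_mul, ← ip_self, ← ip_self, ← ip_self]
    unfold ip
    rw [← av_indep cell (hf.mul hf.conj) (hg.mul hg.conj)]
    congr 1
    funext x
    rw [map_mul]
    ring
  exact_mod_cast h1

theorem avg_indep {cell : ι → κ} {A : Finset κ} {f g : (∀ i, α i) → ℝ}
    (hf : Dep cell A fun x => (f x : ℂ)) (hg : Dep cell Aᶜ fun x => (g x : ℂ)) :
    (avg fun x => f x * g x) = avg f * avg g := by
  have h1 := av_indep cell hf hg
  rw [av_ofReal, av_ofReal] at h1
  have h2 : (av fun x : ∀ i, α i => (f x : ℂ) * (g x : ℂ)) = ((avg fun x => f x * g x : ℝ) : ℂ) := by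
    rw [← av_ofReal]
    congr 1
    funext x
    rw [Complex.ofReal_mul]
  rw [h2] at h1
  exact_mod_cast h1

/-- A function of two cells which correlates with no product has a small box for every cut which
separates them. -/
theorem bt_le_of_sep (cell : ι → κ) {e r : κ} {A : Finset κ} (he : e ∈ A) (hr : r ∉ A)
    {b : (∀ i, α i) → ℂ} (hb : Dep cell {e, r} b) (hn : nn b = 1) {L : ℝ} (hL : 0 ≤ L)
    (h : ∀ h k : (∀ i, α i) → ℂ, Dep cell {e} h → Dep cell {r} k →
      ‖ip b (fun x => h x * k x)‖ ≤ L * √(nn h * nn k)) : ‖bt cell A b‖ ≤ L := by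
  have h1 : bt cell A b = av fun y => b y *
      ip b (fun x => b (mx cell A x y) * b (mx cell A y x)) := by
    unfold bt
    rw [av_comm]
    congr 1
    funext y
    unfold ip
    rw [← av_cmul]
    congr 1
    funext x
    rw [map_mul]
    ring
  have hh : ∀ y, Dep cell {e} (fun x => b (mx cell A x y)) := by
    intro y x x' hx
    refine hb _ _ fun i hi => ?_
    rw [Finset.mem_insert, Finset.mem_singleton] at hi
    rcases hi with hi | hi
    · simp only [mx, hi, if_pos he]
      exact hx i (by rw [hi]; exact Finset.mem_singleton_self e)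
    · simp only [mx, hi, if_neg hr]
  have hk : ∀ y, Dep cell {r} (fun x => b (mx cell A y x)) := by
    intro y x x' hx
    refine hb _ _ fun i hi => ?_
    rw [Finset.mem_insert, Finset.mem_singleton] at hi
    rcases hi with hi | hi
    · simp only [mx, hi, if_pos he]
    · simp only [mx, hi, if_neg hr]
      exact hx i (by rw [hi]; exact Finset.mem_singleton_self r)
  rw [h1]
  refine (norm_av_le _).trans ?_
  have h2 : (avg fun y => ‖b y * ip b (fun x => b (mx cell A x y) * b (mx cell A y x))‖) ≤
      avg fun y => L * (‖b y‖ * √(nn (fun x => b (mx cell A x y)) *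
        nn (fun x => b (mx cell A y x)))) := by
    refine avg_mono fun y => ?_
    rw [norm_mul]
    calc ‖b y‖ * ‖ip b (fun x => b (mx cell A x y) * b (mx cell A y x))‖ ≤
        ‖b y‖ * (L * √(nn (fun x => b (mx cell A x y)) * nn (fun x => b (mx cell A y x)))) :=
          mul_le_mul_of_nonneg_left (h _ _ (hh y) (hk y)) (norm_nonneg _)
      _ = _ := by ring
  refine h2.trans ?_
  rw [avg_mul_left]
  have h3 : (avg fun y => ‖b y‖ * √(nn (fun x => b (mx cell A x y)) *
        nn (fun x => b (mx cell A y x)))) ≤ 1 := by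
    refine (avg_cs' _ _).trans ?_
    have h4 : (avg fun y => ‖b y‖ ^ 2) = 1 := hn
    have h5 : (avg fun y => √(nn (fun x => b (mx cell A x y)) *
        nn (fun x => b (mx cell A y x))) ^ 2) = 1 := by
      have h6 : (fun y => √(nn (fun x => b (mx cell A x y)) *
        nn (fun x => b (mx cell A y x))) ^ 2) = fun y => nn (fun x => b (mx cell A y x)) *
        nn (fun x => b (mx cell A x y)) := by
        funext y
        rw [Real.sq_sqrt (mul_nonneg (nn_nonneg _) (nn_nonneg _)), mul_comm]
      rw [h6, avg_indep (cell := cell) (A := A)]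
      · have h7 : (avg fun y => nn (fun x => b (mx cell A y x))) = 1 := by
          simp only [nn_eq]
          rw [avg_mx cell A (fun x => ‖b x‖ ^ 2)]
          exact hn
        have h8 : (avg fun y => nn (fun x => b (mx cell A x y))) = 1 := by
          simp only [nn_eq]
          rw [avg_comm, avg_mx cell A (fun x => ‖b x‖ ^ 2)]
          exact hn
        rw [h7, h8, mul_one]
      · intro y y' hy
        simp only [nn_eq]
        congr 2
        funext x
        congr 2
        refine hb _ _ fun i _ => ?_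
        by_cases hi : cell i ∈ A
        · simp [mx, hi, hy i hi]
        · simp [mx, hi]
      · intro y y' hy
        simp only [nn_eq]
        congr 2
        funext x
        congr 2
        refine hb _ _ fun i _ => ?_
        by_cases hi : cell i ∈ A
        · simp [mx, hi]
        · simp [mx, hi, hy i (Finset.mem_compl.mpr hi)]
    rw [h4, h5]
    simp
  calc L * _ ≤ L * 1 := mul_le_mul_of_nonneg_left h3 hL
    _ = L := mul_one L

end Pool.Agent.MP_ca1109_lc.OvP
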