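import Pool.Agent.MP_ca1109_lc.Ov.PC4

/-!
# The product test: the jump
-/

namespace Pool.Agent.MP_ca1109_lc.OvP

open Finset Pool.Agent.MP_ca1109_lc.Mpg Pool.Agent.MP_ca1109_lc.Agp

variable {ι κ : Type*} {α : ι → Type*} [DecidableEq κ] [Fintype ι] [DecidableEq ι] [∀ i, Fintype (α i)] [Fintype κ]
  [∀ i, Nonempty (α i)]

theorem bt_compl (cell : ι → κ) (A : Finset κ) (f : (∀ i, α i) → ℂ) :
    bt cell Aᶜ f = bt cell A f := by
  unfold bt
  congr 1; funext x; congr 1; funext y
  rw [mx_compl, mx_compl]
  ring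

theorem bt_le_of_sep' (cell : ι → κ) {e r : κ} {A : Finset κ} (hA : ¬ (e ∈ A ↔ r ∈ A))
    {b : (∀ i, α i) → ℂ} (hb : Dep cell {e, r} b) (hn : nn b = 1) {L : ℝ} (hL : 0 ≤ L)
    (h : ∀ h k : (∀ i, α i) → ℂ, Dep cell {e} h → Dep cell {r} k →
      ‖ip b (fun x => h x * k x)‖ ≤ L * √(nn h * nn k)) : ‖bt cell A b‖ ≤ L := by
  by_cases he : e ∈ A
  · have hr : r ∉ A := fun hr => hA ⟨fun _ => hr, fun _ => he⟩
    exact bt_le_of_sep cell he hr hb hn hL h
  · have hr : r ∈ A := by
      by_contra hr
      exact hA ⟨fun h => absurd h he, fun h => absurd h hr⟩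
    rw [← bt_compl]
    exact bt_le_of_sep cell (Finset.mem_compl.mpr he) (by simpa using hr) hb hn hL h

section

variable {cell : ι → κ} {e r : κ} {a : κ → (∀ i, α i) → ℂ}

theorem dep_of_mg (ha : Pr (mg cell e r) a) {k : κ} (hk : k ≠ r) : Dep cell {k} (a k) := by
  intro x y hxy
  refine (ha k).1 x y fun i hi => hxy i ?_
  rw [Finset.mem_singleton] at hi ⊢
  unfold mg at hi
  split_ifs at hi with h
  · exact absurd hi.symm hk
  · exact hi

theorem dep_of_mg_r (ha : Pr (mg cell e r) a) : Dep cell {e, r} (a r) := by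
  intro x y hxy
  refine (ha r).1 x y fun i hi => hxy i ?_
  rw [Finset.mem_singleton] at hi
  rw [Finset.mem_insert, Finset.mem_singleton]
  unfold mg at hi
  split_ifs at hi with h
  · exact Or.inl h
  · exact Or.inr hi

variable (hne : e ≠ r) (ha : Pr (mg cell e r) a)

/-- The common part. -/
def cG (e r : κ) (a : κ → (∀ i, α i) → ℂ) (x : ∀ i, α i) : ℂ := ∏ k ∈ ({e, r} : Finset κ)ᶜ, a k x

include ha in
theorem cG_dep : Dep cell ({e, r} : Finset κ)ᶜ (cG e r a) := by
  refine Dep.prod fun k hk => ?_
  have hk' := Finset.mem_compl.mp hk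
  rw [Finset.mem_insert, Finset.mem_singleton, not_or] at hk'
  exact (dep_of_mg ha hk'.2).mono (Finset.singleton_subset_iff.mpr hk)

include ha in
theorem cG_nn : nn (cG e r a) = 1 := by
  unfold cG
  rw [nn_prod (mg cell e r) _ a fun k _ => (ha k).1]
  exact Finset.prod_eq_one fun k _ => (ha k).2

include ha in
theorem cb_dep : Dep cell {e, r} (fun x => a e x * a r x) := by
  by_cases hne : e = r
  · subst hne
    exact (dep_of_mg_r ha).mul (dep_of_mg_r ha)
  · exact ((dep_of_mg ha hne).mono (by simp)).mul (dep_of_mg_r ha)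

include hne in
theorem prod_split (b : κ → (∀ i, α i) → ℂ) (x : ∀ i, α i) :
    ∏ k, b k x = cG e r b x * (b e x * b r x) := by
  have h := Finset.prod_pair (f := fun k => b k x) hne
  rw [cG, ← h, mul_comm, Finset.prod_mul_prod_compl]

include hne ha in
theorem cb_nn : nn (fun x => a e x * a r x) = 1 := by
  have h1 : nn (fun x => a e x * a r x) = nn (fun x => ∏ k ∈ ({e, r} : Finset κ), a k x) := by
    congr 1
    funext x
    rw [Finset.prod_pair hne]
  rw [h1, nn_prod (mg cell e r) _ a fun k _ => (ha k).1]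
  exact Finset.prod_eq_one fun k _ => (ha k).2

include ha in
theorem cG_sq_av : (av fun x => cG e r a x * (starRingEnd ℂ) (cG e r a x)) = 1 := by
  have h := ip_self (cG e r a)
  rw [cG_nn ha] at h
  simpa [ip] using h

include ha in
/-- The common part disappears. -/
theorem av_cG {φ : (∀ i, α i) → ℂ} (hφ : Dep cell {e, r} φ) :
    (av fun x => (cG e r a x * (starRingEnd ℂ) (cG e r a x)) * φ x) = av φ := by
  rw [av_indep cell (A := ({e, r} : Finset κ)ᶜ) ((cG_dep ha).mul (cG_dep ha).conj)
    (by rw [compl_compl]; exact hφ), cG_sq_av ha, one_mul]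

include hne ha in
/-- Correlations with products of the finer cells. -/
theorem ip_split {h k : (∀ i, α i) → ℂ} (hh : Dep cell {e} h) (hk : Dep cell {r} k) :
    ip (fun x => ∏ k, a k x) (fun x => cG e r a x * (h x * k x)) =
      ip (fun x => a e x * a r x) (fun x => h x * k x) := by
  unfold ip
  rw [← av_cG ha ((cb_dep ha).mul (((hh.mono (by simp)).mul (hk.mono (by simp))).conj))]
  congr 1
  funext x
  beta_reduce
  rw [prod_split hne a x, map_mul]
  ring

include hne ha in
theorem bt_split (A : Finset κ) :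
    bt cell A (fun x => ∏ k, a k x) = bt cell A (fun x => a e x * a r x) := by
  have hG : ∀ x y : ∀ i, α i, cG e r a x * cG e r a y *
      (starRingEnd ℂ) (cG e r a (mx cell A x y)) * (starRingEnd ℂ) (cG e r a (mx cell A y x)) =
      (cG e r a x * (starRingEnd ℂ) (cG e r a x)) *
        (cG e r a y * (starRingEnd ℂ) (cG e r a y)) := by
    intro x y
    simp only [cG, map_prod, ← Finset.prod_mul_distrib]
    refine Finset.prod_congr rfl fun k hk => ?_
    rw [Finset.mem_compl, Finset.mem_insert, Finset.mem_singleton, not_or] at hk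
    have hd := dep_of_mg ha hk.2
    by_cases hA : k ∈ A
    · have h1 : a k (mx cell A x y) = a k x := hd _ _ fun i hi => by
        rw [Finset.mem_singleton] at hi
        simp [mx, hi, hA]
      have h2 : a k (mx cell A y x) = a k y := hd _ _ fun i hi => by
        rw [Finset.mem_singleton] at hi
        simp [mx, hi, hA]
      rw [h1, h2]
      ring
    · have h1 : a k (mx cell A x y) = a k y := hd _ _ fun i hi => by
        rw [Finset.mem_singleton] at hi
        simp [mx, hi, hA]
      have h2 : a k (mx cell A y x) = a k x := hd _ _ fun i hi => by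
        rw [Finset.mem_singleton] at hi
        simp [mx, hi, hA]
      rw [h1, h2]
      ring
  have hb := cb_dep ha
  unfold bt
  have e1 : ∀ x y : ∀ i, α i, (∏ k, a k x) * (∏ k, a k y) *
      (starRingEnd ℂ) (∏ k, a k (mx cell A x y)) * (starRingEnd ℂ) (∏ k, a k (mx cell A y x)) =
      (cG e r a x * (starRingEnd ℂ) (cG e r a x)) *
        ((cG e r a y * (starRingEnd ℂ) (cG e r a y)) *
        ((a e x * a r x) * (a e y * a r y) *
          (starRingEnd ℂ) (a e (mx cell A x y) * a r (mx cell A x y)) *
          (starRingEnd ℂ) (a e (mx cell A y x) * a r (mx cell A y x)))) := by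
    intro x y
    rw [prod_split hne a, prod_split hne a, prod_split hne a, prod_split hne a,
      map_mul (starRingEnd ℂ) (cG e r a (mx cell A x y)),
      map_mul (starRingEnd ℂ) (cG e r a (mx cell A y x))]
    rw [← mul_assoc (cG e r a x * (starRingEnd ℂ) (cG e r a x)), ← hG x y]
    ring
  simp only [e1]
  simp only [av_cmul]
  have e2 : ∀ x : ∀ i, α i, (av fun y : ∀ i, α i => (cG e r a y * (starRingEnd ℂ) (cG e r a y)) *
        ((a e x * a r x) * (a e y * a r y) *
          (starRingEnd ℂ) (a e (mx cell A x y) * a r (mx cell A x y)) *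
          (starRingEnd ℂ) (a e (mx cell A y x) * a r (mx cell A y x)))) =
      av fun y : ∀ i, α i => ((a e x * a r x) * (a e y * a r y) *
          (starRingEnd ℂ) (a e (mx cell A x y) * a r (mx cell A x y)) *
          (starRingEnd ℂ) (a e (mx cell A y x) * a r (mx cell A y x))) := by
    intro x
    refine av_cG ha ?_
    intro y y' hy
    have m1 : ∀ x y y' : ∀ i, α i, (∀ i, cell i ∈ ({e, r} : Finset κ) → y i = y' i) →
        a e (mx cell A x y) * a r (mx cell A x y) =
        a e (mx cell A x y') * a r (mx cell A x y') := fun x y y' hy => hb _ _ fun i hi => by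
      by_cases hA : cell i ∈ A <;> simp [mx, hA, hy i hi]
    have m2 : ∀ x y y' : ∀ i, α i, (∀ i, cell i ∈ ({e, r} : Finset κ) → y i = y' i) →
        a e (mx cell A y x) * a r (mx cell A y x) =
        a e (mx cell A y' x) * a r (mx cell A y' x) := fun x y y' hy => hb _ _ fun i hi => by
      by_cases hA : cell i ∈ A <;> simp [mx, hA, hy i hi]
    have m3 : a e y * a r y = a e y' * a r y' := hb _ _ hy
    simp only
    rw [m1 x y y' hy, m2 x y y' hy, m3]
  simp only [e2]
  refine av_cG ha ?_
  intro x x' hx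
  simp only
  congr 1
  funext y
  have m1 : a e (mx cell A x y) * a r (mx cell A x y) =
      a e (mx cell A x' y) * a r (mx cell A x' y) := hb _ _ fun i hi => by
    by_cases hA : cell i ∈ A <;> simp [mx, hA, hx i hi]
  have m2 : a e (mx cell A y x) * a r (mx cell A y x) =
      a e (mx cell A y x') * a r (mx cell A y x') := hb _ _ fun i hi => by
    by_cases hA : cell i ∈ A <;> simp [mx, hA, hx i hi]
  have m3 : a e x * a r x = a e x' * a r x' := hb _ _ hx
  rw [m1, m2, m3]

end

end Pool.Agent.MP_ca1109_lc.OvP
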