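import Pool.Agent.MP_ca1109_lc.Ov.PC5

/-!
# The product test: the jump, assembly
-/

namespace Pool.Agent.MP_ca1109_lc.OvP

open Finset Pool.Agent.MP_ca1109_lc.Mpg Pool.Agent.MP_ca1109_lc.Agp

variable {ι κ : Type*} {α : ι → Type*} [DecidableEq κ] [Fintype ι] [DecidableEq ι]
  [∀ i, Fintype (α i)] [Fintype κ] [∀ i, Nonempty (α i)]

theorem nn_smul (c : ℝ) (f : (∀ i, α i) → ℂ) :
    nn (fun x => (c : ℂ) * f x) = c ^ 2 * nn f := by
  simp only [nn_eq, norm_mul, mul_pow, Complex.norm_real, Real.norm_eq_abs, sq_abs]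
  exact avg_mul_left _ _

theorem nn_zero {f : (∀ i, α i) → ℂ} (h : nn f = 0) (x : ∀ i, α i) : f x = 0 := by
  unfold nn at h
  have h3 : (0 : ℝ) < Fintype.card (∀ i, α i) := by exact_mod_cast Fintype.card_pos
  rw [div_eq_zero_iff] at h
  rcases h with h | h
  · rw [Finset.sum_eq_zero_iff_of_nonneg fun _ _ => sq_nonneg _] at h
    have := h x (Finset.mem_univ x)
    simpa using this
  · exact absurd h h3.ne'

/-- The condition for the products of the finer cells gives the purity condition. -/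
theorem ip_hk {cell : ι → κ} {e r : κ} (hne : e ≠ r) {a : κ → (∀ i, α i) → ℂ}
    (ha : Pr (mg cell e r) a) {L : ℝ} (hL : 0 ≤ L)
    (H : ∀ a', Pr cell a' → ‖ip (fun x => ∏ k, a k x) (fun x => ∏ k, a' k x)‖ ≤ L)
    {h k : (∀ i, α i) → ℂ} (hh : Dep cell {e} h) (hk : Dep cell {r} k) :
    ‖ip (fun x => a e x * a r x) (fun x => h x * k x)‖ ≤ L * √(nn h * nn k) := by
  by_cases h0 : nn h = 0
  · have : ip (fun x => a e x * a r x) (fun x => h x * k x) = 0 := by
      unfold ip
      simp [nn_zero h0, av_cst]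
    rw [this, norm_zero]
    positivity
  by_cases k0 : nn k = 0
  · have : ip (fun x => a e x * a r x) (fun x => h x * k x) = 0 := by
      unfold ip
      simp [nn_zero k0, av_cst]
    rw [this, norm_zero]
    positivity
  have hp : 0 < nn h := lt_of_le_of_ne (nn_nonneg h) (Ne.symm h0)
  have kp : 0 < nn k := lt_of_le_of_ne (nn_nonneg k) (Ne.symm k0)
  set s : ℝ := √(nn h) with hs
  set t : ℝ := √(nn k) with ht
  have sp : 0 < s := Real.sqrt_pos.mpr hp
  have tp : 0 < t := Real.sqrt_pos.mpr kp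
  have s2 : s ^ 2 = nn h := Real.sq_sqrt hp.le
  have t2 : t ^ 2 = nn k := Real.sq_sqrt kp.le
  let h' : (∀ i, α i) → ℂ := fun x => ((s⁻¹ : ℝ) : ℂ) * h x
  let k' : (∀ i, α i) → ℂ := fun x => ((t⁻¹ : ℝ) : ℂ) * k x
  have hh' : Dep cell {e} h' := by
    intro x y hxy
    simp only [h']
    rw [hh x y hxy]
  have hk' : Dep cell {r} k' := by
    intro x y hxy
    simp only [k']
    rw [hk x y hxy]
  let a' : κ → (∀ i, α i) → ℂ := fun j => if j = e then h' else if j = r then k' else a j
  have ha' : Pr cell a' := by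
    intro j
    by_cases je : j = e
    · subst je
      have e1 : a' j = h' := if_pos rfl
      rw [e1]
      refine ⟨hh', ?_⟩
      simp only [h']
      rw [nn_smul, ← s2, inv_pow, inv_mul_cancel₀ (pow_ne_zero 2 sp.ne')]
    · by_cases jr : j = r
      · subst jr
        have e1 : a' j = k' := (if_neg je).trans (if_pos rfl)
        rw [e1]
        refine ⟨hk', ?_⟩
        simp only [k']
        rw [nn_smul, ← t2, inv_pow, inv_mul_cancel₀ (pow_ne_zero 2 tp.ne')]
      · simp only [a', if_neg je, if_neg jr]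
        exact ⟨dep_of_mg ha jr, (ha j).2⟩
  have h1 := H a' ha'
  have h2 : (fun x => ∏ k, a' k x) = fun x => cG e r a x * (h' x * k' x) := by
    funext x
    rw [prod_split hne a' x]
    congr 1
    · unfold cG
      refine Finset.prod_congr rfl fun j hj => ?_
      rw [Finset.mem_compl, Finset.mem_insert, Finset.mem_singleton, not_or] at hj
      simp only [a', if_neg hj.1, if_neg hj.2]
    · have e1 : a' e = h' := if_pos rfl
      have e2 : a' r = k' := (if_neg hne.symm).trans (if_pos rfl)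
      rw [e1, e2]
  rw [h2, ip_split hne ha hh' hk'] at h1
  have h3 : ip (fun x => a e x * a r x) (fun x => h' x * k' x) =
      ((s⁻¹ * t⁻¹ : ℝ) : ℂ) * ip (fun x => a e x * a r x) (fun x => h x * k x) := by
    unfold ip
    rw [← av_cmul]
    congr 1
    funext x
    simp only [h', k', map_mul, Complex.conj_ofReal, Complex.ofReal_mul]
    ring
  rw [h3, norm_mul, Complex.norm_real, Real.norm_eq_abs, abs_of_pos (by positivity)] at h1
  have h4 : √(nn h * nn k) = s * t := Real.sqrt_mul hp.le _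
  rw [h4]
  calc ‖ip (fun x => a e x * a r x) (fun x => h x * k x)‖ =
      (s * t) * (s⁻¹ * t⁻¹ * ‖ip (fun x => a e x * a r x) (fun x => h x * k x)‖) := by
        field_simp
    _ ≤ (s * t) * L := mul_le_mul_of_nonneg_left h1 (by positivity)
    _ = L * (s * t) := mul_comm _ _

/-- The acceptance of a product of coarse cells which correlates with no product of the fine
cells. -/
theorem Pc_le_of_corr {cell : ι → κ} {e r : κ} (hne : e ≠ r) {a : κ → (∀ i, α i) → ℂ}
    (ha : Pr (mg cell e r) a) {L : ℝ} (hL : 0 ≤ L)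
    (H : ∀ a', Pr cell a' → ‖ip (fun x => ∏ k, a k x) (fun x => ∏ k, a' k x)‖ ≤ L) :
    Pc cell (fun x => ∏ k, a k x) ≤ 1 / 2 + L / 2 := by
  set g : (∀ i, α i) → ℂ := fun x => ∏ k, a k x with hg
  have hgn : nn g = 1 := nn_Pr ha
  have h1 : ∀ A : Finset κ, (bt cell A g).re ≤ 1 := fun A =>
    (Complex.re_le_norm _).trans (norm_bt_le cell A hgn)
  have h2 : ∀ A : Finset κ, ¬ (e ∈ A ↔ r ∈ A) → (bt cell A g).re ≤ L := by
    intro A hA
    refine (Complex.re_le_norm _).trans ?_
    rw [hg, bt_split hne ha A]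
    exact bt_le_of_sep' cell hA (cb_dep ha) (cb_nn hne ha) hL fun h k hh hk =>
      ip_hk hne ha hL H hh hk
  have h3 : Pc cell g = avg fun A : Finset κ => (bt cell A g).re := by
    rw [← av_re, ← Pc_eq, Complex.ofReal_re]
  have h4 : (avg fun A : Finset κ => (bt cell (symmDiff A {e}) g).re) =
      avg fun A : Finset κ => (bt cell A g).re :=
    avg_equiv (Equiv.ofBijective (fun A : Finset κ => symmDiff A {e})
      (symmDiff_left_involutive _).bijective) (fun A => (bt cell A g).re)
  have h5 : (avg fun A : Finset κ => (bt cell A g).re) +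
      (avg fun A : Finset κ => (bt cell (symmDiff A {e}) g).re) ≤ 1 + L := by
    rw [← avg_add]
    refine (avg_mono fun A => ?_).trans_eq (avg_const (1 + L))
    by_cases hA : (e ∈ A ↔ r ∈ A)
    · have hA' : ¬ (e ∈ symmDiff A {e} ↔ r ∈ symmDiff A {e}) := by
        simp only [Finset.mem_symmDiff, Finset.mem_singleton]
        have := hne.symm
        tauto
      have := h1 A
      have := h2 _ hA'
      linarith
    · have := h2 A hA
      have := h1 (symmDiff A {e})
      linarith
  rw [h4] at h5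
  rw [h3]
  linarith

theorem Pc_sub_le (cell : ι → κ) {f g : (∀ i, α i) → ℂ} (hf : nn f = 1) (hg : nn g = 1) :
    Pc cell f ≤ Pc cell g + 4 * √(nn fun x => f x - g x) := by
  have h3 : ∀ g : (∀ i, α i) → ℂ, Pc cell g = avg fun A : Finset κ => (bt cell A g).re := by
    intro g
    rw [← av_re, ← Pc_eq, Complex.ofReal_re]
  rw [h3, h3]
  have h4 : (avg fun A : Finset κ => (bt cell A g).re) + 4 * √(nn fun x => f x - g x) =
      avg fun A : Finset κ => (bt cell A g).re + 4 * √(nn fun x => f x - g x) := by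
    rw [avg_add, avg_const]
  rw [h4]
  refine avg_mono fun A => ?_
  have h5 := bt_sub_le cell A hf hg
  have h6 := Complex.re_le_norm (bt cell A f - bt cell A g)
  rw [Complex.sub_re] at h6
  linarith

theorem Pc_rot (cell : ι → κ) (f : (∀ i, α i) → ℂ) {ω : ℂ} (hω : ‖ω‖ = 1) :
    Pc cell (fun x => ω * f x) = Pc cell f := by
  unfold Pc
  congr 1; funext x; congr 1; funext y
  have h : (av fun A : Finset κ => ω * f (mx cell A x y) * (ω * f (mx cell A y x))) =
      ω ^ 2 * av fun A : Finset κ => f (mx cell A x y) * f (mx cell A y x) := by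
    rw [← av_cmul]
    congr 1
    funext A
    ring
  rw [h, norm_mul, norm_pow, hω]
  simp

/-- The jump. -/
theorem jump {cell : ι → κ} {e r : κ} (hne : e ≠ r) {f : (∀ i, α i) → ℂ} (hf : nn f = 1)
    {a : κ → (∀ i, α i) → ℂ} (ha : Pr (mg cell e r) a)
    (h1 : 1 - ‖ip f (fun x => ∏ k, a k x)‖ ^ 2 ≤ 1 / 2 ^ 23)
    (h2 : ∀ a', Pr cell a' → 1 / 64 ≤ 1 - ‖ip f (fun x => ∏ k, a' k x)‖ ^ 2) :
    Pc cell f ≤ 1 - 1 / 1024 := by
  set g : (∀ i, α i) → ℂ := fun x => ∏ k, a k x with hg
  have hgn : nn g = 1 := nn_Pr ha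
  set z : ℂ := ip f g with hz
  have hz1 : ‖z‖ ≤ 1 := by
    have := norm_ip_le f g
    rw [hf, hgn] at this
    simpa using this
  have hz0 : 0 < ‖z‖ := by
    rw [norm_pos_iff]
    intro h0
    rw [h0] at h1
    norm_num at h1
  set ω : ℂ := (starRingEnd ℂ) z / ‖z‖ with hω'
  have hω : ‖ω‖ = 1 := by
    rw [hω', norm_div, Complex.norm_conj, Complex.norm_real, norm_norm, div_self hz0.ne']
  set f' : (∀ i, α i) → ℂ := fun x => ω * f x with hf'
  have hf'n : nn f' = 1 := by
    rw [← hf]
    simp only [nn_eq, hf', norm_mul, hω, one_mul]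
  have hip : ∀ h : (∀ i, α i) → ℂ, ip f' h = ω * ip f h := by
    intro h
    unfold ip
    rw [← av_cmul]
    congr 1
    funext x
    simp only [hf']
    ring
  have hz2 : ip f' g = (‖z‖ : ℂ) := by
    rw [hip, ← hz, hω', div_mul_eq_mul_div, mul_comm, Complex.mul_conj,
      Complex.normSq_eq_norm_sq, Complex.ofReal_pow, sq, mul_div_assoc, div_self, mul_one]
    exact_mod_cast hz0.ne'
  have hd : nn (fun x => f' x - g x) ≤ 1 / 2 ^ 22 := by
    rw [nn_sub, hf'n, hgn, hz2, Complex.ofReal_re]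
    nlinarith [sq_nonneg (‖z‖ - 1), h1]
  have hsd : √(nn (fun x => f' x - g x)) ≤ 1 / 2048 := by
    refine Real.sqrt_le_iff.mpr ⟨by norm_num, hd.trans (by norm_num)⟩
  have hL : ∀ a', Pr cell a' → ‖ip g (fun x => ∏ k, a' k x)‖ ≤ 127 / 128 + 1 / 2048 := by
    intro a' ha'
    set q : (∀ i, α i) → ℂ := fun x => ∏ k, a' k x with hq
    have hqn : nn q = 1 := nn_Pr ha'
    have e1 : ip g q = ip f' q - ip (fun x => f' x - g x) q := by
      unfold ip
      rw [← av_sub]
      congr 1
      funext x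
      ring
    have e2 : ‖ip f' q‖ ≤ 127 / 128 := by
      rw [hip, norm_mul, hω, one_mul]
      have := h2 a' ha'
      rw [← hq] at this
      refine le_of_not_gt fun hc => ?_
      nlinarith [norm_nonneg (ip f q)]
    have e3 : ‖ip (fun x => f' x - g x) q‖ ≤ 1 / 2048 := by
      have := norm_ip_le (fun x => f' x - g x) q
      rw [hqn, Real.sqrt_one, mul_one] at this
      exact this.trans hsd
    rw [e1]
    exact (norm_sub_le _ _).trans (add_le_add e2 e3)
  have h3 := Pc_le_of_corr hne ha (by norm_num) hL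
  have h4 := Pc_sub_le cell hf'n hgn
  have h5 := Pc_rot cell f hω
  rw [← h5]
  have h6 : Pc cell (fun x => ∏ k, a k x) = Pc cell g := rfl
  rw [h6] at h3
  have h7 : Pc cell (fun x => ω * f x) = Pc cell f' := rfl
  rw [h7]
  linarith

end Pool.Agent.MP_ca1109_lc.OvP
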