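import Pool.Agent.MP_ca1109_lc.Ov.PC4

/-!
# The product test: partial contractions with a product
-/

namespace Pool.Agent.MP_ca1109_lc.OvP

open Finset Pool.Agent.MP_ca1109_lc.Mpg Pool.Agent.MP_ca1109_lc.Agp


variable {ι κ : Type*} {α : ι → Type*} [DecidableEq κ] [Fintype ι] [DecidableEq ι]
  [∀ i, Fintype (α i)] [Fintype κ] [∀ i, Nonempty (α i)]

/-- The contraction of `w` with the factors in `A`. -/
noncomputable def qA (cell : ι → κ) (a : κ → (∀ i, α i) → ℂ) (A : Finset κ)
    (w : (∀ i, α i) → ℂ) (x : ∀ i, α i) : ℂ :=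
  av fun y => (starRingEnd ℂ) (∏ k ∈ A, a k y) * w (mx cell A y x)

/-- The projection to the factors in `A`. -/
noncomputable def pA (cell : ι → κ) (a : κ → (∀ i, α i) → ℂ) (A : Finset κ)
    (w : (∀ i, α i) → ℂ) (x : ∀ i, α i) : ℂ :=
  (∏ k ∈ A, a k x) * qA cell a A w x

theorem resample (cell : ι → κ) (A : Finset κ) (f : (∀ i, α i) → ℂ) :
    (av fun x => av fun y => f (mx cell A y x)) = av f := by
  rw [av_comm]
  exact av_mx cell A f

theorem qA_dep (cell : ι → κ) (a : κ → (∀ i, α i) → ℂ) (A : Finset κ)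
    (w : (∀ i, α i) → ℂ) : Dep cell Aᶜ (qA cell a A w) := by
  intro x x' hx
  unfold qA
  congr 1
  funext y
  congr 2
  funext i
  by_cases h : cell i ∈ A
  · simp [mx, h]
  · simp [mx, h, hx i (Finset.mem_compl.mpr h)]

variable {cell : ι → κ} {a : κ → (∀ i, α i) → ℂ} (ha : Pr cell a)

include ha in
theorem aA_dep (A : Finset κ) : Dep cell A (fun x => ∏ k ∈ A, a k x) :=
  Dep.prod fun k hk => (ha k).1.mono (Finset.singleton_subset_iff.mpr hk)

include ha in
theorem aA_nn (A : Finset κ) : nn (fun x => ∏ k ∈ A, a k x) = 1 := by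
  rw [nn_prod cell A a fun k _ => (ha k).1]
  exact Finset.prod_eq_one fun k _ => (ha k).2

include ha in
theorem pA_nn (A : Finset κ) (w : (∀ i, α i) → ℂ) : nn (pA cell a A w) = nn (qA cell a A w) := by
  unfold pA
  rw [nn_mul (aA_dep ha A) (qA_dep cell a A w), aA_nn ha, one_mul]

theorem pA_empty (w : (∀ i, α i) → ℂ) : pA cell a ∅ w = w := by
  funext x
  have h : ∀ y : ∀ i, α i, mx cell ∅ y x = x := fun y => by
    funext i
    simp [mx]
  unfold pA qA
  simp [h, av_cst]

theorem pA_sub (A : Finset κ) (v w : (∀ i, α i) → ℂ) :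
    pA cell a A (fun x => v x - w x) = fun x => pA cell a A v x - pA cell a A w x := by
  funext x
  unfold pA qA
  rw [← mul_sub, ← av_sub]
  congr 2
  funext y
  ring

include ha in
theorem aA_mx_of_not {A : Finset κ} {e : κ} (he : e ∉ A) (z x : ∀ i, α i) :
    ∏ k ∈ A, a k (mx cell {e} z x) = ∏ k ∈ A, a k x := by
  refine aA_dep ha A _ _ fun i hi => ?_
  have : cell i ≠ e := fun h => he (h ▸ hi)
  simp [mx, this]

include ha in
theorem ae_mx_of_not {A : Finset κ} {e : κ} (he : e ∉ A) (y x : ∀ i, α i) :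
    a e (mx cell A y x) = a e x := by
  refine (ha e).1 _ _ fun i hi => ?_
  rw [Finset.mem_singleton] at hi
  simp [mx, hi, he]

include ha in
theorem ae_mx (e : κ) (y x : ∀ i, α i) : a e (mx cell {e} y x) = a e y := by
  refine (ha e).1 _ _ fun i hi => ?_
  rw [Finset.mem_singleton] at hi
  simp [mx, hi]

theorem mx_ins {A : Finset κ} {e : κ} (z y x : ∀ i, α i) :
    mx cell (insert e A) (mx cell {e} z y) x = mx cell {e} z (mx cell A y x) := by
  funext i
  by_cases h : cell i = e <;> by_cases h2 : cell i ∈ A <;> simp [mx, h, h2]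

theorem mx_ins' {A : Finset κ} {e : κ} (he : e ∉ A) (z y x : ∀ i, α i) :
    mx cell {e} z (mx cell A y x) = mx cell A y (mx cell {e} z x) := by
  funext i
  by_cases h : cell i = e
  · subst h
    simp [mx, he]
  · simp [mx, h]

include ha in
/-- The common form of the two compositions. -/
theorem pA_ins {A : Finset κ} {e : κ} (he : e ∉ A) (v : (∀ i, α i) → ℂ) (x : ∀ i, α i) :
    pA cell a (insert e A) v x = (a e x * ∏ k ∈ A, a k x) *
      av fun y => av fun z => (starRingEnd ℂ) (∏ k ∈ A, a k y) * ((starRingEnd ℂ) (a e z) *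
        v (mx cell {e} z (mx cell A y x))) := by
  unfold pA qA
  rw [Finset.prod_insert he]
  congr 1
  rw [← resample cell {e} (fun y => (starRingEnd ℂ) (∏ k ∈ insert e A, a k y) *
    v (mx cell (insert e A) y x))]
  congr 1; funext y; congr 1; funext z
  rw [Finset.prod_insert he, ae_mx ha, aA_mx_of_not ha he, mx_ins, map_mul]
  ring

include ha in
theorem pA_pe {A : Finset κ} {e : κ} (he : e ∉ A) (v : (∀ i, α i) → ℂ) :
    pA cell a A (pA cell a {e} v) = pA cell a (insert e A) v := by
  funext x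
  rw [pA_ins ha he]
  unfold pA qA
  simp only [Finset.prod_singleton]
  have h : ∀ y, (starRingEnd ℂ) (∏ k ∈ A, a k y) * (a e (mx cell A y x) *
      av fun z => (starRingEnd ℂ) (a e z) * v (mx cell {e} z (mx cell A y x))) =
      a e x * av fun z => (starRingEnd ℂ) (∏ k ∈ A, a k y) * ((starRingEnd ℂ) (a e z) *
        v (mx cell {e} z (mx cell A y x))) := by
    intro y
    rw [ae_mx_of_not ha he, av_cmul]
    ring
  simp only [h]
  rw [av_cmul]
  ring

include ha in
theorem pe_pA {A : Finset κ} {e : κ} (he : e ∉ A) (v : (∀ i, α i) → ℂ) :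
    pA cell a {e} (pA cell a A v) = pA cell a (insert e A) v := by
  funext x
  rw [pA_ins ha he]
  unfold pA qA
  simp only [Finset.prod_singleton]
  have h : ∀ z, (starRingEnd ℂ) (a e z) * ((∏ k ∈ A, a k (mx cell {e} z x)) *
      av fun y => (starRingEnd ℂ) (∏ k ∈ A, a k y) * v (mx cell A y (mx cell {e} z x))) =
      (∏ k ∈ A, a k x) * av fun y => (starRingEnd ℂ) (∏ k ∈ A, a k y) *
        ((starRingEnd ℂ) (a e z) * v (mx cell {e} z (mx cell A y x))) := by
    intro z
    have h2 : (fun y => (starRingEnd ℂ) (∏ k ∈ A, a k y) *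
        ((starRingEnd ℂ) (a e z) * v (mx cell {e} z (mx cell A y x)))) = fun y =>
        (starRingEnd ℂ) (a e z) * ((starRingEnd ℂ) (∏ k ∈ A, a k y) *
          v (mx cell A y (mx cell {e} z x))) := by
      funext y
      rw [mx_ins' he]
      ring
    rw [aA_mx_of_not ha he, h2, av_cmul]
    ring
  simp only [h]
  rw [av_cmul, av_comm]
  ring

include ha in
theorem ip_pA (A : Finset κ) (u : (∀ i, α i) → ℂ) :
    ip u (pA cell a A u) = (nn (pA cell a A u) : ℂ) := by
  rw [pA_nn ha, ← ip_self]
  unfold ip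
  rw [← resample cell A]
  congr 1
  funext x
  have h1 : ∀ y, u (mx cell A y x) * (starRingEnd ℂ) (pA cell a A u (mx cell A y x)) =
      ((starRingEnd ℂ) (∏ k ∈ A, a k y) * u (mx cell A y x)) *
        (starRingEnd ℂ) (qA cell a A u x) := by
    intro y
    have e1 : qA cell a A u (mx cell A y x) = qA cell a A u x := qA_dep cell a A u _ _
      fun i hi => by simp [mx, Finset.mem_compl.mp hi]
    have e2 : ∏ k ∈ A, a k (mx cell A y x) = ∏ k ∈ A, a k y := aA_dep ha A _ _
      fun i hi => by simp [mx, hi]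
    unfold pA
    rw [e1, e2, map_mul]
    ring
  simp only [h1]
  rw [av_mulc]
  rfl

include ha in
theorem pyth (e : κ) (u : (∀ i, α i) → ℂ) :
    nn u = nn (pA cell a {e} u) + nn (fun x => u x - pA cell a {e} u x) := by
  rw [nn_sub, ip_pA ha, Complex.ofReal_re]
  ring

include ha in
theorem pyth' {A : Finset κ} {e : κ} (he : e ∉ A) (v : (∀ i, α i) → ℂ) :
    nn (pA cell a A v) = nn (pA cell a A (pA cell a {e} v)) +
      nn (pA cell a A (fun x => v x - pA cell a {e} v x)) := by
  rw [pyth ha e (pA cell a A v), pA_sub, pe_pA ha he, pA_pe ha he]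

include ha in
theorem sum_ins (S : Finset κ) {e : κ} (he : e ∉ S) (v : (∀ i, α i) → ℂ) :
    ∑ A ∈ (insert e S).powerset, nn (pA cell a A v) =
      2 * ∑ A ∈ S.powerset, nn (pA cell a A (pA cell a {e} v)) +
        ∑ A ∈ S.powerset, nn (pA cell a A (fun x => v x - pA cell a {e} v x)) := by
  rw [Finset.sum_powerset_insert he, Finset.mul_sum, ← Finset.sum_add_distrib,
    ← Finset.sum_add_distrib]
  refine Finset.sum_congr rfl fun A hA => ?_
  have hA' : e ∉ A := fun h => he (Finset.mem_powerset.mp hA h)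
  rw [pyth' ha hA' v, pA_pe ha hA']
  ring

include ha in
theorem nn_pA_le (A : Finset κ) (v : (∀ i, α i) → ℂ) : nn (pA cell a A v) ≤ nn v := by
  have h := nn_sub v (pA cell a A v)
  rw [ip_pA ha, Complex.ofReal_re] at h
  have := nn_nonneg (fun x => v x - pA cell a A v x)
  linarith

include ha in
theorem one_ins (S : Finset κ) : ∀ v : (∀ i, α i) → ℂ,
    2 * ∑ A ∈ S.powerset, nn (pA cell a A v) ≤ 2 ^ S.card * (nn v + nn (pA cell a S v)) := by
  induction S using Finset.induction_on with
  | empty =>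
    intro v
    simp [pA_empty]
    linarith
  | insert e S he ih =>
    intro v
    rw [sum_ins ha S he v, Finset.card_insert_of_notMem he, pow_succ]
    have h1 := ih (pA cell a {e} v)
    have h2 := ih (fun x => v x - pA cell a {e} v x)
    have h3 := pyth ha e v
    rw [pA_pe ha he] at h1
    have h5 := nn_pA_le ha S (fun x => v x - pA cell a {e} v x)
    have h6 : (0 : ℝ) < 2 ^ S.card := by positivity
    nlinarith

include ha in
theorem two_ins (S : Finset κ) : ∀ v : (∀ i, α i) → ℂ,
    4 * ∑ A ∈ S.powerset, nn (pA cell a A v) ≤ 2 ^ S.card * (nn v + 3 * nn (pA cell a S v) +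
      ∑ e ∈ S, (nn (pA cell a (S.erase e) v) - nn (pA cell a S v))) := by
  induction S using Finset.induction_on with
  | empty =>
    intro v
    simp [pA_empty]
    linarith
  | insert e S he ih =>
    intro v
    rw [sum_ins ha S he v, Finset.card_insert_of_notMem he, pow_succ, Finset.sum_insert he,
      Finset.erase_insert he]
    have h1 := ih (pA cell a {e} v)
    have h2 := one_ins ha S (fun x => v x - pA cell a {e} v x)
    have h3 := pyth ha e v
    have h4 := pyth' ha he v
    rw [pA_pe ha he] at h1 h4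
    have h6 : ∑ e' ∈ S, (nn (pA cell a (S.erase e') (pA cell a {e} v)) -
        nn (pA cell a (insert e S) v)) =
        ∑ e' ∈ S, (nn (pA cell a ((insert e S).erase e') v) -
          nn (pA cell a (insert e S) v)) := by
      refine Finset.sum_congr rfl fun e' he' => ?_
      have hne : e ≠ e' := fun h => he (h ▸ he')
      have hn : e ∉ S.erase e' := fun h => he (Finset.mem_of_mem_erase h)
      rw [pA_pe ha hn, Finset.erase_insert_of_ne hne]
    rw [h6] at h1
    have h7 : (0 : ℝ) < 2 ^ S.card := by positivity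
    nlinarith

include ha in
/-- No component in at most one cell: the average is at most a quarter. -/
theorem four_sum (w : (∀ i, α i) → ℂ) (h0 : nn (pA cell a univ w) = 0)
    (h1 : ∀ e, nn (pA cell a (univ.erase e) w) = 0) :
    4 * (avg fun A : Finset κ => nn (pA cell a A w)) ≤ nn w := by
  have h := two_ins ha univ w
  have h2 : ∑ e ∈ (univ : Finset κ), (nn (pA cell a (univ.erase e) w) -
      nn (pA cell a univ w)) = 0 := by
    refine Finset.sum_eq_zero fun e _ => ?_
    rw [h1 e, h0, sub_zero]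
  rw [h2, h0, Finset.powerset_univ, Finset.card_univ] at h
  have h3 : (0 : ℝ) < 2 ^ Fintype.card κ := by positivity
  unfold avg
  rw [Fintype.card_finset]
  push_cast
  rw [mul_div_assoc', div_le_iff₀ h3]
  linarith

end Pool.Agent.MP_ca1109_lc.OvP
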