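import Pool.Agent.MP_ca1109_lc.Ov.PC8

/-!
# The product test near the best product
-/

namespace Pool.Agent.MP_ca1109_lc.OvP

open Finset Pool.Agent.MP_ca1109_lc.Mpg Pool.Agent.MP_ca1109_lc.Agp


variable {ι κ : Type*} {α : ι → Type*} [DecidableEq κ] [Fintype ι] [DecidableEq ι]
  [∀ i, Fintype (α i)] [Fintype κ] [∀ i, Nonempty (α i)]

theorem T4_lin1 (cell : ι → κ) (A : Finset κ) (c : ℂ) (g w f₂ f₃ f₄ : (∀ i, α i) → ℂ) :
    T4 cell A (fun x => c * g x + w x) f₂ f₃ f₄ =
      c * T4 cell A g f₂ f₃ f₄ + T4 cell A w f₂ f₃ f₄ := by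
  unfold T4
  rw [← av_cmul, ← av_add]
  congr 1; funext x
  rw [← av_cmul, ← av_add]
  congr 1; funext y
  ring

theorem T4_lin2 (cell : ι → κ) (A : Finset κ) (c : ℂ) (g w f₁ f₃ f₄ : (∀ i, α i) → ℂ) :
    T4 cell A f₁ (fun x => c * g x + w x) f₃ f₄ =
      c * T4 cell A f₁ g f₃ f₄ + T4 cell A f₁ w f₃ f₄ := by
  unfold T4
  rw [← av_cmul, ← av_add]
  congr 1; funext x
  rw [← av_cmul, ← av_add]
  congr 1; funext y
  ring

theorem T4_lin3 (cell : ι → κ) (A : Finset κ) (c : ℂ) (g w f₁ f₂ f₄ : (∀ i, α i) → ℂ) :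
    T4 cell A f₁ f₂ (fun x => c * g x + w x) f₄ =
      (starRingEnd ℂ) c * T4 cell A f₁ f₂ g f₄ + T4 cell A f₁ f₂ w f₄ := by
  unfold T4
  rw [← av_cmul, ← av_add]
  congr 1; funext x
  rw [← av_cmul, ← av_add]
  congr 1; funext y
  rw [map_add, map_mul]
  ring

theorem T4_lin4 (cell : ι → κ) (A : Finset κ) (c : ℂ) (g w f₁ f₂ f₃ : (∀ i, α i) → ℂ) :
    T4 cell A f₁ f₂ f₃ (fun x => c * g x + w x) =
      (starRingEnd ℂ) c * T4 cell A f₁ f₂ f₃ g + T4 cell A f₁ f₂ f₃ w := by
  unfold T4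
  rw [← av_cmul, ← av_add]
  congr 1; funext x
  rw [← av_cmul, ← av_add]
  congr 1; funext y
  rw [map_add, map_mul]
  ring

theorem T4_herm (cell : ι → κ) (A : Finset κ) (f₁ f₂ f₃ f₄ : (∀ i, α i) → ℂ) :
    T4 cell A f₁ f₂ f₃ f₄ = (starRingEnd ℂ) (T4 cell A f₃ f₄ f₁ f₂) := by
  unfold T4
  rw [← av_conj, ← av_swap cell A]
  congr 1; funext x
  rw [← av_conj]
  congr 1; funext y
  rw [mx_mx, mx_mx]
  simp only [map_mul, Complex.conj_conj]
  ring

theorem T4_symm (cell : ι → κ) (A : Finset κ) (f₁ f₂ f₃ f₄ : (∀ i, α i) → ℂ) :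
    T4 cell A f₁ f₂ f₃ f₄ = T4 cell A f₂ f₁ f₄ f₃ := by
  unfold T4
  rw [av_comm]
  congr 1; funext x; congr 1; funext y
  ring

theorem T4_compl (cell : ι → κ) (A : Finset κ) (f₁ f₂ f₃ f₄ : (∀ i, α i) → ℂ) :
    T4 cell Aᶜ f₁ f₂ f₃ f₄ = T4 cell A f₁ f₂ f₄ f₃ := by
  unfold T4
  congr 1; funext x; congr 1; funext y
  rw [mx_compl, mx_compl]
  ring

variable {cell : ι → κ} {a : κ → (∀ i, α i) → ℂ} (ha : Pr cell a)

include ha in
theorem g_mx (A : Finset κ) (x y : ∀ i, α i) :
    (∏ k, a k (mx cell A x y)) * (∏ k, a k (mx cell A y x)) = (∏ k, a k x) * ∏ k, a k y := by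
  rw [← Finset.prod_mul_distrib, ← Finset.prod_mul_distrib]
  refine Finset.prod_congr rfl fun k _ => ?_
  have hd := (ha k).1
  by_cases hA : k ∈ A
  · have h1 : a k (mx cell A x y) = a k x := hd _ _ fun i hi => by
      rw [Finset.mem_singleton] at hi
      simp [mx, hi, hA]
    have h2 : a k (mx cell A y x) = a k y := hd _ _ fun i hi => by
      rw [Finset.mem_singleton] at hi
      simp [mx, hi, hA]
    rw [h1, h2]
  · have h1 : a k (mx cell A x y) = a k y := hd _ _ fun i hi => by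
      rw [Finset.mem_singleton] at hi
      simp [mx, hi, hA]
    have h2 : a k (mx cell A y x) = a k x := hd _ _ fun i hi => by
      rw [Finset.mem_singleton] at hi
      simp [mx, hi, hA]
    rw [h1, h2, mul_comm]

include ha in
theorem T4_gg (A : Finset κ) (u v : (∀ i, α i) → ℂ) :
    T4 cell A u v (fun x => ∏ k, a k x) (fun x => ∏ k, a k x) =
      ip u (fun x => ∏ k, a k x) * ip v (fun x => ∏ k, a k x) := by
  unfold T4 ip
  rw [← av_mulc]
  congr 1; funext x
  rw [← av_cmul]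
  congr 1; funext y
  rw [mul_assoc, ← map_mul, g_mx ha, map_mul]
  ring

include ha in
theorem T4_gg' (A : Finset κ) (u v : (∀ i, α i) → ℂ) :
    T4 cell A (fun x => ∏ k, a k x) (fun x => ∏ k, a k x) u v =
      (starRingEnd ℂ) (ip u (fun x => ∏ k, a k x) * ip v (fun x => ∏ k, a k x)) := by
  rw [T4_herm, T4_gg ha]

include ha in
/-- The mixed term is the squared norm of the contraction. -/
theorem T4_gw (A : Finset κ) (w : (∀ i, α i) → ℂ) :
    T4 cell A (fun x => ∏ k, a k x) w (fun x => ∏ k, a k x) w = (nn (pA cell a Aᶜ w) : ℂ) := by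
  rw [pA_nn ha, ← ip_self]
  have hA := aA_dep ha A
  have hA' := aA_dep ha Aᶜ
  have hs : ∀ x : ∀ i, α i, ∏ k, a k x = (∏ k ∈ A, a k x) * ∏ k ∈ Aᶜ, a k x := fun x =>
    (Finset.prod_mul_prod_compl A fun k => a k x).symm
  have m1 : ∀ x y : ∀ i, α i, ∏ k ∈ A, a k (mx cell A x y) = ∏ k ∈ A, a k x := fun x y =>
    hA _ _ fun i hi => by simp [mx, hi]
  have m2 : ∀ x y : ∀ i, α i, ∏ k ∈ Aᶜ, a k (mx cell A x y) = ∏ k ∈ Aᶜ, a k y := fun x y =>
    hA' _ _ fun i hi => by simp [mx, Finset.mem_compl.mp hi]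
  have h1 : T4 cell A (fun x => ∏ k, a k x) w (fun x => ∏ k, a k x) w =
      av fun y => ((starRingEnd ℂ) (∏ k ∈ Aᶜ, a k y) * w y) *
        (starRingEnd ℂ) (qA cell a Aᶜ w y) := by
    unfold T4
    rw [av_comm]
    congr 1
    funext y
    have e1 : ∀ x, (∏ k, a k x) * w y * (starRingEnd ℂ) (∏ k, a k (mx cell A x y)) *
        (starRingEnd ℂ) (w (mx cell A y x)) = ((starRingEnd ℂ) (∏ k ∈ Aᶜ, a k y) * w y) *
        (((∏ k ∈ A, a k x) * (starRingEnd ℂ) (∏ k ∈ A, a k x)) *
          ((∏ k ∈ Aᶜ, a k x) * (starRingEnd ℂ) (w (mx cell A y x)))) := by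
      intro x
      rw [hs x, hs (mx cell A x y), m1, m2, map_mul]
      ring
    simp only [e1]
    rw [av_cmul]
    congr 1
    rw [av_indep cell (A := A) (hA.mul hA.conj) (hA'.mul ?_)]
    · have e2 : (av fun x => (∏ k ∈ A, a k x) * (starRingEnd ℂ) (∏ k ∈ A, a k x)) = 1 := by
        have := ip_self (fun x => ∏ k ∈ A, a k x)
        rw [aA_nn ha A] at this
        simpa [ip] using this
      rw [e2, one_mul, qA, ← av_conj]
      congr 1
      funext x
      rw [mx_compl, map_mul, Complex.conj_conj]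
    · intro x x' hx
      simp only
      congr 2
      funext i
      by_cases h : cell i ∈ A
      · simp [mx, h]
      · simp [mx, h, hx i (Finset.mem_compl.mpr h)]
  rw [h1]
  unfold ip
  rw [← resample cell Aᶜ]
  congr 1
  funext x
  have e3 : ∀ y, ((starRingEnd ℂ) (∏ k ∈ Aᶜ, a k (mx cell Aᶜ y x)) * w (mx cell Aᶜ y x)) *
      (starRingEnd ℂ) (qA cell a Aᶜ w (mx cell Aᶜ y x)) =
      ((starRingEnd ℂ) (∏ k ∈ Aᶜ, a k y) * w (mx cell Aᶜ y x)) *
        (starRingEnd ℂ) (qA cell a Aᶜ w x) := by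
    intro y
    have d1 : ∏ k ∈ Aᶜ, a k (mx cell Aᶜ y x) = ∏ k ∈ Aᶜ, a k y := hA' _ _ fun i hi => by
      simp [mx, Finset.mem_compl.mp hi]
    have d2 : qA cell a Aᶜ w (mx cell Aᶜ y x) = qA cell a Aᶜ w x :=
      qA_dep cell a Aᶜ w _ _ fun i hi => by
        rw [Finset.mem_compl] at hi
        simp only [mx, if_neg hi]
    rw [d1, d2]
  simp only [e3]
  rw [av_mulc]
  rfl

include ha in
/-- The rest is orthogonal to the products with one new factor. -/
theorem max_zero {f : (∀ i, α i) → ℂ}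
    (hmax : ∀ a', Pr cell a' → ‖ip f (fun x => ∏ k, a' k x)‖ ≤ ‖ip f (fun x => ∏ k, a k x)‖)
    (e : κ) : nn (pA cell a (univ.erase e)
      (fun x => f x - ip f (fun x => ∏ k, a k x) * ∏ k, a k x)) = 0 := by
  set z : ℂ := ip f (fun x => ∏ k, a k x) with hz
  set S : Finset κ := univ.erase e with hS
  have hSc : Sᶜ = {e} := by
    ext k
    simp [hS]
  set φ : (∀ i, α i) → ℂ := qA cell a S f with hφ
  have hφd : Dep cell {e} φ := by
    rw [← hSc]
    exact qA_dep cell a S f
  have hsp : ∀ b : κ → (∀ i, α i) → ℂ, ∀ x, ∏ k, b k x = b e x * ∏ k ∈ S, b k x := fun b x =>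
    (Finset.mul_prod_erase univ (fun k => b k x) (Finset.mem_univ e)).symm
  have hip : ∀ h : (∀ i, α i) → ℂ, Dep cell {e} h →
      ip f (fun x => h x * ∏ k ∈ S, a k x) = ip φ h := by
    intro h hh
    unfold ip
    rw [← resample cell S]
    congr 1
    funext x
    have e1 : ∀ y, f (mx cell S y x) * (starRingEnd ℂ) (h (mx cell S y x) *
        ∏ k ∈ S, a k (mx cell S y x)) = ((starRingEnd ℂ) (∏ k ∈ S, a k y) *
        f (mx cell S y x)) * (starRingEnd ℂ) (h x) := by
      intro y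
      have d1 : h (mx cell S y x) = h x := hh _ _ fun i hi => by
        rw [Finset.mem_singleton] at hi
        have : cell i ∉ S := by rw [hi, hS]; simp
        simp [mx, this]
      have d2 : ∏ k ∈ S, a k (mx cell S y x) = ∏ k ∈ S, a k y := aA_dep ha S _ _ fun i hi => by
        simp [mx, hi]
      rw [d1, d2, map_mul]
      ring
    simp only [e1]
    rw [av_mulc]
    rfl
  have hzφ : ip φ (a e) = z := by
    rw [← hip (a e) (ha e).1, hz]
    congr 1
    funext x
    exact (hsp a x).symm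
  have hle : nn φ ≤ ‖z‖ ^ 2 := by
    by_cases h0 : nn φ = 0
    · rw [h0]; positivity
    have hp : 0 < nn φ := lt_of_le_of_ne (nn_nonneg φ) (Ne.symm h0)
    set s : ℝ := √(nn φ) with hs
    have sp : 0 < s := Real.sqrt_pos.mpr hp
    have s2 : s ^ 2 = nn φ := Real.sq_sqrt hp.le
    let h' : (∀ i, α i) → ℂ := fun x => ((s⁻¹ : ℝ) : ℂ) * φ x
    have hh' : Dep cell {e} h' := by
      intro x y hxy
      simp only [h']
      rw [hφd x y hxy]
    let a' : κ → (∀ i, α i) → ℂ := fun j => if j = e then h' else a j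
    have e1 : a' e = h' := if_pos rfl
    have ha' : Pr cell a' := by
      intro j
      by_cases je : j = e
      · subst je
        rw [e1]
        refine ⟨hh', ?_⟩
        have : nn h' = s⁻¹ ^ 2 * nn φ := by
          simp only [nn_eq, h', norm_mul, mul_pow, Complex.norm_real, Real.norm_eq_abs, sq_abs]
          exact avg_mul_left _ _
        rw [this, ← s2, inv_pow, inv_mul_cancel₀ (pow_ne_zero 2 sp.ne')]
      · have e2 : a' j = a j := if_neg je
        rw [e2]
        exact ha j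
    have h1 := hmax a' ha'
    have h2 : (fun x => ∏ k, a' k x) = fun x => h' x * ∏ k ∈ S, a k x := by
      funext x
      rw [hsp a' x, e1]
      congr 1
      refine Finset.prod_congr rfl fun j hj => ?_
      have : j ≠ e := by
        rw [hS] at hj
        exact Finset.ne_of_mem_erase hj
      simp only [a', if_neg this]
    rw [h2, hip h' hh'] at h1
    have h3 : ip φ h' = (s : ℂ) := by
      have : ip φ h' = ((s⁻¹ : ℝ) : ℂ) * ip φ φ := by
        unfold ip
        rw [← av_cmul]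
        congr 1
        funext x
        simp only [h', map_mul, Complex.conj_ofReal]
        ring
      rw [this, ip_self, ← s2]
      push_cast
      field_simp
    rw [h3, Complex.norm_real, Real.norm_eq_abs, abs_of_pos sp] at h1
    rw [← s2]
    exact pow_le_pow_left₀ sp.le h1 2
  have hq : qA cell a S (fun x => f x - z * ∏ k, a k x) = fun x => φ x - z * a e x := by
    funext x
    have e1 : qA cell a S (fun x => f x - z * ∏ k, a k x) x =
        φ x - z * qA cell a S (fun x => ∏ k, a k x) x := by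
      simp only [hφ, qA]
      rw [← av_cmul, ← av_sub]
      congr 1
      funext y
      ring
    rw [e1]
    congr 2
    have e2 : ∀ y, (starRingEnd ℂ) (∏ k ∈ S, a k y) * ∏ k, a k (mx cell S y x) =
        ((∏ k ∈ S, a k y) * (starRingEnd ℂ) (∏ k ∈ S, a k y)) * a e x := by
      intro y
      have d1 : a e (mx cell S y x) = a e x := (ha e).1 _ _ fun i hi => by
        rw [Finset.mem_singleton] at hi
        have : cell i ∉ S := by rw [hi, hS]; simp
        simp [mx, this]
      have d2 : ∏ k ∈ S, a k (mx cell S y x) = ∏ k ∈ S, a k y := aA_dep ha S _ _ fun i hi => by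
        simp [mx, hi]
      rw [hsp a (mx cell S y x), d1, d2]
      ring
    unfold qA
    simp only [e2]
    rw [av_mulc]
    have e3 : (av fun x => (∏ k ∈ S, a k x) * (starRingEnd ℂ) (∏ k ∈ S, a k x)) = 1 := by
      have := ip_self (fun x => ∏ k ∈ S, a k x)
      rw [aA_nn ha S] at this
      simpa [ip] using this
    rw [e3, one_mul]
  rw [pA_nn ha, hq]
  have h5 := nn_sub φ (fun x => z * a e x)
  have h6 : nn (fun x => z * a e x) = ‖z‖ ^ 2 := by
    have : nn (fun x => z * a e x) = ‖z‖ ^ 2 * nn (a e) := by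
      simp only [nn_eq, norm_mul, mul_pow]
      exact avg_mul_left _ _
    rw [this, (ha e).2, mul_one]
  have h7 : ip φ (fun x => z * a e x) = ((‖z‖ ^ 2 : ℝ) : ℂ) := by
    have : ip φ (fun x => z * a e x) = (starRingEnd ℂ) z * ip φ (a e) := by
      unfold ip
      rw [← av_cmul]
      congr 1
      funext x
      rw [map_mul]
      ring
    rw [this, hzφ, mul_comm, Complex.mul_conj, Complex.normSq_eq_norm_sq]
  rw [h6, h7, Complex.ofReal_re] at h5
  have h8 := nn_nonneg (fun x => φ x - z * a e x)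
  linarith

end Pool.Agent.MP_ca1109_lc.OvP
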