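import Pool.Agent.MP_ca1109_lc.Ov.CS
import Pool.Agent.MP_ca1109_lc.Ov.SP
import Pool.Agent.MP_ca1109_lc.Ov.HR

/-!
# Product tests over overlapping blocks: the product form of the structure theorem
-/

namespace Pool.Agent.MP_ca1109_lc.Ov

open Finset Pool.Agent.H66 Pool.Agent.MP_ca1109_lc.Mpg

section one

variable {X : Type} [Fintype X] [Nonempty X]

omit [Nonempty X] in
/-- The average of a real part. -/
theorem sa_av_re (g : X → ℂ) : (av g).re = avg fun x => (g x).re := by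
  unfold av avg
  rw [Complex.div_natCast_re, Complex.re_sum]

omit [Nonempty X] in
theorem sa_av_const_mul (c : ℂ) (g : X → ℂ) : (av fun x => c * g x) = c * av g := by
  unfold av
  rw [← Finset.mul_sum, mul_div_assoc]

theorem sa_av_sub_one (g : X → ℂ) : (av fun x => g x - 1) = av g - 1 := by
  unfold av
  rw [Finset.sum_sub_distrib, sub_div, Finset.sum_const, Finset.card_univ, nsmul_eq_mul, mul_one,
    div_self]
  exact_mod_cast Fintype.card_ne_zero

/-- For unimodular `g` and `c`: the mean square of `g - c`. -/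
theorem sa_sq (g : X → ℂ) (hg : ∀ x, ‖g x‖ = 1) {c : ℂ} (hc : ‖c‖ = 1) :
    (avg fun x => ‖g x - c‖ ^ 2) = 2 - 2 * ((starRingEnd ℂ) c * av g).re := by
  have h1 : ∀ x, ‖g x - c‖ ^ 2 = 2 - 2 * ((starRingEnd ℂ) c * g x).re := by
    intro x
    have h2 := hg x
    rw [← Complex.normSq_eq_norm_sq, Complex.normSq_sub, Complex.normSq_eq_norm_sq,
      Complex.normSq_eq_norm_sq, h2, hc, mul_comm ((starRingEnd ℂ) c)]
    ring
  simp only [h1]
  rw [avg_sub, avg_const, avg_mul_left, ← sa_av_const_mul, sa_av_re]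

/-- The phase of a complex number. -/
theorem sa_phase (a : ℂ) : ∃ l : ℂ, ‖l‖ = 1 ∧ (starRingEnd ℂ) l * a = (‖a‖ : ℂ) := by
  by_cases h : a = 0
  · exact ⟨1, by simp, by simp [h]⟩
  · have hn : (‖a‖ : ℂ) ≠ 0 := by exact_mod_cast norm_ne_zero_iff.mpr h
    refine ⟨a / ‖a‖, ?_, ?_⟩
    · rw [norm_div, Complex.norm_real, norm_norm, div_self (norm_ne_zero_iff.mpr h)]
    · rw [map_div₀, Complex.conj_ofReal, div_mul_eq_mul_div, mul_comm, Complex.mul_conj,
        Complex.normSq_eq_norm_sq]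
      field_simp
      push_cast
      ring

/-- Centring: a unimodular function near a constant. -/
theorem sa_centre (h : X → ℂ) (hh : ∀ x, ‖h x‖ = 1) {κ : ℂ} (hκ : ‖κ‖ = 1) :
    ∃ l : ℂ, ‖l‖ = 1 ∧ (av fun x => (starRingEnd ℂ) l * h x - 1).im = 0 ∧
      0 ≤ 1 + (av fun x => (starRingEnd ℂ) l * h x - 1).re ∧
      (avg fun x => ‖(starRingEnd ℂ) l * h x - 1‖ ^ 2) ≤ avg fun x => ‖h x - κ‖ ^ 2 := by
  obtain ⟨l, hl, hla⟩ := sa_phase (av h)
  have hm : (av fun x => (starRingEnd ℂ) l * h x - 1) = (‖av h‖ : ℂ) - 1 := by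
    rw [sa_av_sub_one, sa_av_const_mul, hla]
  refine ⟨l, hl, ?_, ?_, ?_⟩
  · rw [hm]; simp
  · rw [hm]; simp
  · rw [sa_sq h hh hκ, sa_sq (fun x => (starRingEnd ℂ) l * h x) (fun x => by
      rw [norm_mul, hh x, mul_one, RCLike.norm_conj, hl]) (c := 1) (by simp), map_one, one_mul,
      sa_av_const_mul, hla]
    have h3 : ((starRingEnd ℂ) κ * av h).re ≤ ‖av h‖ := by
      refine (Complex.re_le_norm _).trans ?_
      rw [norm_mul, RCLike.norm_conj, hκ, one_mul]
    rw [Complex.ofReal_re]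
    linarith

end one

theorem st_form (r : ℕ) {ε : ℝ} (hε : 0 < ε) : ∃ Lam : ℝ, ∀ {E J : Type} [Fintype E]
    [DecidableEq E] [Fintype J] [DecidableEq J] {Ω : E → Type} [∀ e, Fintype (Ω e)]
    [∀ e, Nonempty (Ω e)] {B : J → Finset E} {f : J → (∀ e, Ω e) → ℂ}, Fam r B f →
    ε ≤ Sh (fun x => ∏ j, f j x) →
    ∃ (κ : ℂ) (w : ∀ e, Ω e → ℂ) (z : J → (∀ e, Ω e) → ℂ), ‖κ‖ = 1 ∧ (∀ e a, ‖w e a‖ = 1) ∧
      (∀ e, (∀ j, e ∉ B j) → ∀ a, w e a = 1) ∧ Zf r Lam B z ∧
      ∀ x, ∏ j, f j x = κ * (∏ e, w e (x e)) * ∏ j, (1 + z j x) := by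
  obtain ⟨C, hC, hcut⟩ := cut_sum (r := max r 1) (le_max_right _ _)
  have hC' : (0 : ℝ) ≤ 2 ^ 27 := by positivity
  set m : ℕ := 2 * 4 ^ (max r 1 - 1) with hm
  have hm1 : 1 ≤ m := by
    have : 0 < 4 ^ (max r 1 - 1) := by positivity
    omega
  refine ⟨2 ^ 27 * (m ^ 4 * (C * Real.log (1 / ε))), ?_⟩
  intro E J _ _ _ _ Ω _ _ B f hf hS
  have hf' : Fam (max r 1) B f :=
    ⟨hf.dep, hf.uni, fun e => (hf.rd e).trans (le_max_left _ _), hf.lin⟩
  have hsum := hcut hf' hε hS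
  choose u κ hκ hu hu1 hav using fun j => hm_round (hf.dep j) (hf.uni j)
  set P : J → (∀ e, Ω e) → ℂ := fun j x => ∏ e, u j e (x e) with hP
  have hPn : ∀ j x, ‖P j x‖ = 1 := by
    intro j x
    rw [hP]
    simp only [norm_prod]
    exact Finset.prod_eq_one fun e _ => hu j e (x e)
  have hPP : ∀ j x, (starRingEnd ℂ) (P j x) * P j x = 1 := by
    intro j x
    rw [mul_comm, Complex.mul_conj, Complex.normSq_eq_norm_sq, hPn j x]
    simp
  have hPd : ∀ j, Dep (B j) (P j) := by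
    intro j x y hxy
    refine Finset.prod_congr rfl fun e _ => ?_
    by_cases he : e ∈ B j
    · rw [hxy e he]
    · rw [hu1 j e he, hu1 j e he]
  choose l hl him hre hsq using fun j => sa_centre (fun x => f j x * (starRingEnd ℂ) (P j x))
    (fun x => by rw [norm_mul, hf.uni j x, RCLike.norm_conj, hPn j x, one_mul]) (hκ j)
  have hll : ∀ j, l j * (starRingEnd ℂ) (l j) = 1 := by
    intro j
    rw [Complex.mul_conj, Complex.normSq_eq_norm_sq, hl j]
    simp
  refine ⟨∏ j, l j, fun e a => ∏ j, u j e a,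
    fun j x => (starRingEnd ℂ) (l j) * (f j x * (starRingEnd ℂ) (P j x)) - 1, ?_, ?_, ?_, ?_, ?_⟩
  · rw [norm_prod]
    exact Finset.prod_eq_one fun j _ => hl j
  · intro e a
    rw [norm_prod]
    exact Finset.prod_eq_one fun j _ => hu j e a
  · intro e he a
    exact Finset.prod_eq_one fun j _ => hu1 j e (he j) a
  · refine ⟨?_, ?_, him, hre, hf.rd, ?_⟩
    · intro j x y hxy
      show (starRingEnd ℂ) (l j) * (f j x * (starRingEnd ℂ) (P j x)) - 1 =
        (starRingEnd ℂ) (l j) * (f j y * (starRingEnd ℂ) (P j y)) - 1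
      rw [hf.dep j x y hxy, hPd j x y hxy]
    · intro j x
      rw [add_sub_cancel, norm_mul, norm_mul, RCLike.norm_conj, RCLike.norm_conj, hl j, hf.uni j x,
        hPn j x, one_mul, one_mul]
    · have h1 : ∀ j, (avg fun x => ‖(starRingEnd ℂ) (l j) * (f j x * (starRingEnd ℂ) (P j x)) - 1‖ ^ 2)
          ≤ 2 ^ 27 * (m ^ 4 * DD m (f j)) := by
        intro j
        refine (hsq j).trans ?_
        have h2 : ∀ x, ‖f j x * (starRingEnd ℂ) (P j x) - κ j‖ ^ 2 = ‖f j x - κ j * P j x‖ ^ 2 := by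
          intro x
          have h3 : f j x - κ j * P j x = (f j x * (starRingEnd ℂ) (P j x) - κ j) * P j x := by
            rw [sub_mul, mul_assoc, hPP j x, mul_one]
          rw [h3, norm_mul, hPn j x, mul_one]
        simp only [h2]
        refine (hav j).trans ?_
        exact mul_le_mul_of_nonneg_left (split hm1 (hf.uni j)) hC'
      calc ∑ j, (avg fun x => ‖(starRingEnd ℂ) (l j) * (f j x * (starRingEnd ℂ) (P j x)) - 1‖ ^ 2)
          ≤ ∑ j, (2 ^ 27 * (m ^ 4 * DD m (f j)) : ℝ) := Finset.sum_le_sum fun j _ => h1 j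
        _ = 2 ^ 27 * (m ^ 4 * ∑ j, DD m (f j)) := by
            rw [Finset.mul_sum, Finset.mul_sum]
        _ ≤ 2 ^ 27 * (m ^ 4 * (C * Real.log (1 / ε))) := by
            have h5 : (0 : ℝ) ≤ (m : ℝ) ^ 4 := by positivity
            exact mul_le_mul_of_nonneg_left (mul_le_mul_of_nonneg_left hsum h5) hC'
  · intro x
    have h1 : ∀ j, f j x = l j * P j x *
        (1 + ((starRingEnd ℂ) (l j) * (f j x * (starRingEnd ℂ) (P j x)) - 1)) := by
      intro j
      rw [add_sub_cancel]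
      have h2 : l j * P j x * ((starRingEnd ℂ) (l j) * (f j x * (starRingEnd ℂ) (P j x))) =
          (l j * (starRingEnd ℂ) (l j)) * ((starRingEnd ℂ) (P j x) * P j x) * f j x := by ring
      rw [h2, hll j, hPP j x, one_mul, one_mul]
    have h6 : (∏ e, ∏ j, u j e (x e)) = ∏ j, P j x := by
      rw [Finset.prod_comm]
    calc ∏ j, f j x = ∏ j, (l j * P j x *
        (1 + ((starRingEnd ℂ) (l j) * (f j x * (starRingEnd ℂ) (P j x)) - 1))) :=
          Finset.prod_congr rfl fun j _ => h1 j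
      _ = _ := by rw [Finset.prod_mul_distrib, Finset.prod_mul_distrib, h6]

end Pool.Agent.MP_ca1109_lc.Ov
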