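import Pool.Agent.MP_ca1109_lc.Ov.TR
import Pool.Agent.MP_ca1109_lc.Ov.ES
import Pool.Agent.MP_ca1109_lc.Ov.CV

/-!
# Row SB: the exceptional blocks
-/

namespace Pool.Agent.MP_ca1109_lc.Ov

open Finset Pool.Agent.H66 Pool.Agent.MP_ca1109_lc.Mpg Pool.Agent.MP_ca1109_lc.Agp
  Pool.Agent.MP_ca1109_lc.Xp

section SB

variable {E : Type} [Fintype E] [DecidableEq E] {Ω : E → Type} [∀ e, Fintype (Ω e)]
  [∀ e, Nonempty (Ω e)]

omit [∀ e, Nonempty (Ω e)] in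
/-- The noise form does not see a unimodular constant. -/
theorem sb_const {κ : ℂ} (hκ : ‖κ‖ = 1) (F : (∀ e, Ω e) → ℂ) : Sh (fun x => κ * F x) = Sh F := by
  have h1 : ∀ G : (∀ e, Ω e) → ℂ, (av fun x => κ * G x) = κ * av G := by
    intro G
    unfold av
    rw [← Finset.mul_sum, mul_div_assoc]
  unfold Sh
  congr 1
  funext R
  congr 1
  funext x
  rw [h1 (fun y => F (mix (tr R) x y)), norm_mul, hκ, one_mul]

/-- The variance of a unimodular function. -/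
theorem sb_av_le {A : Type} [Fintype A] [Nonempty A] {f : A → ℂ} (hf : ∀ a, ‖f a‖ = 1) :
    ‖av f‖ ≤ 1 := by
  unfold av
  rw [norm_div]
  have hc : (0 : ℝ) < Fintype.card A := by exact_mod_cast Fintype.card_pos
  have h1 : ‖((Fintype.card A : ℕ) : ℂ)‖ = Fintype.card A := by simp
  rw [h1, div_le_one hc]
  calc ‖∑ x, f x‖ ≤ ∑ x, ‖f x‖ := norm_sum_le _ _
    _ = Fintype.card A := by simp [hf]

omit [Fintype E] [∀ e, Fintype (Ω e)] [∀ e, Nonempty (Ω e)] in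
theorem sb_dep {J : Type} [Fintype J] {B : J → Finset E} {z : J → (∀ e, Ω e) → ℂ}
    (h : ∀ j, Dep (B j) (z j)) (T : Finset J) : Dep (T.biUnion B) (fun x => ∏ j ∈ T, z j x) := by
  intro x y hxy
  apply Finset.prod_congr rfl
  intro j hj
  exact h j x y fun e he => hxy e (Finset.mem_biUnion.mpr ⟨j, hj, he⟩)

end SB

theorem st_cover (r : ℕ) (Lam : ℝ) {ε : ℝ} (hε : 0 < ε) : ∃ (b : ℕ) (K : ℝ), 0 ≤ K ∧
    ∀ {E J : Type} [Fintype E] [DecidableEq E] [Fintype J] [DecidableEq J] {Ω : E → Type}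
    [∀ e, Fintype (Ω e)] [∀ e, Nonempty (Ω e)] {B : J → Finset E} {κ : ℂ} {w : ∀ e, Ω e → ℂ}
    {z : J → (∀ e, Ω e) → ℂ}, ‖κ‖ = 1 → (∀ e a, ‖w e a‖ = 1) →
    (∀ e, (∀ j, e ∉ B j) → ∀ a, w e a = 1) → Zf r Lam B z →
    ε ≤ Sh (fun x => κ * (∏ e, w e (x e)) * ∏ j, (1 + z j x)) →
    ∃ H : Finset J, H.card ≤ b ∧ ∑ e ∈ (H.biUnion B)ᶜ, (1 - ‖av (w e)‖ ^ 2) ≤ K := by
  obtain ⟨C, hC1, hC⟩ := esT_L2 r Lam
  have hC0 : 0 < C := by linarith
  obtain ⟨D, hD⟩ : ∃ D : ℕ, ((1 : ℝ) / 4) ^ D < ε / (4 * C) :=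
    exists_pow_lt_of_lt_one (by positivity) (by norm_num)
  have hε' : 0 < ε / (4 * C) := by positivity
  obtain ⟨b, K, hK0, hcov⟩ := cover_lemma r D hε'
  refine ⟨b, 2 * K, by positivity, ?_⟩
  intro E J _ _ _ _ Ω _ _ B κ w z hκ hw hw1 hz hSh
  obtain ⟨hc1, hc2⟩ := hC hz D
  set P : (∀ e, Ω e) → ℂ := fun x => ∏ e, w e (x e) with hP
  set F : (∀ e, Ω e) → ℂ := fun x => P x * ∏ j, (1 + z j x) with hF
  set T : (∀ e, Ω e) → ℂ := fun x => Pt.esT univ D (fun i => z i x) with hT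
  have hSF : ε ≤ Sh F := by
    have h1 : (fun x => κ * (∏ e, w e (x e)) * ∏ j, (1 + z j x)) = fun x => κ * F x := by
      funext x
      rw [hF, hP, mul_assoc]
    rw [h1, sb_const hκ] at hSh
    exact hSh
  have hPn : ∀ x, ‖P x‖ = 1 := by
    intro x
    rw [hP, norm_prod]
    exact Finset.prod_eq_one fun e _ => hw e (x e)
  -- the distance of `F` and `P * T`
  have hdist : (avg fun x => ‖F x - P x * T x‖ ^ 2) ≤ ε / 4 := by
    have h1 : (fun x => ‖F x - P x * T x‖ ^ 2) =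
        fun x => ‖∏ i, (1 + z i x) - Pt.esT univ D (fun i => z i x)‖ ^ 2 := by
      funext x
      rw [hF, hT, ← mul_sub, norm_mul, hPn x, one_mul]
    rw [h1]
    refine hc1.trans ?_
    have h2 : C * (1 / 4) ^ D ≤ C * (ε / (4 * C)) := mul_le_mul_of_nonneg_left hD.le hC0.le
    refine h2.trans (le_of_eq ?_)
    field_simp
  have hsq := Sh_sqrt F (fun x => P x * T x)
  have h3 : Real.sqrt ε / 2 ≤ Real.sqrt (Sh fun x => P x * T x) := by
    have h4 : Real.sqrt ε ≤ Real.sqrt (Sh F) := Real.sqrt_le_sqrt hSF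
    have h5 : Real.sqrt (avg fun x => ‖F x - P x * T x‖ ^ 2) ≤ Real.sqrt ε / 2 := by
      refine (Real.sqrt_le_sqrt hdist).trans (le_of_eq ?_)
      rw [Real.sqrt_div' _ (by norm_num : (0 : ℝ) ≤ 4)]
      congr 1
      rw [show (4 : ℝ) = 2 ^ 2 by norm_num]
      exact Real.sqrt_sq (by norm_num)
    linarith
  have hShPT : ε / 4 ≤ Sh fun x => P x * T x := by
    have h6 : 0 < Real.sqrt ε := Real.sqrt_pos.mpr hε
    have h7 : 0 < Sh fun x => P x * T x := by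
      by_contra hcon
      push Not at hcon
      rw [Real.sqrt_eq_zero_of_nonpos hcon] at h3
      linarith
    have h8 : (Real.sqrt ε / 2) ^ 2 ≤ Real.sqrt (Sh fun x => P x * T x) ^ 2 :=
      pow_le_pow_left₀ (by positivity) h3 2
    rw [Real.sq_sqrt h7.le, div_pow, Real.sq_sqrt hε.le] at h8
    linarith
  -- the core
  set 𝒯 : Finset (Finset J) := (univ : Finset J).powerset.filter fun K => K.card ≤ D with h𝒯
  set φ := 𝒯.equivFin with hφ
  have hsum : ∀ x, T x = ∑ i : Fin 𝒯.card, ∏ j ∈ ((φ.symm i : 𝒯) : Finset J), z j x := by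
    intro x
    rw [hT]
    show (∑ K ∈ 𝒯, ∏ j ∈ K, z j x) = _
    rw [← Finset.sum_coe_sort 𝒯]
    exact (Equiv.sum_comp φ.symm (fun K : 𝒯 => ∏ j ∈ (K : Finset J), z j x)).symm
  have hcore := es_core B D w hw 𝒯.card
    (fun i x => ∏ j ∈ ((φ.symm i : 𝒯) : Finset J), z j x) (fun i => ((φ.symm i : 𝒯) : Finset J))
    (fun i => ⟨(Finset.mem_filter.mp (φ.symm i : 𝒯).2).2, sb_dep hz.dep _⟩)
  have h9 : (fun x => (∏ e, w e (x e)) * ∑ i : Fin 𝒯.card,
      ∏ j ∈ ((φ.symm i : 𝒯) : Finset J), z j x) = fun x => P x * T x := by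
    funext x
    rw [← hsum x]
  have h10 : (fun x => ‖∑ i : Fin 𝒯.card, ∏ j ∈ ((φ.symm i : 𝒯) : Finset J), z j x‖ ^ 2)
      = fun x => ‖T x‖ ^ 2 := by
    funext x
    rw [← hsum x]
  rw [h9, h10] at hcore
  set v : E → ℝ := fun e => (1 - ‖av (w e)‖ ^ 2) / 2 with hv
  have hav : ∀ e, ‖av (w e)‖ ≤ 1 := fun e => sb_av_le (hw e)
  have hav0 : ∀ e, 0 ≤ ‖av (w e)‖ := fun e => norm_nonneg _
  have hv0 : ∀ e, 0 ≤ v e := by
    intro e
    rw [hv]
    have := hav e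
    have := hav0 e
    show 0 ≤ (1 - ‖av (w e)‖ ^ 2) / 2
    nlinarith
  have hv1 : ∀ e, v e ≤ 1 := by
    intro e
    rw [hv]
    have := hav e
    have := hav0 e
    show (1 - ‖av (w e)‖ ^ 2) / 2 ≤ 1
    nlinarith [sq_nonneg ‖av (w e)‖]
  have hvpos : ∀ e, 0 < v e → ∃ j, e ∈ B j := by
    intro e he
    by_contra hcon
    push Not at hcon
    have h11 := hw1 e hcon
    have h12 : w e = fun _ => 1 := funext h11
    have h13 : av (w e) = 1 := by
      rw [h12]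
      unfold av
      simp
    have h14 : v e = 0 := by
      rw [hv]
      show (1 - ‖av (w e)‖ ^ 2) / 2 = 0
      rw [h13]
      norm_num
    rw [h14] at he
    exact lt_irrefl _ he
  have hpc : ε / (4 * C) ≤ pc B D v := by
    have h15 : (avg fun x => ‖T x‖ ^ 2) * pc B D v ≤ C * pc B D v ∨ pc B D v ≤ 0 := by
      rcases le_or_gt (pc B D v) 0 with h | h
      · exact Or.inr h
      · exact Or.inl (mul_le_mul_of_nonneg_right hc2 h.le)
    rcases h15 with h15 | h15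
    · rw [div_le_iff₀ (by positivity)]
      have : ε / 4 ≤ C * pc B D v := hShPT.trans (hcore.trans h15)
      linarith
    · exfalso
      have h16 : 0 ≤ avg fun x => ‖T x‖ ^ 2 := by
        unfold avg
        exact div_nonneg (Finset.sum_nonneg fun _ _ => sq_nonneg _) (Nat.cast_nonneg _)
      have h17 : (avg fun x => ‖T x‖ ^ 2) * pc B D v ≤ 0 :=
        mul_nonpos_of_nonneg_of_nonpos h16 h15
      have : ε / 4 ≤ 0 := hShPT.trans (hcore.trans h17)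
      linarith
  obtain ⟨H, hHb, hHs⟩ := hcov B hz.rd v hv0 hv1 hvpos hpc
  refine ⟨H, hHb, ?_⟩
  have h18 : ∑ e ∈ (H.biUnion B)ᶜ, (1 - ‖av (w e)‖ ^ 2) = 2 * ∑ e ∈ (H.biUnion B)ᶜ, v e := by
    rw [Finset.mul_sum]
    apply Finset.sum_congr rfl
    intro e _
    rw [hv]
    ring
  rw [h18]
  linarith

end Pool.Agent.MP_ca1109_lc.Ov
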