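import Pool.Agent.MP_ca1109_lc.Ov.SA
import Pool.Agent.MP_ca1109_lc.Ov.SB

/-!
# Row SC: the end of the structure theorem
-/

namespace Pool.Agent.MP_ca1109_lc.Ov

open Finset Pool.Agent.H66 Pool.Agent.MP_ca1109_lc.Mpg Pool.Agent.MP_ca1109_lc.Agp
  Pool.Agent.MP_ca1109_lc.Xp

theorem SC_av_add {A : Type} [Fintype A] (f g : A → ℂ) :
    av (fun a => f a + g a) = av f + av g := by
  unfold av
  rw [sum_add_distrib, add_div]

theorem SC_av_const {A : Type} [Fintype A] [Nonempty A] (c : ℂ) : av (fun _ : A => c) = c := by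
  unfold av
  rw [sum_const, card_univ, nsmul_eq_mul]
  exact mul_div_cancel_left₀ _ (by exact_mod_cast Fintype.card_ne_zero)

section SC

variable {E J : Type} [Fintype E] [DecidableEq E] {Ω : E → Type} [∀ e, Fintype (Ω e)]
  [∀ e, Nonempty (Ω e)]

/-- The average of a function of one coordinate. -/
theorem SC_coord (a : E) (g : Ω a → ℂ) : av (fun x : ∀ e, Ω e => g (x a)) = av g := by
  have key : ∑ p : Ω a × (∀ e, Ω e), g p.1 = ∑ p : Ω a × (∀ e, Ω e), g (p.2 a) := by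
    refine Fintype.sum_equiv ⟨fun p => (p.2 a, Function.update p.2 a p.1),
      fun p => (p.2 a, Function.update p.2 a p.1), fun p => ?_, fun p => ?_⟩ _ _ fun p => ?_
    · simp
    · simp
    · simp
  rw [Fintype.sum_prod_type, Fintype.sum_prod_type] at key
  simp only [sum_const, card_univ, nsmul_eq_mul] at key
  rw [← mul_sum] at key
  unfold av
  have h1 : (Fintype.card (Ω a) : ℂ) ≠ 0 := by
    exact_mod_cast Fintype.card_ne_zero
  have h2 : (Fintype.card (∀ e, Ω e) : ℂ) ≠ 0 := by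
    exact_mod_cast Fintype.card_ne_zero
  rw [div_eq_div_iff h2 h1]
  linear_combination -key

/-- The phase of the average. -/
noncomputable def SC_p {A : Type} [Fintype A] (u : A → ℂ) : ℂ :=
  if av u = 0 then 1 else av u / ‖av u‖

theorem SC_p_norm {A : Type} [Fintype A] (u : A → ℂ) : ‖SC_p u‖ = 1 := by
  unfold SC_p
  split_ifs with h
  · exact norm_one
  · rw [norm_div, Complex.norm_real, norm_norm, div_self (norm_ne_zero_iff.2 h)]

theorem SC_p_mul {A : Type} [Fintype A] (u : A → ℂ) :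
    (starRingEnd ℂ) (SC_p u) * av u = ((‖av u‖ : ℝ) : ℂ) := by
  unfold SC_p
  split_ifs with h
  · rw [h]
    simp
  · have h1 : ((‖av u‖ : ℝ) : ℂ) ≠ 0 := by
      exact_mod_cast norm_ne_zero_iff.2 h
    rw [map_div₀, Complex.conj_ofReal, div_mul_eq_mul_div, mul_comm, Complex.mul_conj,
      Complex.normSq_eq_norm_sq, div_eq_iff h1]
    push_cast
    ring

theorem SC_p_conj {A : Type} [Fintype A] (u : A → ℂ) :
    SC_p u * (starRingEnd ℂ) (SC_p u) = 1 := by
  rw [Complex.mul_conj, Complex.normSq_eq_norm_sq, SC_p_norm]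
  norm_num

/-- The energy of a normalized unimodular function. -/
theorem SC_energy {A : Type} [Fintype A] [Nonempty A] {u : A → ℂ} (hu : ∀ a, ‖u a‖ = 1) :
    (avg fun a => ‖(starRingEnd ℂ) (SC_p u) * u a - 1‖ ^ 2) ≤ 2 * (1 - ‖av u‖ ^ 2) := by
  have h1 : ∀ a, ‖(starRingEnd ℂ) (SC_p u) * u a - 1‖ ^ 2 =
      2 + (-2) * ((starRingEnd ℂ) (SC_p u) * u a).re := by
    intro a
    set v := (starRingEnd ℂ) (SC_p u) * u a with hv
    have h2 : ‖v‖ = 1 := by
      rw [hv, norm_mul, RCLike.norm_conj, SC_p_norm, hu a, mul_one]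
    have h3 : ‖v‖ ^ 2 = 1 := by rw [h2]; norm_num
    rw [← Complex.normSq_eq_norm_sq, Complex.normSq_apply] at h3
    rw [← Complex.normSq_eq_norm_sq, Complex.normSq_apply]
    simp only [Complex.sub_re, Complex.one_re, Complex.sub_im, Complex.one_im, sub_zero]
    linarith
  have h2 : (avg fun a => ‖(starRingEnd ℂ) (SC_p u) * u a - 1‖ ^ 2) = 2 + (-2) * ‖av u‖ := by
    simp only [h1]
    rw [avg_add, avg_const, avg_mul_left]
    congr 2
    rw [← TL_av_re, spb_av_mul, SC_p_mul, Complex.ofReal_re]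
  rw [h2]
  have h3 : ‖av u‖ ≤ 1 := by
    refine (norm_av_le _).trans ?_
    simp only [hu]
    rw [avg_const]
  nlinarith [norm_nonneg (av u)]

/-- The coordinates in some block outside the exceptional blocks. -/
def SC_T [Fintype J] (B : J → Finset E) (S : Finset E) : Finset E := univ.biUnion B \ S

open Classical in
/-- The factors of the blocks and of the coordinates. -/
noncomputable def SC_Z [Fintype J] (B : J → Finset E) (S : Finset E) (w : ∀ e, Ω e → ℂ)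
    (z : J → (∀ e, Ω e) → ℂ) : J ⊕ E → (∀ e, Ω e) → ℂ :=
  Sum.elim z fun e x => if e ∈ SC_T B S then (starRingEnd ℂ) (SC_p (w e)) * w e (x e) - 1 else 0

theorem SC_Zf [Fintype J] [DecidableEq J] {B : J → Finset E} {r : ℕ} {Lam K₀ : ℝ}
    {w : ∀ e, Ω e → ℂ} {z : J → (∀ e, Ω e) → ℂ} (hw : ∀ e a, ‖w e a‖ = 1) (hz : Zf r Lam B z)
    (S : Finset E) (hS : ∑ e ∈ Sᶜ, (1 - ‖av (w e)‖ ^ 2) ≤ K₀) :
    Zf (r + 1) (Lam + 2 * K₀) (cbk B) (SC_Z B S w z) := by
  have hm : ∀ e, ‖av (w e)‖ ≤ 1 := by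
    intro e
    refine (norm_av_le _).trans ?_
    simp only [hw]
    rw [avg_const]
  have hav : ∀ e, av (fun x : ∀ e, Ω e => (starRingEnd ℂ) (SC_p (w e)) * w e (x e) - 1) =
      ((‖av (w e)‖ - 1 : ℝ) : ℂ) := by
    intro e
    rw [SC_coord e fun a => (starRingEnd ℂ) (SC_p (w e)) * w e a - 1]
    have h1 : av (fun a => (starRingEnd ℂ) (SC_p (w e)) * w e a - 1) =
        (starRingEnd ℂ) (SC_p (w e)) * av (w e) - 1 := by
      have h2 : (fun a => (starRingEnd ℂ) (SC_p (w e)) * w e a - 1) =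
          fun a => (starRingEnd ℂ) (SC_p (w e)) * w e a + (-1) := by
        funext a
        ring
      rw [h2, SC_av_add, SC_av_const, ← spb_av_mul]
      ring
    rw [h1, SC_p_mul]
    push_cast
    rfl
  refine ⟨?_, ?_, ?_, ?_, ?_, ?_⟩
  · rintro (j | e)
    · exact hz.dep j
    · intro x y hxy
      show (if e ∈ SC_T B S then (starRingEnd ℂ) (SC_p (w e)) * w e (x e) - 1 else 0) =
        if e ∈ SC_T B S then (starRingEnd ℂ) (SC_p (w e)) * w e (y e) - 1 else 0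
      by_cases he : e ∈ SC_T B S
      · rw [if_pos he, if_pos he, hxy e]
        show e ∈ {e} ∩ univ.biUnion B
        exact mem_inter.2 ⟨mem_singleton_self e, (mem_sdiff.1 he).1⟩
      · rw [if_neg he, if_neg he]
  · rintro (j | e) x
    · exact hz.uni j x
    · show ‖1 + if e ∈ SC_T B S then (starRingEnd ℂ) (SC_p (w e)) * w e (x e) - 1 else 0‖ = 1
      split_ifs
      · rw [add_sub_cancel, norm_mul, RCLike.norm_conj, SC_p_norm, hw, mul_one]
      · rw [add_zero, norm_one]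
  · rintro (j | e)
    · exact hz.im j
    · show (av fun x : ∀ e, Ω e => if e ∈ SC_T B S then
        (starRingEnd ℂ) (SC_p (w e)) * w e (x e) - 1 else 0).im = 0
      by_cases he : e ∈ SC_T B S
      · simp only [if_pos he]
        rw [hav, Complex.ofReal_im]
      · simp only [if_neg he]
        rw [SC_av_const]
        rfl
  · rintro (j | e)
    · exact hz.pos j
    · show 0 ≤ 1 + (av fun x : ∀ e, Ω e => if e ∈ SC_T B S then
        (starRingEnd ℂ) (SC_p (w e)) * w e (x e) - 1 else 0).re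
      by_cases he : e ∈ SC_T B S
      · simp only [if_pos he]
        rw [hav, Complex.ofReal_re]
        linarith [norm_nonneg (av (w e))]
      · simp only [if_neg he]
        rw [SC_av_const]
        norm_num
  · intro e
    have h1 : (univ.filter fun i => e ∈ cbk B i) ⊆
        (univ.filter fun j => e ∈ B j).image Sum.inl ∪ {Sum.inr e} := by
      rintro (j | e') hi
      · rw [mem_union, mem_image]
        exact Or.inl ⟨j, mem_filter.2 ⟨mem_univ _, (mem_filter.1 hi).2⟩, rfl⟩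
      · have h2 : e ∈ {e'} ∩ univ.biUnion B := (mem_filter.1 hi).2
        have h3 : e = e' := mem_singleton.1 (mem_inter.1 h2).1
        rw [h3]
        exact mem_union_right _ (mem_singleton_self _)
    refine (card_le_card h1).trans ((card_union_le _ _).trans ?_)
    rw [card_singleton]
    exact Nat.add_le_add_right (card_image_le.trans (hz.rd e)) 1
  · rw [Fintype.sum_sum_type]
    refine add_le_add hz.en ?_
    have h1 : ∀ e, (avg fun x : ∀ e, Ω e => ‖SC_Z B S w z (Sum.inr e) x‖ ^ 2) ≤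
        if e ∈ Sᶜ then 2 * (1 - ‖av (w e)‖ ^ 2) else 0 := by
      intro e
      by_cases he : e ∈ SC_T B S
      · have h2 : e ∈ Sᶜ := mem_compl.2 (mem_sdiff.1 he).2
        rw [if_pos h2]
        have h3 : (fun x : ∀ e, Ω e => ‖SC_Z B S w z (Sum.inr e) x‖ ^ 2) = fun x : ∀ e, Ω e =>
            ‖(starRingEnd ℂ) (SC_p (w e)) * w e (x e) - 1‖ ^ 2 := by
          funext x
          show ‖if e ∈ SC_T B S then
            (starRingEnd ℂ) (SC_p (w e)) * w e (x e) - 1 else 0‖ ^ 2 = _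
          rw [if_pos he]
        rw [h3]
        have h4 := SC_coord e fun a =>
          ((‖(starRingEnd ℂ) (SC_p (w e)) * w e a - 1‖ ^ 2 : ℝ) : ℂ)
        have h5 := congrArg Complex.re h4
        rw [TL_av_re, TL_av_re] at h5
        simp only [Complex.ofReal_re] at h5
        rw [h5]
        exact SC_energy (hw e)
      · have h3 : (fun x : ∀ e, Ω e => ‖SC_Z B S w z (Sum.inr e) x‖ ^ 2) = fun _ => 0 := by
          funext x
          show ‖if e ∈ SC_T B S then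
            (starRingEnd ℂ) (SC_p (w e)) * w e (x e) - 1 else 0‖ ^ 2 = _
          rw [if_neg he]
          norm_num
        rw [h3, avg_const]
        split_ifs
        · have := hm e
          nlinarith [norm_nonneg (av (w e))]
        · exact le_rfl
    refine (sum_le_sum fun e _ => h1 e).trans ?_
    rw [← sum_filter, filter_mem_eq_inter, univ_inter, ← mul_sum]
    exact mul_le_mul_of_nonneg_left hS (by norm_num)

omit [∀ e, Nonempty (Ω e)] in
theorem SC_prod [Fintype J] {B : J → Finset E} {w : ∀ e, Ω e → ℂ} {z : J → (∀ e, Ω e) → ℂ}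
    (hw1 : ∀ e, (∀ j, e ∉ B j) → ∀ a, w e a = 1) (S : Finset E)
    (x : ∀ e, Ω e) : (∏ e, w e (x e)) * ∏ j, (1 + z j x) =
      ((∏ e ∈ SC_T B S, SC_p (w e)) * ∏ e ∈ S, w e (x e)) *
        ∏ i, (1 + SC_Z B S w z i x) := by
  classical
  rw [Fintype.prod_sum_type]
  have h1 : ∏ e, w e (x e) = ((∏ e ∈ SC_T B S, SC_p (w e)) * ∏ e ∈ S, w e (x e)) *
      ∏ e, (1 + SC_Z B S w z (Sum.inr e) x) := by
    have h2 : ∏ e ∈ SC_T B S, SC_p (w e) = ∏ e, if e ∈ SC_T B S then SC_p (w e) else 1 := by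
      rw [← prod_filter, filter_mem_eq_inter, univ_inter]
    have h3 : ∏ e ∈ S, w e (x e) = ∏ e, if e ∈ S then w e (x e) else 1 := by
      rw [← prod_filter, filter_mem_eq_inter, univ_inter]
    rw [h2, h3, ← prod_mul_distrib, ← prod_mul_distrib]
    refine prod_congr rfl fun e _ => ?_
    show w e (x e) = ((if e ∈ SC_T B S then SC_p (w e) else 1) * if e ∈ S then w e (x e) else 1) *
      (1 + if e ∈ SC_T B S then (starRingEnd ℂ) (SC_p (w e)) * w e (x e) - 1 else 0)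
    by_cases he : e ∈ SC_T B S
    · have h4 : e ∉ S := (mem_sdiff.1 he).2
      rw [if_pos he, if_pos he, if_neg h4, mul_one, add_sub_cancel, ← mul_assoc, SC_p_conj,
        one_mul]
    · rw [if_neg he, if_neg he, add_zero, mul_one, one_mul]
      by_cases h4 : e ∈ S
      · rw [if_pos h4]
      · rw [if_neg h4]
        refine hw1 e (fun j hj => he (mem_sdiff.2 ⟨?_, h4⟩)) _
        exact mem_biUnion.2 ⟨j, mem_univ j, hj⟩
  rw [h1]
  show _ = _ * ((∏ j, (1 + z j x)) * ∏ e, (1 + SC_Z B S w z (Sum.inr e) x))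
  ring

end SC

theorem st_end (r b : ℕ) (Lam K₀ : ℝ) {e : ℝ} (he : 0 < e) : ∃ K : ℕ, ∀ {E J : Type} [Fintype E]
    [DecidableEq E] [Fintype J] [DecidableEq J] {Ω : E → Type} [∀ e, Fintype (Ω e)]
    [∀ e, Nonempty (Ω e)] {B : J → Finset E} {κ : ℂ} {w : ∀ e, Ω e → ℂ}
    {z : J → (∀ e, Ω e) → ℂ}, ‖κ‖ = 1 → (∀ e a, ‖w e a‖ = 1) →
    (∀ e, (∀ j, e ∉ B j) → ∀ a, w e a = 1) → Zf r Lam B z → ∀ H : Finset J, H.card ≤ b →
    ∑ e ∈ (H.biUnion B)ᶜ, (1 - ‖av (w e)‖ ^ 2) ≤ K₀ →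
    ∃ (t : (∀ e, Ω e) → ℂ) (R : (∀ e, Ω e) → ℝ),
      (∀ x, ‖κ * (∏ e, w e (x e)) * ∏ j, (1 + z j x) - t x‖ ≤ R x) ∧ avg R ≤ e ∧
      Smp (cbk B) K (K * ((Fintype.card J : ℝ) + Fintype.card E + 1) ^ K) t ∧
      Smp (cbk B) K (K * ((Fintype.card J : ℝ) + Fintype.card E + 1) ^ K)
        (fun x => ((R x : ℝ) : ℂ)) := by
  obtain ⟨K₁, hK₁⟩ := trunc (r + 1) (Lam + 2 * K₀) he
  refine ⟨K₁ + b, fun {E J} _ _ _ _ {Ω} _ _ {B κ w z} hκ hw hw1 hz H hH hS => ?_⟩
  obtain ⟨t, R, h1, h2, h3, h4⟩ := hK₁ (SC_Zf hw hz (H.biUnion B) hS)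
  set S := H.biUnion B with hSd
  set c : ℂ := κ * ∏ e ∈ SC_T B S, SC_p (w e) with hc
  have hc1 : ‖c‖ = 1 := by
    rw [hc, norm_mul, hκ, norm_prod, prod_eq_one fun e _ => SC_p_norm (w e), mul_one]
  have hW1 : ∀ x : ∀ e, Ω e, ‖∏ e ∈ S, w e (x e)‖ = 1 := by
    intro x
    rw [norm_prod]
    exact prod_eq_one fun e _ => hw e _
  have hN : (Fintype.card (J ⊕ E) : ℝ) + 1 = (Fintype.card J : ℝ) + Fintype.card E + 1 := by
    rw [Fintype.card_sum]
    push_cast
    rfl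
  have hN1 : (1 : ℝ) ≤ (Fintype.card J : ℝ) + Fintype.card E + 1 := by
    have h5 : (0 : ℝ) ≤ (Fintype.card J : ℝ) := Nat.cast_nonneg _
    have h6 : (0 : ℝ) ≤ (Fintype.card E : ℝ) := Nat.cast_nonneg _
    linarith
  rw [hN] at h3 h4
  have hL : (K₁ : ℝ) * ((Fintype.card J : ℝ) + Fintype.card E + 1) ^ K₁ ≤
      ((K₁ + b : ℕ) : ℝ) * ((Fintype.card J : ℝ) + Fintype.card E + 1) ^ (K₁ + b) :=
    mul_le_mul (by exact_mod_cast Nat.le_add_right K₁ b)
      (pow_le_pow_right₀ hN1 (Nat.le_add_right K₁ b)) (by positivity) (Nat.cast_nonneg _)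
  have hW : Smp (cbk B) b 1 (fun x : ∀ e, Ω e => ∏ e ∈ S, w e (x e)) := by
    refine Smp.of_dep (b := H.image Sum.inl) (card_image_le.trans hH) (fun x y hxy => ?_)
      fun x => (hW1 x).le
    show ∏ e ∈ S, w e (x e) = ∏ e ∈ S, w e (y e)
    refine prod_congr rfl fun e he => ?_
    rw [hxy e]
    obtain ⟨j, hj, hej⟩ := mem_biUnion.1 he
    exact mem_biUnion.2 ⟨Sum.inl j, mem_image_of_mem _ hj, hej⟩
  refine ⟨fun x => (c * ∏ e ∈ S, w e (x e)) * t x, R, fun x => ?_, h2, ?_,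
    h4.mono (Nat.le_add_right _ _) hL⟩
  · have h5 : κ * (∏ e, w e (x e)) * ∏ j, (1 + z j x) - (c * ∏ e ∈ S, w e (x e)) * t x =
        (c * ∏ e ∈ S, w e (x e)) * (∏ i, (1 + SC_Z B S w z i x) - t x) := by
      rw [mul_assoc κ, SC_prod hw1 S x, hc]
      ring
    rw [h5, norm_mul, norm_mul, hc1, hW1, one_mul, one_mul]
    exact h1 x
  · have h5 := ((Smp.const (B := cbk B) (Ω := Ω) 0 c).mul hW).mul h3
    rw [hc1, one_mul, one_mul] at h5
    refine h5.mono ?_ hL
    omega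

theorem structure_thm (r : ℕ) {ε e : ℝ} (hε : 0 < ε) (he : 0 < e) : ∃ K : ℕ, ∀ {E J : Type}
    [Fintype E] [DecidableEq E] [Fintype J] [DecidableEq J] {Ω : E → Type} [∀ e, Fintype (Ω e)]
    [∀ e, Nonempty (Ω e)] {B : J → Finset E} {f : J → (∀ e, Ω e) → ℂ}, Fam r B f →
    ε ≤ Sh (fun x => ∏ j, f j x) →
    ∃ (t : (∀ e, Ω e) → ℂ) (R : (∀ e, Ω e) → ℝ),
      (∀ x, ‖∏ j, f j x - t x‖ ≤ R x) ∧ avg R ≤ e ∧
      Smp (cbk B) K (K * ((Fintype.card J : ℝ) + Fintype.card E + 1) ^ K) t ∧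
      Smp (cbk B) K (K * ((Fintype.card J : ℝ) + Fintype.card E + 1) ^ K)
        (fun x => ((R x : ℝ) : ℂ)) := by
  obtain ⟨Lam, hLam⟩ := st_form r hε
  obtain ⟨b, K₀, -, hb⟩ := st_cover r Lam hε
  obtain ⟨K, hK⟩ := st_end r b Lam K₀ he
  refine ⟨K, fun {E J} _ _ _ _ {Ω} _ _ {B f} hf h => ?_⟩
  obtain ⟨κ, w, z, hκ, hw, hw1, hz, hx⟩ := hLam hf h
  have h1 : (fun x => ∏ j, f j x) = fun x => κ * (∏ e, w e (x e)) * ∏ j, (1 + z j x) :=
    funext hx
  rw [h1] at h
  obtain ⟨H, hH, hS⟩ := hb hκ hw hw1 hz h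
  obtain ⟨t, R, h2, h3, h4, h5⟩ := hK hκ hw hw1 hz H hH hS
  refine ⟨t, R, fun x => ?_, h3, h4, h5⟩
  rw [hx x]
  exact h2 x

end Pool.Agent.MP_ca1109_lc.Ov
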