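import Pool.Agent.MP_ca1109_lc.Ov.Defs

/-!
# Row SM: simple functions
-/

namespace Pool.Agent.MP_ca1109_lc.Ov

open Finset Pool.Agent.H66 Pool.Agent.MP_ca1109_lc.Mpg Pool.Agent.MP_ca1109_lc.Agp
  Pool.Agent.MP_ca1109_lc.Xp

section product

variable {E : Type} [Fintype E] [DecidableEq E] {Ω : E → Type} [∀ e, Fintype (Ω e)]
  [∀ e, Nonempty (Ω e)]

omit [Fintype E] [DecidableEq E] [∀ e, Fintype (Ω e)] [∀ e, Nonempty (Ω e)] in
theorem sm_dep_mono {β : Type*} {A A' : Finset E} {f : (∀ e, Ω e) → β} (h : Dep A f)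
    (hA : A ⊆ A') : Dep A' f := fun x y hxy => h x y fun e he => hxy e (hA he)

section smp

variable {ι : Type} {B : ι → Finset E}

omit [Fintype E] [∀ e, Fintype (Ω e)] [∀ e, Nonempty (Ω e)] in
/-- Arbitrary finite index types. -/
theorem sm_of {κ : Type} [Fintype κ] {K : ℕ} {L : ℝ} {t : (∀ e, Ω e) → ℂ}
    (u : κ → (∀ e, Ω e) → ℂ) (a : κ → ℝ) (b : κ → Finset ι)
    (h : ∀ i, (b i).card ≤ K ∧ Dep ((b i).biUnion B) (u i) ∧ ∀ x, ‖u i x‖ ≤ a i)
    (hL : ∑ i, a i ≤ L) (ht : ∀ x, t x = ∑ i, u i x) : Smp B K L t := by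
  refine ⟨Fintype.card κ, fun i => u ((Fintype.equivFin κ).symm i),
    fun i => a ((Fintype.equivFin κ).symm i), fun i => b ((Fintype.equivFin κ).symm i),
    fun i => h _, ?_, fun x => ?_⟩
  · rw [Equiv.sum_comp (Fintype.equivFin κ).symm a]
    exact hL
  · rw [Equiv.sum_comp (Fintype.equivFin κ).symm (fun i => u i x)]
    exact ht x

omit [∀ e, Nonempty (Ω e)] in
theorem Smp.mono {K K' : ℕ} {L L' : ℝ} {t : (∀ e, Ω e) → ℂ} (h : Smp B K L t) (hK : K ≤ K')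
    (hL : L ≤ L') : Smp B K' L' t := by
  obtain ⟨q, u, a, b, h1, h2, h3⟩ := h
  exact ⟨q, u, a, b, fun i => ⟨(h1 i).1.trans hK, (h1 i).2⟩, h2.trans hL, h3⟩

theorem Smp.of_dep {K : ℕ} {a : ℝ} {u : (∀ e, Ω e) → ℂ} {b : Finset ι} (hb : b.card ≤ K)
    (hu : Dep (b.biUnion B) u) (ha : ∀ x, ‖u x‖ ≤ a) : Smp B K a u :=
  ⟨1, fun _ => u, fun _ => a, fun _ => b, fun _ => ⟨hb, hu, ha⟩, by simp, fun x => by simp⟩

theorem Smp.const (K : ℕ) (c : ℂ) : Smp B K ‖c‖ (fun _ : ∀ e, Ω e => c) :=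
  Smp.of_dep (b := ∅) (by simp) (fun _ _ _ => rfl) fun _ => le_rfl

theorem Smp.add {K : ℕ} {L L' : ℝ} {t t' : (∀ e, Ω e) → ℂ} (h : Smp B K L t)
    (h' : Smp B K L' t') : Smp B K (L + L') (fun x => t x + t' x) := by
  obtain ⟨q, u, a, b, h1, h2, h3⟩ := h
  obtain ⟨q', u', a', b', h1', h2', h3'⟩ := h'
  refine sm_of (Sum.elim u u') (Sum.elim a a') (Sum.elim b b') ?_ ?_ fun x => ?_
  · rintro (i | i)
    · exact h1 i
    · exact h1' i
  · rw [Fintype.sum_sum_type]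
    exact add_le_add h2 h2'
  · rw [Fintype.sum_sum_type, h3, h3']
    rfl

theorem Smp.nonneg {K : ℕ} {L : ℝ} {t : (∀ e, Ω e) → ℂ} (h : Smp B K L t) : 0 ≤ L := by
  obtain ⟨q, u, a, b, h1, h2, h3⟩ := h
  obtain ⟨x⟩ : Nonempty (∀ e, Ω e) := inferInstance
  exact (sum_nonneg fun i _ => (norm_nonneg _).trans ((h1 i).2.2 x)).trans h2

theorem Smp.mul {K K' : ℕ} {L L' : ℝ} {t t' : (∀ e, Ω e) → ℂ} (h : Smp B K L t)
    (h' : Smp B K' L' t') : Smp B (K + K') (L * L') (fun x => t x * t' x) := by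
  classical
  have hL := h.nonneg
  obtain ⟨q, u, a, b, h1, h2, h3⟩ := h
  obtain ⟨q', u', a', b', h1', h2', h3'⟩ := h'
  obtain ⟨x₀⟩ : Nonempty (∀ e, Ω e) := inferInstance
  refine sm_of (κ := Fin q × Fin q') (fun i x => u i.1 x * u' i.2 x) (fun i => a i.1 * a' i.2)
    (fun i => b i.1 ∪ b' i.2) (fun i => ⟨?_, ?_, fun x => ?_⟩) ?_ fun x => ?_
  · exact (card_union_le _ _).trans (add_le_add (h1 i.1).1 (h1' i.2).1)
  · intro x y hxy
    have e1 := (h1 i.1).2.1 x y fun e he => hxy e (biUnion_subset_biUnion_of_subset_left B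
      subset_union_left he)
    have e2 := (h1' i.2).2.1 x y fun e he => hxy e (biUnion_subset_biUnion_of_subset_left B
      subset_union_right he)
    show u i.1 x * u' i.2 x = u i.1 y * u' i.2 y
    rw [e1, e2]
  · rw [norm_mul]
    exact mul_le_mul ((h1 i.1).2.2 x) ((h1' i.2).2.2 x) (norm_nonneg _)
      ((norm_nonneg _).trans ((h1 i.1).2.2 x))
  · rw [Fintype.sum_prod_type]
    simp only [← mul_sum, ← sum_mul]
    exact mul_le_mul h2 h2' (sum_nonneg fun i _ => (norm_nonneg _).trans ((h1' i).2.2 x₀)) hL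
  · show t x * t' x = _
    rw [h3, h3', Fintype.sum_prod_type, sum_mul_sum]

theorem Smp.conj {K : ℕ} {L : ℝ} {t : (∀ e, Ω e) → ℂ} (h : Smp B K L t) :
    Smp B K L (fun x => (starRingEnd ℂ) (t x)) := by
  obtain ⟨q, u, a, b, h1, h2, h3⟩ := h
  refine ⟨q, fun i x => (starRingEnd ℂ) (u i x), a, b, fun i => ⟨(h1 i).1, fun x y hxy => ?_,
    fun x => ?_⟩, h2, fun x => ?_⟩
  · show (starRingEnd ℂ) (u i x) = (starRingEnd ℂ) (u i y)
    rw [(h1 i).2.1 x y hxy]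
  · rw [RCLike.norm_conj]
    exact (h1 i).2.2 x
  · show (starRingEnd ℂ) (t x) = _
    rw [h3, map_sum]

theorem Smp.sum {α : Type} (s : Finset α) {K : ℕ} {L : α → ℝ} {t : α → (∀ e, Ω e) → ℂ}
    (h : ∀ i ∈ s, Smp B K (L i) (t i)) :
    Smp B K (∑ i ∈ s, L i) (fun x => ∑ i ∈ s, t i x) := by
  classical
  induction s using Finset.induction_on with
  | empty =>
    simp only [sum_empty]
    exact (Smp.const K 0).mono le_rfl (by simp)
  | insert a s ha ih =>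
    simp only [sum_insert ha]
    exact (h a (mem_insert_self a s)).add (ih fun i hi => h i (mem_insert_of_mem hi))

theorem Smp.prod {α : Type} (s : Finset α) {K : ℕ} {L : ℝ} (hL : 0 ≤ L)
    {t : α → (∀ e, Ω e) → ℂ} (h : ∀ i ∈ s, Smp B K L (t i)) :
    Smp B (s.card * K) (L ^ s.card) (fun x => ∏ i ∈ s, t i x) := by
  classical
  induction s using Finset.induction_on with
  | empty =>
    simp only [prod_empty, card_empty, pow_zero]
    exact (Smp.const _ 1).mono le_rfl (by simp)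
  | insert a s ha ih =>
    simp only [prod_insert ha, card_insert_of_notMem ha]
    refine ((h a (mem_insert_self a s)).mul (ih fun i hi => h i (mem_insert_of_mem hi))).mono
      (le_of_eq ?_) (le_of_eq ?_)
    · ring
    · ring

theorem Smp.map {ι' : Type} {B' : ι' → Finset E} (φ : ι → ι') (hφ : ∀ i, B i ⊆ B' (φ i)) {K : ℕ}
    {L : ℝ} {t : (∀ e, Ω e) → ℂ} (h : Smp B K L t) : Smp B' K L t := by
  classical
  obtain ⟨q, u, a, b, h1, h2, h3⟩ := h
  refine ⟨q, u, a, fun i => (b i).image φ, fun i => ⟨card_image_le.trans (h1 i).1,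
    sm_dep_mono (h1 i).2.1 fun e he => ?_, (h1 i).2.2⟩, h2, h3⟩
  obtain ⟨j, hj, hej⟩ := mem_biUnion.1 he
  exact mem_biUnion.2 ⟨φ j, mem_image_of_mem φ hj, hφ j hej⟩

end smp

end product

end Pool.Agent.MP_ca1109_lc.Ov
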