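import Pool.Agent.MP_ca1109_lc.Ov.FN
import Pool.Agent.MP_ca1109_lc.Pt.SA
import Pool.Agent.MP_ca1109_lc.Xp.SPb

/-!
# Row TL: exponential tails of sums of functions of blocks
-/

namespace Pool.Agent.MP_ca1109_lc.Ov

open Finset Pool.Agent.H66 Pool.Agent.MP_ca1109_lc.Mpg Pool.Agent.MP_ca1109_lc.Agp
  Pool.Agent.MP_ca1109_lc.Xp Pool.Agent.MP_ca1109_lc.Pt

section TL

variable {X : Type} [Fintype X]

/-- `exp u ≤ 1 + u + u² exp U` for `|u| ≤ U`. -/
theorem TL_exp {u U : ℝ} (h : |u| ≤ U) : Real.exp u ≤ 1 + u + u ^ 2 * Real.exp U := by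
  have hU : 0 ≤ U := (abs_nonneg u).trans h
  have h1 : 1 ≤ Real.exp U := Real.one_le_exp hU
  have h2 := abs_le.1 h
  rcases le_or_gt |u| 1 with h3 | h3
  · have h4 := (abs_le.1 (Real.abs_exp_sub_one_sub_id_le h3)).2
    nlinarith [sq_nonneg u]
  · have h5 : 1 ≤ u ^ 2 := by
      rw [← sq_abs]
      nlinarith
    rcases le_or_gt 0 u with h4 | h4
    · have h6 : Real.exp u ≤ Real.exp U := Real.exp_le_exp.2 h2.2
      nlinarith [Real.exp_pos U]
    · have h6 : Real.exp u ≤ 1 := Real.exp_le_one_iff.2 h4.le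
      have h7 : |u| = -u := abs_of_neg h4
      rw [h7] at h3
      have h8 : u ^ 2 ≤ u ^ 2 * Real.exp U := le_mul_of_one_le_right (sq_nonneg u) h1
      nlinarith

theorem TL_norm {w : ℂ} (h : ‖1 + w‖ = 1) : ‖w‖ ≤ 2 := by
  have h1 : ‖w‖ = ‖(1 + w) - 1‖ := by ring_nf
  rw [h1]
  refine (norm_sub_le _ _).trans ?_
  rw [h, norm_one]
  norm_num

theorem TL_re {w : ℂ} (h : ‖1 + w‖ = 1) : w.re = -(‖w‖ ^ 2) / 2 := by
  have h1 : ‖1 + w‖ ^ 2 = 1 := by rw [h]; norm_num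
  rw [← Complex.normSq_eq_norm_sq, Complex.normSq_apply] at h1
  rw [← Complex.normSq_eq_norm_sq, Complex.normSq_apply]
  simp only [Complex.add_re, Complex.one_re, Complex.add_im, Complex.one_im, zero_add] at h1
  nlinarith

theorem TL_av_re (f : X → ℂ) : (av f).re = avg fun x => (f x).re := by
  unfold av avg
  have h : ((Fintype.card X : ℕ) : ℂ) = (((Fintype.card X : ℕ) : ℝ) : ℂ) := by push_cast; rfl
  rw [h, Complex.div_ofReal_re, Complex.re_sum]

/-- The average of `z` is at most its energy. -/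
theorem TL_mean {z : X → ℂ} (h : ∀ x, ‖1 + z x‖ = 1) (him : (av z).im = 0) :
    ‖av z‖ ≤ avg fun x => ‖z x‖ ^ 2 := by
  have hA : 0 ≤ avg fun x => ‖z x‖ ^ 2 := avg_nonneg fun x => sq_nonneg _
  have h1 : (av z).re = (-(1 / 2)) * avg fun x => ‖z x‖ ^ 2 := by
    rw [TL_av_re, ← avg_mul_left]
    congr 1
    funext x
    rw [TL_re (h x)]
    ring
  have h2 : ‖av z‖ = |(av z).re| := by
    rw [← Complex.re_add_im (av z), him]
    simp
  rw [h2, h1, abs_mul, abs_of_nonneg hA]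
  norm_num
  linarith

/-- The constant for one function. -/
noncomputable def TL_c (s w : ℝ) : ℝ := (s + w) + (s + 2 * w) ^ 2 * Real.exp (2 * s + 4 * w)

theorem TL_c_nonneg {s w : ℝ} (hs : 0 ≤ s) (hw : 0 ≤ w) : 0 ≤ TL_c s w := by
  unfold TL_c
  positivity

theorem TL_one [Nonempty X] {z : X → ℂ} (h : ∀ x, ‖1 + z x‖ = 1) (him : (av z).im = 0) {s w : ℝ}
    (hs : 0 ≤ s) (hw : 0 ≤ w) {κ : ℂ} (hκ : ‖κ‖ = 1) :
    (avg fun x => Real.exp (s * (κ * z x).re + w * ‖z x‖ ^ 2)) ≤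
      Real.exp (TL_c s w * avg fun x => ‖z x‖ ^ 2) := by
  set A := avg fun x => ‖z x‖ ^ 2 with hA
  have hA0 : 0 ≤ A := avg_nonneg fun x => sq_nonneg _
  have h1 : ∀ x, Real.exp (s * (κ * z x).re + w * ‖z x‖ ^ 2) ≤
      1 + (s * (κ * z x).re + w * ‖z x‖ ^ 2) +
        ((s + 2 * w) ^ 2 * Real.exp (2 * s + 4 * w)) * ‖z x‖ ^ 2 := by
    intro x
    have hz := TL_norm (h x)
    have hz0 := norm_nonneg (z x)
    have h2 : |(κ * z x).re| ≤ ‖z x‖ := by
      refine (Complex.abs_re_le_norm _).trans ?_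
      rw [norm_mul, hκ, one_mul]
    have h3 : |s * (κ * z x).re + w * ‖z x‖ ^ 2| ≤ (s + 2 * w) * ‖z x‖ := by
      refine (abs_add_le _ _).trans ?_
      rw [abs_mul, abs_mul, abs_of_nonneg hs, abs_of_nonneg hw, abs_of_nonneg (sq_nonneg ‖z x‖)]
      have h4 := mul_le_mul_of_nonneg_left h2 hs
      have h5 : w * ‖z x‖ ^ 2 ≤ w * (2 * ‖z x‖) := by
        refine mul_le_mul_of_nonneg_left ?_ hw
        nlinarith
      linarith
    have h4 : |s * (κ * z x).re + w * ‖z x‖ ^ 2| ≤ 2 * s + 4 * w := by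
      refine h3.trans ?_
      have : (s + 2 * w) * ‖z x‖ ≤ (s + 2 * w) * 2 := mul_le_mul_of_nonneg_left hz (by positivity)
      linarith
    have h5 := TL_exp h4
    have h6 : (s * (κ * z x).re + w * ‖z x‖ ^ 2) ^ 2 ≤ (s + 2 * w) ^ 2 * ‖z x‖ ^ 2 := by
      rw [← sq_abs, ← mul_pow]
      exact pow_le_pow_left₀ (abs_nonneg _) h3 2
    have h7 := mul_le_mul_of_nonneg_right h6 (Real.exp_pos (2 * s + 4 * w)).le
    linarith
  refine (avg_mono h1).trans ?_
  have h2 : (avg fun x => 1 + (s * (κ * z x).re + w * ‖z x‖ ^ 2) +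
      ((s + 2 * w) ^ 2 * Real.exp (2 * s + 4 * w)) * ‖z x‖ ^ 2) =
      1 + (s * (κ * av z).re + w * A) + ((s + 2 * w) ^ 2 * Real.exp (2 * s + 4 * w)) * A := by
    rw [avg_add, avg_add, avg_add, avg_const, avg_mul_left, avg_mul_left, avg_mul_left, ← hA]
    congr 3
    rw [← spb_av_mul, TL_av_re]
  rw [h2]
  have h3 : (κ * av z).re ≤ A := by
    refine (Complex.re_le_norm _).trans ?_
    rw [norm_mul, hκ, one_mul]
    exact TL_mean h him
  have h4 := mul_le_mul_of_nonneg_left h3 hs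
  have h5 := Real.add_one_le_exp (TL_c s w * A)
  unfold TL_c at h5 ⊢
  linarith

end TL

section TL2

variable {E ι : Type} [Fintype E] [DecidableEq E] [Fintype ι] {Ω : E → Type}
  [∀ e, Fintype (Ω e)] [∀ e, Nonempty (Ω e)] {B : ι → Finset E} {z : ι → (∀ e, Ω e) → ℂ}

omit [∀ e, Nonempty (Ω e)] in
theorem Zf.rmono {r r' : ℕ} {Lam Lam' : ℝ} (h : Zf r Lam B z) (hr : r ≤ r') (hL : Lam ≤ Lam') :
    Zf r' Lam' B z :=
  ⟨h.dep, h.uni, h.im, h.pos, fun e => (h.rd e).trans hr, h.en.trans hL⟩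

/-- One direction. -/
theorem TL_dir {r : ℕ} (hr : 1 ≤ r) {Lam : ℝ} (h : Zf r Lam B z) {s w : ℝ} (hs : 0 ≤ s)
    (hw : 0 ≤ w) {κ : ℂ} (hκ : ‖κ‖ = 1) :
    (avg fun x => Real.exp (s * (κ * ∑ i, z i x).re + w * ∑ i, ‖z i x‖ ^ 2)) ≤
      Real.exp (TL_c (r * s) (r * w) * Lam) := by
  have hc := TL_c_nonneg (s := r * s) (w := r * w) (by positivity) (by positivity)
  have hE : ∀ i, 0 ≤ avg fun x => ‖z i x‖ ^ 2 := fun i => avg_nonneg fun x => sq_nonneg _
  have hL0 : 0 ≤ Lam := (sum_nonneg fun i _ => hE i).trans h.en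
  have h1 : (fun x => Real.exp (s * (κ * ∑ i, z i x).re + w * ∑ i, ‖z i x‖ ^ 2)) =
      fun x => ∏ i, Real.exp (s * (κ * z i x).re + w * ‖z i x‖ ^ 2) := by
    funext x
    rw [← Real.exp_sum, sum_add_distrib, ← mul_sum, ← mul_sum, mul_sum, Complex.re_sum]
  rw [h1]
  have h2 := finner r B h.rd (fun i x => Real.exp (s * (κ * z i x).re + w * ‖z i x‖ ^ 2))
    (fun i x => (Real.exp_pos _).le) (fun i x y hxy => by
      show Real.exp (s * (κ * z i x).re + w * ‖z i x‖ ^ 2) = _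
      rw [h.dep i x y hxy])
  have h3 : ∏ i, (avg fun x => Real.exp (s * (κ * z i x).re + w * ‖z i x‖ ^ 2) ^ r) ≤
      Real.exp (TL_c (r * s) (r * w) * Lam) := by
    calc ∏ i, (avg fun x => Real.exp (s * (κ * z i x).re + w * ‖z i x‖ ^ 2) ^ r)
        ≤ ∏ i, Real.exp (TL_c (r * s) (r * w) * avg fun x => ‖z i x‖ ^ 2) := by
          refine prod_le_prod (fun i _ => avg_nonneg fun _ => by positivity) fun i _ => ?_
          have h4 : (fun x => Real.exp (s * (κ * z i x).re + w * ‖z i x‖ ^ 2) ^ r) =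
              fun x => Real.exp ((r * s) * (κ * z i x).re + (r * w) * ‖z i x‖ ^ 2) := by
            funext x
            rw [← Real.exp_nat_mul]
            congr 1
            ring
          rw [h4]
          exact TL_one (h.uni i) (h.im i) (by positivity) (by positivity) hκ
      _ = Real.exp (TL_c (r * s) (r * w) * ∑ i, avg fun x => ‖z i x‖ ^ 2) := by
          rw [← Real.exp_sum, mul_sum]
      _ ≤ _ := Real.exp_le_exp.2 (mul_le_mul_of_nonneg_left h.en hc)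
  have h4 := h2.trans h3
  have h5 : 0 ≤ avg fun x => ∏ i, Real.exp (s * (κ * z i x).re + w * ‖z i x‖ ^ 2) :=
    avg_nonneg fun x => prod_nonneg fun i _ => (Real.exp_pos _).le
  rcases le_or_gt (avg fun x => ∏ i, Real.exp (s * (κ * z i x).re + w * ‖z i x‖ ^ 2)) 1 with
    h6 | h6
  · exact h6.trans (Real.one_le_exp (mul_nonneg hc hL0))
  · exact (le_self_pow₀ h6.le (by omega)).trans h4

end TL2

/-- The exponential moment. -/
theorem tail (r : ℕ) (a Lam : ℝ) : ∃ C : ℝ, 1 ≤ C ∧ ∀ {E ι : Type} [Fintype E] [DecidableEq E]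
    [Fintype ι] {Ω : E → Type} [∀ e, Fintype (Ω e)] [∀ e, Nonempty (Ω e)] {B : ι → Finset E}
    {z : ι → (∀ e, Ω e) → ℂ}, Zf r Lam B z →
    (avg fun x => Real.exp (a * (‖∑ i, z i x‖ + ∑ i, ‖z i x‖ ^ 2))) ≤ C := by
  set c := |a| with hc
  have hc0 : 0 ≤ c := abs_nonneg a
  refine ⟨4 * Real.exp (TL_c (((r + 1 : ℕ) : ℝ) * (2 * c)) (((r + 1 : ℕ) : ℝ) * c) * max Lam 0),
    ?_, fun {E ι} _ _ _ {Ω} _ _ {B z} h => ?_⟩
  · have : 1 ≤ Real.exp (TL_c (((r + 1 : ℕ) : ℝ) * (2 * c)) (((r + 1 : ℕ) : ℝ) * c) *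
        max Lam 0) :=
      Real.one_le_exp (mul_nonneg (TL_c_nonneg (by positivity) (by positivity))
        (le_max_right _ _))
    linarith
  have hd := fun κ (hκ : ‖κ‖ = 1) =>
    TL_dir (r := r + 1) (by omega) (h.rmono (Nat.le_succ r) (le_max_left Lam 0))
      (s := 2 * c) (w := c) (by positivity) hc0 (κ := κ) hκ
  have h1 := hd 1 (by simp)
  have h2 := hd (-1) (by simp)
  have h3 := hd Complex.I (by simp)
  have h4 := hd (-Complex.I) (by simp)
  have h5 : ∀ x, Real.exp (a * (‖∑ i, z i x‖ + ∑ i, ‖z i x‖ ^ 2)) ≤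
      ((Real.exp ((2 * c) * (1 * ∑ i, z i x).re + c * ∑ i, ‖z i x‖ ^ 2) +
      Real.exp ((2 * c) * (-1 * ∑ i, z i x).re + c * ∑ i, ‖z i x‖ ^ 2)) +
      Real.exp ((2 * c) * (Complex.I * ∑ i, z i x).re + c * ∑ i, ‖z i x‖ ^ 2)) +
      Real.exp ((2 * c) * (-Complex.I * ∑ i, z i x).re + c * ∑ i, ‖z i x‖ ^ 2) := by
    intro x
    have hq0 : 0 ≤ ∑ i, ‖z i x‖ ^ 2 := sum_nonneg fun _ _ => sq_nonneg _
    set p := ∑ i, z i x with hp
    set q := ∑ i, ‖z i x‖ ^ 2 with hq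
    have h6 : ‖p‖ ≤ |p.re| + |p.im| := Complex.norm_le_abs_re_add_abs_im p
    have h0 : a * (‖p‖ + q) ≤ c * (|p.re| + |p.im|) + c * q := by
      have h7 : a * (‖p‖ + q) ≤ c * (‖p‖ + q) :=
        mul_le_mul_of_nonneg_right (le_abs_self a) (add_nonneg (norm_nonneg p) hq0)
      have h8 := mul_le_mul_of_nonneg_left h6 hc0
      linarith
    have e1 := Real.exp_pos ((2 * c) * (1 * p).re + c * q)
    have e2 := Real.exp_pos ((2 * c) * (-1 * p).re + c * q)
    have e3 := Real.exp_pos ((2 * c) * (Complex.I * p).re + c * q)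
    have e4 := Real.exp_pos ((2 * c) * (-Complex.I * p).re + c * q)
    have r1 : (1 * p).re = p.re := by rw [one_mul]
    have r2 : (-1 * p).re = -p.re := by rw [neg_one_mul, Complex.neg_re]
    have r3 : (Complex.I * p).re = -p.im := by simp
    have r4 : (-Complex.I * p).re = p.im := by simp
    rw [r1] at e1 ⊢
    rw [r2] at e2 ⊢
    rw [r3] at e3 ⊢
    rw [r4] at e4 ⊢
    rcases le_total |p.im| |p.re| with h7 | h7
    · have h9 : c * (|p.re| + |p.im|) ≤ (2 * c) * |p.re| := by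
        have := mul_le_mul_of_nonneg_left h7 hc0
        linarith
      rcases abs_cases p.re with h8 | h8
      · have : Real.exp (a * (‖p‖ + q)) ≤ Real.exp ((2 * c) * p.re + c * q) :=
          Real.exp_le_exp.2 (by rw [h8.1] at h9; rw [h8.1] at h0; linarith)
        linarith
      · have : Real.exp (a * (‖p‖ + q)) ≤ Real.exp ((2 * c) * -p.re + c * q) :=
          Real.exp_le_exp.2 (by rw [h8.1] at h9; rw [h8.1] at h0; linarith)
        linarith
    · have h9 : c * (|p.re| + |p.im|) ≤ (2 * c) * |p.im| := by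
        have := mul_le_mul_of_nonneg_left h7 hc0
        linarith
      rcases abs_cases p.im with h8 | h8
      · have : Real.exp (a * (‖p‖ + q)) ≤ Real.exp ((2 * c) * p.im + c * q) :=
          Real.exp_le_exp.2 (by rw [h8.1] at h9; rw [h8.1] at h0; linarith)
        linarith
      · have : Real.exp (a * (‖p‖ + q)) ≤ Real.exp ((2 * c) * -p.im + c * q) :=
          Real.exp_le_exp.2 (by rw [h8.1] at h9; rw [h8.1] at h0; linarith)
        linarith
  refine (avg_mono h5).trans ?_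
  rw [avg_add, avg_add, avg_add]
  linarith

end Pool.Agent.MP_ca1109_lc.Ov
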