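import Pool.Agent.MP_ca1109_lc.Ov.TL
import Pool.Agent.MP_ca1109_lc.Ov.SM

/-!
# Row TR: truncation of a product of functions of blocks
-/

namespace Pool.Agent.MP_ca1109_lc.Ov

open Finset Pool.Agent.H66 Pool.Agent.MP_ca1109_lc.Mpg Pool.Agent.MP_ca1109_lc.Agp
  Pool.Agent.MP_ca1109_lc.Xp Pool.Agent.MP_ca1109_lc.Pt

section TR

variable {E ι : Type} [Fintype E] [DecidableEq E] [Fintype ι] {Ω : E → Type}
  [∀ e, Fintype (Ω e)] [∀ e, Nonempty (Ω e)] {B : ι → Finset E} {z : ι → (∀ e, Ω e) → ℂ}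

omit [∀ e, Nonempty (Ω e)] in
theorem TR_one {r : ℕ} {Lam : ℝ} (h : Zf r Lam B z) (x : ∀ e, Ω e) : ‖∏ i, (1 + z i x)‖ = 1 := by
  rw [norm_prod]
  exact prod_eq_one fun i _ => h.uni i x

end TR

theorem esT_L2 (r : ℕ) (Lam : ℝ) : ∃ C : ℝ, 1 ≤ C ∧ ∀ {E ι : Type} [Fintype E] [DecidableEq E]
    [Fintype ι] [DecidableEq ι] {Ω : E → Type} [∀ e, Fintype (Ω e)] [∀ e, Nonempty (Ω e)]
    {B : ι → Finset E} {z : ι → (∀ e, Ω e) → ℂ}, Zf r Lam B z → ∀ D : ℕ,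
    (avg fun x => ‖∏ i, (1 + z i x) - Pt.esT univ D (fun i => z i x)‖ ^ 2) ≤ C * (1 / 4) ^ D ∧
    (avg fun x => ‖Pt.esT univ D (fun i => z i x)‖ ^ 2) ≤ C := by
  obtain ⟨C, hC1, hC⟩ := tail r 8 Lam
  refine ⟨2 + 2 * C, by linarith, fun {E ι} _ _ _ _ {Ω} _ _ {B z} h D => ?_⟩
  have h0 := hC h
  have h1 : (avg fun x => ‖∏ i, (1 + z i x) - Pt.esT univ D (fun i => z i x)‖ ^ 2) ≤
      (1 / 4) ^ D * C := by
    calc (avg fun x => ‖∏ i, (1 + z i x) - Pt.esT univ D (fun i => z i x)‖ ^ 2)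
        ≤ avg fun x => (1 / 4) ^ D *
          Real.exp (8 * (‖∑ i, z i x‖ + ∑ i, ‖z i x‖ ^ 2)) := by
          refine avg_mono fun x => ?_
          have h2 := Pt.esT_close univ (fun i => z i x) D
          have h3 := pow_le_pow_left₀ (norm_nonneg _) h2 2
          refine h3.trans ?_
          rw [mul_pow, ← pow_mul, mul_comm D 2, pow_mul, ← Real.exp_nat_mul]
          have h4 : ((1 : ℝ) / 2) ^ 2 = 1 / 4 := by norm_num
          rw [h4]
          refine mul_le_mul_of_nonneg_left (Real.exp_le_exp.2 ?_) (by positivity)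
          have h5 : 0 ≤ ∑ i, ‖z i x‖ ^ 2 := sum_nonneg fun _ _ => sq_nonneg _
          push_cast
          linarith [norm_nonneg (∑ i, z i x)]
      _ = (1 / 4) ^ D * avg fun x =>
          Real.exp (8 * (‖∑ i, z i x‖ + ∑ i, ‖z i x‖ ^ 2)) := avg_mul_left _ _
      _ ≤ _ := mul_le_mul_of_nonneg_left h0 (by positivity)
  have h3 : (1 / 4 : ℝ) ^ D * C ≤ C :=
    mul_le_of_le_one_left (by linarith) (pow_le_one₀ (by norm_num) (by norm_num))
  refine ⟨h1.trans ?_, ?_⟩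
  · rw [mul_comm]
    exact mul_le_mul_of_nonneg_right (by linarith) (by positivity)
  · calc (avg fun x => ‖Pt.esT univ D (fun i => z i x)‖ ^ 2)
        ≤ avg fun x => 2 + 2 * ‖∏ i, (1 + z i x) - Pt.esT univ D (fun i => z i x)‖ ^ 2 := by
          refine avg_mono fun x => ?_
          have h2 : ‖Pt.esT univ D (fun i => z i x)‖ ≤
              1 + ‖∏ i, (1 + z i x) - Pt.esT univ D (fun i => z i x)‖ := by
            have h3 : Pt.esT univ D (fun i => z i x) = ∏ i, (1 + z i x) -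
              (∏ i, (1 + z i x) - Pt.esT univ D (fun i => z i x)) := by ring
            calc ‖Pt.esT univ D (fun i => z i x)‖ = ‖∏ i, (1 + z i x) -
                (∏ i, (1 + z i x) - Pt.esT univ D (fun i => z i x))‖ := by rw [← h3]
              _ ≤ _ := (norm_sub_le _ _).trans (by rw [TR_one h x])
          nlinarith [norm_nonneg (Pt.esT univ D (fun i => z i x)),
            norm_nonneg (∏ i, (1 + z i x) - Pt.esT univ D (fun i => z i x)),
            sq_nonneg (1 - ‖∏ i, (1 + z i x) - Pt.esT univ D (fun i => z i x)‖)]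
      _ = 2 + 2 * avg fun x => ‖∏ i, (1 + z i x) - Pt.esT univ D (fun i => z i x)‖ ^ 2 := by
          rw [avg_add, avg_const, avg_mul_left]
      _ ≤ _ := by linarith

section TR2

variable {E ι : Type} [Fintype E] [DecidableEq E] [Fintype ι] {Ω : E → Type}
  [∀ e, Fintype (Ω e)] [∀ e, Nonempty (Ω e)] {B : ι → Finset E} {z : ι → (∀ e, Ω e) → ℂ}

omit [∀ e, Nonempty (Ω e)] in
/-- The second moments of the sums. -/
theorem TR_sq {C : ℝ}
    (hC : (avg fun x => Real.exp (8 * (‖∑ i, z i x‖ + ∑ i, ‖z i x‖ ^ 2))) ≤ C) :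
    (avg fun x => ‖∑ i, z i x‖ ^ 2) ≤ C ∧ (avg fun x => ∑ i, ‖z i x‖ ^ 2) ≤ C := by
  constructor
  · refine le_trans (avg_mono fun x => ?_) hC
    have h5 : 0 ≤ ∑ i, ‖z i x‖ ^ 2 := sum_nonneg fun _ _ => sq_nonneg _
    set u := ‖∑ i, z i x‖ with hu
    have hu0 : 0 ≤ u := norm_nonneg _
    have h6 : u ^ 2 ≤ Real.exp (2 * u) := by
      have h7 := Real.add_one_le_exp u
      have h8 : Real.exp (2 * u) = Real.exp u ^ 2 := by
        rw [← Real.exp_nat_mul]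
        norm_num
      rw [h8]
      exact pow_le_pow_left₀ hu0 (by linarith) 2
    exact h6.trans (Real.exp_le_exp.2 (by linarith))
  · refine le_trans (avg_mono fun x => ?_) hC
    have h5 : 0 ≤ ∑ i, ‖z i x‖ ^ 2 := sum_nonneg fun _ _ => sq_nonneg _
    have h6 := Real.add_one_le_exp (8 * (‖∑ i, z i x‖ + ∑ i, ‖z i x‖ ^ 2))
    linarith [norm_nonneg (∑ i, z i x)]

/-- The bound for the error of the truncation. -/
noncomputable def TR_R (D : ℕ) (a h : ℝ) (z : ι → ℂ) : ℝ :=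
  (1 / 2) ^ D * Real.exp (4 * a) +
    ((1 + 1 / (2 * h)) * (‖∑ i, z i‖ ^ 2 / a ^ 2 + (∑ i, ‖z i‖ ^ 2) / a) +
      h / 2 * ‖Pt.esT univ D z‖ ^ 2)

theorem TR_ge {D : ℕ} {a h : ℝ} (ha : 0 < a) (hh : 0 < h) [DecidableEq ι]
    (z : ι → ℂ) (hz : ∀ i, ‖1 + z i‖ = 1) :
    ‖∏ i, (1 + z i) - Pt.esT univ D z‖ ≤ TR_R D a h z := by
  set P := ‖∑ i, z i‖ with hP
  set Q := ∑ i, ‖z i‖ ^ 2 with hQ
  have hP0 : 0 ≤ P := norm_nonneg _
  have hQ0 : 0 ≤ Q := sum_nonneg fun _ _ => sq_nonneg _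
  have hB : 0 ≤ P ^ 2 / a ^ 2 + Q / a := by positivity
  have hE : 0 ≤ h / 2 * ‖Pt.esT univ D z‖ ^ 2 := by positivity
  have hc : 0 ≤ 1 + 1 / (2 * h) := by positivity
  unfold TR_R
  rw [← hP, ← hQ]
  by_cases hg : P ≤ a ∧ Q ≤ a
  · have h1 := Pt.esT_close univ z D
    rw [← hP, ← hQ] at h1
    have h2 : Real.exp (2 * P + 2 * Q) ≤ Real.exp (4 * a) :=
      Real.exp_le_exp.2 (by linarith [hg.1, hg.2])
    have h3 : (1 / 2 : ℝ) ^ D * Real.exp (2 * P + 2 * Q) ≤ (1 / 2) ^ D * Real.exp (4 * a) :=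
      mul_le_mul_of_nonneg_left h2 (by positivity)
    have h4 := mul_nonneg hc hB
    linarith
  · have h1 : 1 ≤ P ^ 2 / a ^ 2 + Q / a := by
      by_cases h2 : P ≤ a
      · have h3 : a < Q := by
          by_contra h4
          exact hg ⟨h2, not_lt.1 h4⟩
        have h4 : 1 ≤ Q / a := by
          rw [le_div_iff₀ ha]
          linarith
        have h5 : 0 ≤ P ^ 2 / a ^ 2 := by positivity
        linarith
      · push Not at h2
        have h4 : 1 ≤ P ^ 2 / a ^ 2 := by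
          rw [le_div_iff₀ (by positivity), one_mul]
          exact pow_le_pow_left₀ ha.le h2.le 2
        have h5 : 0 ≤ Q / a := by positivity
        linarith
    have h2 : ‖∏ i, (1 + z i) - Pt.esT univ D z‖ ≤ 1 + ‖Pt.esT univ D z‖ := by
      refine (norm_sub_le _ _).trans ?_
      rw [norm_prod, prod_eq_one fun i _ => hz i]
    have h3 : ‖Pt.esT univ D z‖ ≤ 1 / (2 * h) + h / 2 * ‖Pt.esT univ D z‖ ^ 2 := by
      have h4 : 0 ≤ (1 - h * ‖Pt.esT univ D z‖) ^ 2 / (2 * h) := by positivity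
      have h5 : (1 - h * ‖Pt.esT univ D z‖) ^ 2 / (2 * h) =
          1 / (2 * h) + h / 2 * ‖Pt.esT univ D z‖ ^ 2 - ‖Pt.esT univ D z‖ := by
        field_simp
        ring
      linarith
    have h4 : 1 + 1 / (2 * h) ≤ (1 + 1 / (2 * h)) * (P ^ 2 / a ^ 2 + Q / a) :=
      le_mul_of_one_le_right hc h1
    have h5 : 0 ≤ (1 / 2 : ℝ) ^ D * Real.exp (4 * a) := by positivity
    linarith

/-- The number of small subsets. -/
theorem TR_card (D : ℕ) : (((univ : Finset ι).powerset.filter (fun K => K.card ≤ D)).card : ℝ) ≤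
    ((Fintype.card ι : ℝ) + 1) ^ D := by
  classical
  have h1 : (univ : Finset ι).powerset.filter (fun K => K.card ≤ D) ⊆
      (range (D + 1)).biUnion fun k => (univ : Finset ι).powersetCard k := by
    intro K hK
    rw [mem_filter] at hK
    rw [mem_biUnion]
    exact ⟨K.card, mem_range.2 (by omega), mem_powersetCard.2 ⟨subset_univ _, rfl⟩⟩
  have h2 : ((univ : Finset ι).powerset.filter (fun K => K.card ≤ D)).card ≤
      (Fintype.card ι + 1) ^ D := by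
    refine (card_le_card h1).trans (card_biUnion_le.trans ?_)
    rw [add_pow]
    refine sum_le_sum fun k hk => ?_
    rw [card_powersetCard, one_pow, mul_one, card_univ]
    have h3 : k ≤ D := by have := mem_range.1 hk; omega
    exact (Nat.choose_le_pow _ _).trans (Nat.le_mul_of_pos_right _ (Nat.choose_pos h3))
  exact_mod_cast h2

omit [Fintype ι] in
theorem TR_smul {K : ℕ} {L : ℝ} {t : (∀ e, Ω e) → ℂ} (c : ℂ) (h : Smp B K L t) :
    Smp B K (‖c‖ * L) (fun x => c * t x) := by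
  have h1 := (Smp.const (B := B) (Ω := Ω) 0 c).mul h
  rwa [zero_add] at h1

theorem TR_esT [DecidableEq ι] {r : ℕ} {Lam : ℝ} (h : Zf r Lam B z) (D : ℕ) :
    Smp B D (2 ^ D * ((Fintype.card ι : ℝ) + 1) ^ D) (fun x => Pt.esT univ D fun i => z i x) := by
  have h1 : Smp B D (∑ K ∈ (univ : Finset ι).powerset.filter (fun K => K.card ≤ D), (2 : ℝ) ^ D)
      (fun x => ∑ K ∈ (univ : Finset ι).powerset.filter (fun K => K.card ≤ D),
        ∏ j ∈ K, z j x) := by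
    refine Smp.sum _ fun K hK => ?_
    have hK := (mem_filter.1 hK).2
    refine Smp.of_dep (b := K) hK (fun x y hxy => ?_) fun x => ?_
    · show ∏ j ∈ K, z j x = ∏ j ∈ K, z j y
      refine prod_congr rfl fun j hj => ?_
      exact h.dep j x y fun e he => hxy e (mem_biUnion.2 ⟨j, hj, he⟩)
    · rw [norm_prod]
      calc ∏ j ∈ K, ‖z j x‖ ≤ ∏ j ∈ K, (2 : ℝ) :=
            prod_le_prod (fun _ _ => norm_nonneg _) fun j _ => TL_norm (h.uni j x)
        _ = 2 ^ K.card := by rw [prod_const]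
        _ ≤ _ := pow_le_pow_right₀ (by norm_num) hK
  refine h1.mono le_rfl ?_
  rw [sum_const, nsmul_eq_mul, mul_comm]
  exact mul_le_mul_of_nonneg_left (TR_card D) (by positivity)

theorem TR_sum {r : ℕ} {Lam : ℝ} (h : Zf r Lam B z) :
    Smp B 1 (2 * (Fintype.card ι : ℝ)) (fun x => ∑ i, z i x) := by
  have h1 : Smp B 1 (∑ _i : ι, (2 : ℝ)) (fun x => ∑ i, z i x) := by
    refine Smp.sum _ fun i _ => Smp.of_dep (b := {i}) (by simp) (fun x y hxy => ?_)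
      fun x => TL_norm (h.uni i x)
    exact h.dep i x y fun e he => hxy e (mem_biUnion.2 ⟨i, mem_singleton_self i, he⟩)
  refine h1.mono le_rfl (le_of_eq ?_)
  rw [sum_const, card_univ, nsmul_eq_mul, mul_comm]

theorem TR_sumsq {r : ℕ} {Lam : ℝ} (h : Zf r Lam B z) :
    Smp B 1 (4 * (Fintype.card ι : ℝ)) (fun x => ((∑ i, ‖z i x‖ ^ 2 : ℝ) : ℂ)) := by
  have h1 : Smp B 1 (∑ _i : ι, (4 : ℝ)) (fun x => ∑ i, ((‖z i x‖ ^ 2 : ℝ) : ℂ)) := by
    refine Smp.sum _ fun i _ => Smp.of_dep (b := {i}) (by simp) (fun x y hxy => ?_) fun x => ?_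
    · show ((‖z i x‖ ^ 2 : ℝ) : ℂ) = ((‖z i y‖ ^ 2 : ℝ) : ℂ)
      rw [h.dep i x y fun e he => hxy e (mem_biUnion.2 ⟨i, mem_singleton_self i, he⟩)]
    · rw [Complex.norm_real, Real.norm_of_nonneg (sq_nonneg _)]
      have := TL_norm (h.uni i x)
      nlinarith [norm_nonneg (z i x)]
  have h2 : (fun x => ∑ i, ((‖z i x‖ ^ 2 : ℝ) : ℂ)) =
      fun x => ((∑ i, ‖z i x‖ ^ 2 : ℝ) : ℂ) := by
    funext x
    push_cast
    rfl
  rw [h2] at h1
  refine h1.mono le_rfl (le_of_eq ?_)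
  rw [sum_const, card_univ, nsmul_eq_mul, mul_comm]

omit [Fintype ι] in
/-- The square of the norm of a simple function. -/
theorem TR_normsq {K : ℕ} {L : ℝ} {t : (∀ e, Ω e) → ℂ} (h : Smp B K L t) :
    Smp B (K + K) (L * L) (fun x => ((‖t x‖ ^ 2 : ℝ) : ℂ)) := by
  have h1 := h.mul h.conj
  have h2 : (fun x => t x * (starRingEnd ℂ) (t x)) = fun x => ((‖t x‖ ^ 2 : ℝ) : ℂ) := by
    funext x
    rw [Complex.mul_conj, Complex.normSq_eq_norm_sq]
  rwa [h2] at h1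

/-- The coefficient. -/
noncomputable def TR_M (D : ℕ) (a h : ℝ) : ℝ :=
  ‖(((1 / 2) ^ D * Real.exp (4 * a) : ℝ) : ℂ)‖ +
    ‖((1 + 1 / (2 * h) : ℝ) : ℂ)‖ * (‖((1 / a ^ 2 : ℝ) : ℂ)‖ * 4 + ‖((1 / a : ℝ) : ℂ)‖ * 4) +
      ‖((h / 2 : ℝ) : ℂ)‖ * (2 ^ D * 2 ^ D)

theorem TR_smpR [DecidableEq ι] {r : ℕ} {Lam : ℝ} (hz : Zf r Lam B z) (D : ℕ) (a h : ℝ) :
    Smp B (2 * D + 2) (TR_M D a h * ((Fintype.card ι : ℝ) + 1) ^ (2 * D + 2))
      (fun x => ((TR_R D a h (fun i => z i x) : ℝ) : ℂ)) := by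
  set N : ℝ := (Fintype.card ι : ℝ) with hN
  have hN0 : 0 ≤ N := Nat.cast_nonneg _
  have hN1 : 1 ≤ N + 1 := by linarith
  have hp : ∀ k : ℕ, k ≤ 2 * D + 2 → (N + 1) ^ k ≤ (N + 1) ^ (2 * D + 2) := fun k hk =>
    pow_le_pow_right₀ hN1 hk
  have hp0 : (1 : ℝ) ≤ (N + 1) ^ (2 * D + 2) := one_le_pow₀ hN1
  have s0 : Smp B (2 * D + 2) (‖(((1 / 2) ^ D * Real.exp (4 * a) : ℝ) : ℂ)‖ *
      (N + 1) ^ (2 * D + 2))
      (fun _ : ∀ e, Ω e => (((1 / 2) ^ D * Real.exp (4 * a) : ℝ) : ℂ)) :=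
    (Smp.const _ _).mono le_rfl (le_mul_of_one_le_right (norm_nonneg _) hp0)
  have s1 : Smp B (2 * D + 2) (4 * (N + 1) ^ (2 * D + 2))
      (fun x => ((‖∑ i, z i x‖ ^ 2 : ℝ) : ℂ)) := by
    refine (TR_normsq (TR_sum hz)).mono (by omega) ?_
    have h2 := hp 2 (by omega)
    rw [← hN]
    nlinarith
  have s2 : Smp B (2 * D + 2) (4 * (N + 1) ^ (2 * D + 2))
      (fun x => ((∑ i, ‖z i x‖ ^ 2 : ℝ) : ℂ)) := by
    refine (TR_sumsq hz).mono (by omega) ?_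
    have h2 := hp 1 (by omega)
    rw [pow_one] at h2
    rw [← hN]
    linarith
  have s3 : Smp B (2 * D + 2) ((2 ^ D * 2 ^ D) * (N + 1) ^ (2 * D + 2))
      (fun x => ((‖Pt.esT univ D (fun i => z i x)‖ ^ 2 : ℝ) : ℂ)) := by
    refine (TR_normsq (TR_esT hz D)).mono (by omega) ?_
    have h2 := hp (D + D) (by omega)
    rw [← hN]
    calc 2 ^ D * (N + 1) ^ D * (2 ^ D * (N + 1) ^ D) = (2 ^ D * 2 ^ D) * (N + 1) ^ (D + D) := by
          rw [pow_add]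
          ring
      _ ≤ _ := mul_le_mul_of_nonneg_left h2 (by positivity)
  have s := (s0.add (TR_smul ((1 + 1 / (2 * h) : ℝ) : ℂ)
    ((TR_smul ((1 / a ^ 2 : ℝ) : ℂ) s1).add (TR_smul ((1 / a : ℝ) : ℂ) s2)))).add
      (TR_smul ((h / 2 : ℝ) : ℂ) s3)
  have h1 : (fun x => ((((1 / 2) ^ D * Real.exp (4 * a) : ℝ) : ℂ)) +
      ((1 + 1 / (2 * h) : ℝ) : ℂ) * (((1 / a ^ 2 : ℝ) : ℂ) * ((‖∑ i, z i x‖ ^ 2 : ℝ) : ℂ) +
        ((1 / a : ℝ) : ℂ) * ((∑ i, ‖z i x‖ ^ 2 : ℝ) : ℂ)) +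
      ((h / 2 : ℝ) : ℂ) * ((‖Pt.esT univ D (fun i => z i x)‖ ^ 2 : ℝ) : ℂ)) =
      fun x => ((TR_R D a h (fun i => z i x) : ℝ) : ℂ) := by
    funext x
    rw [← Complex.ofReal_mul, ← Complex.ofReal_mul, ← Complex.ofReal_add, ← Complex.ofReal_mul,
      ← Complex.ofReal_add, ← Complex.ofReal_mul, ← Complex.ofReal_add]
    congr 1
    unfold TR_R
    ring
  rw [h1] at s
  refine s.mono le_rfl (le_of_eq ?_)
  unfold TR_M
  ring

end TR2

theorem trunc (r : ℕ) (Lam : ℝ) {e : ℝ} (he : 0 < e) : ∃ K : ℕ, ∀ {E ι : Type} [Fintype E]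
    [DecidableEq E] [Fintype ι] [DecidableEq ι] {Ω : E → Type} [∀ e, Fintype (Ω e)]
    [∀ e, Nonempty (Ω e)] {B : ι → Finset E} {z : ι → (∀ e, Ω e) → ℂ}, Zf r Lam B z →
    ∃ (t : (∀ e, Ω e) → ℂ) (R : (∀ e, Ω e) → ℝ),
      (∀ x, ‖∏ i, (1 + z i x) - t x‖ ≤ R x) ∧ avg R ≤ e ∧
      Smp B K (K * ((Fintype.card ι : ℝ) + 1) ^ K) t ∧
      Smp B K (K * ((Fintype.card ι : ℝ) + 1) ^ K) (fun x => ((R x : ℝ) : ℂ)) := by
  obtain ⟨C₁, hC1, hC⟩ := tail r 8 Lam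
  obtain ⟨C₂, hC2, hE⟩ := esT_L2 r Lam
  set C := max C₁ C₂ with hCC
  have hC1' : C₁ ≤ C := le_max_left _ _
  have hC2' : C₂ ≤ C := le_max_right _ _
  have hC0 : 1 ≤ C := hC1.trans hC1'
  set h : ℝ := e / (2 * C) with hh
  have hh0 : 0 < h := by rw [hh]; positivity
  set a : ℝ := 1 + 4 * ((1 + 1 / (2 * h)) * (2 * C)) / e with ha
  have hc0 : 0 < 1 + 1 / (2 * h) := by positivity
  have ha1 : 1 ≤ a := by
    have : 0 ≤ 4 * ((1 + 1 / (2 * h)) * (2 * C)) / e := by positivity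
    rw [ha]
    linarith
  have ha0 : 0 < a := by linarith
  obtain ⟨D, hD⟩ := exists_pow_lt_of_lt_one (show 0 < e / 4 / Real.exp (4 * a) by positivity)
    (show (1 / 2 : ℝ) < 1 by norm_num)
  refine ⟨(2 * D + 2) + ⌈TR_M D a h⌉₊ + 2 ^ D, fun {E ι} _ _ _ _ {Ω} _ _ {B z} hz => ?_⟩
  set K : ℕ := (2 * D + 2) + ⌈TR_M D a h⌉₊ + 2 ^ D with hK
  obtain ⟨h3, h4⟩ := TR_sq (hC hz)
  have hDK : 2 * D + 2 ≤ K := (Nat.le_add_right _ _).trans (Nat.le_add_right _ _)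
  have h2 := (hE hz D).2
  have hN1 : (1 : ℝ) ≤ (Fintype.card ι : ℝ) + 1 := by
    have : (0 : ℝ) ≤ (Fintype.card ι : ℝ) := Nat.cast_nonneg _
    linarith
  refine ⟨fun x => Pt.esT univ D fun i => z i x, fun x => TR_R D a h fun i => z i x,
    fun x => TR_ge ha0 hh0 _ fun i => hz.uni i x, ?_, ?_, ?_⟩
  · have h5 : (avg fun x => TR_R D a h fun i => z i x) = (1 / 2) ^ D * Real.exp (4 * a) +
        ((1 + 1 / (2 * h)) * ((1 / a ^ 2) * (avg fun x => ‖∑ i, z i x‖ ^ 2) +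
          (1 / a) * avg fun x => ∑ i, ‖z i x‖ ^ 2) +
        h / 2 * avg fun x => ‖Pt.esT univ D fun i => z i x‖ ^ 2) := by
      have h6 : (fun x => TR_R D a h fun i => z i x) = fun x => (1 / 2) ^ D * Real.exp (4 * a) +
        ((1 + 1 / (2 * h)) * ((1 / a ^ 2) * ‖∑ i, z i x‖ ^ 2 +
          (1 / a) * ∑ i, ‖z i x‖ ^ 2) + h / 2 * ‖Pt.esT univ D fun i => z i x‖ ^ 2) := by
        funext x
        unfold TR_R
        congr 3
        ring
      rw [h6, avg_add, avg_const, avg_add, avg_mul_left, avg_add, avg_mul_left, avg_mul_left,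
        avg_mul_left]
    rw [h5]
    have h6 : (1 / 2 : ℝ) ^ D * Real.exp (4 * a) ≤ e / 4 := by
      rw [lt_div_iff₀ (Real.exp_pos _)] at hD
      exact hD.le
    have h7 : (1 / a ^ 2) * (avg fun x => ‖∑ i, z i x‖ ^ 2) +
        (1 / a) * (avg fun x => ∑ i, ‖z i x‖ ^ 2) ≤ (2 * C) / a := by
      have h8 : 1 / a ^ 2 ≤ 1 / a := by
        apply one_div_le_one_div_of_le ha0
        nlinarith
      have h9 : 0 ≤ 1 / a := by positivity
      have h10 : (1 / a ^ 2) * (avg fun x => ‖∑ i, z i x‖ ^ 2) ≤ (1 / a) * C :=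
        mul_le_mul h8 (h3.trans hC1') (avg_nonneg fun _ => sq_nonneg _) h9
      have h11 := mul_le_mul_of_nonneg_left (h4.trans hC1') h9
      have h12 : (2 * C) / a = (1 / a) * C + (1 / a) * C := by ring
      linarith
    have h8 : (1 + 1 / (2 * h)) * ((2 * C) / a) ≤ e / 4 := by
      rw [← mul_div_assoc, div_le_iff₀ ha0, ha]
      have h9 : e / 4 * (1 + 4 * ((1 + 1 / (2 * h)) * (2 * C)) / e) =
          e / 4 + (1 + 1 / (2 * h)) * (2 * C) := by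
        field_simp
      rw [h9]
      linarith
    have h9 := mul_le_mul_of_nonneg_left h7 hc0.le
    have h10 : h / 2 * (avg fun x => ‖Pt.esT univ D fun i => z i x‖ ^ 2) ≤ e / 4 := by
      have h11 := mul_le_mul_of_nonneg_left (h2.trans hC2') (show 0 ≤ h / 2 by positivity)
      refine h11.trans (le_of_eq ?_)
      rw [hh]
      field_simp
      norm_num
    linarith
  · refine (TR_esT hz D).mono (show D ≤ K by omega) ?_
    have h5 : ((2 : ℝ) ^ D) ≤ (K : ℝ) := by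
      rw [hK]
      push_cast
      have h6 : (0 : ℝ) ≤ (⌈TR_M D a h⌉₊ : ℝ) := Nat.cast_nonneg _
      have h7 : (0 : ℝ) ≤ (D : ℝ) := Nat.cast_nonneg _
      linarith
    exact mul_le_mul h5 (pow_le_pow_right₀ hN1 (show D ≤ K by omega)) (by positivity) (Nat.cast_nonneg _)
  · refine (TR_smpR hz D a h).mono hDK ?_
    have h5 : TR_M D a h ≤ (K : ℝ) := by
      rw [hK]
      push_cast
      have h6 := Nat.le_ceil (TR_M D a h)
      have h7 : (0 : ℝ) ≤ (D : ℝ) := Nat.cast_nonneg _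
      have h8 : (0 : ℝ) < (2 : ℝ) ^ D := by positivity
      linarith
    exact mul_le_mul h5 (pow_le_pow_right₀ hN1 hDK) (by positivity) (Nat.cast_nonneg _)

end Pool.Agent.MP_ca1109_lc.Ov
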